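import Pool.Agent.Lib.MP_627a61_nt.Hy.Defs

/-!
# HYP, genericity and commutative algebra: statements
-/

open MvPolynomial Filter

namespace Pool.Agent.Lib.MP_627a61_nt.Hy

universe u v w

/-- RAD.  Proof.  If no power of `Q` is in `span S` there is a prime ideal containing `S` but not
`Q` (`Ideal.radical_eq_sInf`); the fraction field of the quotient is a field extension of `k` in
the universe of `k` with a point of the cone at which `Q ≠ 0`. -/
def S_RAD : Prop := ∀ {ι : Type} [Fintype ι] {k : Type u} [Field k]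
  (S : Set (MvPolynomial ι k)) (Q : MvPolynomial ι k),
  (∀ (Ω : Type u) [Field Ω] (τ : k →+* Ω) (x : ι → Ω), InCone τ S x → Q.eval₂ τ x = 0) →
  ∃ N : ℕ, Q ^ N ∈ Ideal.span S

/-- FIN.  Forms `F_j` of degree `e ≥ 1` without common zero on the cone make `k[X]/(S)` a finite
`k[y]`-module; in elements: every `X_α` satisfies a monic equation over `k[F]` modulo `(S)`.
Proof.  By RAD applied to `S ∪ {F_j}` some power of every `X_α` is in `span (S ∪ {F_j})`, so all
monomials of some degree `N ≥ 1` are in this homogeneous ideal.  Taking homogeneous components,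
every form `G` of degree `n ≥ N` is `∑ F_j h_j` modulo `span S` with forms `h_j` of degree
`n - e` (`h_j = 0` if `n < e`).  By strong induction on `n` every form of degree `n` is modulo
`span S` a `k[F]`-linear combination of monomials of degree `< N`.  So the image of
`MvPolynomial κ k → k[X]/(S)` makes `k[X]/(S)` a finite module, hence integral
(`Module.Finite` gives `Algebra.IsIntegral`), and `IsIntegral` of the class of `X_α` gives `p`. -/
def S_FIN : Prop := ∀ {ι κ : Type} [Fintype ι] [Fintype κ] {k : Type u} [Field k]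
  (S : Set (MvPolynomial ι k)), (∀ P ∈ S, ∃ n, P.IsHomogeneous n) →
  ∀ (e : ℕ), 1 ≤ e → ∀ (F : κ → MvPolynomial ι k), (∀ j, (F j).IsHomogeneous e) →
  (∀ (Ω : Type u) [Field Ω] (τ : k →+* Ω) (x : ι → Ω), InCone τ S x →
    (∀ j, (F j).eval₂ τ x = 0) → x = 0) →
  ∀ α, ∃ p : Polynomial (MvPolynomial κ k), p.Monic ∧ 1 ≤ p.natDegree ∧
    p.eval₂ (aeval (R := k) F).toRingHom (X α) ∈ Ideal.span S

/-- INT.  Homogeneous integral equations.
Proof.  FIN with `κ = Fin (m+1)`, `e = 1`, `F_i = ∑ l_i,j X_j` gives `p` monic of degree `d ≥ 1`.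
Replace the coefficient of `Y^j`, `j < d`, by its homogeneous component of degree `d - j`
(as a polynomial in `T_0..T_m`): the new value at `X_α` is the homogeneous component of degree `d`
of the old value, which lies in the homogeneous ideal `span S` (ideals spanned by homogeneous
polynomials contain the homogeneous components of their elements; Mathlib:
`Ideal.homogeneous_span`, `MvPolynomial.homogeneousSubmodule` graded algebra).  Evaluate at a
point of the cone. -/
def S_INT : Prop := ∀ {ι : Type} [Fintype ι] {k : Type u} [Field k] {m : ℕ}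
  (S : Set (MvPolynomial ι k)), (∀ P ∈ S, ∃ n, P.IsHomogeneous n) →
  ∀ l : Fin (m + 1) → ι → k, NoZero S l →
  ∃ (d : ι → ℕ) (P : ι → Polynomial (MvPolynomial (Fin (m + 1)) k)), ∀ α, PShape (P α) (d α) ∧
    ∀ (L : Type v) [Field L] (τ : k →+* L) (x : ι → L), InCone τ S x →
      pval τ (P α) (fun i => dot (τ ∘ l i) x) (x α) = 0

/-- the homogeneous polynomials vanishing on the image of the cone under `F` -/
def ImgEqs {ι κ : Type} [Fintype ι] {k : Type u} [Field k]
    (S : Set (MvPolynomial ι k)) (F : κ → MvPolynomial ι k) : Set (MvPolynomial κ k) :=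
  {Q | (∃ n, Q.IsHomogeneous n) ∧ ∀ (Ω : Type u) [Field Ω] (τ : k →+* Ω) (x : ι → Ω),
    InCone τ S x → Q.eval₂ τ (fun j => (F j).eval₂ τ x) = 0}

/-- IMG.  The image of the cone is closed, with equations over `k`.
Proof.  `A = k[X]/(S)`, `J` = kernel of `k[y] → A`, `y_j ↦ F_j`; `k[y]/J → A` is injective and
integral by FIN.  If `Q ∈ J` then every homogeneous component `Q_n` is in `J` (`F_j` forms of the
same degree `e ≥ 1`, `span S` homogeneous), so `Q_n ∈ ImgEqs` and `Q(y) = 0`.  So `y` is a ring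
homomorphism `k[y]/J → L` over `k`, with kernel a prime `𝔭`; lying over gives a prime `𝔮` of `A`
over `𝔭` (`Ideal.exists_ideal_over_prime_of_isIntegral`), `A/𝔮` is a domain integral over
`(k[y]/J)/𝔭 ⊂ L`, and `IsAlgClosed.lift` extends the embedding to `A/𝔮 → L`; the images of the
`X_α` are the point `x`. -/
def S_IMG : Prop := ∀ {ι κ : Type} [Fintype ι] [Fintype κ] {k : Type u} [Field k]
  (S : Set (MvPolynomial ι k)), (∀ P ∈ S, ∃ n, P.IsHomogeneous n) →
  ∀ (e : ℕ), 1 ≤ e → ∀ (F : κ → MvPolynomial ι k), (∀ j, (F j).IsHomogeneous e) →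
  (∀ (Ω : Type u) [Field Ω] (τ : k →+* Ω) (x : ι → Ω), InCone τ S x →
    (∀ j, (F j).eval₂ τ x = 0) → x = 0) →
  ∀ (L : Type v) [Field L] [IsAlgClosed L] (τ : k →+* L) (y : κ → L), InCone τ (ImgEqs S F) y →
    ∃ x : ι → L, InCone τ S x ∧ ∀ j, y j = (F j).eval₂ τ x

/-- POW.  Powers of distinct linear forms.  Proof: coefficients of `X^(e-i)`, `i < A.card ≤ e`
(so `e - i ≥ 1` and the constant does not enter): `∑ c_a choose(e,i) r_a^i = 0`, divide by the
binomial coefficient, Vandermonde (`Matrix.eq_zero_of_forall_index_sum_mul_pow_eq_zero` or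
similar). -/
def S_POW : Prop := ∀ {Ω : Type u} [Field Ω] [CharZero Ω] {α : Type} (A : Finset α) (e : ℕ),
  A.card ≤ e → ∀ (c r : α → Ω), Set.InjOn r A → ∀ c₀ : Ω,
  (∑ a ∈ A, Polynomial.C (c a) * (Polynomial.X + Polynomial.C (r a)) ^ e + Polynomial.C c₀ = 0) →
  ∀ a ∈ A, c a = 0

/-- ULTRA (helper37) -/
def genFilter (k : Type u) [Field k] (T : Type) : Filter (T → k) :=
  ⨅ g : {g : MvPolynomial T k // g ≠ 0}, 𝓟 {t | eval t g.1 ≠ 0}

/-- GOOD (helper37): the main genericity statement. -/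
def S_GOOD : Prop := ∀ {ι : Type} [Fintype ι] {k : Type u} [Field k] [CharZero k] {m : ℕ}
  (S : Set (MvPolynomial ι k)), (∀ P ∈ S, ∃ n, P.IsHomogeneous n) →
  ∀ l : Fin (m + 1) → ι → k, NoZero S l → ∀ M e : ℕ, 2 * m + 1 < M → m + 2 ≤ e →
  ∃ (lam : Fin M → ι → k) (b : Fin M → k), ∀ (L : Type v) [Field L] (τ : k →+* L),
    Good e (InCone τ S) (fun i => τ ∘ l i) (fun j => τ ∘ lam j) (τ ∘ b)

/-- DIM (helper37): the forms can be chosen over `k`. -/
def S_DIM : Prop := ∀ {ι : Type} [Fintype ι] {k : Type u} [Field k] [CharZero k] {m : ℕ}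
  (S : Set (MvPolynomial ι k)), (∀ P ∈ S, ∃ n, P.IsHomogeneous n) → DimLE S m →
  ∃ l : Fin (m + 1) → ι → k, NoZero S l

/-- PROP (helper37): the image of a variety of dimension `≤ m` in `P^(m+1)` is not everything. -/
def S_PROP : Prop := ∀ {ι κ : Type} [Fintype ι] [Fintype κ] {k : Type u} [Field k] {m : ℕ}
  (S : Set (MvPolynomial ι k)), (∀ P ∈ S, ∃ n, P.IsHomogeneous n) →
  ∀ l : Fin (m + 1) → ι → k, NoZero S l → ∀ e : ℕ, ∀ F : κ → MvPolynomial ι k,
  (∀ j, (F j).IsHomogeneous e) → m + 1 < Fintype.card κ → ∃ Q ∈ ImgEqs S F, Q ≠ 0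

end Pool.Agent.Lib.MP_627a61_nt.Hy
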