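import Pool.Agent.Lib.MP_627a61_nt.Hy.MStm
import Pool.Agent.Lib.MP_627a61_nt.Hy.GStm

/-!
# Project DIM/HYP: top statements
-/

open scoped LinearAlgebra.Projectivization Topology
open Filter Metric

namespace Pool.Agent.Lib.MP_627a61_nt.Hy

/-- `dim Z ≤ m` for the projective variety `Z` with equations `S`: the homogeneous coordinate ring
`k[X] / (S)` has Krull dimension at most `m + 1`. -/
def PDimLE {ι k : Type} [Field k] (S : Set (MvPolynomial ι k)) (m : ℕ) : Prop :=
  ringKrullDim (MvPolynomial ι k ⧸ Ideal.span S) ≤ ((m + 1 : ℕ) : WithBot ℕ∞)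

/-- **KD1.** Over an infinite field a variety of dimension at most `m` misses a linear subspace of
codimension `m + 1`. Proof: induction on `m` (for the Krull dimension `≤ m + 1`, starting with
Krull dimension `≤ 0`, no forms): the finitely many minimal primes of `span S` different from (not
containing) the irrelevant ideal do not contain some linear form `l₀` over `k` (a vector space over
an infinite field is not a finite union of proper subspaces); the minimal primes of `span (S ∪ {l₀})`
contain one of these strictly, or contain all variables, so the Krull dimension drops by at least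
one, or the quotient has dimension `≤ 0`. At the end the ideal spanned by `S` and the forms has a
quotient of Krull dimension `≤ 0`, is homogeneous and so all its primes contain all variables
(homogeneous minimal primes of dimension zero are the irrelevant ideal); hence `x = 0` for the
points of the cone over any field: the kernel of evaluation at the points `t x` is a prime ideal
containing the homogeneous ideal. -/
def S_KD1 : Prop :=
  ∀ (k : Type) [Field k] [CharZero k] (n m : ℕ) (S : Set (MvPolynomial (Fin (n + 1)) k)),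
    (∀ P ∈ S, ∃ a, P.IsHomogeneous a) → PDimLE S m →
    ∃ l : Fin (m + 1) → Fin (n + 1) → k, NoZero S l

/-- **KD2.** A hypersurface in `P^(m+1)` has dimension at most `m`: `ringKrullDim` of
`MvPolynomial (Fin (m + 2)) k` is `m + 2` and it drops modulo a nonzero divisor
(`ringKrullDim_quotient_succ_le_of_nonZeroDivisor`). -/
def S_KD2 : Prop :=
  ∀ (k : Type) [Field k] (m : ℕ) (G : MvPolynomial (Fin (m + 2)) k), G ≠ 0 → PDimLE {G} m

/-- **CORE.** If `Z_σ` contains no entire curve then the image `Y_σ` of `Z_σ` under `Fm` does not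
contain one either. -/
def S_CORE : Prop :=
  ∀ (k : Type) [Field k] [CharZero k] (n m : ℕ) (S : Set (MvPolynomial (Fin (n + 1)) k)),
    (∀ P ∈ S, ∃ a, P.IsHomogeneous a) → ∀ l : Fin (m + 1) → Fin (n + 1) → k, NoZero S l →
    ∃ (e M : ℕ) (lam : Fin M → Fin (n + 1) → k) (b : Fin M → k), 1 ≤ e ∧
      (∀ (F : Type) [Field F] (τ : k →+* F),
        Good e (InCone τ S) (fun i => τ ∘ l i) (fun j => τ ∘ lam j) (τ ∘ b)) ∧
      ∀ σ : k →+* ℂ, BrodyHyperbolic (points σ S) →
        BrodyHyperbolic (points σ (ImgEqs S (Fm l lam b e)))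

/-- **GEO.** The geometric form of the theorem. -/
def S_GEO : Prop :=
  ∀ (k : Type) [Field k] [CharZero k] (n m : ℕ) (S : Set (MvPolynomial (Fin (n + 1)) k)),
    (∀ P ∈ S, ∃ a, P.IsHomogeneous a) → PDimLE S m →
    ∃ (e : ℕ) (F : Fin (m + 2) → MvPolynomial (Fin (n + 1)) k) (d : ℕ)
      (G : MvPolynomial (Fin (m + 2)) k), (∀ j, (F j).IsHomogeneous e) ∧ G ≠ 0 ∧
      G.IsHomogeneous d ∧
      (∀ (L : Type) [Field L] (τ : k →+* L) (x : Fin (n + 1) → L), x ≠ 0 →
        (∀ P ∈ S, P.eval₂ τ x = 0) →
        (∃ j, (F j).eval₂ τ x ≠ 0) ∧ G.eval₂ τ (fun j => (F j).eval₂ τ x) = 0) ∧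
      (∀ (L : Type) [Field L] (τ : k →+* L) (x : Fin (m + 2) → Fin (n + 1) → L),
        (∀ a, x a ≠ 0) → (∀ a, ∀ P ∈ S, P.eval₂ τ (x a) = 0) →
        (∀ a a', ∃ c : L, ∀ j, (F j).eval₂ τ (x a) = c * (F j).eval₂ τ (x a')) →
        ∃ a a', a ≠ a' ∧ ∃ c : L, x a = c • x a') ∧
      (∀ (L : Type) [Field L] (τ : k →+* L), (points τ {G}).Finite → (points τ S).Finite) ∧
      ∀ σ : k →+* ℂ, KobayashiHyperbolic (points σ {G}) ↔ KobayashiHyperbolic (points σ S)

/-- **Q1.** The arithmetic form: the question for all varieties of dimension at most `m` and for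
hypersurfaces of `P^(m+1)` over the same field with the same embeddings. -/
def S_Q1 : Prop :=
  ∀ (k : Type) [Field k] [CharZero k] (m : ℕ) (T : Set (k →+* ℂ)),
    ((∀ (n : ℕ) (S : Set (MvPolynomial (Fin (n + 1)) k)), (∀ P ∈ S, ∃ a, P.IsHomogeneous a) →
        PDimLE S m → (∀ σ ∈ T, KobayashiHyperbolic (points σ S)) →
        (points (RingHom.id k) S).Finite) ↔
      ∀ (d : ℕ) (G : MvPolynomial (Fin (m + 2)) k), G ≠ 0 → G.IsHomogeneous d →
        (∀ σ ∈ T, KobayashiHyperbolic (points σ {G})) → (points (RingHom.id k) {G}).Finite)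

end Pool.Agent.Lib.MP_627a61_nt.Hy
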