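import Pool.Agent.Lib.MP_627a61_nt.Hy.DStm

/-!
# HYP: the case of small components (CASE2)
-/

set_option autoImplicit false

namespace Pool.Agent.Lib.MP_627a61_nt.Hy

/-- the two parts of a fibre of `cl` -/
private theorem case2_card {M : ℕ} (cl : Fin M ⊕ Fin M → Fin M ⊕ Fin M) (p : Fin M ⊕ Fin M) :
    (Finset.univ.filter fun i => cl i = p).card =
      (Finset.univ.filter fun j => cl (Sum.inl j) = p).card +
        (Finset.univ.filter fun j => cl (Sum.inr j) = p).card := by
  rw [Finset.card_filter, Finset.card_filter, Finset.card_filter, Fintype.sum_sum_type]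

/-- small components are impossible -/
theorem piece_CASE2 : S_CASE2 := by
  intro K _ m M b X X' cl hM hcl hb h7 h3
  classical
  let D : Fin M ⊕ Fin M → Finset (Fin M) := fun p => Finset.univ.filter fun j => cl (Sum.inl j) = p
  let D' : Fin M ⊕ Fin M → Finset (Fin M) :=
    fun p => Finset.univ.filter fun j => cl (Sum.inr j) = p
  let u : Fin M ⊕ Fin M → Fin M → K := fun p j =>
    (if j ∈ D p then X j else 0) - (if j ∈ D' p then X' j else 0)
  have hu : ∀ p, ∑ j, b j * ((if j ∈ D p then X j else 0) - (if j ∈ D' p then X' j else 0)) = 0 := by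
    intro p
    refine Eq.trans ?_ (hb p)
    rw [Finset.sum_filter, Finset.sum_filter, ← Finset.sum_sub_distrib]
    refine Finset.sum_congr rfl fun j _ => ?_
    simp only [D, D', Finset.mem_filter, Finset.mem_univ, true_and, mul_sub, mul_ite, mul_zero]
  obtain ⟨κ, a, ha, hspan, hind⟩ := exists_linearIndependent' K u
  have hfin : Finite κ := Finite.of_injective a ha
  let _ : Fintype κ := Fintype.ofFinite κ
  have hκ : Fintype.card κ ≤ m := by
    by_contra hlt
    have hle : Fintype.card (Fin (m + 1)) ≤ Fintype.card κ := by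
      rw [Fintype.card_fin]
      omega
    obtain ⟨g⟩ := Function.Embedding.nonempty_of_card_le hle
    exact h7 (fun i => D (a (g i))) (fun i => D' (a (g i))) (fun i => hu _)
      (hind.comp g g.injective)
  let T : Finset (Fin M) := Finset.univ.biUnion fun q : κ => D (a q) ∪ D' (a q)
  have hT : T.card ≤ 2 * m ^ 2 := by
    have h1 : T.card ≤ ∑ q : κ, (D (a q) ∪ D' (a q)).card := Finset.card_biUnion_le
    have h2 : ∀ q : κ, (D (a q) ∪ D' (a q)).card ≤ 2 * m := fun q =>
      (Finset.card_union_le _ _).trans ((case2_card cl (a q)).symm.le.trans (hcl (a q)))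
    have h3 : ∑ q : κ, (D (a q) ∪ D' (a q)).card ≤ ∑ _q : κ, 2 * m :=
      Finset.sum_le_sum fun q _ => h2 q
    rw [Finset.sum_const, Finset.card_univ, smul_eq_mul] at h3
    have h4 : Fintype.card κ * (2 * m) ≤ m * (2 * m) := Nat.mul_le_mul_right _ hκ
    calc T.card ≤ m * (2 * m) := h1.trans (h3.trans h4)
      _ = 2 * m ^ 2 := by ring
  have hsum : (∑ p, u p) = X - X' := by
    funext j
    rw [Finset.sum_apply]
    simp only [u, D, D', Finset.mem_filter, Finset.mem_univ, true_and, Finset.sum_sub_distrib,
      Finset.sum_ite_eq, if_true, Pi.sub_apply]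
  have hmem : X - X' ∈ Submodule.span K (Set.range (u ∘ a)) := by
    rw [hspan, ← hsum]
    exact Submodule.sum_mem _ fun p _ => Submodule.subset_span ⟨p, rfl⟩
  have hzero : ∀ j ∉ T, (X - X') j = 0 := by
    intro j hj
    have hle : Submodule.span K (Set.range (u ∘ a)) ≤
        LinearMap.ker (LinearMap.proj (R := K) (φ := fun _ : Fin M => K) j) := by
      rw [Submodule.span_le]
      rintro _ ⟨q, rfl⟩
      have h1 : j ∉ D (a q) ∪ D' (a q) := fun h =>
        hj (Finset.mem_biUnion.2 ⟨q, Finset.mem_univ _, h⟩)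
      rw [Finset.mem_union, not_or] at h1
      change (if j ∈ D (a q) then X j else 0) - (if j ∈ D' (a q) then X' j else 0) = 0
      rw [if_neg h1.1, if_neg h1.2, sub_zero]
    exact hle hmem
  have hI := h3 (Finset.univ \ T) fun j hj => by
    have h1 := hzero j (Finset.mem_sdiff.1 hj).2
    exact sub_eq_zero.1 h1
  rw [Finset.card_sdiff_of_subset (Finset.subset_univ T), Finset.card_univ, Fintype.card_fin] at hI
  omega

end Pool.Agent.Lib.MP_627a61_nt.Hy
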