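import Pool.Agent.Lib.MP_627a61_nt.Hy.DStm

/-!
# HYP: the path argument in the bipartite graph of a component
-/

set_option autoImplicit false

namespace Pool.Agent.Lib.MP_627a61_nt.Hy

variable {L : Type} [Field L] [Algebra ℂ L]

/-- the exchange of one basis element -/
private theorem chain_exchange (h1 : S_WEX) (δ : Derivation ℂ L L) {P : Type} {e : ℕ}
    {τ : CompData P} {h : P → L} (hV : τ.Valid) (hR : RelD e τ h) {i : P} (hi : i ∈ τ.D)
    (k : Fin (τ.N + 1)) :
    VD δ e (Function.update (fun k => h (τ.bs k)) k (h i)) * h i ^ (e - τ.N) =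
      algebraMap ℂ L (τ.c i k) * VD δ e (fun k => h (τ.bs k)) * h (τ.bs k) ^ (e - τ.N) := by
  have hi0 : h i ^ (e - τ.N) ≠ 0 := pow_ne_zero _ (hR.ne i hi)
  have hb0 : ∀ l, h (τ.bs l) ^ (e - τ.N) ≠ 0 := fun l => pow_ne_zero _ (hR.ne _ (hV.mem l))
  have hw : wrD δ (fun l => (Function.update (fun k => h (τ.bs k)) k (h i)) l ^ e) =
      algebraMap ℂ L (τ.c i k) * wrD δ (fun l => h (τ.bs l) ^ e) := by
    rw [← h1 L δ (τ.N + 1) (fun l => h (τ.bs l) ^ e) (h i ^ e) (τ.c i) k (hR.rel i hi)]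
    congr 1
    funext l
    by_cases hl : l = k
    · subst hl
      simp
    · simp [Function.update_of_ne hl]
  have hp1 : ∏ l, (Function.update (fun k => h (τ.bs k)) k (h i)) l ^ (e - τ.N) =
      h i ^ (e - τ.N) * ∏ l ∈ Finset.univ.erase k, h (τ.bs l) ^ (e - τ.N) := by
    rw [← Finset.mul_prod_erase Finset.univ _ (Finset.mem_univ k)]
    congr 1
    · simp
    · refine Finset.prod_congr rfl fun l hl => ?_
      rw [Function.update_of_ne (Finset.ne_of_mem_erase hl)]
  have hp2 : ∏ l, h (τ.bs l) ^ (e - τ.N) =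
      h (τ.bs k) ^ (e - τ.N) * ∏ l ∈ Finset.univ.erase k, h (τ.bs l) ^ (e - τ.N) :=
    (Finset.mul_prod_erase Finset.univ _ (Finset.mem_univ k)).symm
  have hp0 : ∏ l ∈ Finset.univ.erase k, h (τ.bs l) ^ (e - τ.N) ≠ 0 :=
    Finset.prod_ne_zero_iff.2 fun l _ => hb0 l
  have hk0 := hb0 k
  unfold VD
  rw [hw, hp1, hp2]
  field_simp

/-- the divided Wronskians are in `A` -/
private theorem chain_mem (h2 : S_VMEM) (δ : Derivation ℂ L L) (A : Subalgebra ℂ L)
    (hA : ∀ a ∈ A, δ a ∈ A) {P : Type} {e : ℕ} {τ : CompData P} {h : P → L} (hN : τ.N ≤ e)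
    (hV : τ.Valid) (hR : RelD e τ h) (hh : ∀ i ∈ τ.D, h i ∈ A) {i : P} (hi : i ∈ τ.D)
    (k : Fin (τ.N + 1)) :
    VD δ e (Function.update (fun k => h (τ.bs k)) k (h i)) ∈ A := by
  refine h2 L δ A hA e τ.N hN _ ?_ ?_
  · intro l
    by_cases hl : l = k
    · subst hl
      simpa using hh i hi
    · rw [Function.update_of_ne hl]
      exact hh _ (hV.mem l)
  · intro l
    by_cases hl : l = k
    · subst hl
      simpa using hR.ne i hi
    · rw [Function.update_of_ne hl]
      exact hR.ne _ (hV.mem l)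

private theorem chain_edges {P : Type} {τ : CompData P} {p : P × Fin (τ.N + 1)}
    (hp : p ∈ τ.edges) : p.1 ∈ τ.D ∧ τ.c p.1 p.2 ≠ 0 := by
  classical
  unfold CompData.edges at hp
  simp only [Finset.mem_filter, Finset.mem_product] at hp
  exact ⟨hp.1.1, hp.2.2⟩

theorem piece_CHAIN (h1 : S_WEX) (h2 : S_VMEM) : S_CHAIN := by
  classical
  intro L _ _ δ A hA P e τ h hN hV hR hh i₀ hi₀ j hj
  set V₀ := VD δ e (fun k => h (τ.bs k)) with hV₀
  have hV₀A : V₀ ∈ A := h2 L δ A hA e τ.N hN _ (fun l => hh _ (hV.mem l))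
    (fun l => hR.ne _ (hV.mem l))
  set V : P × Fin (τ.N + 1) → L :=
    fun p => VD δ e (Function.update (fun k => h (τ.bs k)) p.2 (h p.1)) with hVd
  have hVA : ∀ p ∈ τ.edges, V p ∈ A := fun p hp =>
    chain_mem h2 δ A hA hN hV hR hh (chain_edges hp).1 p.2
  have hW : WpD δ e τ h = V₀ * ∏ p ∈ τ.edges, V p := rfl
  have hPA : ∏ p ∈ τ.edges, V p ∈ A := prod_mem hVA
  have hWA : WpD δ e τ h ∈ A := by
    rw [hW]
    exact mul_mem hV₀A hPA
  have hex : ∀ p ∈ τ.edges, V p * h p.1 ^ (e - τ.N) =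
      algebraMap ℂ L (τ.c p.1 p.2) * V₀ * h (τ.bs p.2) ^ (e - τ.N) := fun p hp =>
    chain_exchange h1 δ hV hR (chain_edges hp).1 p.2
  -- adjacent elements
  have hadj : ∀ a b, τ.Adj a b → b ∈ τ.D ∧ ∃ z ∈ A,
      WpD δ e τ h * h a ^ (e - τ.N) = z * h b ^ (e - τ.N) := by
    rintro a b ⟨p, hp, ⟨rfl, rfl⟩ | ⟨rfl, rfl⟩⟩
    · refine ⟨hV.mem _, V₀ * (algebraMap ℂ L (τ.c p.1 p.2) * V₀) * ∏ q ∈ τ.edges.erase p, V q,
        mul_mem (mul_mem hV₀A (mul_mem (algebraMap_mem A _) hV₀A))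
          (prod_mem fun q hq => hVA q (Finset.mem_of_mem_erase hq)), ?_⟩
      rw [hW, ← Finset.mul_prod_erase _ _ hp]
      linear_combination (V₀ * ∏ q ∈ τ.edges.erase p, V q) * hex p hp
    · refine ⟨(chain_edges hp).1, algebraMap ℂ L (τ.c p.1 p.2)⁻¹ * V p * ∏ q ∈ τ.edges, V q,
        mul_mem (mul_mem (algebraMap_mem A _) (hVA p hp)) hPA, ?_⟩
      have hc : algebraMap ℂ L (τ.c p.1 p.2)⁻¹ * algebraMap ℂ L (τ.c p.1 p.2) = 1 := by
        rw [← map_mul, inv_mul_cancel₀ (chain_edges hp).2, map_one]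
      rw [hW]
      linear_combination (-(algebraMap ℂ L (τ.c p.1 p.2)⁻¹) * ∏ q ∈ τ.edges, V q) * hex p hp
        - (V₀ * (∏ q ∈ τ.edges, V q) * h (τ.bs p.2) ^ (e - τ.N)) * hc
  -- the set of elements reached after `n` steps
  set S : ℕ → Finset P := fun n => τ.D.filter fun j => ∃ z ∈ A,
    WpD δ e τ h ^ n * h i₀ ^ (e - τ.N) = z * h j ^ (e - τ.N) with hS
  have hSm : ∀ n, S n ⊆ S (n + 1) := by
    intro n j hj
    obtain ⟨hjD, z, hz, hzj⟩ := Finset.mem_filter.1 hj
    refine Finset.mem_filter.2 ⟨hjD, WpD δ e τ h * z, mul_mem hWA hz, ?_⟩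
    rw [pow_succ]
    linear_combination (WpD δ e τ h) * hzj
  have hS0 : ∀ n, i₀ ∈ S n := by
    intro n
    exact Finset.mem_filter.2 ⟨hi₀, WpD δ e τ h ^ n, pow_mem hWA n, rfl⟩
  have hSs : ∀ n a b, τ.Adj a b → a ∈ S n → b ∈ S (n + 1) := by
    intro n a b hab ha
    obtain ⟨-, z, hz, hza⟩ := Finset.mem_filter.1 ha
    obtain ⟨hbD, z', hz', hzb⟩ := hadj a b hab
    refine Finset.mem_filter.2 ⟨hbD, z * z', mul_mem hz hz', ?_⟩
    rw [pow_succ]
    linear_combination (WpD δ e τ h) * hza + z * hzb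
  have key : ∀ n, S n = τ.D ∨ n + 1 ≤ (S n).card := by
    intro n
    induction n with
    | zero =>
      right
      exact Finset.card_pos.2 ⟨i₀, hS0 0⟩
    | succ n ih =>
      rcases ih with ih | ih
      · left
        exact Finset.Subset.antisymm (Finset.filter_subset _ _) (ih ▸ hSm n)
      · by_cases hD : S n = τ.D
        · left
          exact Finset.Subset.antisymm (Finset.filter_subset _ _) (hD ▸ hSm n)
        · right
          have hne : S n ≠ S (n + 1) := by
            intro heq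
            apply hD
            refine Finset.Subset.antisymm (Finset.filter_subset _ _) fun a ha => ?_
            have hc := hV.conn i₀ hi₀ a ha
            induction hc with
            | refl => exact hS0 n
            | tail _ hab ih' =>
              have := hSs n _ _ hab (ih' (by
                rcases hab with ⟨p, hp, ⟨rfl, rfl⟩ | ⟨rfl, rfl⟩⟩
                · exact (chain_edges hp).1
                · exact hV.mem _))
              rwa [← heq] at this
          have := Finset.card_lt_card (Finset.ssubset_iff_subset_ne.2 ⟨hSm n, hne⟩)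
          omega
  have hsub : ∀ n, S n ⊆ τ.D := fun n => Finset.filter_subset _ _
  have hfin : S τ.D.card = τ.D := by
    rcases key τ.D.card with h' | h'
    · exact h'
    · have := Finset.card_le_card (hsub τ.D.card)
      omega
  have hjS : j ∈ S τ.D.card := by
    rw [hfin]
    exact hj
  exact (Finset.mem_filter.1 hjS).2

end Pool.Agent.Lib.MP_627a61_nt.Hy
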