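import Pool.Agent.Lib.MP_627a61_nt.Hy.DStm

/-!
# HYP: components of the relation graph of finitely many vectors
-/

set_option autoImplicit false

namespace Pool.Agent.Lib.MP_627a61_nt.Hy

section

variable {P : Type} [Fintype P] {V : Type} [AddCommGroup V] [Module ℂ V]

/-- The vectors `X b`, `b ∈ B`, are linearly independent. -/
private def CompInd (X : P → V) (B : Finset P) : Prop :=
  ∀ d : P → ℂ, (∀ b, b ∉ B → d b = 0) → ∑ b, d b • X b = 0 → ∀ b, d b = 0

private theorem comp_basis [DecidableEq P] (X : P → V) :
    ∃ (B : Finset P) (c : P → P → ℂ), CompInd X B ∧ (∀ i b, c i b ≠ 0 → b ∈ B) ∧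
      (∀ i ∈ B, ∀ b, c i b ≠ 0 → b = i) ∧ (∀ i ∈ B, c i i ≠ 0) ∧
      ∀ i, X i = ∑ b, c i b • X b := by
  classical
  have h0 : CompInd X ∅ := fun d hd _ b => hd b (Finset.notMem_empty b)
  obtain ⟨B, hB, hmax⟩ := ((Finset.univ : Finset (Finset P)).filter (CompInd X)).exists_max_image
    Finset.card ⟨∅, by simp [h0]⟩
  simp only [Finset.mem_filter, Finset.mem_univ, true_and] at hB hmax
  have key : ∀ i, ∃ d : P → ℂ, (∀ b, d b ≠ 0 → b ∈ B) ∧ (i ∈ B → ∀ b, d b ≠ 0 → b = i) ∧
      (i ∈ B → d i ≠ 0) ∧ X i = ∑ b, d b • X b := by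
    intro i
    by_cases hi : i ∈ B
    · refine ⟨fun b => if b = i then 1 else 0, ?_, ?_, ?_, ?_⟩
      · intro b hb
        by_cases h : b = i
        · rwa [h]
        · simp [h] at hb
      · intro _ b hb
        by_contra h
        simp [h] at hb
      · intro _
        simp
      · simp
    · have h1 : ¬ CompInd X (insert i B) := by
        intro h
        have h2 := hmax _ h
        rw [Finset.card_insert_of_notMem hi] at h2
        omega
      unfold CompInd at h1
      push Not at h1
      obtain ⟨d, hd, hs, b₀, hb₀⟩ := h1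
      have hdi : d i ≠ 0 := by
        intro h
        apply hb₀
        apply hB d _ hs
        intro b hb
        by_cases hbi : b = i
        · rw [hbi, h]
        · exact hd b (by simp [hbi, hb])
      refine ⟨fun b => if b = i then 0 else -(d b / d i), ?_, fun h => absurd h hi,
        fun h => absurd h hi, ?_⟩
      · intro b hb
        by_contra hbB
        by_cases hbi : b = i
        · simp [hbi] at hb
        · apply hb
          simp only [hbi, if_false]
          rw [hd b (by simp [hbi, hbB]), zero_div, neg_zero]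
      · have h3 : (0 : V) = d i • X i + ∑ b ∈ Finset.univ.erase i, d b • X b := by
          rw [Finset.add_sum_erase Finset.univ (fun b => d b • X b) (Finset.mem_univ i), hs]
        have h4 : ∑ b, (if b = i then (0 : ℂ) else -(d b / d i)) • X b =
            ∑ b ∈ Finset.univ.erase i, (-(d b / d i)) • X b := by
          rw [← Finset.add_sum_erase Finset.univ _ (Finset.mem_univ i)]
          simp only [if_true, zero_smul, zero_add]
          refine Finset.sum_congr rfl fun b hb => ?_
          rw [if_neg (Finset.ne_of_mem_erase hb)]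
        rw [h4]
        have h5 : ∑ b ∈ Finset.univ.erase i, (-(d b / d i)) • X b =
            (-(1 / d i)) • ∑ b ∈ Finset.univ.erase i, d b • X b := by
          rw [Finset.smul_sum]
          refine Finset.sum_congr rfl fun b _ => ?_
          rw [smul_smul]
          congr 1
          ring
        have h6 : ∑ b ∈ Finset.univ.erase i, d b • X b = -(d i • X i) :=
          (neg_eq_of_add_eq_zero_right h3.symm).symm
        rw [h5, h6, smul_neg, smul_smul, neg_mul, neg_smul, neg_neg, one_div,
          inv_mul_cancel₀ hdi, one_smul]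
  choose c h1 h2 h3 h4 using key
  exact ⟨B, c, hB, h1, h2, h3, h4⟩

end

theorem piece_COMP : S_COMP := by
  intro P _ _ V _ _ X k hk
  classical
  obtain ⟨B, c, hind, hcB, hcI, hcN, hX⟩ := comp_basis X
  let R : P → P → Prop := fun i j => (i ∉ B ∧ c i j ≠ 0) ∨ (j ∉ B ∧ c j i ≠ 0)
  have hRs : ∀ i j, R i j → R j i := fun i j h => h.symm
  let E : P → P → Prop := Relation.ReflTransGen R
  have hEs : ∀ i j, E i j → E j i := fun i j h => by
    have hsym : Std.Symm R := ⟨hRs⟩
    exact Std.Symm.symm (r := Relation.ReflTransGen R) _ _ h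
  have hEt : ∀ i j l, E i j → E j l → E i l := fun i j l h h' => h.trans h'
  have hEr : ∀ i, E i i := fun i => Relation.ReflTransGen.refl
  have hcE : ∀ i b, c i b ≠ 0 → E i b := by
    intro i b h
    by_cases hi : i ∈ B
    · rw [hcI i hi b h]
    · exact Relation.ReflTransGen.single (Or.inl ⟨hi, h⟩)
  by_cases hbig : ∃ p, k < (Finset.univ.filter fun j => E p j).card
  · left
    obtain ⟨p, hp⟩ := hbig
    obtain ⟨D, hD⟩ : ∃ D : Finset P, D = Finset.univ.filter fun j => E p j := ⟨_, rfl⟩
    rw [← hD] at hp
    have mD : ∀ j, j ∈ D ↔ E p j := by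
      intro j
      rw [hD]
      simp
    have hnb : ∀ i ∈ D, ∃ x, x ∈ D ∧ R i x := by
      intro i hi
      obtain ⟨j, hj, hji⟩ : ∃ j ∈ D, j ≠ i := by
        apply Finset.exists_mem_ne
        omega
      have h1 : E i j := hEt _ _ _ (hEs _ _ ((mD i).1 hi)) ((mD j).1 hj)
      rcases Relation.ReflTransGen.cases_head h1 with h2 | ⟨x, hx, _⟩
      · exact absurd h2.symm hji
      · exact ⟨x, (mD x).2 (hEt _ _ _ ((mD i).1 hi) (Relation.ReflTransGen.single hx)), hx⟩
    have hne : (D.filter (· ∈ B)).Nonempty := by
      have hpD : p ∈ D := (mD p).2 (hEr p)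
      obtain ⟨x, hxD, hx⟩ := hnb p hpD
      rcases hx with ⟨_, h⟩ | ⟨_, h⟩
      · exact ⟨x, Finset.mem_filter.2 ⟨hxD, hcB _ _ h⟩⟩
      · exact ⟨p, Finset.mem_filter.2 ⟨hpD, hcB _ _ h⟩⟩
    obtain ⟨N, hN⟩ : ∃ N, (D.filter (· ∈ B)).card = N + 1 :=
      ⟨(D.filter (· ∈ B)).card - 1, by have := hne.card_pos; omega⟩
    let eq := (D.filter (· ∈ B)).equivFinOfCardEq hN
    obtain ⟨bs, hbs⟩ : ∃ bs : Fin (N + 1) → P, bs = fun j => (eq.symm j : P) := ⟨_, rfl⟩
    have binj : Function.Injective bs := by
      rw [hbs]
      exact Subtype.val_injective.comp eq.symm.injective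
    have bmem : ∀ j, bs j ∈ D ∧ bs j ∈ B := by
      intro j
      rw [hbs]
      exact Finset.mem_filter.1 (eq.symm j).2
    have bsur : ∀ b, b ∈ D → b ∈ B → ∃ j, bs j = b := by
      intro b h1 h2
      refine ⟨eq ⟨b, Finset.mem_filter.2 ⟨h1, h2⟩⟩, ?_⟩
      rw [hbs]
      simp
    have hexp : ∀ i ∈ D, X i = ∑ j, c i (bs j) • X (bs j) := by
      intro i hi
      rw [hX i]
      have h1 : ∑ j, c i (bs j) • X (bs j) = ∑ b ∈ Finset.univ.image bs, c i b • X b := by
        rw [Finset.sum_image fun x _ y _ h => binj h]
      rw [h1]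
      symm
      apply Finset.sum_subset (Finset.subset_univ _)
      intro b _ hb
      have h2 : c i b = 0 := by
        by_contra h3
        apply hb
        obtain ⟨j, hj⟩ := bsur b ((mD b).2 (hEt _ _ _ ((mD i).1 hi) (hcE i b h3))) (hcB i b h3)
        exact Finset.mem_image.2 ⟨j, Finset.mem_univ _, hj⟩
      rw [h2, zero_smul]
    refine ⟨⟨D, N, bs, fun i j => c i (bs j)⟩, ⟨binj, fun j => (bmem j).1, ?_, ?_⟩, hp, hexp,
      ?_, ?_⟩
    · show 2 ≤ D.card
      omega
    · intro i hi j hj
      have hi' : i ∈ D := hi
      have hj' : j ∈ D := hj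
      have h1 : E i j := hEt _ _ _ (hEs _ _ ((mD i).1 hi')) ((mD j).1 hj')
      clear hj hj'
      induction h1 with
      | refl => exact Relation.ReflTransGen.refl
      | tail hb hR ih =>
        rename_i b x
        refine ih.tail ?_
        have hbD : b ∈ D := (mD b).2 (hEt _ _ _ ((mD i).1 hi') hb)
        have hxD : x ∈ D := (mD x).2 (hEt _ _ _ ((mD b).1 hbD) (Relation.ReflTransGen.single hR))
        have hedge : ∀ u w, u ∈ D → w ∈ D → u ∉ B → c u w ≠ 0 → ∃ q ∈
            (CompData.edges (⟨D, N, bs, fun i j => c i (bs j)⟩ : CompData P)),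
            u = q.1 ∧ w = bs q.2 := by
          intro u w hu hw huB huw
          obtain ⟨j, hj⟩ := bsur w hw (hcB _ _ huw)
          refine ⟨(u, j), ?_, rfl, hj.symm⟩
          simp only [CompData.edges, Finset.mem_filter, Finset.mem_product, Finset.mem_univ,
            and_true]
          refine ⟨hu, fun l hl => huB (hl ▸ (bmem l).2), ?_⟩
          rw [hj]
          exact huw
        rcases hR with ⟨h2, h3⟩ | ⟨h2, h3⟩
        · obtain ⟨q, hq, e1, e2⟩ := hedge b x hbD hxD h2 h3
          exact ⟨q, hq, Or.inl ⟨e1, e2⟩⟩
        · obtain ⟨q, hq, e1, e2⟩ := hedge x b hxD hbD h2 h3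
          exact ⟨q, hq, Or.inr ⟨e2, e1⟩⟩
    · show LinearIndependent ℂ (fun j => X (bs j))
      rw [Fintype.linearIndependent_iff]
      intro g hg j
      have h1 := hind (fun b => ∑ l, if bs l = b then g l else 0) ?_ ?_ (bs j)
      · have h2 : (∑ l, if bs l = bs j then g l else 0) = g j := by
          rw [Finset.sum_eq_single j]
          · simp
          · intro l _ hl
            rw [if_neg fun h => hl (binj h)]
          · simp
        rw [← h2]
        exact h1
      · intro b hb
        apply Finset.sum_eq_zero
        intro l _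
        rw [if_neg]
        rintro rfl
        exact hb (bmem l).2
      · rw [← hg]
        simp_rw [Finset.sum_smul]
        rw [Finset.sum_comm]
        refine Finset.sum_congr rfl fun l _ => ?_
        rw [Finset.sum_eq_single (bs l)]
        · simp
        · intro b _ hb
          rw [if_neg (Ne.symm hb), zero_smul]
        · simp
    · intro i hi hXi
      have hi' : i ∈ D := hi
      rw [hX i] at hXi
      have h1 := hind (c i) (fun b hb => by_contra fun h => hb (hcB i b h)) hXi
      by_cases hiB : i ∈ B
      · exact hcN i hiB (h1 i)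
      · obtain ⟨x, _, hx⟩ := hnb i hi'
        rcases hx with ⟨_, h⟩ | ⟨_, h⟩
        · exact h (h1 x)
        · exact hiB (hcB _ _ h)
  · right
    push Not at hbig
    let s : Setoid P := ⟨E, ⟨hEr, fun {i j} h => hEs i j h, fun {i j l} h h' => hEt i j l h h'⟩⟩
    obtain ⟨cl, hcl⟩ : ∃ cl : P → P, cl = fun i => (Quotient.mk s i).out := ⟨_, rfl⟩
    have h1 : ∀ i, E (cl i) i := by
      intro i
      rw [hcl]
      exact Quotient.mk_out (s := s) i
    have h2 : ∀ i j, E i j → cl i = cl j := by
      intro i j hij
      rw [hcl]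
      show (Quotient.mk s i).out = (Quotient.mk s j).out
      rw [Quotient.sound (s := s) hij]
    refine ⟨cl, fun p => ?_, fun r hr p => ?_⟩
    · refine le_trans (Finset.card_le_card ?_) (hbig p)
      intro i hi
      simp only [Finset.mem_filter, Finset.mem_univ, true_and] at hi ⊢
      rw [← hi]
      exact h1 i
    · have h3 : ∀ b, ∑ i, r i * c i b = 0 := by
        apply hind
        · intro b hb
          apply Finset.sum_eq_zero
          intro i _
          have : c i b = 0 := by_contra fun h => hb (hcB i b h)
          rw [this, mul_zero]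
        · rw [← hr]
          simp_rw [Finset.sum_smul]
          rw [Finset.sum_comm]
          refine Finset.sum_congr rfl fun i _ => ?_
          conv_rhs => rw [hX i, Finset.smul_sum]
          refine Finset.sum_congr rfl fun b _ => ?_
          rw [smul_smul]
      have h4 : ∑ i ∈ Finset.univ.filter (fun i => cl i = p), r i • X i =
          ∑ b, (∑ i ∈ Finset.univ.filter (fun i => cl i = p), r i * c i b) • X b := by
        simp_rw [Finset.sum_smul]
        rw [Finset.sum_comm]
        refine Finset.sum_congr rfl fun i _ => ?_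
        conv_lhs => rw [hX i, Finset.smul_sum]
        refine Finset.sum_congr rfl fun b _ => ?_
        rw [smul_smul]
      rw [h4]
      apply Finset.sum_eq_zero
      intro b _
      have h5 : ∑ i ∈ Finset.univ.filter (fun i => cl i = p), r i * c i b = 0 := by
        by_cases hb : cl b = p
        · rw [← h3 b]
          apply Finset.sum_subset (Finset.subset_univ _)
          intro i _ hi
          have : c i b = 0 := by
            by_contra h
            apply hi
            simp only [Finset.mem_filter, Finset.mem_univ, true_and]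
            rw [← hb]
            exact h2 i b (hcE i b h)
          rw [this, mul_zero]
        · apply Finset.sum_eq_zero
          intro i hi
          simp only [Finset.mem_filter, Finset.mem_univ, true_and] at hi
          have : c i b = 0 := by
            by_contra h
            apply hb
            rw [← hi]
            exact (h2 i b (hcE i b h)).symm
          rw [this, mul_zero]
      rw [h5, zero_smul]

end Pool.Agent.Lib.MP_627a61_nt.Hy
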