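import Pool.Agent.Lib.MP_627a61_nt.Hy.DStm

/-!
# HYP: the alternative for two points (DICH), the exponent (EXPD)
-/

namespace Pool.Agent.Lib.MP_627a61_nt.Hy

theorem piece_DICH (h1 : S_COMP) (h2 : S_CASE2) : S_DICH := by
  intro L _ _ ι _ e m M Z l lam b hm he hM hG y w hy hw hy0 hw0 hsb hprp htt
  classical
  rcases h1 (Fin M ⊕ Fin M) L (fun i => hD lam y w i ^ e) (2 * m) (by omega) with
    ⟨τ, hv, hc, hrel, hind, hne⟩ | ⟨cl, hcl, hsplit⟩
  · refine ⟨τ, hv, hc, ⟨?_, hind, ?_⟩⟩
    · intro i hi
      rw [hrel i hi]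
      exact Finset.sum_congr rfl fun j _ => Algebra.smul_def _ _
    · intro i hi h0
      apply hne i hi
      show hD lam y w i ^ e = 0
      rw [h0, zero_pow (by omega)]
  · exfalso
    refine h2 L m M (fun j => algebraMap ℂ L (b j)) (fun j => dot (lam j) y ^ e)
      (fun j => dot (lam j) w ^ e) cl hM hcl ?_ ?_ ?_
    · intro p
      have h := hsplit (Sum.elim b (fun j => - b j)) ?_ p
      · rw [Finset.sum_filter, Fintype.sum_sum_type] at h
        rw [Finset.sum_filter, Finset.sum_filter, sub_eq_add_neg, ← Finset.sum_neg_distrib]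
        refine Eq.trans ?_ h
        congr 1
        · refine Finset.sum_congr rfl fun j _ => ?_
          split_ifs
          · simp only [Sum.elim_inl, hD]
            exact (Algebra.smul_def _ _).symm
          · rfl
        · refine Finset.sum_congr rfl fun j _ => ?_
          split_ifs
          · simp only [Sum.elim_inr, hD]
            rw [neg_smul, Algebra.smul_def]
          · exact neg_zero
      · rw [Fintype.sum_sum_type]
        have h3 : tt lam (fun j => algebraMap ℂ L (b j)) e y -
            tt lam (fun j => algebraMap ℂ L (b j)) e w = 0 := sub_eq_zero.mpr htt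
        rw [← h3, sub_eq_add_neg]
        unfold tt
        rw [← Finset.sum_neg_distrib]
        congr 1
        · refine Finset.sum_congr rfl fun j _ => ?_
          simp only [Sum.elim_inl, hD]
          exact Algebra.smul_def _ _
        · refine Finset.sum_congr rfl fun j _ => ?_
          simp only [Sum.elim_inr, hD]
          rw [neg_smul, Algebra.smul_def]
    · intro D D' hDD hli
      exact hG.c7 y w hy hw hy0 hw0 hsb D D' hDD hli
    · intro I hI
      exact hG.c3 y w hy hw hy0 hw0 hsb hprp I hI

theorem dich_edges_sub {P : Type} (τ : CompData P) : τ.edges ⊆ τ.D ×ˢ Finset.univ := by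
  classical
  unfold CompData.edges
  exact Finset.filter_subset _ _

theorem piece_EXPD : S_EXPD := by
  intro M Δ
  refine ⟨(2 * M) * ((1 + (2 * M) * (2 * M)) * ((2 * M) * (2 * M) * (1 + Δ))) + 1 + 2 * M, ?_⟩
  intro e he τ hv
  classical
  have hD : τ.D.card ≤ 2 * M := by
    have h := Finset.card_le_univ τ.D
    simp only [Fintype.card_sum, Fintype.card_fin] at h
    omega
  have hN : τ.N + 1 ≤ τ.D.card := by
    have h : (Finset.univ.image τ.bs).card = τ.N + 1 := by
      rw [Finset.card_image_of_injective _ hv.inj, Finset.card_univ, Fintype.card_fin]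
    rw [← h]
    refine Finset.card_le_card ?_
    intro i hi
    rw [Finset.mem_image] at hi
    obtain ⟨k, _, rfl⟩ := hi
    exact hv.mem k
  have hE : τ.edges.card ≤ τ.D.card * (τ.N + 1) := by
    refine (Finset.card_le_card (dich_edges_sub τ)).trans ?_
    rw [Finset.card_product, Finset.card_univ, Fintype.card_fin]
  have hnV : τ.nV ≤ 1 + (2 * M) * (2 * M) := by
    unfold CompData.nV
    have : τ.D.card * (τ.N + 1) ≤ (2 * M) * (2 * M) := Nat.mul_le_mul hD (hN.trans hD)
    omega
  have hNM : τ.N + 1 ≤ 2 * M := hN.trans hD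
  have hb : τ.D.card * (τ.nV * (τ.N * (τ.N + 1) * (1 + Δ))) ≤
      (2 * M) * ((1 + (2 * M) * (2 * M)) * ((2 * M) * (2 * M) * (1 + Δ))) := by
    refine Nat.mul_le_mul hD (Nat.mul_le_mul hnV (Nat.mul_le_mul ?_ le_rfl))
    exact Nat.mul_le_mul (by omega) hNM
  constructor
  · omega
  · omega

end Pool.Agent.Lib.MP_627a61_nt.Hy
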