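import Pool.Agent.Lib.MP_627a61_nt.Hy.DStm

/-!
# HYP, pieces VMEM and VSC: divided Wronskian in a stable subalgebra, scaling
-/

namespace Pool.Agent.Lib.MP_627a61_nt.Hy

private lemma vmem_pow {L : Type} [Field L] [Algebra ℂ L] (δ : Derivation ℂ L L)
    (A : Subalgebra ℂ L) (hA : ∀ a ∈ A, δ a ∈ A) (e : ℕ) (h : L) (hh : h ∈ A) :
    ∀ j : ℕ, ∃ p ∈ A, j ≤ e → δ^[j] (h ^ e) = h ^ (e - j) * p := by
  intro j
  induction j with
  | zero => exact ⟨1, A.one_mem, fun _ => by simp⟩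
  | succ j ih =>
    obtain ⟨p, hp, hj⟩ := ih
    refine ⟨((e - j : ℕ) : L) * δ h * p + h * δ p, ?_, ?_⟩
    · exact A.add_mem (A.mul_mem (A.mul_mem (natCast_mem A _) (hA h hh)) hp)
        (A.mul_mem hh (hA p hp))
    · intro hje
      rw [Function.iterate_succ_apply', hj (by omega), Derivation.leibniz, Derivation.leibniz_pow]
      have h1 : e - j - 1 = e - (j + 1) := by omega
      have h2 : h ^ (e - j) = h ^ (e - (j + 1)) * h := by
        rw [← pow_succ]
        congr 1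
        omega
      rw [h1, h2]
      simp only [smul_eq_mul, nsmul_eq_mul]
      ring

private lemma vmem_det {L : Type} [Field L] [Algebra ℂ L] (A : Subalgebra ℂ L) {n : ℕ}
    (M : Matrix (Fin n) (Fin n) L) (hM : ∀ i j, M i j ∈ A) : M.det ∈ A := by
  have h1 : M = A.val.mapMatrix (Matrix.of fun i j => (⟨M i j, hM i j⟩ : A)) := by
    ext i j
    simp
  rw [h1, ← AlgHom.map_det]
  exact Subtype.coe_prop _

theorem piece_VMEM : S_VMEM := by
  intro L _ _ δ A hA e N hN h hh hne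
  choose p hp hj using fun k => vmem_pow δ A hA e (h k) (hh k)
  unfold VD wrD
  have h1 : (Matrix.of fun i j : Fin (N + 1) => δ^[(j : ℕ)] (h i ^ e)) =
      Matrix.of fun i j : Fin (N + 1) => h i ^ (e - N) *
        (Matrix.of fun i j : Fin (N + 1) => h i ^ (N - (j : ℕ)) * p i j) i j := by
    ext i j
    simp only [Matrix.of_apply]
    have hjN : (j : ℕ) ≤ N := by omega
    rw [hj i j (by omega), ← mul_assoc, ← pow_add]
    congr 2
    omega
  rw [h1, Matrix.det_mul_column]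
  rw [mul_div_cancel_left₀ _ (Finset.prod_ne_zero_iff.mpr fun k _ => pow_ne_zero _ (hne k))]
  refine vmem_det A _ fun i j => ?_
  simp only [Matrix.of_apply]
  exact A.mul_mem (A.pow_mem (hh i) _) (hp i j)

theorem piece_VSC (h1 : S_WSC) (h2 : S_WHOM) : S_VSC := by
  intro L _ _ δ e N hN h g a ha
  unfold VD
  have e1 : (fun k => (a * h k) ^ e) = fun k => a ^ e * h k ^ e := by
    funext k
    exact mul_pow _ _ _
  have e2 : ∏ k, (a * h k) ^ (e - N) = a ^ ((e - N) * (N + 1)) * ∏ k, h k ^ (e - N) := by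
    simp only [mul_pow]
    rw [Finset.prod_mul_distrib, Finset.prod_const, ← pow_mul]
    simp
  have e3 : (a ^ e) ^ (N + 1) = a ^ ((e - N) * (N + 1)) * a ^ (N * (N + 1)) := by
    rw [← pow_mul, ← pow_add, ← Nat.add_mul]
    congr 2
    omega
  rw [e1, h2 L (g • δ) (N + 1) (fun k => h k ^ e) (a ^ e), h1 L δ N (fun k => h k ^ e) g, e2, e3]
  have h0 : a ^ ((e - N) * (N + 1)) ≠ 0 := pow_ne_zero _ ha
  rw [mul_assoc, mul_div_mul_left _ _ h0]
  ring

end Pool.Agent.Lib.MP_627a61_nt.Hy
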