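import Pool.Agent.Lib.MP_627a61_nt.Hy.DStm

/-!
# WEX and WHOM: exchange of one function, multiplication of all functions
-/

namespace Pool.Agent.Lib.MP_627a61_nt.Hy

theorem wex_iter_add {L : Type} [Field L] [Algebra ℂ L] (δ : Derivation ℂ L L) (j : ℕ)
    {ι : Type} (s : Finset ι) (c : ι → ℂ) (f : ι → L) :
    δ^[j] (∑ i ∈ s, algebraMap ℂ L (c i) * f i) = ∑ i ∈ s, algebraMap ℂ L (c i) * δ^[j] (f i) := by
  induction j with
  | zero => simp
  | succ j ih =>
    rw [Function.iterate_succ_apply', ih, map_sum]
    refine Finset.sum_congr rfl fun i _ => ?_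
    rw [Function.iterate_succ_apply', Derivation.leibniz]
    simp [smul_eq_mul]

theorem piece_WEX : S_WEX := by
  intro L _ _ δ N f g c k hg
  have h1 : (Matrix.of fun i j : Fin N => δ^[(j : ℕ)] (Function.update f k g i)) =
      Matrix.updateRow (Matrix.of fun i j : Fin N => δ^[(j : ℕ)] (f i)) k
        (∑ i, algebraMap ℂ L (c i) • (Matrix.of fun i j : Fin N => δ^[(j : ℕ)] (f i)) i) := by
    ext i j
    by_cases hik : i = k
    · subst hik
      simp only [Matrix.of_apply, Function.update_self, Matrix.updateRow_self]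
      rw [hg, wex_iter_add]
      simp [Finset.sum_apply, Algebra.smul_def]
    · simp [Function.update_of_ne hik, Matrix.updateRow_ne hik]
  unfold wrD
  rw [h1, Matrix.det_updateRow_sum, smul_eq_mul]

/-- the coefficients of `δ^j (g f) = ∑ T j i δ^i f` -/
noncomputable def wex_T {L : Type} [Field L] [Algebra ℂ L] (δ : Derivation ℂ L L) (g : L) :
    ℕ → ℕ → L
  | 0, i => if i = 0 then g else 0
  | j + 1, i => δ (wex_T δ g j i) + (if i = 0 then 0 else wex_T δ g j (i - 1))

theorem wex_T_zero {L : Type} [Field L] [Algebra ℂ L] (δ : Derivation ℂ L L) (g : L) :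
    ∀ j i : ℕ, j < i → wex_T δ g j i = 0 := by
  intro j
  induction j with
  | zero =>
    intro i hi
    simp only [wex_T]
    rw [if_neg (by omega)]
  | succ j ih =>
    intro i hi
    simp only [wex_T]
    rw [ih i (by omega), map_zero, zero_add, if_neg (by omega), ih (i - 1) (by omega)]

theorem wex_T_diag {L : Type} [Field L] [Algebra ℂ L] (δ : Derivation ℂ L L) (g : L) :
    ∀ j : ℕ, wex_T δ g j j = g := by
  intro j
  induction j with
  | zero => simp [wex_T]
  | succ j ih =>
    simp only [wex_T]
    rw [wex_T_zero δ g j (j + 1) (by omega), map_zero, zero_add, if_neg (by omega)]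
    simpa using ih

theorem wex_T_spec {L : Type} [Field L] [Algebra ℂ L] (δ : Derivation ℂ L L) (g f : L) :
    ∀ j : ℕ, δ^[j] (g * f) = ∑ i ∈ Finset.range (j + 1), wex_T δ g j i * δ^[i] f := by
  intro j
  induction j with
  | zero => simp [wex_T]
  | succ j ih =>
    rw [Function.iterate_succ_apply', ih, map_sum]
    have h1 : ∀ i ∈ Finset.range (j + 1), δ (wex_T δ g j i * δ^[i] f) =
        δ (wex_T δ g j i) * δ^[i] f + wex_T δ g j i * δ^[i + 1] f := by
      intro i _
      rw [Derivation.leibniz, Function.iterate_succ_apply']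
      simp only [smul_eq_mul]
      ring
    rw [Finset.sum_congr rfl h1, Finset.sum_add_distrib]
    have h2 : ∑ i ∈ Finset.range (j + 1 + 1), wex_T δ g (j + 1) i * δ^[i] f =
        ∑ i ∈ Finset.range (j + 1 + 1), δ (wex_T δ g j i) * δ^[i] f +
        ∑ i ∈ Finset.range (j + 1 + 1),
          (if i = 0 then 0 else wex_T δ g j (i - 1)) * δ^[i] f := by
      rw [← Finset.sum_add_distrib]
      refine Finset.sum_congr rfl fun i _ => ?_
      simp only [wex_T]
      ring
    rw [h2]
    congr 1
    · rw [Finset.sum_range_succ _ (j + 1), wex_T_zero δ g j (j + 1) (by omega), map_zero,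
        zero_mul, add_zero]
    · rw [Finset.sum_range_succ' _ (j + 1)]
      simp

theorem piece_WHOM : S_WHOM := by
  intro L _ _ δ N f g
  unfold wrD
  have h1 : (Matrix.of fun i j : Fin N => δ^[(j : ℕ)] (g * f i)) =
      (Matrix.of fun i j : Fin N => δ^[(j : ℕ)] (f i)) *
      (Matrix.of fun i j : Fin N => wex_T δ g (j : ℕ) (i : ℕ)) := by
    ext i j
    simp only [Matrix.of_apply, Matrix.mul_apply]
    rw [wex_T_spec, Finset.sum_fin_eq_sum_range]
    rw [← Finset.sum_subset (Finset.range_subset_range.mpr (show (j : ℕ) + 1 ≤ N by omega))]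
    · refine Finset.sum_congr rfl fun k hk => ?_
      have hk' := Finset.mem_range.mp hk
      rw [dif_pos (by omega)]
      ring
    · intro k hk hk'
      have h3 := Finset.mem_range.mp hk
      rw [dif_pos h3]
      have h4 : (j : ℕ) < k := by
        by_contra hcon
        exact hk' (Finset.mem_range.mpr (by omega))
      simp only
      rw [wex_T_zero δ g _ _ h4, mul_zero]
  rw [h1, Matrix.det_mul, mul_comm]
  congr 1
  rw [Matrix.det_of_isUpperTriangular]
  · simp [wex_T_diag]
  · intro i j hij
    simp only [Matrix.of_apply]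
    exact wex_T_zero δ g _ _ (by simpa using hij)

end Pool.Agent.Lib.MP_627a61_nt.Hy
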