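import Pool.Agent.Lib.MP_627a61_nt.Hy.DStm

/-!
# WNZ: the Wronskian of independent elements is nonzero
-/

namespace Pool.Agent.Lib.MP_627a61_nt.Hy

theorem wnz_aux (L : Type) [Field L] [Algebra ℂ L] (δ : Derivation ℂ L L)
    (hδ : ∀ x, δ x = 0 → x ∈ Set.range (algebraMap ℂ L)) : ∀ (N : ℕ) (f : Fin N → L),
    LinearIndependent ℂ f → wrD δ f ≠ 0 := by
  intro N
  induction N with
  | zero =>
    intro f _
    simp [wrD]
  | succ N ih =>
    intro f hf h0
    obtain ⟨a, ha0, ha⟩ := Matrix.exists_vecMul_eq_zero_iff.mpr h0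
    obtain ⟨i₀, hi₀⟩ : ∃ i, a i ≠ 0 := by
      by_contra hcon
      push Not at hcon
      exact ha0 (funext hcon)
    have haj : ∀ j : Fin (N + 1), ∑ i, a i * δ^[(j : ℕ)] (f i) = 0 := by
      intro j
      have := congrFun ha j
      simpa [Matrix.vecMul, dotProduct] using this
    set b : Fin (N + 1) → L := fun i => a i / a i₀ with hb
    have hb0 : b i₀ = 1 := by simp [hb, hi₀]
    have hbj : ∀ j : ℕ, j < N + 1 → ∑ i, b i * δ^[j] (f i) = 0 := by
      intro j hj
      have h1 := haj ⟨j, hj⟩
      simp only at h1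
      have h2 : ∑ i, b i * δ^[j] (f i) = (a i₀)⁻¹ * ∑ i, a i * δ^[j] (f i) := by
        rw [Finset.mul_sum]
        refine Finset.sum_congr rfl fun i _ => ?_
        simp only [hb]
        rw [div_eq_mul_inv]
        ring
      rw [h2, h1, mul_zero]
    have hd : ∀ j : Fin N, ∑ i : Fin N, δ (b (i₀.succAbove i)) *
        δ^[(j : ℕ)] (f (i₀.succAbove i)) = 0 := by
      intro j
      have h1 := hbj (j : ℕ) (by omega)
      have h2 := hbj ((j : ℕ) + 1) (by omega)
      have h3 : δ (∑ i, b i * δ^[(j : ℕ)] (f i)) = 0 := by rw [h1, map_zero]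
      rw [map_sum] at h3
      have h4 : ∑ i, δ (b i) * δ^[(j : ℕ)] (f i) = 0 := by
        have h5 : ∀ i, δ (b i * δ^[(j : ℕ)] (f i)) =
            b i * δ^[(j : ℕ) + 1] (f i) + δ (b i) * δ^[(j : ℕ)] (f i) := by
          intro i
          rw [Derivation.leibniz, Function.iterate_succ_apply']
          simp only [smul_eq_mul]
          ring
        rw [Finset.sum_congr rfl fun i _ => h5 i, Finset.sum_add_distrib, h2, zero_add] at h3
        exact h3
      rw [Fin.sum_univ_succAbove _ i₀] at h4
      have h6 : δ (b i₀) = 0 := by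
        rw [hb0]
        exact Derivation.map_one_eq_zero δ
      rw [h6, zero_mul, zero_add] at h4
      exact h4
    have hli : LinearIndependent ℂ (fun i => f (i₀.succAbove i)) :=
      hf.comp _ Fin.succAbove_right_injective
    have hne := ih (fun i => f (i₀.succAbove i)) hli
    have hz : (fun i => δ (b (i₀.succAbove i))) = 0 := by
      by_contra hcon
      apply hne
      unfold wrD
      apply Matrix.exists_vecMul_eq_zero_iff.mp
      refine ⟨_, hcon, ?_⟩
      funext j
      have := hd j
      simpa [Matrix.vecMul, dotProduct] using this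
    have hc : ∀ i, b i ∈ Set.range (algebraMap ℂ L) := by
      intro i
      apply hδ
      rcases Fin.eq_self_or_eq_succAbove i₀ i with rfl | ⟨k, rfl⟩
      · rw [hb0]
        exact Derivation.map_one_eq_zero δ
      · exact congrFun hz k
    choose c hc using hc
    have hsum : ∑ i, c i • f i = 0 := by
      have := hbj 0 (by omega)
      rw [← this]
      refine Finset.sum_congr rfl fun i _ => ?_
      rw [← hc i, Algebra.smul_def]
      simp
    have hci := (Fintype.linearIndependent_iff.mp hf) c hsum i₀
    have : b i₀ = 0 := by rw [← hc i₀, hci, map_zero]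
    rw [hb0] at this
    exact one_ne_zero this

theorem piece_WNZ : S_WNZ := by
  intro L _ _ δ hδ N f hf
  exact wnz_aux L δ hδ N f hf

end Pool.Agent.Lib.MP_627a61_nt.Hy
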