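import Pool.Agent.Lib.MP_627a61_nt.Hy.DStm

/-!
# WSC: the Wronskian for the derivation `g δ`
-/

namespace Pool.Agent.Lib.MP_627a61_nt.Hy

/-- the coefficients of `(g δ)^j f = ∑ T j i δ^i f` -/
noncomputable def wsc_T {L : Type} [Field L] [Algebra ℂ L] (δ : Derivation ℂ L L) (g : L) :
    ℕ → ℕ → L
  | 0, i => if i = 0 then 1 else 0
  | j + 1, i => g * (δ (wsc_T δ g j i) + (if i = 0 then 0 else wsc_T δ g j (i - 1)))

theorem wsc_T_zero {L : Type} [Field L] [Algebra ℂ L] (δ : Derivation ℂ L L) (g : L) :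
    ∀ j i : ℕ, j < i → wsc_T δ g j i = 0 := by
  intro j
  induction j with
  | zero =>
    intro i hi
    simp only [wsc_T]
    rw [if_neg (by omega)]
  | succ j ih =>
    intro i hi
    simp only [wsc_T]
    rw [ih i (by omega), map_zero, zero_add, if_neg (by omega), ih (i - 1) (by omega), mul_zero]

theorem wsc_T_diag {L : Type} [Field L] [Algebra ℂ L] (δ : Derivation ℂ L L) (g : L) :
    ∀ j : ℕ, wsc_T δ g j j = g ^ j := by
  intro j
  induction j with
  | zero => simp [wsc_T]
  | succ j ih =>
    simp only [wsc_T]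
    rw [wsc_T_zero δ g j (j + 1) (by omega), map_zero, zero_add, if_neg (by omega)]
    rw [Nat.add_sub_cancel, ih, pow_succ']

theorem wsc_T_spec {L : Type} [Field L] [Algebra ℂ L] (δ : Derivation ℂ L L) (g f : L) :
    ∀ j : ℕ, (g • δ)^[j] f = ∑ i ∈ Finset.range (j + 1), wsc_T δ g j i * δ^[i] f := by
  intro j
  induction j with
  | zero => simp [wsc_T]
  | succ j ih =>
    rw [Function.iterate_succ_apply', ih, Derivation.smul_apply, map_sum, Finset.smul_sum]
    have h1 : ∀ i ∈ Finset.range (j + 1), g • δ (wsc_T δ g j i * δ^[i] f) =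
        g * δ (wsc_T δ g j i) * δ^[i] f + g * wsc_T δ g j i * δ^[i + 1] f := by
      intro i _
      rw [Derivation.leibniz, Function.iterate_succ_apply']
      simp only [smul_eq_mul]
      ring
    rw [Finset.sum_congr rfl h1, Finset.sum_add_distrib]
    have h2 : ∑ i ∈ Finset.range (j + 1 + 1), wsc_T δ g (j + 1) i * δ^[i] f =
        ∑ i ∈ Finset.range (j + 1 + 1), g * δ (wsc_T δ g j i) * δ^[i] f +
        ∑ i ∈ Finset.range (j + 1 + 1),
          (if i = 0 then 0 else g * wsc_T δ g j (i - 1)) * δ^[i] f := by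
      rw [← Finset.sum_add_distrib]
      refine Finset.sum_congr rfl fun i _ => ?_
      simp only [wsc_T]
      split_ifs <;> ring
    rw [h2]
    congr 1
    · rw [Finset.sum_range_succ _ (j + 1), wsc_T_zero δ g j (j + 1) (by omega), map_zero,
        mul_zero, zero_mul, add_zero]
    · rw [Finset.sum_range_succ' _ (j + 1)]
      simp

theorem piece_WSC : S_WSC := by
  intro L _ _ δ N f g
  unfold wrD
  have h1 : (Matrix.of fun i j : Fin (N + 1) => (g • δ)^[(j : ℕ)] (f i)) =
      (Matrix.of fun i j : Fin (N + 1) => δ^[(j : ℕ)] (f i)) *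
      (Matrix.of fun i j : Fin (N + 1) => wsc_T δ g (j : ℕ) (i : ℕ)) := by
    ext i j
    simp only [Matrix.of_apply, Matrix.mul_apply]
    rw [wsc_T_spec, Finset.sum_fin_eq_sum_range]
    rw [← Finset.sum_subset (Finset.range_subset_range.mpr (show (j : ℕ) + 1 ≤ N + 1 by omega))]
    · refine Finset.sum_congr rfl fun k hk => ?_
      have hk' := Finset.mem_range.mp hk
      rw [dif_pos (by omega)]
      ring
    · intro k hk hk'
      have h3 := Finset.mem_range.mp hk
      rw [dif_pos h3]
      have h4 : (j : ℕ) < k := by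
        by_contra hcon
        exact hk' (Finset.mem_range.mpr (by omega))
      simp only
      rw [wsc_T_zero δ g _ _ h4, mul_zero]
  rw [h1, Matrix.det_mul, mul_comm]
  congr 1
  rw [Matrix.det_of_isUpperTriangular]
  · simp only [Matrix.of_apply, wsc_T_diag]
    rw [Finset.prod_pow_eq_pow_sum]
    congr 1
    rw [Fin.sum_univ_eq_sum_range (fun i => i) (N + 1), Finset.sum_range_id, Nat.add_sub_cancel,
      Nat.mul_comm]
  · intro i j hij
    simp only [Matrix.of_apply]
    exact wsc_T_zero δ g _ _ (by simpa using hij)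

end Pool.Agent.Lib.MP_627a61_nt.Hy
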