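import Pool.Agent.Lib.MP_627a61_nt.Hy.GStm

/-!
# HYP: generic parameters by ultraproducts
-/

set_option autoImplicit false

open MvPolynomial Filter

namespace Pool.Agent.Lib.MP_627a61_nt.Hy

universe u v w

section
variable {k : Type u} [Field k] {T : Type}

lemma mem_genFilter {g : MvPolynomial T k} (hg : g ≠ 0) :
    {t | eval t g ≠ 0} ∈ genFilter k T :=
  mem_iInf_of_mem (⟨g, hg⟩ : {g : MvPolynomial T k // g ≠ 0}) (mem_principal_self _)

lemma genFilter_neBot [Infinite k] [Finite T] : (genFilter k T).NeBot := by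
  unfold genFilter
  have hd : Directed (· ≥ ·) fun g : {g : MvPolynomial T k // g ≠ 0} =>
      (𝓟 {t : T → k | eval t g.1 ≠ 0} : Filter (T → k)) := by
    intro g h
    refine ⟨⟨g.1 * h.1, mul_ne_zero g.2 h.2⟩, ?_, ?_⟩
    · refine principal_mono.2 fun t ht => ?_
      simp only [Set.mem_ofPred_eq, map_mul, ne_eq, mul_eq_zero, not_or] at ht ⊢
      exact ht.1
    · refine principal_mono.2 fun t ht => ?_
      simp only [Set.mem_ofPred_eq, map_mul, ne_eq, mul_eq_zero, not_or] at ht ⊢
      exact ht.2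
  have : Nonempty {g : MvPolynomial T k // g ≠ 0} := ⟨⟨1, one_ne_zero⟩⟩
  refine iInf_neBot_of_directed hd fun g => principal_neBot_iff.2 ?_
  by_contra hcon
  rw [Set.not_nonempty_iff_eq_empty] at hcon
  apply g.2
  apply MvPolynomial.funext
  intro t
  by_contra ht
  rw [map_zero] at ht
  have : t ∈ {t : T → k | eval t g.1 ≠ 0} := ht
  rw [hcon] at this
  exact this

/-- the ideal of the ultraproduct -/
def ultIdeal (U : Ultrafilter (T → k)) (L : (T → k) → Type v) [∀ t, Field (L t)] :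
    Ideal (∀ t, L t) where
  carrier := {f | ∀ᶠ t in (U : Filter (T → k)), f t = 0}
  add_mem' := by
    intro f g hf hg
    filter_upwards [hf, hg] with t h1 h2
    rw [Pi.add_apply, h1, h2, add_zero]
  zero_mem' := Eventually.of_forall fun _ => rfl
  smul_mem' := by
    intro c f hf
    filter_upwards [hf] with t h1
    rw [smul_eq_mul, Pi.mul_apply, h1, mul_zero]

lemma mem_ultIdeal {U : Ultrafilter (T → k)} {L : (T → k) → Type v} [∀ t, Field (L t)]
    {f : ∀ t, L t} : f ∈ ultIdeal U L ↔ ∀ᶠ t in (U : Filter (T → k)), f t = 0 := Iff.rfl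

lemma ultIdeal_isMaximal (U : Ultrafilter (T → k)) (L : (T → k) → Type v) [∀ t, Field (L t)] :
    (ultIdeal U L).IsMaximal := by
  classical
  rw [Ideal.isMaximal_iff]
  constructor
  · rw [mem_ultIdeal]
    intro h
    obtain ⟨t, ht⟩ := h.exists
    exact one_ne_zero ht
  · intro J x hJ hx hxJ
    let y : ∀ t, L t := fun t => (x t)⁻¹
    have h1 : 1 - y * x ∈ ultIdeal U L := by
      rw [mem_ultIdeal]
      have : ∀ᶠ t in (U : Filter (T → k)), ¬ x t = 0 := by
        rw [mem_ultIdeal] at hx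
        exact Ultrafilter.eventually_not.2 hx
      filter_upwards [this] with t ht
      simp only [Pi.sub_apply, Pi.one_apply, Pi.mul_apply, y]
      rw [inv_mul_cancel₀ ht, sub_self]
    have h2 : (1 : ∀ t, L t) = (1 - y * x) + y * x := by ring
    rw [h2]
    exact J.add_mem (hJ h1) (J.mul_mem_left _ hxJ)

theorem ultra (U : Ultrafilter (T → k)) (hU : (U : Filter (T → k)) ≤ genFilter k T)
    (L : (T → k) → Type v) [∀ t, Field (L t)] (τ : ∀ t, k →+* L t) :
    ∃ (Ω : Type (max u v)) (_ : Field Ω) (φ : (∀ t, L t) →+* Ω), Function.Surjective φ ∧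
      (∀ f, φ f = 0 ↔ ∀ᶠ t in (U : Filter (T → k)), f t = 0) ∧
      ∀ g : MvPolynomial T k, g ≠ 0 →
        g.eval₂ (φ.comp (RingHom.pi τ)) (fun i => φ fun t => τ t (t i)) ≠ 0 := by
  have := ultIdeal_isMaximal U L
  refine ⟨(∀ t, L t) ⧸ ultIdeal U L, Ideal.Quotient.field _, Ideal.Quotient.mk _,
    Ideal.Quotient.mk_surjective, fun f => ?_, ?_⟩
  · rw [Ideal.Quotient.eq_zero_iff_mem, mem_ultIdeal]
  · intro g hg
    have h1 : g.eval₂ ((Ideal.Quotient.mk (ultIdeal U L)).comp (RingHom.pi τ))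
        (fun i => Ideal.Quotient.mk (ultIdeal U L) fun t => τ t (t i)) =
        Ideal.Quotient.mk (ultIdeal U L)
          (g.eval₂ (RingHom.pi τ) (fun i => fun t => τ t (t i))) :=
      (eval₂_comp_left (Ideal.Quotient.mk (ultIdeal U L)) (RingHom.pi τ)
        (fun i => fun t => τ t (t i)) g).symm
    have h2 : (g.eval₂ (RingHom.pi τ) (fun i => fun t => τ t (t i)) : ∀ t, L t) =
        fun t => τ t (eval t g) := by
      funext t
      have h3 := eval₂_comp_left (Pi.evalRingHom L t) (RingHom.pi τ)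
        (fun i => fun t => τ t (t i)) g
      rw [Pi.evalRingHom_apply] at h3
      rw [h3]
      have h4 := eval₂_comp_left (τ t) (RingHom.id k) t g
      rw [RingHom.comp_id] at h4
      rw [eval, coe_eval₂Hom, h4]
      rfl
    rw [h1, h2]
    intro h0
    rw [Ideal.Quotient.eq_zero_iff_mem, mem_ultIdeal] at h0
    have h5 : ∀ᶠ t in (U : Filter (T → k)), eval t g ≠ 0 := hU (mem_genFilter hg)
    obtain ⟨t, h6, h7⟩ := (h0.and h5).exists
    exact h7 ((map_eq_zero (τ t)).1 h6)

end

end Pool.Agent.Lib.MP_627a61_nt.Hy
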