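import Pool.Agent.Lib.MP_627a61_nt.Hy.MStm

/-!
# Project DIM/HYP, version D: bounded elements

Proof of `S_BDD`: bounded elements form an algebra, they are integrally closed, the set is stable
under automorphisms, it has the right trace on `K`, and derivatives of elements bounded on a
neighbourhood are bounded.
-/

open Filter Metric

namespace Pool.Agent.Lib.MP_627a61_nt.Hy

namespace BDD

variable {K L : Type} [Field K] [Algebra ℂ K] [Field L] [Algebra K L]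

/-- one may take the bound to be nonnegative -/
lemma nonneg {M : MeroSys K} {S : Set ℂ} {x : L} (h : Bd M L S x) :
    ∃ C : ℝ, 0 ≤ C ∧ ∀ t ∈ S, ∀ P : Pl M L t, ∃ h : x ∈ P.V, ‖P.ψ ⟨x, h⟩‖ ≤ C := by
  obtain ⟨C, hC⟩ := h
  refine ⟨max C 0, le_max_right _ _, fun t ht P => ?_⟩
  obtain ⟨h1, h2⟩ := hC t ht P
  exact ⟨h1, h2.trans (le_max_left _ _)⟩

lemma add {M : MeroSys K} {S : Set ℂ} {x y : L} (hx : Bd M L S x) (hy : Bd M L S y) :
    Bd M L S (x + y) := by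
  obtain ⟨C, hC⟩ := hx
  obtain ⟨C', hC'⟩ := hy
  refine ⟨C + C', fun t ht P => ?_⟩
  obtain ⟨h1, h2⟩ := hC t ht P
  obtain ⟨h3, h4⟩ := hC' t ht P
  refine ⟨P.V.add_mem _ _ h1 h3, ?_⟩
  have : P.ψ ⟨x + y, P.V.add_mem _ _ h1 h3⟩ = P.ψ ⟨x, h1⟩ + P.ψ ⟨y, h3⟩ := by
    rw [← map_add]; rfl
  rw [this]
  exact (norm_add_le _ _).trans (add_le_add h2 h4)

lemma mul {M : MeroSys K} {S : Set ℂ} {x y : L} (hx : Bd M L S x) (hy : Bd M L S y) :
    Bd M L S (x * y) := by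
  obtain ⟨C, hC0, hC⟩ := nonneg hx
  obtain ⟨C', hC'0, hC'⟩ := nonneg hy
  refine ⟨C * C', fun t ht P => ?_⟩
  obtain ⟨h1, h2⟩ := hC t ht P
  obtain ⟨h3, h4⟩ := hC' t ht P
  refine ⟨P.V.mul_mem _ _ h1 h3, ?_⟩
  have : P.ψ ⟨x * y, P.V.mul_mem _ _ h1 h3⟩ = P.ψ ⟨x, h1⟩ * P.ψ ⟨y, h3⟩ := by
    rw [← map_mul]; rfl
  rw [this, norm_mul]
  exact mul_le_mul h2 h4 (norm_nonneg _) hC0

lemma algMap [Algebra ℂ L] [IsScalarTower ℂ K L] (M : MeroSys K) (S : Set ℂ) (c : ℂ) :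
    Bd M L S (algebraMap ℂ L c) := by
  refine ⟨‖c‖, fun t _ P => ?_⟩
  rw [IsScalarTower.algebraMap_apply ℂ K L]
  refine ⟨P.le _ (M.alg_mem t c), ?_⟩
  rw [P.ext _ (M.alg_mem t c), M.ev_alg]

/-- the bound for roots of monic polynomials over the complex numbers -/
lemma root_bound {n : ℕ} (a : ℕ → ℂ) (C : ℕ → ℝ) (ha : ∀ j, ‖a j‖ ≤ C j) (y : ℂ)
    (hy : y ^ n + ∑ j ∈ Finset.range n, a j * y ^ j = 0) :
    ‖y‖ ≤ 1 + ∑ j ∈ Finset.range n, C j := by
  have hC : ∀ j, 0 ≤ C j := fun j => (norm_nonneg _).trans (ha j)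
  have hsum : 0 ≤ ∑ j ∈ Finset.range n, C j := Finset.sum_nonneg fun j _ => hC j
  by_cases h1 : ‖y‖ ≤ 1
  · linarith
  push Not at h1
  rcases n with _ | n
  · simp at hy
  have h2 : y ^ (n + 1) = - ∑ j ∈ Finset.range (n + 1), a j * y ^ j := by
    linear_combination hy
  have h3 : ‖y‖ ^ (n + 1) ≤ (∑ j ∈ Finset.range (n + 1), C j) * ‖y‖ ^ n := by
    rw [← norm_pow, h2, norm_neg, Finset.sum_mul]
    refine (norm_sum_le _ _).trans (Finset.sum_le_sum fun j hj => ?_)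
    rw [norm_mul, norm_pow]
    refine mul_le_mul (ha j) ?_ (by positivity) (hC j)
    exact pow_le_pow_right₀ h1.le (by have := Finset.mem_range.1 hj; omega)
  have h4 : 0 < ‖y‖ ^ n := by positivity
  rw [pow_succ, mul_comm] at h3
  have h5 := le_of_mul_le_mul_right h3 h4
  linarith

/-- roots of monic polynomials with bounded coefficients are bounded -/
lemma root {M : MeroSys K} {S : Set ℂ} (p : Polynomial L) (x : L) (hp : p.Monic)
    (hc : ∀ j, Bd M L S (p.coeff j)) (hx : p.eval x = 0) : Bd M L S x := by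
  choose C hC using hc
  refine ⟨1 + ∑ j ∈ Finset.range p.natDegree, C j, fun t ht P => ?_⟩
  have hcm : ∀ j, p.coeff j ∈ P.V := fun j => (hC j t ht P).1
  have hcb : ∀ j, ‖P.ψ ⟨p.coeff j, hcm j⟩‖ ≤ C j := fun j => (hC j t ht P).2
  have hexp : x ^ p.natDegree + ∑ j ∈ Finset.range p.natDegree, p.coeff j * x ^ j = 0 := by
    rw [Polynomial.eval_eq_sum_range, Finset.sum_range_succ, hp.coeff_natDegree, one_mul] at hx
    rw [add_comm]; exact hx
  -- integrality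
  have hmem : x ∈ P.V := by
    have hlift : p ∈ Polynomial.lifts (algebraMap P.V L) := by
      rw [Polynomial.lifts_iff_coeff_lifts]
      intro j
      exact ⟨⟨p.coeff j, hcm j⟩, rfl⟩
    obtain ⟨q, hq, -, hqm⟩ := Polynomial.lifts_and_natDegree_eq_and_monic hlift hp
    have hint : IsIntegral P.V x := by
      refine ⟨q, hqm, ?_⟩
      rw [← Polynomial.eval_map, hq]
      exact hx
    obtain ⟨z, hz⟩ := IsIntegrallyClosed.isIntegral_iff.1 hint
    rw [← hz]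
    exact z.2
  refine ⟨hmem, ?_⟩
  refine root_bound (n := p.natDegree) (fun j => P.ψ ⟨p.coeff j, hcm j⟩) C hcb _ ?_
  have h1 : (⟨x, hmem⟩ : P.V) ^ p.natDegree +
      ∑ j ∈ Finset.range p.natDegree, (⟨p.coeff j, hcm j⟩ : P.V) * (⟨x, hmem⟩ : P.V) ^ j = 0 := by
    apply Subtype.ext
    push_cast
    exact hexp
  have h2 := congrArg P.ψ h1
  simpa only [map_add, map_pow, map_sum, map_mul, map_zero] using h2

/-- a place composed with an automorphism -/
def comapPl {M : MeroSys K} {t : ℂ} (P : Pl M L t) (τ : L ≃ₐ[K] L) : Pl M L t where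
  V := P.V.comap (τ : L →+* L)
  ψ := P.ψ.comp
    { toFun := fun x => (⟨τ x.1, x.2⟩ : P.V)
      map_one' := Subtype.ext (by simp)
      map_mul' := fun x y => Subtype.ext (by simp)
      map_zero' := Subtype.ext (by simp)
      map_add' := fun x y => Subtype.ext (by simp) }
  le := fun x hx => by
    change τ (algebraMap K L x) ∈ P.V
    rw [τ.commutes]
    exact P.le x hx
  ext := fun x hx => by
    rw [← P.ext x hx]
    change P.ψ _ = P.ψ _
    congr 1
    exact Subtype.ext (τ.commutes x)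

lemma aut {M : MeroSys K} {S : Set ℂ} (τ : L ≃ₐ[K] L) (x : L) (hx : Bd M L S x) :
    Bd M L S (τ x) := by
  obtain ⟨C, hC⟩ := hx
  refine ⟨C, fun t ht P => ?_⟩
  obtain ⟨h1, h2⟩ := hC t ht (comapPl P τ)
  exact ⟨h1, h2⟩

/-- the elements of `O t` which have value different from zero are units -/
lemma inv_mem {M : MeroSys K} {t : ℂ} {y : K} (hy : y ∈ M.O t) (h0 : M.ev t ⟨y, hy⟩ ≠ 0) :
    y⁻¹ ∈ M.O t := by
  have hsurj : Function.Surjective (M.ev t) := fun c => ⟨⟨algebraMap ℂ K c, M.alg_mem t c⟩,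
    M.ev_alg t c⟩
  have hmax : (RingHom.ker (M.ev t)).IsMaximal := RingHom.ker_isMaximal_of_surjective _ hsurj
  have hker : RingHom.ker (M.ev t) = IsLocalRing.maximalIdeal (M.O t) :=
    IsLocalRing.eq_maximalIdeal hmax
  have hu : IsUnit (⟨y, hy⟩ : M.O t) := by
    by_contra hn
    have h1 : (⟨y, hy⟩ : M.O t) ∈ IsLocalRing.maximalIdeal (M.O t) := hn
    rw [← hker, RingHom.mem_ker] at h1
    exact h0 h1
  obtain ⟨u, hu⟩ := hu
  have h2 : (u : M.O t).1 * ((u⁻¹ : (M.O t)ˣ) : M.O t).1 = 1 := by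
    exact congrArg Subtype.val (u.mul_inv)
  rw [hu] at h2
  have h3 : ((u⁻¹ : (M.O t)ˣ) : M.O t).1 = y⁻¹ := by
    exact eq_inv_of_mul_eq_one_right h2
  rw [← h3]
  exact Subtype.property _

/-- an element of `K` which is finite at a place over `t` is in `O t` -/
lemma mem_of_place {M : MeroSys K} {t : ℂ} (P : Pl M L t) {x : K} (hx : algebraMap K L x ∈ P.V) :
    x ∈ M.O t := by
  by_contra hn
  have h1 : x⁻¹ ∈ M.O t := ((M.O t).mem_or_inv_mem x).resolve_left hn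
  have hx0 : x ≠ 0 := by
    rintro rfl
    exact hn (M.O t).zero_mem
  have h2 : M.ev t ⟨x⁻¹, h1⟩ = 0 := by
    by_contra h0
    have := inv_mem h1 h0
    rw [inv_inv] at this
    exact hn this
  have h3 : (⟨algebraMap K L x, hx⟩ : P.V) * ⟨algebraMap K L x⁻¹, P.le _ h1⟩ = 1 := by
    apply Subtype.ext
    change algebraMap K L x * algebraMap K L x⁻¹ = 1
    rw [← map_mul, mul_inv_cancel₀ hx0, map_one]
  have h4 := congrArg P.ψ h3
  rw [map_mul, P.ext x⁻¹ h1, h2, mul_zero, map_one] at h4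
  exact zero_ne_one h4

end BDD

theorem bdd (h : S_EVAL) : S_BDD := by
  intro K L _ _ _ _ _ _ _ M S
  refine ⟨?_, BDD.root, BDD.aut, fun x => ⟨?_, ?_⟩, ?_⟩
  · exact ⟨{ carrier := {x | Bd M L S x}
             mul_mem' := fun ha hb => BDD.mul ha hb
             add_mem' := fun ha hb => BDD.add ha hb
             algebraMap_mem' := fun c => BDD.algMap M S c }, fun x => Iff.rfl⟩
  · rintro ⟨C, hC⟩
    refine ⟨C, fun t ht => ?_⟩
    obtain ⟨P⟩ := h K L M t
    obtain ⟨h1, h2⟩ := hC t ht P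
    have h3 := BDD.mem_of_place P h1
    refine ⟨h3, ?_⟩
    rw [P.ext x h3] at h2
    exact h2
  · rintro ⟨C, hC⟩
    refine ⟨C, fun t ht P => ?_⟩
    obtain ⟨h1, h2⟩ := hC t ht
    refine ⟨P.le x h1, ?_⟩
    rw [P.ext x h1]
    exact h2
  · intro ρ x j hρ hx
    obtain ⟨C, hC⟩ := hx
    obtain ⟨C', hC'⟩ := M.cauchy ρ C hρ j
    exact ⟨C', fun t ht => hC' t x fun t' ht' => hC t' ⟨t, ht, ht'⟩⟩

end Pool.Agent.Lib.MP_627a61_nt.Hy

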