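import Pool.Agent.Lib.MP_627a61_nt.Hy.MStm

set_option autoImplicit false

/-!
# Project DIM/HYP, version D: CHART, curves of bounded speed have uniform charts
-/

open scoped LinearAlgebra.Projectivization Topology
open Filter Metric

namespace Pool.Agent.Lib.MP_627a61_nt.Hy

/-- An element with nonzero value has its inverse in the valuation ring, with the inverse value. -/
theorem chart_unit {K : Type} [Field K] [Algebra ℂ K] (M : MeroSys K) (t : ℂ) (a : K)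
    (ha : a ∈ M.O t) (h0 : M.ev t ⟨a, ha⟩ ≠ 0) :
    ∃ h : a⁻¹ ∈ M.O t, M.ev t ⟨a⁻¹, h⟩ * M.ev t ⟨a, ha⟩ = 1 := by
  have hsurj : Function.Surjective (M.ev t) := fun c => ⟨_, M.ev_alg t c⟩
  have hmax : (RingHom.ker (M.ev t)).IsMaximal := RingHom.ker_isMaximal_of_surjective _ hsurj
  have hker : RingHom.ker (M.ev t) = IsLocalRing.maximalIdeal (M.O t) :=
    IsLocalRing.eq_maximalIdeal hmax
  have hu : IsUnit (⟨a, ha⟩ : M.O t) := by
    by_contra hn
    have h1 : (⟨a, ha⟩ : M.O t) ∈ IsLocalRing.maximalIdeal (M.O t) :=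
      (IsLocalRing.mem_maximalIdeal _).2 hn
    rw [← hker, RingHom.mem_ker] at h1
    exact h0 h1
  obtain ⟨b, hb⟩ := hu.exists_right_inv
  have hb' : a * (b : K) = 1 := by
    have := congrArg Subtype.val hb
    simpa using this
  have hinv : a⁻¹ = (b : K) := inv_eq_of_mul_eq_one_right hb'
  have hmem : a⁻¹ ∈ M.O t := by
    rw [hinv]
    exact b.2
  refine ⟨hmem, ?_⟩
  have hbe : (⟨a⁻¹, hmem⟩ : M.O t) = b := Subtype.ext hinv
  rw [hbe, ← map_mul, mul_comm, hb, map_one]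

theorem chart : S_CHART := by
  intro K _ _ M N φ f hφ hrep hspd c hc
  refine ⟨c / 4, by positivity, 2 / c + 1, fun t i hti => ?_⟩
  have key : ∀ t' ∈ ball t (c / 4), f i ≠ 0 ∧
      ∀ j, ∃ h : f j / f i ∈ M.O t', ‖M.ev t' ⟨f j / f i, h⟩‖ ≤ 2 / c + 1 := by
    intro t' ht'
    have hlip : ‖pm (φ t') - pm (φ t)‖ ≤ 2 * ‖t' - t‖ :=
      lipschitz_of_spd (C := 2) convex_univ (fun z _ => hφ z) (fun z _ => hspd z)
        (Set.mem_univ t) (Set.mem_univ t')
    have hd : ‖t' - t‖ < c / 4 := by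
      rw [mem_ball, dist_eq_norm] at ht'
      exact ht'
    have hent : ‖pm (φ t') i i - pm (φ t) i i‖ ≤ ‖pm (φ t') - pm (φ t)‖ := by
      have h1 := norm_le_pi_norm (pm (φ t') - pm (φ t)) i
      have h2 := norm_le_pi_norm ((pm (φ t') - pm (φ t)) i) i
      exact le_trans h2 h1
    have hlow : c / 2 ≤ ‖pm (φ t') i i‖ := by
      have h1 : ‖pm (φ t) i i‖ ≤ ‖pm (φ t') i i‖ + ‖pm (φ t') i i - pm (φ t) i i‖ := by
        have h2 : pm (φ t) i i = pm (φ t') i i - (pm (φ t') i i - pm (φ t) i i) := by ring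
        calc ‖pm (φ t) i i‖ = ‖pm (φ t') i i - (pm (φ t') i i - pm (φ t) i i)‖ := by rw [← h2]
          _ ≤ _ := norm_sub_le _ _
      linarith
    obtain ⟨g, h, h0, he⟩ := hrep t'
    set x : Fin N → ℂ := fun i => M.ev t' ⟨g * f i, h i⟩ with hx
    rw [he, pm_mk, norm_pmv] at hlow
    have hS : 0 < ∑ k, ‖x k‖ ^ 2 := sum_sq_pos h0
    rw [le_div_iff₀ hS] at hlow
    change c / 2 * ∑ k, ‖x k‖ ^ 2 ≤ ‖x i‖ * ‖x i‖ at hlow
    have hxi : x i ≠ 0 := by
      intro hz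
      rw [hz, norm_zero, zero_mul] at hlow
      have : 0 < c / 2 * ∑ k, ‖x k‖ ^ 2 := by positivity
      linarith
    have hgi : g * f i ≠ 0 := by
      intro hz
      apply hxi
      have : (⟨g * f i, h i⟩ : M.O t') = 0 := Subtype.ext hz
      show M.ev t' ⟨g * f i, h i⟩ = 0
      rw [this, map_zero]
    have hfi : f i ≠ 0 := right_ne_zero_of_mul hgi
    have hg : g ≠ 0 := left_ne_zero_of_mul hgi
    refine ⟨hfi, fun j => ?_⟩
    obtain ⟨hm, hv⟩ := chart_unit M t' (g * f i) (h i) hxi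
    have hq : f j / f i = g * f j * (g * f i)⁻¹ := by
      field_simp
    have hmem : f j / f i ∈ M.O t' := by
      rw [hq]
      exact (M.O t').mul_mem _ _ (h j) hm
    refine ⟨hmem, ?_⟩
    have hval : M.ev t' ⟨f j / f i, hmem⟩ = x j * M.ev t' ⟨(g * f i)⁻¹, hm⟩ := by
      show _ = M.ev t' ⟨g * f j, h j⟩ * M.ev t' ⟨(g * f i)⁻¹, hm⟩
      rw [← map_mul]
      congr 1
      exact Subtype.ext hq
    have hv' : M.ev t' ⟨(g * f i)⁻¹, hm⟩ = (x i)⁻¹ := eq_inv_of_mul_eq_one_left hv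
    rw [hval, hv', ← div_eq_mul_inv, norm_div]
    have hni : 0 < ‖x i‖ := norm_pos_iff.2 hxi
    have hj : ‖x j‖ ^ 2 ≤ ∑ k, ‖x k‖ ^ 2 :=
      Finset.single_le_sum (f := fun k => ‖x k‖ ^ 2) (fun k _ => by positivity) (Finset.mem_univ j)
    have hsq : (‖x j‖ / ‖x i‖) ^ 2 ≤ 2 / c := by
      rw [div_pow, div_le_div_iff₀ (by positivity) hc]
      have : c / 2 * ‖x j‖ ^ 2 ≤ c / 2 * ∑ k, ‖x k‖ ^ 2 :=
        mul_le_mul_of_nonneg_left hj (by positivity)
      nlinarith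
    have hnn : 0 ≤ ‖x j‖ / ‖x i‖ := by positivity
    have hc2 : 0 < 2 / c := by positivity
    nlinarith [sq_nonneg (‖x j‖ / ‖x i‖ - 1)]
  refine ⟨(key t (mem_ball_self (by positivity))).1, fun j t' ht' => (key t' ht').2 j⟩

end Pool.Agent.Lib.MP_627a61_nt.Hy
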