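import Pool.Agent.Lib.MP_627a61_nt.Hy.MStm
import Mathlib.FieldTheory.Differential.Basic

/-!
# Project DIM/HYP, version D: the derivation extends (statement DER)
-/

namespace Pool.Agent.Lib.MP_627a61_nt.Hy

open Polynomial

theorem der : S_DER := by
  intro K L _ _ _ _ _ _ _ M
  have : CharZero K := charZero_of_injective_algebraMap (algebraMap ℂ K).injective
  let dK : Differential K := ⟨M.D.restrictScalars ℤ⟩
  let dL : Differential L := Differential.differentialFiniteDimensional K L
  have hdL : DifferentialAlgebra K L := Differential.differentialAlgebraFiniteDimensional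
  have hDZ : ∀ x : K, dL.deriv (algebraMap K L x) = algebraMap K L (M.D x) :=
    fun x => hdL.deriv_algebraMap x
  have hC : ∀ c : ℂ, dL.deriv (algebraMap ℂ L c) = 0 := by
    intro c
    rw [IsScalarTower.algebraMap_apply ℂ K L, hDZ, Derivation.map_algebraMap, map_zero]
  let f : L →ₗ[ℂ] L :=
    { toFun := fun x => dL.deriv x
      map_add' := fun x y => map_add _ x y
      map_smul' := fun c x => by
        simp only [RingHom.id_apply]
        rw [Algebra.smul_def c x, Derivation.leibniz, hC, smul_zero, add_zero, smul_eq_mul,
          ← Algebra.smul_def] }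
  let DL : Derivation ℂ L L := Derivation.mk' f (fun x y => dL.deriv.leibniz x y)
  have hDL : ∀ x, DL x = dL.deriv x := fun x => rfl
  refine ⟨DL, fun x => by rw [hDL, hDZ], fun x hx => ?_⟩
  rw [hDL] at hx
  have hint : IsIntegral K x := Algebra.IsIntegral.isIntegral x
  set p := minpoly K x with hp
  have hmon : p.Monic := minpoly.monic hint
  have h0 : aeval x (Differential.mapCoeffs p) = 0 := by
    have h := Differential.deriv_aeval_eq (A := K) (R := L) x p
    rw [hp, minpoly.aeval, map_zero, ← hp] at h
    change (0 : L) = _ + _ * dL.deriv x at h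
    rw [hx, mul_zero, add_zero] at h
    exact h.symm
  have hz : Differential.mapCoeffs p = 0 := by
    by_contra hne
    have hle : p.natDegree ≤ (Differential.mapCoeffs p).natDegree :=
      Polynomial.natDegree_le_natDegree (minpoly.degree_le_of_ne_zero K x hne h0)
    have hlt : (Differential.mapCoeffs p).natDegree < p.natDegree := by
      have hpos : 0 < p.natDegree := minpoly.natDegree_pos hint
      rw [Polynomial.natDegree_lt_iff_degree_lt hne, Polynomial.degree_lt_iff_coeff_zero]
      intro m hm
      rw [Differential.coeff_mapCoeffs]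
      rcases hm.lt_or_eq with h | h
      · rw [Polynomial.coeff_eq_zero_of_natDegree_lt h, map_zero]
      · rw [← h, hmon.coeff_natDegree]
        exact Derivation.map_one_eq_zero _
    exact absurd (lt_of_le_of_lt hle hlt) (lt_irrefl _)
  have hcoef : ∀ j, ∃ c : ℂ, p.coeff j = algebraMap ℂ K c := by
    intro j
    apply M.const
    have h := congrArg (fun q => Polynomial.coeff q j) hz
    simp only [Differential.coeff_mapCoeffs, coeff_zero] at h
    exact h
  have hl : p ∈ Polynomial.lifts (algebraMap ℂ K) := by
    rw [Polynomial.lifts_iff_coeff_lifts]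
    intro j
    obtain ⟨c, hc⟩ := hcoef j
    exact ⟨c, hc.symm⟩
  obtain ⟨q, hq⟩ := (Polynomial.mem_lifts p).1 hl
  have hq0 : q ≠ 0 := by
    intro h
    rw [h, Polynomial.map_zero] at hq
    exact hmon.ne_zero hq.symm
  have hal : IsAlgebraic ℂ x := by
    refine ⟨q, hq0, ?_⟩
    have h := minpoly.aeval K x
    rw [← hp, ← hq, Polynomial.aeval_map_algebraMap] at h
    exact h
  have hdeg := IsAlgClosed.degree_eq_one_of_irreducible ℂ (minpoly.irreducible hal.isIntegral)
  obtain ⟨c, hc⟩ := minpoly.mem_range_of_degree_eq_one ℂ x hdeg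
  exact ⟨c, hc.symm⟩

end Pool.Agent.Lib.MP_627a61_nt.Hy
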