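import Pool.Agent.Lib.MP_627a61_nt.Hy.MStm
import Mathlib.RingTheory.Valuation.LocalSubring

/-!
# Piece EVAL: places exist
-/

open Polynomial

namespace Pool.Agent.Lib.MP_627a61_nt.Hy

/-- the inclusion of `O t` in `L` -/
noncomputable def oL {K : Type} (L : Type) [Field K] [Algebra ℂ K] [Field L] [Algebra K L]
    (M : MeroSys K) (t : ℂ) : M.O t →+* L :=
  (algebraMap K L).comp (M.O t).subtype

lemma oL_apply {K : Type} (L : Type) [Field K] [Algebra ℂ K] [Field L] [Algebra K L]
    (M : MeroSys K) (t : ℂ) (x : M.O t) : oL L M t x = algebraMap K L x := rfl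

lemma ev_surj {K : Type} [Field K] [Algebra ℂ K] (M : MeroSys K) (t : ℂ) :
    Function.Surjective (M.ev t) := fun c => ⟨_, M.ev_alg t c⟩

/-- a valuation ring of `L` dominating `O t` -/
lemma exists_dom (K L : Type) [Field K] [Algebra ℂ K] [Field L] [Algebra K L]
    (M : MeroSys K) (t : ℂ) : ∃ B : ValuationSubring L, (∀ x ∈ M.O t, algebraMap K L x ∈ B) ∧
      ∀ x : M.O t, M.ev t x = 0 → algebraMap K L x ∈ B.nonunits := by
  have hinj : Function.Injective (oL L M t) := fun a b hab =>
    Subtype.ext ((algebraMap K L).injective hab)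
  let e : M.O t ≃+* (oL L M t).range := RingEquiv.ofBijective (oL L M t).rangeRestrict
    ⟨fun a b hab => hinj (congrArg Subtype.val hab), (oL L M t).rangeRestrict_surjective⟩
  obtain ⟨B, hB, hI⟩ := Ideal.image_subset_nonunits_valuationSubring
    (RingHom.ker ((M.ev t).comp (e.symm : (oL L M t).range →+* M.O t))) (RingHom.ker_ne_top _)
  refine ⟨B, fun x hx => hB ⟨⟨x, hx⟩, rfl⟩, fun x hx => hI ⟨e x, ?_, rfl⟩⟩
  change (M.ev t).comp (e.symm : (oL L M t).range →+* M.O t) (e x) = 0
  simpa using hx

/-- rescaling a polynomial so that it becomes integral and one of its coefficients is one -/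
lemma EVAL_exists_scale {K : Type} [Field K] (O : ValuationSubring K) (p : K[X]) (hp : p ≠ 0) :
    ∃ i, p.coeff i ≠ 0 ∧ ∀ j, p.coeff j / p.coeff i ∈ O := by
  obtain ⟨i, hi, hmax⟩ := Finset.exists_max_image p.support (fun j => O.valuation (p.coeff j))
    (Polynomial.support_nonempty.2 hp)
  have hi0 : p.coeff i ≠ 0 := by simpa using hi
  refine ⟨i, hi0, fun j => ?_⟩
  rw [← ValuationSubring.valuation_le_one_iff, map_div₀]
  have hv : 0 < O.valuation (p.coeff i) := by simpa [Valuation.pos_iff] using hi0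
  rw [div_le_one₀ hv]
  by_cases hj : p.coeff j = 0
  · simp [hj]
  · exact hmax j (by simpa using hj)

theorem eval_pl : S_EVAL := by
  intro K L _ _ _ _ _ M t
  obtain ⟨B, hle, hdom⟩ := exists_dom K L M t
  -- the map `O t → κ(B)`
  let inc : M.O t →+* B := (oL L M t).codRestrict B (fun x => hle x x.2)
  have hinc : ∀ x : M.O t, ((inc x : B) : L) = algebraMap K L x := fun x => rfl
  let κ := IsLocalRing.ResidueField B
  let g : M.O t →+* κ := (IsLocalRing.residue B).comp inc
  have hker : RingHom.ker (M.ev t) ≤ RingHom.ker g := by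
    intro x hx
    rw [RingHom.mem_ker] at hx ⊢
    change IsLocalRing.residue B (inc x) = 0
    rw [IsLocalRing.residue_eq_zero_iff, ← ValuationSubring.coe_mem_nonunits_iff, hinc]
    exact hdom x hx
  let j : ℂ →+* κ := (M.ev t).liftOfSurjective (ev_surj M t) ⟨g, hker⟩
  have hj : ∀ x, j (M.ev t x) = g x := fun x =>
    RingHom.liftOfSurjective_comp_apply (f := M.ev t) (ev_surj M t) ⟨g, hker⟩ x
  letI : Algebra ℂ κ := j.toAlgebra
  have hint : Algebra.IsIntegral ℂ κ := by
    refine ⟨fun y => ?_⟩
    rw [← isAlgebraic_iff_isIntegral]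
    obtain ⟨x, rfl⟩ := IsLocalRing.residue_surjective y
    obtain ⟨p, hp0, hp⟩ := Algebra.IsAlgebraic.isAlgebraic (R := K) (x : L)
    obtain ⟨i, hi, hO⟩ := EVAL_exists_scale (M.O t) p hp0
    -- the integral polynomial
    let q : (M.O t)[X] := ∑ a ∈ Finset.range (p.natDegree + 1), C ⟨_, hO a⟩ * X ^ a
    have hq : ∀ a, (q.coeff a : K) = p.coeff a / p.coeff i := by
      intro a
      simp only [q, Polynomial.finsetSum_coeff, Polynomial.coeff_C_mul_X_pow]
      rw [Finset.sum_ite_eq]
      split_ifs with ha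
      · rfl
      · have : p.coeff a = 0 := Polynomial.coeff_eq_zero_of_natDegree_lt (by
          simpa using ha)
        simp [this]
    have hqx : q.eval₂ inc x = 0 := by
      apply Subtype.ext
      have h1 : ((q.eval₂ inc x : B) : L) = q.eval₂ (oL L M t) (x : L) := by
        have := Polynomial.hom_eval₂ q inc B.subtype x
        exact this
      rw [h1]
      have h2 : q.eval₂ (oL L M t) (x : L) = (q.map (M.O t).subtype).eval₂ (algebraMap K L) (x : L) := by
        rw [Polynomial.eval₂_map]; rfl
      have h3 : q.map (M.O t).subtype = C (p.coeff i)⁻¹ * p := by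
        ext a
        rw [Polynomial.coeff_map, Polynomial.coeff_C_mul]
        change (q.coeff a : K) = _
        rw [hq a, div_eq_inv_mul]
      rw [h2, h3, Polynomial.eval₂_mul]
      rw [Polynomial.aeval_def] at hp
      rw [hp, mul_zero]; rfl
    refine ⟨q.map (M.ev t), ?_, ?_⟩
    · intro h0
      have h1 := congrArg (fun r => Polynomial.coeff r i) h0
      simp only [Polynomial.coeff_map, Polynomial.coeff_zero] at h1
      have h2 : q.coeff i = 1 := Subtype.ext (by rw [hq i, div_self hi]; rfl)
      rw [h2, map_one] at h1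
      exact one_ne_zero h1
    · rw [Polynomial.aeval_def, Polynomial.eval₂_map]
      have h1 : (algebraMap ℂ κ).comp (M.ev t) = (IsLocalRing.residue B).comp inc :=
        RingHom.ext fun x => hj x
      rw [h1, ← Polynomial.hom_eval₂, hqx, map_zero]
  have hbij : Function.Bijective j := IsAlgClosed.algebraMap_bijective_of_isIntegral (k := ℂ) (K := κ)
  let e : ℂ ≃+* κ := RingEquiv.ofBijective j hbij
  refine ⟨⟨B, (e.symm : κ →+* ℂ).comp (IsLocalRing.residue B), hle, fun x h => ?_⟩⟩
  change e.symm (IsLocalRing.residue B (inc ⟨x, h⟩)) = _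
  rw [RingEquiv.symm_apply_eq]
  exact (hj ⟨x, h⟩).symm

end Pool.Agent.Lib.MP_627a61_nt.Hy
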