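import Pool.Agent.Lib.MP_627a61_nt.Hy.TStm

/-!
# HYP, assembly: the geometric theorem and the arithmetic theorem
-/

open scoped LinearAlgebra.Projectivization Topology
open Filter Metric MvPolynomial

namespace Pool.Agent.Lib.MP_627a61_nt.Hy

section forms

variable {ι k L : Type} [Fintype ι] [Field k] [Field L]

lemma geo_lin_homog (a : ι → k) : (lin a).IsHomogeneous 1 := by
  unfold lin
  exact MvPolynomial.IsHomogeneous.sum _ _ _ fun i _ => MvPolynomial.isHomogeneous_C_mul_X _ _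

lemma geo_eval_lin (τ : k →+* L) (a : ι → k) (x : ι → L) : (lin a).eval₂ τ x = dot (τ ∘ a) x := by
  unfold lin dot
  rw [eval₂_sum]
  refine Finset.sum_congr rfl fun i _ => ?_
  rw [eval₂_mul, eval₂_C, eval₂_X]
  rfl

lemma geo_Fm_homog {m M : ℕ} (l : Fin (m + 1) → ι → k) (lam : Fin M → ι → k) (b : Fin M → k)
    (e : ℕ) (j : Fin (m + 2)) : (Fm l lam b e j).IsHomogeneous e := by
  unfold Fm
  refine Fin.lastCases ?_ (fun i => ?_) j
  · rw [Fin.snoc_last]
    refine MvPolynomial.IsHomogeneous.sum _ _ _ fun i _ => ?_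
    have h := (isHomogeneous_C ι (b i)).mul ((geo_lin_homog (lam i)).pow e)
    rwa [zero_add, one_mul] at h
  · rw [Fin.snoc_castSucc]
    have h := (geo_lin_homog (l i)).pow e
    rwa [one_mul] at h

lemma geo_eval_Fm {m M : ℕ} (l : Fin (m + 1) → ι → k) (lam : Fin M → ι → k) (b : Fin M → k)
    (e : ℕ) (τ : k →+* L) (x : ι → L) :
    (∀ i : Fin (m + 1), (Fm l lam b e i.castSucc).eval₂ τ x = dot (τ ∘ l i) x ^ e) ∧
    (Fm l lam b e (Fin.last (m + 1))).eval₂ τ x =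
      tt (fun j => τ ∘ lam j) (τ ∘ b) e x := by
  constructor
  · intro i
    unfold Fm
    rw [Fin.snoc_castSucc, eval₂_pow, geo_eval_lin]
  · unfold Fm tt
    rw [Fin.snoc_last, eval₂_sum]
    refine Finset.sum_congr rfl fun j _ => ?_
    rw [eval₂_mul, eval₂_C, eval₂_pow, geo_eval_lin]
    rfl

lemma geo_dot_smul (a : ι → L) (c : L) (x : ι → L) : dot a (c • x) = c * dot a x := by
  unfold dot
  rw [Finset.mul_sum]
  refine Finset.sum_congr rfl fun i _ => ?_
  rw [Pi.smul_apply, smul_eq_mul]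
  ring

lemma geo_tt_smul {M : ℕ} (lam : Fin M → ι → L) (b : Fin M → L) (e : ℕ) (c : L) (x : ι → L) :
    tt lam b e (c • x) = c ^ e * tt lam b e x := by
  unfold tt
  rw [Finset.mul_sum]
  refine Finset.sum_congr rfl fun i _ => ?_
  rw [geo_dot_smul, mul_pow]
  ring

omit [Fintype ι] in
lemma geo_cone_smul {S : Set (MvPolynomial ι k)} (hS : ∀ P ∈ S, ∃ a, P.IsHomogeneous a)
    (τ : k →+* L) {x : ι → L} (hx : ∀ P ∈ S, P.eval₂ τ x = 0) (c : L) :
    ∀ P ∈ S, P.eval₂ τ (c • x) = 0 := by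
  intro P hP
  obtain ⟨a, ha⟩ := hS P hP
  rw [eval₂_smul_homog ha, hx P hP, mul_zero]

end forms

/-- proportional points over an extension are proportional -/
lemma geo_descend {ι L Ω : Type} [Field L] [Field Ω] (θ : L →+* Ω) {x y : ι → L} (hy : y ≠ 0)
    {c : Ω} (h : (fun i => θ (x i)) = c • fun i => θ (y i)) : ∃ c' : L, x = c' • y := by
  obtain ⟨j, hj⟩ : ∃ j, y j ≠ 0 := by
    by_contra hcon
    push Not at hcon
    exact hy (funext hcon)
  refine ⟨x j / y j, funext fun i => ?_⟩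
  apply θ.injective
  rw [Pi.smul_apply, smul_eq_mul, map_mul, map_div₀]
  have h1 := congrFun h i
  have h2 := congrFun h j
  simp only [Pi.smul_apply, smul_eq_mul] at h1 h2
  have h3 : θ (y j) ≠ 0 := by rwa [ne_eq, map_eq_zero]
  rw [h1, h2]
  field_simp

/-- fibres -/
lemma geo_fibre {k : Type} [Field k] {n m M e : ℕ} (he : 1 ≤ e)
    {S : Set (MvPolynomial (Fin (n + 1)) k)} (hS : ∀ P ∈ S, ∃ a, P.IsHomogeneous a)
    {l : Fin (m + 1) → Fin (n + 1) → k} (hl : NoZero S l) {lam : Fin M → Fin (n + 1) → k}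
    {b : Fin M → k}
    (hG : ∀ (F : Type) [Field F] (τ : k →+* F),
        Good e (InCone τ S) (fun i => τ ∘ l i) (fun j => τ ∘ lam j) (τ ∘ b))
    (L : Type) [Field L] (τ : k →+* L) (x : Fin (m + 2) → Fin (n + 1) → L)
    (hx0 : ∀ a, x a ≠ 0) (hx : ∀ a, ∀ P ∈ S, P.eval₂ τ (x a) = 0)
    (hp : ∀ a a', ∃ c : L, ∀ j, (Fm l lam b e j).eval₂ τ (x a) =
      c * (Fm l lam b e j).eval₂ τ (x a')) :
    ∃ a a', a ≠ a' ∧ ∃ c : L, x a = c • x a' := by
  set Ω := AlgebraicClosure L with hΩ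
  set θ : L →+* Ω := algebraMap L Ω with hθ
  set τ' : k →+* Ω := θ.comp τ with hτ'
  -- the values are not all zero
  have hne : ∀ a, ∃ i : Fin (m + 1), dot (τ ∘ l i) (x a) ≠ 0 := by
    intro a
    by_contra hcon
    push Not at hcon
    exact hx0 a (hl L τ (x a) (hx a) hcon)
  choose c hc using fun a => hp a 0
  have hc0 : ∀ a, c a ≠ 0 := by
    intro a h0
    obtain ⟨i, hi⟩ := hne a
    have h1 := hc a i.castSucc
    rw [(geo_eval_Fm l lam b e τ (x a)).1 i, h0, zero_mul] at h1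
    exact hi (pow_eq_zero_iff (by omega) |>.1 h1)
  have hroot : ∀ a, ∃ r : Ω, r ^ e = (θ (c a))⁻¹ := fun a =>
    IsAlgClosed.exists_pow_nat_eq _ (by omega)
  choose r hr using hroot
  have hr0 : ∀ a, r a ≠ 0 := by
    intro a h0
    have h1 := hr a
    rw [h0, zero_pow (by omega)] at h1
    have h2 : θ (c a) ≠ 0 := by rw [ne_eq, map_eq_zero]; exact hc0 a
    exact inv_ne_zero h2 h1.symm
  -- values over Ω
  have hev : ∀ a j, (Fm l lam b e j).eval₂ τ' (fun i => θ (x a i)) =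
      θ ((Fm l lam b e j).eval₂ τ (x a)) := by
    intro a j
    rw [hτ', ← MvPolynomial.hom_eval₂]
  have hdot : ∀ a i, dot (τ' ∘ l i) (fun i => θ (x a i)) ^ e =
      θ (c a) * dot (τ' ∘ l i) (fun i => θ (x 0 i)) ^ e := by
    intro a i
    rw [← (geo_eval_Fm l lam b e τ' _).1 i, ← (geo_eval_Fm l lam b e τ' _).1 i, hev, hev,
      hc a, map_mul]
  have htt : ∀ a, tt (fun j => τ' ∘ lam j) (τ' ∘ b) e (fun i => θ (x a i)) =
      θ (c a) * tt (fun j => τ' ∘ lam j) (τ' ∘ b) e (fun i => θ (x 0 i)) := by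
    intro a
    rw [← (geo_eval_Fm l lam b e τ' _).2, ← (geo_eval_Fm l lam b e τ' _).2, hev, hev,
      hc a, map_mul]
  have hcθ : ∀ a, θ (c a) ≠ 0 := fun a => by rw [ne_eq, map_eq_zero]; exact hc0 a
  have hcone : ∀ a, InCone τ' S (r a • fun i => θ (x a i)) := by
    intro a
    refine geo_cone_smul hS τ' (fun P hP => ?_) _
    have h1 := congrArg θ (hx a P hP)
    rw [map_zero, MvPolynomial.hom_eval₂] at h1
    exact h1
  obtain ⟨a, a', haa, q, hq⟩ := (hG Ω τ').c5 (fun a => r a • fun i => θ (x a i)) hcone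
    (fun a h0 => by
      obtain ⟨j, hj⟩ : ∃ j, x a j ≠ 0 := by
        by_contra hcon
        push Not at hcon
        exact hx0 a (funext hcon)
      have h1 := congrFun h0 j
      simp only [Pi.smul_apply, smul_eq_mul, Pi.zero_apply, mul_eq_zero, map_eq_zero] at h1
      rcases h1 with h1 | h1
      · exact hr0 a h1
      · exact hj h1)
    (fun a a' i => by
      have h : ∀ a, dot (τ' ∘ l i) (r a • fun i => θ (x a i)) ^ e =
          dot (τ' ∘ l i) (fun i => θ (x 0 i)) ^ e := by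
        intro a
        rw [geo_dot_smul, mul_pow, hr, hdot, ← mul_assoc, inv_mul_cancel₀ (hcθ a), one_mul]
      exact (h a).trans (h a').symm)
    (fun a a' => by
      have h : ∀ a, tt (fun j => τ' ∘ lam j) (τ' ∘ b) e (r a • fun i => θ (x a i)) =
          tt (fun j => τ' ∘ lam j) (τ' ∘ b) e (fun i => θ (x 0 i)) := by
        intro a
        rw [geo_tt_smul, hr, htt, ← mul_assoc, inv_mul_cancel₀ (hcθ a), one_mul]
      exact (h a).trans (h a').symm)
  refine ⟨a, a', haa, geo_descend θ (hx0 a') (c := (r a)⁻¹ * (q * r a')) ?_⟩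
  have h1 : (r a)⁻¹ • (r a • fun i => θ (x a i)) = (r a)⁻¹ • (q • (r a' • fun i => θ (x a' i))) :=
    congrArg (fun z => (r a)⁻¹ • z) hq
  rw [smul_smul, inv_mul_cancel₀ (hr0 a), one_smul, smul_smul, smul_smul] at h1
  rw [h1, mul_assoc]

/-- a set of points of the variety with proportional images is finite -/
lemma geo_finite {k : Type} [Field k] {n m : ℕ} {S : Set (MvPolynomial (Fin (n + 1)) k)}
    {F : Fin (m + 2) → MvPolynomial (Fin (n + 1)) k} {L : Type} [Field L] (τ : k →+* L)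
    (h : ∀ x : Fin (m + 2) → Fin (n + 1) → L,
        (∀ a, x a ≠ 0) → (∀ a, ∀ P ∈ S, P.eval₂ τ (x a) = 0) →
        (∀ a a', ∃ c : L, ∀ j, (F j).eval₂ τ (x a) = c * (F j).eval₂ τ (x a')) →
        ∃ a a', a ≠ a' ∧ ∃ c : L, x a = c • x a')
    {A : Set (ℙ L (Fin (n + 1) → L))} (hA : A ⊆ points τ S)
    (hp : ∀ p ∈ A, ∀ p' ∈ A, ∃ c : L, ∀ j, (F j).eval₂ τ p.rep = c * (F j).eval₂ τ p'.rep) :
    A.Finite := by
  by_contra hinf
  have hinf' : A.Infinite := hinf
  set f := hinf'.natEmbedding with hf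
  obtain ⟨a, a', haa, c, hc⟩ := h (fun a => (f a : ℙ L (Fin (n + 1) → L)).rep)
    (fun a => (f a : ℙ L (Fin (n + 1) → L)).rep_nonzero)
    (fun a P hP => hA (f a).2 P hP)
    (fun a a' => hp _ (f a).2 _ (f a').2)
  have h1 : (f a : ℙ L (Fin (n + 1) → L)) = f a' := by
    rw [← (f a : ℙ L (Fin (n + 1) → L)).mk_rep, ← (f a' : ℙ L (Fin (n + 1) → L)).mk_rep,
      Projectivization.mk_eq_mk_iff']
    exact ⟨c, hc.symm⟩
  have h2 := f.injective (Subtype.ext h1)
  exact haa (Fin.ext h2)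

/-- finiteness of points -/
lemma geo_points {k : Type} [Field k] {n m d : ℕ} {S : Set (MvPolynomial (Fin (n + 1)) k)}
    {F : Fin (m + 2) → MvPolynomial (Fin (n + 1)) k} {G : MvPolynomial (Fin (m + 2)) k}
    (hGh : G.IsHomogeneous d) {L : Type} [Field L] (τ : k →+* L)
    (hval : ∀ x : Fin (n + 1) → L, x ≠ 0 → (∀ P ∈ S, P.eval₂ τ x = 0) →
      (∃ j, (F j).eval₂ τ x ≠ 0) ∧ G.eval₂ τ (fun j => (F j).eval₂ τ x) = 0)
    (hfib : ∀ x : Fin (m + 2) → Fin (n + 1) → L,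
        (∀ a, x a ≠ 0) → (∀ a, ∀ P ∈ S, P.eval₂ τ (x a) = 0) →
        (∀ a a', ∃ c : L, ∀ j, (F j).eval₂ τ (x a) = c * (F j).eval₂ τ (x a')) →
        ∃ a a', a ≠ a' ∧ ∃ c : L, x a = c • x a')
    (hfin : (points τ {G}).Finite) : (points τ S).Finite := by
  have hhomG : Homog ({G} : Set (MvPolynomial (Fin (m + 2)) k)) := by
    intro P hP
    rw [Set.mem_singleton_iff] at hP
    exact ⟨d, hP ▸ hGh⟩
  set Fk : (Fin (n + 1) → L) → Fin (m + 2) → L := fun x j => (F j).eval₂ τ x with hFk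
  set f : ℙ L (Fin (n + 1) → L) → Submodule L (Fin (m + 2) → L) := fun p =>
    Submodule.span L {Fk p.rep} with hf
  have hne : ∀ p ∈ points τ S, Fk p.rep ≠ 0 := by
    intro p hp h0
    obtain ⟨j, hj⟩ := (hval p.rep p.rep_nonzero hp).1
    exact hj (congrFun h0 j)
  refine Set.Finite.of_finite_fibers f ?_ ?_
  · refine (hfin.image (fun p : ℙ L (Fin (m + 2) → L) => p.submodule)).subset ?_
    rintro _ ⟨p, hp, rfl⟩
    refine ⟨Projectivization.mk L (Fk p.rep) (hne p hp), ?_, ?_⟩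
    · rw [mem_points_mk hhomG]
      intro P hP
      rw [Set.mem_singleton_iff] at hP
      rw [hP]
      exact (hval p.rep p.rep_nonzero hp).2
    · exact Projectivization.submodule_mk _ _
  · rintro _ ⟨p₀, hp₀, rfl⟩
    refine geo_finite τ hfib (A := points τ S ∩ f ⁻¹' {f p₀}) (fun p hp => hp.1) ?_
    intro p hp p' hp'
    have h1 : f p = f p' := by
      have h2 : f p = f p₀ := hp.2
      have h3 : f p' = f p₀ := hp'.2
      rw [h2, h3]
    have h2 : Fk p.rep ∈ Submodule.span L {Fk p'.rep} := by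
      rw [← show f p' = Submodule.span L {Fk p'.rep} from rfl, ← h1]
      exact Submodule.mem_span_singleton_self _
    obtain ⟨c, hc⟩ := Submodule.mem_span_singleton.1 h2
    exact ⟨c, fun j => (congrFun hc j).symm⟩

theorem geo (h1 : S_CORE) (h2 : S_HYPK) (h3 : S_KD1) (h4 : S_PROP.{0}) : S_GEO := by
  intro k _ _ n m S hS hdim
  obtain ⟨l, hl⟩ := h3 k n m S hS hdim
  obtain ⟨e, M, lam, b, he, hG, hcore⟩ := h1 k n m S hS l hl
  set F := Fm l lam b e with hF
  have hFh : ∀ j, (F j).IsHomogeneous e := geo_Fm_homog l lam b e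
  obtain ⟨Q, hQ, hQ0⟩ := h4 S hS l hl e F hFh (by simp)
  obtain ⟨d, G, hG0, hGh, hGB, hGv⟩ := h2 k (m + 1) (ImgEqs S F) (fun P hP => hP.1) ⟨Q, hQ, hQ0⟩
  have hval : ∀ (L : Type) [Field L] (τ : k →+* L) (x : Fin (n + 1) → L), x ≠ 0 →
      (∀ P ∈ S, P.eval₂ τ x = 0) →
      (∃ j, (F j).eval₂ τ x ≠ 0) ∧ G.eval₂ τ (fun j => (F j).eval₂ τ x) = 0 := by
    intro L _ τ x hx0 hx
    constructor
    · by_contra hcon
      push Not at hcon
      refine hx0 (hl L τ x hx fun i => ?_)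
      have h := hcon i.castSucc
      rw [hF, (geo_eval_Fm l lam b e τ x).1 i] at h
      exact pow_eq_zero_iff (by omega) |>.1 h
    · exact hGv L τ _ fun P hP => hP.2 L τ x hx
  have hfib := fun (L : Type) [Field L] (τ : k →+* L) => geo_fibre he hS hl hG L τ
  refine ⟨e, F, d, G, hFh, hG0, hGh, hval, fun L _ τ x => hfib L τ x,
    fun L _ τ => geo_points hGh τ (hval L τ) (hfib L τ), fun σ => ?_⟩
  have hhom : Homog S := hS
  have hhomG : Homog ({G} : Set (MvPolynomial (Fin (m + 2)) k)) := by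
    intro P hP
    rw [Set.mem_singleton_iff] at hP
    exact ⟨d, hP ▸ hGh⟩
  rw [kobayashi_iff_brody (pclosed_points hhomG σ), kobayashi_iff_brody (pclosed_points hhom σ)]
  refine ⟨fun hB φ hφ hφS => ?_, fun hB => hGB σ (hcore σ hB)⟩
  -- the composed curve
  set Fc : (Fin (n + 1) → ℂ) → Fin (m + 2) → ℂ := fun x j => (F j).eval₂ σ x with hFc
  have hFan : ∀ x, AnalyticAt ℂ Fc x := by
    intro x
    rw [analyticAt_pi_iff]
    intro j
    exact analyticAt_eval₂ (F j) σ x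
  have hFhom : ∀ (t : ℂ) x, Fc (t • x) = t ^ e • Fc x := by
    intro t x
    funext j
    rw [Pi.smul_apply, smul_eq_mul, hFc]
    exact eval₂_smul_homog (hFh j) σ t x
  have hne : ∀ z, Fc (φ z).rep ≠ 0 := by
    intro z h0
    obtain ⟨j, hj⟩ := (hval ℂ σ (φ z).rep (φ z).rep_nonzero (hφS z)).1
    exact hj (congrFun h0 j)
  obtain ⟨ψ, hψ, hψ1, -⟩ := exists_division hφ Fc hFan e hFhom (hne 0)
  have hψG : ∀ z, ψ z ∈ points σ {G} := by
    intro z
    rw [hψ1 z (hne z), mem_points_mk hhomG]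
    intro P hP
    rw [Set.mem_singleton_iff] at hP
    rw [hP]
    exact (hval ℂ σ (φ z).rep (φ z).rep_nonzero (hφS z)).2
  have hψc := hB ψ hψ hψG
  have hfin : (Set.range φ).Finite := by
    refine geo_finite σ (fun x => hfib ℂ σ x) (A := Set.range φ) ?_ ?_
    · rintro p ⟨z, rfl⟩
      exact hφS z
    · rintro p ⟨z, rfl⟩ p' ⟨w, rfl⟩
      have h := hψc z w
      rw [hψ1 z (hne z), hψ1 w (hne w), Projectivization.mk_eq_mk_iff'] at h
      obtain ⟨c, hc⟩ := h
      exact ⟨c, fun j => (congrFun hc j).symm⟩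
  have hex : ∃ p, ∃ᶠ w in 𝓝[≠] (0 : ℂ), φ w = p := by
    by_contra hcon
    push Not at hcon
    have h5 : ∀ᶠ w in 𝓝[≠] (0 : ℂ), ∀ p ∈ Set.range φ, φ w ≠ p := by
      rw [Filter.eventually_all_finite hfin]
      intro p _
      exact hcon p
    obtain ⟨w, hw⟩ := h5.exists
    exact hw (φ w) ⟨w, rfl⟩ rfl
  obtain ⟨p, hp⟩ := hex
  have := eq_of_eventually_const hφ hp
  intro z w
  rw [this z, this w]

theorem q1 (h : S_GEO) (h' : S_KD2) : S_Q1 := by
  intro k _ _ m T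
  constructor
  · intro hA d G hG0 hGh hK
    exact hA (m + 1) {G} (fun P hP => ⟨d, by rw [Set.mem_singleton_iff] at hP; exact hP ▸ hGh⟩)
      (h' k m G hG0) hK
  · intro hB n S hS hdim hK
    obtain ⟨e, F, d, G, -, hG0, hGh, -, -, hpt, hiff⟩ := h k n m S hS hdim
    exact hpt k (RingHom.id k) (hB d G hG0 hGh fun σ hσ => (hiff σ).2 (hK σ hσ))

end Pool.Agent.Lib.MP_627a61_nt.Hy
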