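import Pool.Agent.Lib.MP_627a61_nt.Hy.MStm
import Pool.Agent.Lib.MP_627a61_nt.Exact

/-!
# Piece HYPK: hyperbolic hypersurfaces over any field of characteristic zero
-/

open scoped LinearAlgebra.Projectivization Topology
open Filter Metric MvPolynomial

namespace Pool.Agent.Lib.MP_627a61_nt.Hy

/-- the tower form does not vanish at nonzero rational vectors -/
theorem HYPK_tw_ne {k : Type} [Field k] [CharZero k] (N : ℕ) (v : Fin (N + 1) → ℚ) (hv : v ≠ 0) :
    tw 4 N (fun i => (v i : k)) ≠ 0 := by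
  intro h
  have h1 := tw_map (Rat.castHom k) 4 N v
  simp only [eq_ratCast] at h1
  rw [h1] at h
  have h2 : tw 4 N v = 0 := by
    exact_mod_cast h
  exact hv (eq_zero_of_tw (by norm_num) (two_ne_pow (by norm_num)) h2)

theorem HYPK_tw_zero {k : Type} [Field k] (N : ℕ) : tw 4 N (0 : Fin (N + 1) → k) = 0 := by
  have h := tw_smul (L := k) 4 N 0 0
  rw [smul_zero, zero_pow (pow_ne_zero _ (by norm_num)), zero_mul] at h
  exact h

theorem hypk : S_HYPK := by
  intro k _ _ n S hS hS0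
  classical
  obtain ⟨S', hS', hS'2⟩ := exists_finite_equations S
  let P : {F // F ∈ S'} → MvPolynomial (Fin (n + 1)) k := fun F => F.1
  have hP : ∀ c : {F // F ∈ S'}, ∃ n, (P c).IsHomogeneous n := fun c => hS _ (hS' c.2)
  choose δ hδ using hP
  have hPS : ∀ (L : Type) [Field L] (τ : k →+* L) (x : Fin (n + 1) → L),
      (∀ c, (P c).eval₂ τ x = 0) → ∀ F ∈ S, F.eval₂ τ x = 0 := by
    intro L _ τ x h
    exact hS'2 L τ x fun F hF => h ⟨F, hF⟩
  obtain ⟨P₀, hP₀S, hP₀⟩ := hS0
  have hX : ∃ x : Fin (n + 1) → k, x ≠ 0 ∧ eval x P₀ ≠ 0 := by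
    by_contra hcon
    push Not at hcon
    have h1 : P₀ * X 0 = 0 := by
      apply MvPolynomial.funext
      intro x
      rw [map_mul, eval_X, map_zero]
      by_cases hx : x = 0
      · rw [hx]; simp
      · rw [hcon x hx, zero_mul]
    exact hP₀ ((mul_eq_zero.1 h1).resolve_right (X_ne_zero 0))
  obtain ⟨x₀, hx₀, hx₀P⟩ := hX
  have hev : ∀ Q : MvPolynomial (Fin (n + 1)) k, Q.eval₂ (RingHom.id k) x₀ = eval x₀ Q := by
    intro Q
    rfl
  have hne : Nonempty {F // F ∈ S'} := by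
    by_contra hcon
    rw [not_nonempty_iff] at hcon
    exact hx₀P (by rw [← hev]; exact hPS k (RingHom.id k) x₀ (fun c => hcon.elim c) P₀ hP₀S)
  obtain ⟨B, hB⟩ := (Set.finite_range δ).bddAbove
  obtain ⟨r, hr3⟩ : ∃ r : ℕ, ∀ c, δ c < r := by
    refine ⟨B + 1, fun c => ?_⟩
    have := hB ⟨c, rfl⟩
    omega
  obtain ⟨c₀⟩ := hne
  obtain ⟨N, s, hs⟩ : ∃ N : ℕ, ∃ s : Fin (N + 1) →
      {F // F ∈ S'} × Fin (n + 1) × Fin (n + 1), Function.Surjective s := by
    refine ⟨Fintype.card ({F // F ∈ S'} × Fin (n + 1) × Fin (n + 1)), ?_⟩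
    obtain ⟨g⟩ := Function.Embedding.nonempty_of_card_le
      (α := {F // F ∈ S'} × Fin (n + 1) × Fin (n + 1))
      (β := Fin (Fintype.card ({F // F ∈ S'} × Fin (n + 1) × Fin (n + 1)) + 1)) (by simp)
    have : Nonempty ({F // F ∈ S'} × Fin (n + 1) × Fin (n + 1)) := ⟨(c₀, 0, 0)⟩
    exact ⟨Function.invFun g, Function.invFun_surjective g.injective⟩
  let G : Fin (N + 1) → MvPolynomial (Fin (n + 1)) k := fun i => gfam P δ r (s i)
  have hG : ∀ i, (G i).IsHomogeneous r := fun i => gfam_homog hδ hr3 (s i)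
  have hzero : ∀ {L : Type} [Field L] (τ : k →+* L) {x : Fin (n + 1) → L}, x ≠ 0 →
      ((∀ i, (G i).eval₂ τ x = 0) ↔ ∀ c, (P c).eval₂ τ x = 0) := by
    intro L _ τ x hx
    rw [← gfam_zero_iff (δ := δ) (e := r) τ hx]
    constructor
    · intro h c
      obtain ⟨i, rfl⟩ := hs c
      exact h i
    · intro h i
      exact h (s i)
  -- the value at `x₀`
  obtain ⟨i₀, hi₀⟩ : ∃ i₀, eval x₀ (G i₀) ≠ 0 := by
    by_contra hcon
    push Not at hcon
    exact hx₀P (by
      rw [← hev]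
      exact hPS k (RingHom.id k) x₀ ((hzero (RingHom.id k) hx₀).1 fun i => hcon i) P₀ hP₀S)
  set g : Fin (N + 1) → k := fun i => eval x₀ (G i) with hg
  let G' : Fin (N + 1) → MvPolynomial (Fin (n + 1)) k := fun i =>
    if i = i₀ then C (g i₀)⁻¹ * G i₀ else G i - C (g i / g i₀) * G i₀
  have hG' : ∀ i, (G' i).IsHomogeneous r := by
    intro i
    simp only [G']
    split_ifs
    · exact (hG i₀).C_mul _
    · exact (hG i).sub ((hG i₀).C_mul _)
  have hgi : g i₀ ≠ 0 := hi₀
  have hfw : ∀ {L : Type} [Field L] (τ : k →+* L) (x : Fin (n + 1) → L) (i : Fin (N + 1)),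
      (G' i).eval₂ τ x = if i = i₀ then τ (g i₀)⁻¹ * (G i₀).eval₂ τ x else
        (G i).eval₂ τ x - τ (g i / g i₀) * (G i₀).eval₂ τ x := by
    intro L _ τ x i
    simp only [G']
    split_ifs
    · rw [eval₂_mul, eval₂_C]
    · rw [eval₂_sub, eval₂_mul, eval₂_C]
  have hbw : ∀ {L : Type} [Field L] (τ : k →+* L) (x : Fin (n + 1) → L) (i : Fin (N + 1)),
      (G i).eval₂ τ x = if i = i₀ then τ (g i₀) * (G' i₀).eval₂ τ x else
        (G' i).eval₂ τ x + τ (g i) * (G' i₀).eval₂ τ x := by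
    intro L _ τ x i
    have hτ : τ (g i₀) ≠ 0 := by
      rw [Ne, map_eq_zero]
      exact hgi
    rw [hfw, hfw, if_pos rfl]
    split_ifs with h
    · rw [h, map_inv₀, ← mul_assoc, mul_inv_cancel₀ hτ, one_mul]
    · rw [map_inv₀, map_div₀, div_eq_mul_inv]
      ring
  have hz1 : ∀ {L : Type} [Field L] (τ : k →+* L) (x : Fin (n + 1) → L),
      (∀ i, (G' i).eval₂ τ x = 0) ↔ ∀ i, (G i).eval₂ τ x = 0 := by
    intro L _ τ x
    constructor
    · intro h i
      rw [hbw, h, h]
      split_ifs <;> ring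
    · intro h i
      rw [hfw, h, h]
      split_ifs <;> ring
  have hmap : ∀ {L : Type} [Field L] (τ : k →+* L) (x : Fin (n + 1) → L),
      (tw 4 N G').eval₂ τ x = tw 4 N fun i => (G' i).eval₂ τ x := by
    intro L _ τ x
    have := tw_map (eval₂Hom τ x) 4 N G'
    simp only [coe_eval₂Hom] at this
    exact this.symm
  refine ⟨r * 4 ^ N, tw 4 N G', ?_, tw_homog N G' hG', ?_, ?_⟩
  · intro h0
    have h1 := hmap (RingHom.id k) x₀
    rw [h0, eval₂_zero] at h1
    have h2 : (fun i => (G' i).eval₂ (RingHom.id k) x₀) =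
        fun i => (((Pi.single i₀ 1 : Fin (N + 1) → ℚ) i : ℚ) : k) := by
      funext i
      rw [hfw]
      split_ifs with h
      · rw [h, Pi.single_eq_same, Rat.cast_one, hev]
        exact inv_mul_cancel₀ hgi
      · rw [Pi.single_eq_of_ne h, Rat.cast_zero, hev, hev]
        show g i - (g i / g i₀) * g i₀ = 0
        rw [div_mul_cancel₀ _ hgi, sub_self]
    rw [h2] at h1
    refine HYPK_tw_ne (k := k) N (Pi.single i₀ 1) ?_ h1.symm
    intro h3
    have h4 := congrFun h3 i₀
    rw [Pi.single_eq_same] at h4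
    exact one_ne_zero h4
  · intro σ hZ
    have h1 : points σ {tw 4 N G'} = {x : ℙ ℂ (Fin (n + 1) → ℂ) |
        tw (4 * 1) N ((fun (y : Fin (n + 1) → ℂ) i => (G' i).eval₂ σ y) x.rep) = 0} := by
      ext x
      simp only [points, Set.mem_singleton_iff, forall_eq]
      rw [Set.mem_ofPred_eq, Set.mem_ofPred_eq, hmap]
    rw [h1]
    refine brodyHyperbolic_pullback one_ne_zero
      (fun (y : Fin (n + 1) → ℂ) i => (G' i).eval₂ σ y) ?_ r ?_ ?_ ?_
    · intro x
      rw [analyticAt_pi_iff]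
      intro i
      exact analyticAt_eval₂ _ σ x
    · intro t x
      funext i
      exact eval₂_smul_homog (hG' i) σ t x
    · intro x y hx _ ⟨c, hc⟩
      obtain ⟨i, hi⟩ : ∃ i, (G i).eval₂ σ x ≠ 0 := by
        by_contra hcon
        push Not at hcon
        exact hx (funext fun i => (hz1 σ x).2 hcon i)
      refine gfam_inj σ (c₀ := (s i).1) (a₀ := (s i).2.1) (b₀ := (s i).2.2) hi (t := c) ?_
      intro c'
      obtain ⟨i', rfl⟩ := hs c'
      have e1 := congrFun hc i'
      have e2 := congrFun hc i₀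
      simp only [Pi.smul_apply, smul_eq_mul] at e1 e2
      show (G i').eval₂ σ x = c * (G i').eval₂ σ y
      rw [hbw σ x, hbw σ y, e1, e2]
      split_ifs <;> ring
    · have h2 : {x : ℙ ℂ (Fin (n + 1) → ℂ) |
          (fun (y : Fin (n + 1) → ℂ) i => (G' i).eval₂ σ y) x.rep = 0} = points σ S := by
        ext x
        rw [Set.mem_ofPred_eq]
        constructor
        · intro h
          exact hPS ℂ σ x.rep ((hzero σ x.rep_nonzero).1
            ((hz1 σ x.rep).1 fun i => congrFun h i))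
        · intro h
          funext i
          exact (hz1 σ x.rep).2 ((hzero σ x.rep_nonzero).2 (fun c => h _ (hS' c.2))) i
      rw [h2]
      exact hZ
  · intro L _ τ x h
    rw [hmap]
    have h4 : (fun i => (G' i).eval₂ τ x) = 0 := by
      funext i
      refine (hz1 τ x).2 (fun j => ?_) i
      simp only [G]
      rw [eval₂_gfam, h _ (hS' (s j).1.2), mul_zero]
    rw [h4]
    exact HYPK_tw_zero N

end Pool.Agent.Lib.MP_627a61_nt.Hy
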