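import Pool.Agent.Lib.MP_627a61_nt.Hy.TStm

/-!
# HYP: linear forms without common zero on a variety of small Krull dimension
-/

set_option autoImplicit false

open MvPolynomial

namespace Pool.Agent.Lib.MP_627a61_nt.Hy

section

attribute [local instance] MvPolynomial.gradedAlgebra

/-- Krull dimension `≤ 0` for homogeneous equations: all primes contain the variables. -/
private theorem kd1_base {ι k : Type} [Field k] (S : Set (MvPolynomial ι k))
    (hS : ∀ P ∈ S, ∃ a, P.IsHomogeneous a)
    (h : Order.krullDim (PrimeSpectrum.zeroLocus S) ≤ 0) (q : Ideal (MvPolynomial ι k))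
    (hq : q.IsPrime) (hSq : S ⊆ q) (α : ι) : X α ∈ q := by
  classical
  let c : Ideal (MvPolynomial ι k) := (q.homogeneousCore (homogeneousSubmodule ι k)).toIdeal
  have hc : c.IsPrime := Ideal.IsPrime.homogeneousCore hq
  have hcq : c ≤ q := Ideal.toIdeal_homogeneousCore_le _ _
  have hSc : S ⊆ c := by
    intro P hP
    obtain ⟨a, ha⟩ := hS P hP
    exact Ideal.mem_homogeneousCore_of_homogeneous_of_mem ⟨a, ha⟩ (hSq hP)
  have hch : c.IsHomogeneous (homogeneousSubmodule ι k) :=
    (q.homogeneousCore (homogeneousSubmodule ι k)).isHomogeneous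
  let m : Ideal (MvPolynomial ι k) := RingHom.ker (constantCoeff (R := k) (σ := ι))
  have hm : m.IsPrime := RingHom.ker_isPrime _
  have hcm : c ≤ m := by
    intro P hP
    have h1 := homogeneousComponent_mem_of_mem hch hP 0
    rw [homogeneousComponent_zero] at h1
    show constantCoeff P = 0
    by_contra h2
    have h3 : (1 : MvPolynomial ι k) ∈ c := by
      have h4 : (1 : MvPolynomial ι k) = C (coeff 0 P)⁻¹ * C (coeff 0 P) := by
        have h5 : coeff 0 P ≠ 0 := h2
        rw [← C_mul, inv_mul_cancel₀ h5, C_1]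
      rw [h4]
      exact Ideal.mul_mem_left _ _ h1
    exact hc.ne_top ((Ideal.eq_top_iff_one _).2 h3)
  have hXm : X α ∈ m := by
    show constantCoeff (X α) = 0
    exact constantCoeff_X _ _
  have hle : m ≤ c := by
    let x : PrimeSpectrum.zeroLocus S := ⟨⟨c, hc⟩, hSc⟩
    let y : PrimeSpectrum.zeroLocus S := ⟨⟨m, hm⟩, fun P hP => hcm (hSc hP)⟩
    have h1 : IsMax x := Order.krullDim_nonpos_iff_forall_isMax.1 h x
    have h2 : x ≤ y := hcm
    exact h1 h2
  exact hcq (hle hXm)

end

private theorem kd1_avoid {ι k : Type} [Fintype ι] [Field k] [CharZero k]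
    (S : Set (MvPolynomial ι k)) : ∃ a : ι → k, ∀ p ∈ (Ideal.span S).minimalPrimes,
      (∑ j, C (a j) * X j : MvPolynomial ι k) ∈ p → ∀ α, X α ∈ p := by
  classical
  let φ : (ι → k) →ₗ[k] MvPolynomial ι k := Fintype.linearCombination k (fun j => X j)
  have hφ : ∀ a, φ a = ∑ j, C (a j) * X j := by
    intro a
    rw [Fintype.linearCombination_apply]
    exact Finset.sum_congr rfl fun j _ => C_mul'.symm
  let W : Ideal (MvPolynomial ι k) → Submodule k (ι → k) :=
    fun p => (p.restrictScalars k).comap φ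
  have hfin : ((Ideal.span S).minimalPrimes).Finite :=
    Ideal.finite_minimalPrimes_of_isNoetherianRing _ _
  let s : Finset (Submodule k (ι → k)) := (hfin.toFinset.image W).erase ⊤
  have h1 : ⋃ p ∈ s, (p : Set (ι → k)) ≠ Set.univ :=
    Subspace.biUnion_ne_univ_of_top_notMem (Finset.notMem_erase _ _)
  obtain ⟨a, ha⟩ := (Set.ne_univ_iff_exists_notMem _).1 h1
  refine ⟨a, fun p hp hap => ?_⟩
  have h2 : a ∈ W p := by
    show φ a ∈ p
    rw [hφ]
    exact hap
  have h3 : W p = ⊤ := by
    by_contra h4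
    apply ha
    simp only [Set.mem_iUnion]
    exact ⟨W p, Finset.mem_erase.2 ⟨h4, Finset.mem_image.2 ⟨p, hfin.mem_toFinset.2 hp, rfl⟩⟩, h2⟩
  intro α
  have h5 : (Pi.single α (1 : k) : ι → k) ∈ W p := by
    rw [h3]
    trivial
  have h6 : φ (Pi.single α 1) ∈ p := h5
  rwa [Fintype.linearCombination_apply_single, one_smul] at h6

private theorem kd1_drop {ι k : Type} [Fintype ι] [Field k] (S : Set (MvPolynomial ι k))
    (f : MvPolynomial ι k) (hf : ∀ p ∈ (Ideal.span S).minimalPrimes, f ∈ p → ∀ α, X α ∈ p)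
    (r : ℕ) (h : Order.krullDim (PrimeSpectrum.zeroLocus S) ≤ ((r + 1 : ℕ) : WithBot ℕ∞)) :
    Order.krullDim (PrimeSpectrum.zeroLocus (insert f S)) ≤ ((r : ℕ) : WithBot ℕ∞) := by
  refine iSup_le fun s => ?_
  have hsub : ∀ x : PrimeSpectrum.zeroLocus (insert f S), x.1 ∈ PrimeSpectrum.zeroLocus S :=
    fun x P hP => x.2 (Set.mem_insert_of_mem _ hP)
  let g : PrimeSpectrum.zeroLocus (insert f S) → PrimeSpectrum.zeroLocus S :=
    fun x => ⟨x.1, hsub x⟩
  have hg : StrictMono g := fun x y hxy => hxy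
  have hprime := s.head.1.2
  have hle : Ideal.span S ≤ s.head.1.asIdeal := Ideal.span_le.2 (hsub s.head)
  obtain ⟨p, hp, hpq⟩ := Ideal.exists_minimalPrimes_le hle
  have hpp : p.IsPrime := hp.1.1
  by_cases hfp : f ∈ p
  · -- `p` is the irrelevant ideal
    have hX := hf p hp hfp
    have hmax : ∀ q : Ideal (MvPolynomial ι k), q.IsPrime → p ≤ q → q ≤ p := by
      intro q hq hpq P hP
      have h1 : ∀ P : MvPolynomial ι k, P - C (constantCoeff P) ∈ p := by
        intro P
        induction P using MvPolynomial.induction_on with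
        | C a => simp
        | add P Q hP hQ =>
          have : P + Q - C (constantCoeff (P + Q)) =
              (P - C (constantCoeff P)) + (Q - C (constantCoeff Q)) := by
            rw [map_add, C_add]
            ring
          rw [this]
          exact Ideal.add_mem _ hP hQ
        | mul_X P i _ =>
          rw [map_mul, constantCoeff_X, mul_zero, C_0, sub_zero]
          exact Ideal.mul_mem_left _ _ (hX i)
      have h2 : C (constantCoeff P) ∈ q := by
        have := Ideal.sub_mem q hP (hpq (h1 P))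
        rwa [sub_sub_cancel] at this
      have h3 : constantCoeff P = 0 := by
        by_contra h4
        apply hq.ne_top
        rw [Ideal.eq_top_iff_one]
        have h5 : (1 : MvPolynomial ι k) = C (constantCoeff P)⁻¹ * C (constantCoeff P) := by
          rw [← C_mul, inv_mul_cancel₀ h4, C_1]
        rw [h5]
        exact Ideal.mul_mem_left _ _ h2
      have h6 := h1 P
      rwa [h3, C_0, sub_zero] at h6
    have h0 : s.length = 0 := by
      by_contra h1
      have h2 : s.toFun ⟨0, by omega⟩ < s.toFun ⟨1, by omega⟩ :=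
        s.strictMono (Fin.mk_lt_mk.2 (by omega))
      have h3 : s.head = s.toFun ⟨0, by omega⟩ := rfl
      have h4 : s.head.1.asIdeal ≤ (s.toFun ⟨1, by omega⟩).1.asIdeal := by
        rw [h3]
        exact h2.le
      have h5 : (s.toFun ⟨1, by omega⟩).1.asIdeal ≤ p :=
        hmax _ (s.toFun ⟨1, by omega⟩).1.2 (hpq.trans h4)
      apply h2.not_ge
      show (s.toFun ⟨1, by omega⟩).1.asIdeal ≤ (s.toFun ⟨0, by omega⟩).1.asIdeal
      exact h5.trans hpq
    rw [h0]
    exact_mod_cast Nat.zero_le r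
  · have hlt : (⟨⟨p, hpp⟩, (Ideal.span_le.1 hp.1.2 : S ⊆ p)⟩ : PrimeSpectrum.zeroLocus S) <
        (s.map g hg).head := by
      rw [LTSeries.head_map]
      refine lt_of_le_of_ne hpq ?_
      intro heq
      apply hfp
      have h1 : f ∈ s.head.1.asIdeal := s.head.2 (Set.mem_insert _ _)
      have h2 : p = s.head.1.asIdeal := congrArg
        (fun x : PrimeSpectrum.zeroLocus S => x.1.asIdeal) heq
      rw [h2]
      exact h1
    let t : LTSeries (PrimeSpectrum.zeroLocus S) := (s.map g hg).cons _ hlt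
    have h1 : t.length = s.length + 1 := by
      show 0 + (s.map g hg).length + 1 = s.length + 1
      show 0 + s.length + 1 = s.length + 1
      omega
    have h2 := (Order.LTSeries.length_le_krullDim t).trans h
    rw [h1] at h2
    have h3 : s.length + 1 ≤ r + 1 := by exact_mod_cast h2
    exact_mod_cast Nat.le_of_succ_le_succ h3

private theorem kd1_main {ι k : Type} [Fintype ι] [Field k] [CharZero k] (r : ℕ) :
    ∀ S : Set (MvPolynomial ι k), (∀ P ∈ S, ∃ a, P.IsHomogeneous a) →
    Order.krullDim (PrimeSpectrum.zeroLocus S) ≤ ((r : ℕ) : WithBot ℕ∞) →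
    ∃ l : Fin r → ι → k, ∀ q : Ideal (MvPolynomial ι k), q.IsPrime → S ⊆ q →
      (∀ i, (∑ j, C (l i j) * X j : MvPolynomial ι k) ∈ q) → ∀ α, X α ∈ q := by
  induction r with
  | zero =>
    intro S hS h
    refine ⟨Fin.elim0, fun q hq hSq _ α => kd1_base S hS ?_ q hq hSq α⟩
    exact_mod_cast h
  | succ r ih =>
    intro S hS h
    obtain ⟨a, ha⟩ := kd1_avoid S
    have hS' : ∀ P ∈ insert (∑ j, C (a j) * X j : MvPolynomial ι k) S,
        ∃ a, P.IsHomogeneous a := by
      intro P hP
      rcases hP with rfl | hP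
      · exact ⟨1, IsHomogeneous.sum _ _ _ fun j _ => isHomogeneous_C_mul_X _ _⟩
      · exact hS P hP
    obtain ⟨l, hl⟩ := ih _ hS' (kd1_drop S _ ha r h)
    refine ⟨Fin.cons a l, fun q hq hSq hlq α => hl q hq ?_ ?_ α⟩
    · rw [Set.insert_subset_iff]
      exact ⟨hlq 0, hSq⟩
    · intro i
      exact hlq i.succ

theorem kd1 : S_KD1 := by
  intro k _ _ n m S hS hdim
  unfold PDimLE at hdim
  rw [ringKrullDim_quotient, PrimeSpectrum.zeroLocus_span] at hdim
  obtain ⟨l, hl⟩ := kd1_main (m + 1) S hS hdim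
  refine ⟨l, fun L _ τ x hx hlx => ?_⟩
  funext α
  have h1 := hl (RingHom.ker (eval₂Hom τ x)) (RingHom.ker_isPrime _) (fun P hP => hx P hP) ?_ α
  · have h2 : eval₂Hom τ x (X α) = 0 := h1
    rwa [eval₂Hom_X'] at h2
  · intro i
    show eval₂Hom τ x _ = 0
    rw [map_sum, ← hlx i]
    refine Finset.sum_congr rfl fun j _ => ?_
    rw [map_mul, eval₂Hom_C, eval₂Hom_X']
    rfl

end Pool.Agent.Lib.MP_627a61_nt.Hy
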