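import Pool.Agent.Lib.MP_627a61_nt.Hy.TStm

/-!
# HYP: KD2, a hypersurface of `P^(m+1)` has dimension at most `m`
-/

namespace Pool.Agent.Lib.MP_627a61_nt.Hy

theorem kd2 : S_KD2 := by
  intro k _ m G hG
  unfold PDimLE
  have h := ringKrullDim_quotient_succ_le_of_nonZeroDivisor
    (mem_nonZeroDivisors_of_ne_zero hG)
  rw [MvPolynomial.ringKrullDim_of_isNoetherianRing, ringKrullDim_eq_zero_of_field,
    Nat.card_eq_fintype_card, Fintype.card_fin, zero_add] at h
  generalize ringKrullDim (MvPolynomial (Fin (m + 2)) k ⧸ Ideal.span {G}) = x at h ⊢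
  have h2 : (((m + 2 : ℕ) : WithBot ℕ∞)) = ((m + 1 : ℕ) : WithBot ℕ∞) + 1 := by
    push_cast; ring
  rw [h2] at h
  induction x using WithBot.recBotCoe with
  | bot => exact bot_le
  | coe x =>
    have h3 : (((x + 1 : ℕ∞)) : WithBot ℕ∞) ≤ (((m + 1 : ℕ) : ℕ∞) + 1 : ℕ∞) := by
      push_cast at h ⊢
      exact h
    rw [WithBot.coe_le_coe] at h3
    have h4 : x ≤ ((m + 1 : ℕ) : ℕ∞) :=
      (ENat.add_le_add_iff_right (by simp)).mp h3
    exact_mod_cast h4

end Pool.Agent.Lib.MP_627a61_nt.Hy
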