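import Pool.Agent.Lib.MP_627a61_nt.Defs

/-!
# HYP: definitions for the dimension preserving reduction

`k` is a field of characteristic zero, `S` a set of homogeneous polynomials over `k` in the
variables `ι`, `τ : k →+* L` an arbitrary field extension.  The map is
`x ↦ (l_0(x)^e, ..., l_m(x)^e, t(x))` with `t(x) = ∑ b_j lam_j(x)^e`.
All definitions below are over `L`; for data `l, lam, b` over `k` one uses `τ ∘ l i` etc.
-/

open MvPolynomial

namespace Pool.Agent.Lib.MP_627a61_nt.Hy

section
variable {ι L : Type*} [Fintype ι] [Field L]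

/-- the linear form with coefficients `a` at the point `x` -/
def dot (a x : ι → L) : L := ∑ i, a i * x i

/-- the affine cone over the zero locus of `S` -/
def InCone {k : Type*} [Field k] (τ : k →+* L) (S : Set (MvPolynomial ι k)) (x : ι → L) : Prop :=
  ∀ P ∈ S, P.eval₂ τ x = 0

/-- `x` and `y` have the same image under `(l_0^e, ..., l_m^e)` -/
def SameBase {m : ℕ} (l : Fin (m + 1) → ι → L) (e : ℕ) (x y : ι → L) : Prop :=
  ∀ i, dot (l i) x ^ e = dot (l i) y ^ e

/-- the last coordinate of the map -/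
def tt {M : ℕ} (lam : Fin M → ι → L) (b : Fin M → L) (e : ℕ) (x : ι → L) : L :=
  ∑ j, b j * dot (lam j) x ^ e

/-- the vector with entries `lam_j(x)^e` on `D`, zero outside -/
def vec {M : ℕ} (lam : Fin M → ι → L) (e : ℕ) (D : Finset (Fin M)) (x : ι → L)
    (j : Fin M) : L := if j ∈ D then dot (lam j) x ^ e else 0

/-- `x` is a multiple of `y` -/
def Prp (x y : ι → L) : Prop := ∃ c : L, x = c • y

/-- The conditions on `l`, `lam` and `b` over `L` for the cone `Z`. -/
structure Good (e : ℕ) {m M : ℕ} (Z : (ι → L) → Prop) (l : Fin (m + 1) → ι → L)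
    (lam : Fin M → ι → L) (b : Fin M → L) : Prop where
  /-- (C1) any `m + 1` of the forms `lam` have no common zero on the variety -/
  c1 : ∀ x, Z x → ∀ I : Finset (Fin M), m < I.card → (∀ i ∈ I, dot (lam i) x = 0) → x = 0
  /-- (C3) for non proportional points over the same base at most `m` of the `lam_j^e` agree -/
  c3 : ∀ x y, Z x → Z y → x ≠ 0 → y ≠ 0 → SameBase l e x y → ¬ Prp x y →
    ∀ I : Finset (Fin M), (∀ j ∈ I, dot (lam j) x ^ e = dot (lam j) y ^ e) → I.card ≤ m
  /-- (C5) fibres have at most `m + 1` points -/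
  c5 : ∀ z : Fin (m + 2) → ι → L, (∀ a, Z (z a)) → (∀ a, z a ≠ 0) →
    (∀ a a', SameBase l e (z a) (z a')) → (∀ a a', tt lam b e (z a) = tt lam b e (z a')) →
    ∃ a a', a ≠ a' ∧ Prp (z a) (z a')
  /-- (C7) `m + 1` vectors `X|D - X'|D'` orthogonal to `b` are linearly dependent -/
  c7 : ∀ x y, Z x → Z y → x ≠ 0 → y ≠ 0 → SameBase l e x y →
    ∀ D D' : Fin (m + 1) → Finset (Fin M),
    (∀ a, ∑ j, b j * (vec lam e (D a) x j - vec lam e (D' a) y j) = 0) →
    ¬ LinearIndependent L fun a => fun j => vec lam e (D a) x j - vec lam e (D' a) y j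

end

section
variable {k : Type*} [Field k]

/-- Shape of the integral equations: `P` is monic of degree `d ≥ 1` over `k[T_0..T_m]` with
coefficient of index `j` homogeneous of degree `d - j`. -/
def PShape {m : ℕ} (P : Polynomial (MvPolynomial (Fin (m + 1)) k)) (d : ℕ) : Prop :=
  P.Monic ∧ P.natDegree = d ∧ 1 ≤ d ∧ ∀ j ≤ d, (P.coeff j).IsHomogeneous (d - j)

/-- the value of `P` at `(T, x)` over the extension `τ` -/
noncomputable def pval {L : Type*} [Field L] (τ : k →+* L) {m : ℕ}
    (P : Polynomial (MvPolynomial (Fin (m + 1)) k)) (T : Fin (m + 1) → L) (x : L) : L :=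
  P.eval₂ (eval₂Hom τ T) x

/-- `dim ≤ m`: over the algebraic closure the variety misses a linear subspace of
codimension `m + 1` -/
def DimLE {ι : Type*} [Fintype ι] (S : Set (MvPolynomial ι k)) (m : ℕ) : Prop :=
  ∃ a : Fin (m + 1) → ι → AlgebraicClosure k, ∀ x : ι → AlgebraicClosure k,
    (∀ P ∈ S, aeval x P = 0) → (∀ i, ∑ j, a i j * x j = 0) → x = 0

end

universe u v

/-- `l_0, ..., l_m` have no common zero on the variety, over all extensions in the universe of
`k` -/
def NoZero {ι : Type*} [Fintype ι] {k : Type u} [Field k] (S : Set (MvPolynomial ι k)) {m : ℕ}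
    (l : Fin (m + 1) → ι → k) : Prop :=
  ∀ (L : Type u) [Field L] (τ : k →+* L) (x : ι → L), InCone τ S x →
    (∀ i, dot (τ ∘ l i) x = 0) → x = 0

end Pool.Agent.Lib.MP_627a61_nt.Hy
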