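import Pool.Agent.Lib.MP_627a61_nt.Hy.Mero
import Pool.Agent.Lib.MP_627a61_nt.Hy.Defs
import Pool.Agent.Lib.MP_627a61_nt.Kobayashi
import Pool.Agent.Lib.MP_627a61_nt.Points

/-!
# Project DIM/HYP, version D: statements of the algebra over the meromorphic functions

Throughout `K` is the field of meromorphic functions (`MeroSys K`), `L` a finite Galois extension.
-/

open scoped LinearAlgebra.Projectivization Topology
open Filter Metric

namespace Pool.Agent.Lib.MP_627a61_nt.Hy

/-! ### Places -/

/-- **EVAL.** Places exist. Proof: `A` = image of `O t` in `L`, a local subring; there is a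
valuation subring `V` of `L` dominating it (`LocalSubring.exists_le_valuationSubring` or similar in
`Mathlib.RingTheory.Valuation.LocalSubring`). `V ∩ K = O t` (`O t` is a valuation ring dominated by
`V ∩ K`). The residue field of `V` is algebraic over the image of `ℂ`: a unit `x` of `V` is a zero
of a polynomial over `K`; divide it by a coefficient of largest value, so that its coefficients are
in `O t` and one of them is 1; its coefficients are, modulo the maximal ideal, the complex numbers
`ev t _`; so the class of `x` is a zero of a nonzero polynomial over `ℂ`, hence in `ℂ`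
(`IsAlgClosed`). So `ℂ → ResidueField V` is bijective, `ψ` is the residue map followed by its
inverse; it extends `ev t` because the maximal ideal of `O t` goes to zero under both. -/
def S_EVAL : Prop :=
  ∀ (K L : Type) [Field K] [Algebra ℂ K] [Field L] [Algebra K L] [Algebra.IsAlgebraic K L]
    (M : MeroSys K) (t : ℂ), Nonempty (Pl M L t)

/-- **BDD.** Bounded elements. (1) They form a `ℂ`-algebra. (2) Zeros of monic polynomials with
bounded coefficients are bounded: valuation rings are integrally closed and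
`|x| ≤ 1 + ∑ |coefficients|`. (3) Invariance under automorphisms: for a place `(V, ψ)` also
`(V.comap τ, ψ ∘ τ)` is one. (4) Elements of `K`: `x` not in `O t` has `x⁻¹` in `O t` with
`ev t x⁻¹ = 0` (`ev t` is onto `ℂ`, its kernel is the maximal ideal), impossible if `x` is in `V`
for a place (it exists by EVAL). (5) Derivatives, by `M.cauchy`. -/
def S_BDD : Prop :=
  ∀ (K L : Type) [Field K] [Algebra ℂ K] [Field L] [Algebra ℂ L] [Algebra K L]
    [IsScalarTower ℂ K L] [Algebra.IsAlgebraic K L] (M : MeroSys K) (S : Set ℂ),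
    (∃ A : Subalgebra ℂ L, ∀ x, x ∈ A ↔ Bd M L S x) ∧
    (∀ (p : Polynomial L) (x : L), p.Monic → (∀ j, Bd M L S (p.coeff j)) → p.eval x = 0 →
      Bd M L S x) ∧
    (∀ (τ : L ≃ₐ[K] L) (x : L), Bd M L S x → Bd M L S (τ x)) ∧
    (∀ x : K, Bd M L S (algebraMap K L x) ↔ BdK M S x) ∧
    (∀ (ρ : ℝ) (x : K) (j : ℕ), 0 < ρ → BdK M (nb ρ S) x → BdK M S (M.D^[j] x))

/-- **DER.** The derivation extends to `L`; its constants are the complex numbers. Proof: Mathlib
`Differential.differentialFiniteDimensional` (`Mathlib.FieldTheory.Differential.Basic`) for the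
`Differential` structure on `K` with `deriv := M.D.restrictScalars ℤ`; the derivation is `ℂ`-linear
because complex numbers have derivative zero. Constants: if `D x = 0` apply `D` to
`aeval x (minpoly K x) = 0`: the polynomial of the derivatives of the coefficients has smaller
degree and vanishes at `x`, so it is zero, so the coefficients are in `ℂ` by `M.const`, `x` is
algebraic over `ℂ`, hence in `ℂ`. -/
def S_DER : Prop :=
  ∀ (K L : Type) [Field K] [Algebra ℂ K] [Field L] [Algebra ℂ L] [Algebra K L]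
    [IsScalarTower ℂ K L] [FiniteDimensional K L] (M : MeroSys K),
    ∃ DL : Derivation ℂ L L, (∀ x : K, DL (algebraMap K L x) = algebraMap K L (M.D x)) ∧
      ∀ x : L, DL x = 0 → ∃ c : ℂ, x = algebraMap ℂ L c

/-- **NL.** Liouville's theorem with norms. Proof: for `i` with `u i ≠ 0` put
`T i = u i ^ (κ N) * Norm E`, `N = finrank K L`, in `K`. `algebraMap (Norm x) = ∏ τ, τ x`
(`Algebra.norm_eq_prod_automorphisms`). On `S c` it equals
`(u i / u c) ^ (κ N) * Norm (E * u c ^ κ)`, bounded by BDD (1), (3), (4). There are finitely many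
`c` and every `t` is in some `S c` with `u c ≠ 0`, so `T i` is bounded everywhere and is a constant
by `M.liouville`; `T j / T i = (u j / u i) ^ (κ N)` is a constant, so `u j / u i` is algebraic over
`ℂ`, hence in `ℂ`. (If `u j = 0` take `a = 0`.) -/
def S_NL : Prop :=
  ∀ (K L : Type) [Field K] [Algebra ℂ K] [Field L] [Algebra ℂ L] [Algebra K L]
    [IsScalarTower ℂ K L] [FiniteDimensional K L] [IsGalois K L] (M : MeroSys K) (s : ℕ)
    (u : Fin s → K) (ρ : ℝ) (S : Fin s → Set ℂ) (E : L) (κ : ℕ), Charts M u ρ S → E ≠ 0 → 1 ≤ κ →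
    (∀ c, u c ≠ 0 → Bd M L (S c) (E * algebraMap K L (u c) ^ κ)) →
    ∀ i j, u i ≠ 0 → ∃ a : ℂ, u j = algebraMap ℂ K a * u i

/-- **STAB.** A stable bounded algebra in every chart. `y α / u c` is a zero of a monic polynomial
of degree `d α` over `K` with coefficients bounded on `nb ρ (S c)`.
Proof. Let `μ α = minpoly K (y α)`, `q α = aeval (y α) (derivative (μ α)) ≠ 0` (separable),
`δ = ∏ α, q α * τ (q α)`, `Δ = 2 * ∑ α, (natDegree (μ α) - 1)`. Fix `c` with `u c ≠ 0`, write
`v = u c` and `y~ α = y α / v`, `μ~ α = minpoly K (y~ α)`. Then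
`μ~ α = v ^ (- deg) * μ α (v * X)` (same degree; e.g. `minpoly` of a scalar multiple, or by the
degree and `minpoly.unique`), so `aeval (y~ α) (derivative (μ~ α)) = q α / v ^ (deg - 1)` and
`δ / v ^ Δ = ∏ α, q~ α * τ (q~ α)`. The roots of `μ~ α` in `L` are conjugates of `y~ α`, bounded on
`nb ρ (S c)` by BDD (2), (3); `μ~ α` mapped to `L` is the product of `X - root`
(`IsGalois` gives splitting), so its coefficients are bounded on `nb ρ (S c)` and by BDD (4), (5)
all their derivatives are bounded on `S c`. Let `A` be generated by `y~ α`, `τ (y~ α)` and the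
images of all derivatives of the coefficients of the `μ~ α`. All elements of `A` are bounded on
`S c` (BDD (1)). Stability: it is enough to check generators (`Algebra.adjoin_induction`, Leibniz);
for the derivatives of coefficients it is clear (`δ / v ^ Δ` is in `A`), and
`q~ α * DL (y~ α) = - (value at y~ α of the polynomial of the derivatives of the coefficients)`,
`τ (DL x) = DL (τ x)` (uniqueness of the extension of the derivation; or differentiate
`aeval (τ y~) μ~ = 0` directly). -/
def S_STAB : Prop :=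
  ∀ (K L : Type) [Field K] [Algebra ℂ K] [Field L] [Algebra ℂ L] [Algebra K L]
    [IsScalarTower ℂ K L] [FiniteDimensional K L] [IsGalois K L] (M : MeroSys K)
    (DL : Derivation ℂ L L), (∀ x : K, DL (algebraMap K L x) = algebraMap K L (M.D x)) →
    ∀ (s : ℕ) (u : Fin s → K) (ρ : ℝ) (S : Fin s → Set ℂ), Charts M u ρ S →
    ∀ (ι : Type) [Fintype ι] (d : ι → ℕ) (y : ι → L),
    (∀ c, u c ≠ 0 → ∀ α, ∃ p : Polynomial K, p.Monic ∧ p.natDegree = d α ∧
      (∀ j, BdK M (nb ρ (S c)) (p.coeff j)) ∧
      Polynomial.aeval (y α / algebraMap K L (u c)) p = 0) →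
    ∀ τ : L ≃ₐ[K] L,
    ∃ (δ : L) (Δ : ℕ), δ ≠ 0 ∧ Δ ≤ 2 * ∑ α, (d α - 1) ∧
      ∀ c, u c ≠ 0 → ∃ A : Subalgebra ℂ L, (∀ x ∈ A, Bd M L (S c) x) ∧
        (∀ α, y α / algebraMap K L (u c) ∈ A ∧ τ (y α) / algebraMap K L (u c) ∈ A) ∧
        ∀ x ∈ A, δ / algebraMap K L (u c) ^ Δ * DL x ∈ A

/-! ### Large values (Wronskians and components: helper5's file) -/

/-- **LARGE.** On the normalised part of the cone any `m + 1` of the forms have one large value.
Proof: the set of these `v` (norm at most `B`, some `l_c(v) = 1`) is compact; for a fixed `I` the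
continuous function `max_{i ∈ I} |lam_i(v)|` has no zero on it (`Good.c1`, `v ≠ 0`), so it is bounded
below; finitely many `I`. -/
def S_LARGE : Prop :=
  ∀ (k ι : Type) [Field k] [Fintype ι] (S : Set (MvPolynomial ι k)) (σ : k →+* ℂ) (m M : ℕ)
    (l : Fin (m + 1) → ι → ℂ) (lam : Fin M → ι → ℂ),
    (∀ x, InCone σ S x → ∀ I : Finset (Fin M), m < I.card → (∀ i ∈ I, dot (lam i) x = 0) →
      x = 0) →
    ∀ B : ℝ, ∃ ε > (0 : ℝ), ∀ v : ι → ℂ, InCone σ S v → (∀ α, ‖v α‖ ≤ B) →
      (∃ c, dot (l c) v = 1) → ∀ I : Finset (Fin M), m < I.card → ∃ i ∈ I, ε ≤ ‖dot (lam i) v‖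

/-! ### Galois theory -/

/-- **KUM.** The Kummer step. Proof. Let `N` be the number of elements of the orbit `O` of
`θ = l_i(x) / l_c(x)` under `L ≃ₐ[K] L`. If `N ≥ m + 2` there are `τ_a`, `a < m + 2`, with pairwise
different `τ_a θ`; the points `τ_a x` lie in the cone, over the same base and with the same `tt`
(both are in `K`), so by (C5) two are proportional, and then `τ_a θ = τ_b θ`. So `N ≤ m + 1 < e`.
Every element of `O` is `ξ θ` with `ξ ^ e = 1`, `ξ` a complex number (`X ^ e - 1` splits over `ℂ`),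
because `θ ^ e` is in `K`; the product of `O` is in `K`, so `θ ^ N` is in `K`, and `N` is prime to
`e`, so `θ` is in `K`. -/
def S_KUM : Prop :=
  ∀ (K L ι : Type) [Field K] [Algebra ℂ K] [Field L] [Algebra ℂ L] [Algebra K L]
    [IsScalarTower ℂ K L] [FiniteDimensional K L] [IsGalois K L] [Fintype ι] (k : Type) [Field k]
    (σ : k →+* ℂ) (S : Set (MvPolynomial ι k)) (e m M : ℕ) (l : Fin (m + 1) → ι → k)
    (lam : Fin M → ι → k) (b : Fin M → k), Nat.Prime e → m + 1 < e →
    Good e (InCone ((algebraMap ℂ L).comp σ) S) (fun i => ((algebraMap ℂ L).comp σ) ∘ l i)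
      (fun i => ((algebraMap ℂ L).comp σ) ∘ lam i) (((algebraMap ℂ L).comp σ) ∘ b) →
    ∀ (x : ι → L) (f : Fin (m + 1) → K) (t : K), InCone ((algebraMap ℂ L).comp σ) S x →
    (∀ i, dot (((algebraMap ℂ L).comp σ) ∘ l i) x ^ e = algebraMap K L (f i)) →
    tt (fun i => ((algebraMap ℂ L).comp σ) ∘ lam i) (((algebraMap ℂ L).comp σ) ∘ b) e x =
      algebraMap K L t →
    ∀ c, f c ≠ 0 → ∀ i, ∃ u : K, dot (((algebraMap ℂ L).comp σ) ∘ l i) x =
      algebraMap K L u * dot (((algebraMap ℂ L).comp σ) ∘ l c) x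

/-! ### The main step -/

/-- **PAIR.** A lift of a curve with bounded charts is rational over `K`, or the curve is constant.
Data: the Kummer normalised lift `y` over `L` with `l_i(y) = u_i` in `K`, `tt(y)` in `K`.
Proof (from DER, STAB, LARGE, NL and helper5's statements on Wronskians and components). If `m = 0`
the second alternative is trivial. Let `τ y ≠ y`, `w = τ y`; not proportional (compare `l_c`,
`u c ≠ 0`), same base, `tt y = tt w`. helper5's DICH for `h (inl j) = lam_j(y)`,
`h (inr j) = lam_j(w)` gives a component `D` with more than `2 m` elements; fix `j` in `D` and put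
`E = Wp ^ #D / h j ^ (e - N)`, with the Wronskians for the derivation `δ D`. In the chart `c`
(`v = u c`) the derivation `(δ / v ^ Δ) D` and the functions `h / v` give `Wp_c`, a power of `v` times
`Wp`, and `E * v ^ κ = Wp_c ^ #D / (h j / v) ^ (e - N)`. At a place `ψ` over `t ∈ S c` the points
`(ψ (y α / v))`, `(ψ (w α / v))` are in the cone over `ℂ`, bounded, with `l_c = 1`, so by LARGE
`|ψ (h i / v)| ≥ ε` for some `i` in `D`, and `E * v ^ κ = Z / (h i / v) ^ (e - N)` with `Z` in the
stable algebra is bounded. Apply NL. -/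
def S_PAIR (E₀ : ℕ → ℕ → ℕ) : Prop :=
  ∀ (K L ι : Type) [Field K] [Algebra ℂ K] [Field L] [Algebra ℂ L] [Algebra K L]
    [IsScalarTower ℂ K L] [FiniteDimensional K L] [IsGalois K L] [Fintype ι] (MK : MeroSys K)
    (k : Type) [Field k] (σ : k →+* ℂ) (S : Set (MvPolynomial ι k)) (e m M : ℕ)
    (l : Fin (m + 1) → ι → k) (lam : Fin M → ι → k) (b : Fin M → k) (d : ι → ℕ)
    (P : ι → Polynomial (MvPolynomial (Fin (m + 1)) k)),
    (∀ (F : Type) [Field F] (τ : k →+* F),
      Good e (InCone τ S) (fun i => τ ∘ l i) (fun j => τ ∘ lam j) (τ ∘ b)) →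
    (∀ P ∈ S, ∃ n, P.IsHomogeneous n) →
    (∀ α, PShape (P α) (d α) ∧ ∀ (F : Type) [Field F] (τ : k →+* F) (x : ι → F), InCone τ S x →
      pval τ (P α) (fun i => dot (τ ∘ l i) x) (x α) = 0) →
    2 * m ^ 2 + m < M → E₀ M (2 * ∑ α, (d α - 1)) ≤ e →
    ∀ (u : Fin (m + 1) → K) (ρ : ℝ) (Sc : Fin (m + 1) → Set ℂ), Charts MK u ρ Sc →
    ∀ y : ι → L, InCone ((algebraMap ℂ L).comp σ) S y →
    (∀ i, dot (((algebraMap ℂ L).comp σ) ∘ l i) y = algebraMap K L (u i)) →
    (∃ t : K, tt (fun i => ((algebraMap ℂ L).comp σ) ∘ lam i) (((algebraMap ℂ L).comp σ) ∘ b) e y =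
      algebraMap K L t) →
    (∀ α, ∃ a : K, y α = algebraMap K L a) ∨
      ∀ i j, u i ≠ 0 → ∃ a : ℂ, u j = algebraMap ℂ K a * u i

/-! ### Curves and vectors over `K` -/

/-- **REP.** Algebra of `Rep`. (1) Homogeneous equations: if `F(φ z) = 0` for all `z` and
`F(f) ≠ 0`, take (by `M.gen`, the complex numbers being uncountable) a `t` such that all nonzero
`f i` and `F(f)` are units of `O t`; with `g` as in `Rep` at `t`, `F(g f) = g^a F(f)`, and `g` is a
unit of `O t` too, while `ev t` of it is `F` of a multiple of `(φ t).rep`, zero. Conversely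
`F(g f) = g^a F(f) = 0`. (2) Constants: apply (1) with `k = ℂ` to linear forms `v i X j - v j X i`,
or directly. -/
def S_REP : Prop :=
  ∀ (K : Type) [Field K] [Algebra ℂ K] (M : MeroSys K) (N : ℕ) (f : Fin N → K)
    (φ : ℂ → ℙ ℂ (Fin N → ℂ)), Rep M f φ →
    (∀ (k : Type) [Field k] (σ : k →+* ℂ) (F : MvPolynomial (Fin N) k) (a : ℕ),
      F.IsHomogeneous a → ((∀ z, F.eval₂ σ (φ z).rep = 0) ↔
        F.eval₂ ((algebraMap ℂ K).comp σ) f = 0)) ∧
    ((∀ i j, f i ≠ 0 → ∃ a : ℂ, f j = algebraMap ℂ K a * f i) ↔ ∀ z w, φ z = φ w)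

/-- the linear form with coefficients `a` -/
noncomputable def lin {ι k : Type} [Fintype ι] [Field k] (a : ι → k) : MvPolynomial ι k :=
  ∑ i, MvPolynomial.C (a i) * MvPolynomial.X i

/-- the map `(l_0^e, ..., l_m^e, ∑ j, b_j lam_j^e)` -/
noncomputable def Fm {ι k : Type} [Fintype ι] [Field k] {m M : ℕ} (l : Fin (m + 1) → ι → k)
    (lam : Fin M → ι → k) (b : Fin M → k) (e : ℕ) : Fin (m + 2) → MvPolynomial ι k :=
  Fin.snoc (α := fun _ => MvPolynomial ι k) (fun i => lin (l i) ^ e)
    (∑ j, MvPolynomial.C (b j) * lin (lam j) ^ e)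

/-- **MAXI.** On a closed set of points of `P^(m+1)` which does not contain `(0, ..., 0, 1)` one of
the first `m + 1` diagonal entries of `pm` is bounded below. Proof: `pm '' Y` is closed and bounded,
hence compact; `P ↦ ∑ i : Fin (m + 1), ‖P i i‖` is continuous and has no zero on it. -/
def S_MAXI : Prop :=
  ∀ (m : ℕ) (Y : Set (ℙ ℂ (Fin (m + 2) → ℂ))), PClosed Y →
    (∀ p ∈ Y, ∃ i : Fin (m + 1), p.rep i.castSucc ≠ 0) →
    ∃ c > (0 : ℝ), ∀ p ∈ Y, ∃ i : Fin (m + 1), c ≤ ‖pm p i.castSucc i.castSucc‖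

/-- **HYPK.** Hyperbolic hypersurfaces containing a given hyperbolic variety, in the same projective
space, over any field of characteristic zero. Proof: as in `exists_exact_hypersurface` and
`brodyHyperbolic_hyp`: finitely many equations `P_c` of `S`, the family `gfam` (products of the `P_c`
with monomials, all of one degree `r`), enumerated as `G_0, ..., G_N`, and
`F = tw (4 d) N (U G)` with an invertible matrix `U` over `k`, chosen so that `F` is not zero: take
`x` over `k` (infinite) with `G(x) ≠ 0` and `U` with `U G(x) = v`, where `tw (4 d) N v ≠ 0`, for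
example `v = (1, 0, ..., 0)`. Hyperbolicity: `brodyHyperbolic_pullback` for the map `U G`. -/
def S_HYPK : Prop :=
  ∀ (k : Type) [Field k] [CharZero k] (n : ℕ) (S : Set (MvPolynomial (Fin (n + 1)) k)),
    Homog S → (∃ P ∈ S, P ≠ 0) →
    ∃ (a : ℕ) (F : MvPolynomial (Fin (n + 1)) k), F ≠ 0 ∧ F.IsHomogeneous a ∧
      (∀ σ : k →+* ℂ, BrodyHyperbolic (points σ S) → BrodyHyperbolic (points σ {F})) ∧
      (∀ (L : Type) [Field L] (τ : k →+* L) (x : Fin (n + 1) → L),
        (∀ P ∈ S, P.eval₂ τ x = 0) → F.eval₂ τ x = 0)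

end Pool.Agent.Lib.MP_627a61_nt.Hy
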