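import Mathlib
import Pool.Agent.Lib.MP_627a61_nt.Hy.MStm

/-!
# HYP, version D: the Kummer step
-/

open scoped LinearAlgebra.Projectivization Topology
open Polynomial

namespace Pool.Agent.Lib.MP_627a61_nt.Hy

section
variable {K L ι : Type} [Field K] [Algebra ℂ K] [Field L] [Algebra ℂ L] [Algebra K L]
  [IsScalarTower ℂ K L] [Fintype ι]

/-- automorphisms over `K` fix the complex numbers -/
lemma kum_fix (τ : L ≃ₐ[K] L) (a : ℂ) : τ (algebraMap ℂ L a) = algebraMap ℂ L a := by
  rw [IsScalarTower.algebraMap_apply ℂ K L, AlgEquiv.commutes]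

/-- automorphisms commute with linear forms over `ℂ` -/
lemma kum_dot {k : Type} [Field k] (σ : k →+* ℂ) (τ : L ≃ₐ[K] L) (a : ι → k) (x : ι → L) :
    dot (((algebraMap ℂ L).comp σ) ∘ a) (fun i => τ (x i)) =
      τ (dot (((algebraMap ℂ L).comp σ) ∘ a) x) := by
  unfold dot
  rw [map_sum]
  refine Finset.sum_congr rfl fun i _ => ?_
  rw [map_mul]
  congr 1
  simp only [Function.comp_apply, RingHom.comp_apply]
  exact (kum_fix τ _).symm

/-- automorphisms preserve the cone -/
lemma kum_cone {k : Type} [Field k] (σ : k →+* ℂ) (S : Set (MvPolynomial ι k)) (τ : L ≃ₐ[K] L)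
    (x : ι → L) (hx : InCone ((algebraMap ℂ L).comp σ) S x) :
    InCone ((algebraMap ℂ L).comp σ) S (fun i => τ (x i)) := by
  intro P hP
  have h := hx P hP
  have h1 : P.eval₂ ((algebraMap ℂ L).comp σ) (fun i => τ (x i)) =
      (τ : L →+* L) (P.eval₂ ((algebraMap ℂ L).comp σ) x) := by
    rw [MvPolynomial.eval₂_comp_left]
    congr 1
    ext a
    simp only [RingHom.comp_apply]
    exact (kum_fix τ _).symm
  rw [h1, h, map_zero]

end

/-- **KUM** -/
theorem kum : S_KUM := by
  intro K L ι _ _ _ _ _ _ _ _ _ k _ σ S e m M l lam b he hme hG x f t hx hf ht c hc i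
  have hK : CharZero K := charZero_of_injective_algebraMap (algebraMap ℂ K).injective
  set j : k →+* L := (algebraMap ℂ L).comp σ with hj
  have hinj : Function.Injective (algebraMap K L) := (algebraMap K L).injective
  have hepos : 0 < e := he.pos
  -- `l_c(x)` is not zero
  have hlc : dot (j ∘ l c) x ≠ 0 := by
    intro h
    have h1 := hf c
    rw [h, zero_pow hepos.ne'] at h1
    exact hc (hinj (by rw [← h1, map_zero]))
  have hx0 : x ≠ 0 := by
    intro h
    apply hlc
    rw [h]
    simp [dot]
  by_cases hfi : f i = 0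
  · refine ⟨0, ?_⟩
    have h1 := hf i
    rw [hfi, map_zero] at h1
    rw [map_zero, zero_mul]
    exact pow_eq_zero_iff hepos.ne' |>.mp h1
  set θ : L := dot (j ∘ l i) x / dot (j ∘ l c) x with hθ
  have hθe : θ ^ e = algebraMap K L (f i / f c) := by
    rw [hθ, div_pow, hf i, hf c, map_div₀]
  have hy0 : f i / f c ≠ 0 := div_ne_zero hfi hc
  -- at most `m + 1` conjugates
  have hconj : ∀ τ : Fin (m + 2) → (L ≃ₐ[K] L), ∃ a a', a ≠ a' ∧ τ a θ = τ a' θ := by
    intro τ
    obtain ⟨a, a', haa, hp⟩ := hG.c5 (fun a i => τ a (x i)) (fun a => kum_cone σ S (τ a) x hx)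
      (fun a h => hx0 (funext fun i => by
        have h2 := congrFun h i
        exact (map_eq_zero_iff (τ a) (τ a).injective).mp h2))
      (fun a a' i => by
        rw [kum_dot σ (τ a) (l i) x, kum_dot σ (τ a') (l i) x, ← map_pow, ← map_pow, hf i,
          AlgEquiv.commutes, AlgEquiv.commutes])
      (fun a a' => by
        have h3 : ∀ a, tt (fun i => j ∘ lam i) (j ∘ b) e (fun i => τ a (x i)) =
            algebraMap K L t := by
          intro a
          have h4 : tt (fun i => j ∘ lam i) (j ∘ b) e (fun i => τ a (x i)) =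
              τ a (tt (fun i => j ∘ lam i) (j ∘ b) e x) := by
            unfold tt
            rw [map_sum]
            refine Finset.sum_congr rfl fun i _ => ?_
            rw [map_mul, map_pow, ← kum_dot σ (τ a) (lam i) x]
            congr 1
            simp only [Function.comp_apply, hj, RingHom.comp_apply]
            exact (kum_fix (τ a) _).symm
          rw [h4, ht, AlgEquiv.commutes]
        rw [h3, h3])
    obtain ⟨s, hs⟩ := hp
    refine ⟨a, a', haa, ?_⟩
    have h5 : ∀ q : ι → k, τ a (dot (j ∘ q) x) = s * τ a' (dot (j ∘ q) x) := by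
      intro q
      rw [← kum_dot σ (τ a) q x, ← kum_dot σ (τ a') q x, hs]
      unfold dot
      rw [Finset.mul_sum]
      refine Finset.sum_congr rfl fun i _ => ?_
      simp only [Pi.smul_apply, smul_eq_mul]
      ring
    have hs0 : s ≠ 0 := by
      intro h
      have h6 := h5 (l c)
      rw [h, zero_mul] at h6
      exact hlc ((map_eq_zero_iff (τ a) (τ a).injective).mp h6)
    rw [hθ, map_div₀, map_div₀, h5, h5, mul_div_mul_left _ _ hs0]
  -- the polynomial `X ^ e - f i / f c` is reducible
  have hex : ∃ u : K, u ^ e = f i / f c := by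
    by_contra hno
    push Not at hno
    have hirr := X_pow_sub_C_irreducible_of_prime he hno
    have hmin : minpoly K θ = X ^ e - C (f i / f c) := by
      symm
      apply minpoly.eq_of_irreducible_of_monic hirr
      · simp only [map_sub, map_pow, aeval_X, aeval_C]
        rw [hθe, sub_self]
      · exact monic_X_pow_sub_C _ hepos.ne'
    have hint : IsIntegral K θ := Algebra.IsIntegral.isIntegral θ
    have hsep : (minpoly K θ).Separable := Algebra.IsSeparable.isSeparable K θ
    have hspl : Splits ((minpoly K θ).map (algebraMap K L)) := Normal.splits inferInstance θ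
    have hcard := card_rootSet_eq_natDegree hsep hspl
    have hdeg : (minpoly K θ).natDegree = e := by
      rw [hmin, natDegree_X_pow_sub_C]
    rw [hdeg] at hcard
    have hemb : Fintype.card (Fin (m + 2)) ≤ Fintype.card ((minpoly K θ).rootSet L) := by
      rw [hcard, Fintype.card_fin]
      omega
    obtain ⟨g⟩ := Function.Embedding.nonempty_of_card_le hemb
    have hr : ∀ a, ∃ τ : L ≃ₐ[K] L, τ θ = (g a : L) := by
      intro a
      apply minpoly.exists_algEquiv_of_root' hint.isAlgebraic
      exact aeval_eq_zero_of_mem_rootSet (g a).2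
    choose τ hτ using hr
    obtain ⟨a, a', haa, h7⟩ := hconj τ
    rw [hτ, hτ] at h7
    exact haa (g.injective (Subtype.ext h7))
  obtain ⟨u, hu⟩ := hex
  have hu0 : u ≠ 0 := by
    intro h
    rw [h, zero_pow hepos.ne'] at hu
    exact hy0 hu.symm
  -- the root of unity is a complex number
  have hζ : (θ / algebraMap K L u) ^ e = 1 := by
    rw [div_pow, hθe, ← map_pow, hu, div_self]
    exact (map_ne_zero_iff _ hinj).mpr hy0
  have hC : ∃ z : ℂ, θ / algebraMap K L u = algebraMap ℂ L z := by
    have h8 : Splits (X ^ e - 1 : ℂ[X]) := IsAlgClosed.splits _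
    have h9 : (X ^ e - 1 : ℂ[X]) ≠ 0 := (monic_X_pow_sub_C (1 : ℂ) hepos.ne').ne_zero
    have h10 : θ / algebraMap K L u ∈ ((X ^ e - 1 : ℂ[X]).map (algebraMap ℂ L)).roots := by
      rw [mem_roots]
      · simp [hζ]
      · exact (Polynomial.map_ne_zero_iff (algebraMap ℂ L).injective).mpr h9
    rw [h8.roots_map] at h10
    obtain ⟨z, _, hz⟩ := Multiset.mem_map.mp h10
    exact ⟨z, hz.symm⟩
  obtain ⟨z, hz⟩ := hC
  refine ⟨algebraMap ℂ K z * u, ?_⟩
  have hu1 : algebraMap K L u ≠ 0 := (map_ne_zero_iff _ hinj).mpr hu0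
  have h11 : θ = algebraMap ℂ L z * algebraMap K L u := by
    rw [← hz]
    field_simp
  rw [map_mul, ← IsScalarTower.algebraMap_apply ℂ K L, ← h11, hθ]
  field_simp

end Pool.Agent.Lib.MP_627a61_nt.Hy
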