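import Pool.Agent.Lib.MP_627a61_nt.Hy.MStm

/-!
# Project DIM/HYP, version D: MAXI
-/

open scoped LinearAlgebra.Projectivization Topology
open Filter Metric

namespace Pool.Agent.Lib.MP_627a61_nt.Hy

/-- **MAXI.** A lower bound for the first diagonal entries of `pm` on a closed set. -/
theorem maxi : S_MAXI := by
  intro m Y hY hne
  let G : (Fin (m + 2) → Fin (m + 2) → ℂ) → ℝ :=
    fun P => ∑ i : Fin (m + 1), ‖P i.castSucc i.castSucc‖
  have hG : Continuous G := by
    refine continuous_finsetSum _ fun i _ => ?_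
    exact ((continuous_apply i.castSucc).comp (continuous_apply i.castSucc)).norm
  have hb : pm '' Y ⊆ closedBall 0 1 := by
    rintro _ ⟨p, -, rfl⟩
    rw [mem_closedBall_zero_iff]
    exact norm_pm_le_one p
  have hc : IsCompact (pm '' Y) := (isCompact_closedBall _ _).of_isClosed_subset hY hb
  rcases Y.eq_empty_or_nonempty with h0 | h0
  · subst h0
    exact ⟨1, one_pos, fun p hp => absurd hp (Set.notMem_empty p)⟩
  obtain ⟨P, hP, hmin⟩ := hc.exists_isMinOn (h0.image _) hG.continuousOn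
  obtain ⟨q, hq, rfl⟩ := hP
  have hpos : 0 < G (pm q) := by
    obtain ⟨i, hi⟩ := hne q hq
    refine Finset.sum_pos' (fun i _ => norm_nonneg _) ⟨i, Finset.mem_univ _, ?_⟩
    exact norm_pos_iff.2 ((pmv_diag_ne_zero_iff q.rep_nonzero _).2 hi)
  refine ⟨G (pm q) / (m + 1), div_pos hpos (by positivity), fun p hp => ?_⟩
  by_contra hcon
  push Not at hcon
  have h1 : G (pm p) < ∑ _i : Fin (m + 1), G (pm q) / (m + 1) :=
    Finset.sum_lt_sum_of_nonempty ⟨0, Finset.mem_univ _⟩ fun i _ => hcon i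
  have h2 : G (pm q) ≤ G (pm p) := hmin (Set.mem_image_of_mem _ hp)
  have h3 : (∑ _i : Fin (m + 1), G (pm q) / (m + 1)) = G (pm q) := by
    have : ((m : ℝ) + 1) ≠ 0 := by positivity
    simp only [Finset.sum_const, Finset.card_univ, Fintype.card_fin, nsmul_eq_mul]
    push_cast
    field_simp
  rw [h3] at h1
  exact absurd h1 (not_lt.2 h2)

end Pool.Agent.Lib.MP_627a61_nt.Hy
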