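import Pool.Agent.Lib.MP_627a61_nt.Hy.MStm

/-!
# MERO: the field of meromorphic functions
-/

set_option autoImplicit false

open scoped LinearAlgebra.Projectivization Topology
open Filter Metric

namespace Pool.Agent.Lib.MP_627a61_nt.Hy

namespace MeroC

/-! ### the field -/

/-- an ultrafilter on punctured neighbourhoods of zero -/
noncomputable def U : Ultrafilter ℂ := Ultrafilter.of (𝓝[≠] (0 : ℂ))

lemma U_le : (U : Filter ℂ) ≤ 𝓝[≠] (0 : ℂ) := Ultrafilter.of_le _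

/-- germs -/
abbrev G : Type := Germ (U : Filter ℂ) ℂ

/-- the subfield of the germs of meromorphic functions -/
noncomputable def KF : Subfield G where
  carrier := {x | ∃ g : ℂ → ℂ, Meromorphic g ∧ (g : G) = x}
  mul_mem' := by
    rintro _ _ ⟨g, hg, rfl⟩ ⟨h, hh, rfl⟩
    exact ⟨g * h, hg.mul hh, rfl⟩
  one_mem' := ⟨fun _ => 1, Meromorphic.const 1, rfl⟩
  add_mem' := by
    rintro _ _ ⟨g, hg, rfl⟩ ⟨h, hh, rfl⟩
    exact ⟨g + h, hg.add hh, rfl⟩
  zero_mem' := ⟨fun _ => 0, Meromorphic.const 0, rfl⟩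
  neg_mem' := by
    rintro _ ⟨g, hg, rfl⟩
    exact ⟨-g, hg.neg, rfl⟩
  inv_mem' := by
    rintro _ ⟨g, hg, rfl⟩
    exact ⟨g⁻¹, hg.inv, rfl⟩

/-- the field of meromorphic functions -/
abbrev K : Type := KF

/-- the element given by a meromorphic function -/
noncomputable def mk (g : ℂ → ℂ) (hg : Meromorphic g) : K := ⟨(g : G), g, hg, rfl⟩

/-- the function in normal form -/
noncomputable def fn (x : K) : ℂ → ℂ := toMeromorphicNFOn x.2.choose Set.univ

lemma fn_nfOn (x : K) : MeromorphicNFOn (fn x) Set.univ :=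
  meromorphicNFOn_toMeromorphicNFOn _ _

lemma fn_nf (x : K) (z : ℂ) : MeromorphicNFAt (fn x) z := fn_nfOn x (Set.mem_univ z)

lemma fn_mero (x : K) : Meromorphic (fn x) := fun z => (fn_nf x z).meromorphicAt

lemma fn_eq (x : K) (z : ℂ) : fn x =ᶠ[𝓝[≠] z] x.2.choose :=
  MeromorphicOn.toMeromorphicNFOn_eq_self_on_nhdsNE
    (meromorphicOn_univ.2 x.2.choose_spec.1) (Set.mem_univ z)

lemma coe_fn (x : K) : ((fn x : ℂ → ℂ) : G) = (x : G) := by
  have h := x.2.choose_spec.2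
  rw [← h]
  exact Germ.coe_eq.2 ((fn_eq x 0).filter_mono U_le)

/-- identity theorem -/
lemma ident {g h : ℂ → ℂ} (hg : Meromorphic g) (hh : Meromorphic h) (z₀ : ℂ)
    (h0 : g =ᶠ[𝓝[≠] z₀] h) (z : ℂ) : g =ᶠ[𝓝[≠] z] h := by
  by_contra hne
  have hm : Meromorphic (g - h) := hg.sub hh
  have h1 : meromorphicOrderAt (g - h) z ≠ ⊤ := by
    intro ht
    rw [meromorphicOrderAt_eq_top_iff] at ht
    exact hne (ht.mono fun w hw => sub_eq_zero.1 hw)
  have h2 : meromorphicOrderAt (g - h) z₀ ≠ ⊤ :=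
    MeromorphicOn.meromorphicOrderAt_ne_top_of_isPreconnected (U := Set.univ)
      (meromorphicOn_univ.2 hm) isPreconnected_univ (Set.mem_univ z) (Set.mem_univ z₀) h1
  apply h2
  rw [meromorphicOrderAt_eq_top_iff]
  exact h0.mono fun w hw => sub_eq_zero.2 hw

lemma identU {g h : ℂ → ℂ} (hg : Meromorphic g) (hh : Meromorphic h)
    (h0 : (g : G) = (h : G)) (z : ℂ) : g =ᶠ[𝓝[≠] z] h := by
  refine ident hg hh 0 ?_ z
  have h1 : g =ᶠ[(U : Filter ℂ)] h := Germ.coe_eq.1 h0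
  rw [← MeromorphicAt.frequently_eq_iff_eventuallyEq (hg 0) (hh 0)]
  exact (h1.frequently).filter_mono U_le

lemma fn_mk (g : ℂ → ℂ) (hg : Meromorphic g) (z : ℂ) : fn (mk g hg) =ᶠ[𝓝[≠] z] g :=
  identU (fn_mero _) hg (coe_fn _) z

lemma ext_of {x y : K} (z : ℂ) (h : fn x =ᶠ[𝓝[≠] z] fn y) : x = y := by
  apply Subtype.ext
  rw [← coe_fn x, ← coe_fn y]
  exact Germ.coe_eq.2 ((ident (fn_mero x) (fn_mero y) z h 0).filter_mono U_le)

lemma fn_add (x y : K) (z : ℂ) : fn (x + y) =ᶠ[𝓝[≠] z] fn x + fn y :=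
  identU (fn_mero _) ((fn_mero x).add (fn_mero y)) (by
    rw [coe_fn, Germ.coe_add, coe_fn, coe_fn]; rfl) z

lemma fn_mul (x y : K) (z : ℂ) : fn (x * y) =ᶠ[𝓝[≠] z] fn x * fn y :=
  identU (fn_mero _) ((fn_mero x).mul (fn_mero y)) (by
    rw [coe_fn, Germ.coe_mul, coe_fn, coe_fn]; rfl) z

lemma fn_neg (x : K) (z : ℂ) : fn (-x) =ᶠ[𝓝[≠] z] -fn x :=
  identU (fn_mero _) (fn_mero x).neg (by
    rw [coe_fn, Germ.coe_neg, coe_fn]; rfl) z

lemma fn_inv (x : K) (z : ℂ) : fn x⁻¹ =ᶠ[𝓝[≠] z] (fn x)⁻¹ :=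
  identU (fn_mero _) (fn_mero x).inv (by
    rw [coe_fn, Germ.coe_inv, coe_fn]; rfl) z

/-- constants -/
noncomputable def cst : ℂ →+* K where
  toFun c := mk (fun _ => c) (Meromorphic.const c)
  map_one' := rfl
  map_mul' _ _ := rfl
  map_zero' := rfl
  map_add' _ _ := rfl

noncomputable instance : Algebra ℂ K := cst.toAlgebra

lemma alg_def (c : ℂ) : algebraMap ℂ K c = mk (fun _ => c) (Meromorphic.const c) := rfl

lemma fn_alg (c : ℂ) (z : ℂ) : fn (algebraMap ℂ K c) =ᶠ[𝓝[≠] z] fun _ => c :=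
  fn_mk (fun _ => c) (Meromorphic.const c) z

/-- near a point where `g` is analytic -/
lemma fn_nhds {x : K} {g : ℂ → ℂ} {z : ℂ} (h : fn x =ᶠ[𝓝[≠] z] g) (hg : AnalyticAt ℂ g z) :
    fn x =ᶠ[𝓝 z] g :=
  ((fn_nf x z).eventuallyEq_nhdsNE_iff_eventuallyEq_nhds hg.meromorphicNFAt).1 h

/-! ### valuation rings -/

/-- the order at `t` -/
noncomputable def od (t : ℂ) (x : K) : WithTop ℤ := meromorphicOrderAt (fn x) t

lemma od_mul (t : ℂ) (x y : K) : od t (x * y) = od t x + od t y := by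
  rw [od, meromorphicOrderAt_congr (fn_mul x y t), meromorphicOrderAt_mul (fn_mero x t)
    (fn_mero y t)]
  rfl

lemma od_inv (t : ℂ) (x : K) : od t x⁻¹ = - od t x := by
  rw [od, meromorphicOrderAt_congr (fn_inv x t), meromorphicOrderAt_inv]
  rfl

lemma od_neg (t : ℂ) (x : K) : od t (-x) = od t x := by
  rw [od, meromorphicOrderAt_congr (fn_neg x t), ← meromorphicOrderAt_neg]
  rfl

lemma od_add (t : ℂ) (x y : K) : min (od t x) (od t y) ≤ od t (x + y) := by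
  rw [od, od, od, meromorphicOrderAt_congr (fn_add x y t)]
  exact meromorphicOrderAt_add (fn_mero x t) (fn_mero y t)

lemma od_top {t : ℂ} {x : K} (h : od t x = ⊤) : x = 0 := by
  rw [od, meromorphicOrderAt_eq_top_iff] at h
  refine ext_of t ?_
  have h1 : fn (0 : K) =ᶠ[𝓝[≠] t] fun _ => 0 := by
    have := fn_alg 0 t
    rwa [map_zero] at this
  filter_upwards [h, h1] with w hw hw1
  rw [hw, hw1]

lemma od_nonneg_iff {t : ℂ} {x : K} : 0 ≤ od t x ↔ AnalyticAt ℂ (fn x) t :=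
  (fn_nf x t).meromorphicOrderAt_nonneg_iff_analyticAt

lemma od_alg (t c : ℂ) : 0 ≤ od t (algebraMap ℂ K c) := by
  rw [od, meromorphicOrderAt_congr (fn_alg c t)]
  exact (analyticAt_const).meromorphicOrderAt_nonneg

/-- the functions which are holomorphic at `t` -/
noncomputable def O (t : ℂ) : ValuationSubring K where
  carrier := {x | 0 ≤ od t x}
  mul_mem' := by
    intro x y hx hy
    simp only [Set.mem_ofPred_eq] at *
    rw [od_mul]
    exact add_nonneg hx hy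
  one_mem' := by
    have := od_alg t 1
    rwa [map_one] at this
  add_mem' := by
    intro x y hx hy
    exact (le_min hx hy).trans (od_add t x y)
  zero_mem' := by
    have := od_alg t 0
    rwa [map_zero] at this
  neg_mem' := by
    intro x hx
    simp only [Set.mem_ofPred_eq] at *
    rwa [od_neg]
  mem_or_inv_mem' := by
    intro x
    simp only [Set.mem_ofPred_eq, od_inv]
    rcases le_total 0 (od t x) with h | h
    · exact Or.inl h
    · right
      cases h1 : od t x with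
      | top => rw [h1] at h; simp at h
      | coe n =>
        rw [h1] at h
        have : n ≤ 0 := by exact_mod_cast h
        have h2 : (0 : ℤ) ≤ -n := by omega
        exact_mod_cast h2

lemma mem_O {t : ℂ} {x : K} : x ∈ O t ↔ 0 ≤ od t x := Iff.rfl

lemma mem_O' {t : ℂ} {x : K} : x ∈ O t ↔ AnalyticAt ℂ (fn x) t := od_nonneg_iff

lemma val_of {t : ℂ} {x : K} {g : ℂ → ℂ} (hg : AnalyticAt ℂ g t)
    (h : fn x =ᶠ[𝓝[≠] t] g) : x ∈ O t ∧ fn x t = g t := by
  have h1 := fn_nhds h hg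
  exact ⟨mem_O'.2 (hg.congr h1.symm), h1.self_of_nhds⟩

/-- the value at `t` -/
noncomputable def ev (t : ℂ) : O t →+* ℂ where
  toFun x := fn x.1 t
  map_one' := (val_of (g := fun _ => 1) analyticAt_const (by
    have := fn_alg 1 t
    rwa [map_one] at this)).2
  map_mul' x y := (val_of ((mem_O'.1 x.2).mul (mem_O'.1 y.2)) (fn_mul x.1 y.1 t)).2
  map_zero' := (val_of (g := fun _ => 0) analyticAt_const (by
    have := fn_alg 0 t
    rwa [map_zero] at this)).2
  map_add' x y := (val_of ((mem_O'.1 x.2).add (mem_O'.1 y.2)) (fn_add x.1 y.1 t)).2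

lemma ev_apply {t : ℂ} {x : K} (h : x ∈ O t) : ev t ⟨x, h⟩ = fn x t := rfl

/-! ### the derivation -/

/-- derivative -/
noncomputable def dd (x : K) : K := mk (deriv (fn x)) (fn_mero x).deriv

lemma fn_dd (x : K) (z : ℂ) : fn (dd x) =ᶠ[𝓝[≠] z] deriv (fn x) := fn_mk _ _ z

lemma deriv_congr {f g : ℂ → ℂ} {z : ℂ} (h : f =ᶠ[𝓝[≠] z] g) :
    deriv f =ᶠ[𝓝[≠] z] deriv g := h.nhdsNE_deriv

/-- `d/dz` -/
noncomputable def D : Derivation ℂ K K where
  toFun := dd
  map_add' x y := by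
    refine ext_of 0 ?_
    have a1 := (fn_mero x 0).eventually_analyticAt
    have a2 := (fn_mero y 0).eventually_analyticAt
    filter_upwards [fn_dd (x + y) 0, fn_add (dd x) (dd y) 0, fn_dd x 0, fn_dd y 0,
      deriv_congr (fn_add x y 0), a1, a2] with w h1 h2 h3 h4 h5 h6 h7
    rw [h1, h2, h5, Pi.add_apply, h3, h4]
    exact deriv_add h6.differentiableAt h7.differentiableAt
  map_smul' c x := by
    refine ext_of 0 ?_
    have a1 := (fn_mero x 0).eventually_analyticAt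
    have h0 : fn (c • x) =ᶠ[𝓝[≠] 0] fun w => c * fn x w := by
      rw [Algebra.smul_def]
      filter_upwards [fn_mul (algebraMap ℂ K c) x 0, fn_alg c 0] with w h1 h2
      rw [h1, Pi.mul_apply, h2]
    have h0' : fn (c • dd x) =ᶠ[𝓝[≠] 0] fun w => c * fn (dd x) w := by
      rw [Algebra.smul_def]
      filter_upwards [fn_mul (algebraMap ℂ K c) (dd x) 0, fn_alg c 0] with w h1 h2
      rw [h1, Pi.mul_apply, h2]
    simp only [RingHom.id_apply]
    filter_upwards [fn_dd (c • x) 0, deriv_congr h0, h0', fn_dd x 0, a1] with w h1 h2 h3 h4 h5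
    rw [h1, h2, h3, h4]
    exact deriv_const_mul c h5.differentiableAt
  map_one_eq_zero' := by
    refine ext_of 0 ?_
    have e1 : fn (1 : K) =ᶠ[𝓝[≠] 0] fun _ => 1 := by
      have := fn_alg 1 0
      rwa [map_one] at this
    have e0 : fn (0 : K) =ᶠ[𝓝[≠] 0] fun _ => 0 := by
      have := fn_alg 0 0
      rwa [map_zero] at this
    change fn (dd 1) =ᶠ[𝓝[≠] 0] fn 0
    filter_upwards [fn_dd 1 0, deriv_congr e1, e0] with w h1 h2 h3
    rw [h1, h2, h3]
    simp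
  leibniz' x y := by
    refine ext_of 0 ?_
    have a1 := (fn_mero x 0).eventually_analyticAt
    have a2 := (fn_mero y 0).eventually_analyticAt
    change fn (dd (x * y)) =ᶠ[𝓝[≠] 0] fn (x * dd y + y * dd x)
    filter_upwards [fn_dd (x * y) 0, fn_add (x * dd y) (y * dd x) 0, fn_mul x (dd y) 0,
      fn_mul y (dd x) 0, fn_dd x 0, fn_dd y 0,
      deriv_congr (fn_mul x y 0), a1, a2] with w h1 h2 h3 h4 h5 h6 h7 h8 h9
    rw [h1, h2, h7, Pi.add_apply, h3, h4, Pi.mul_apply, Pi.mul_apply, h5, h6]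
    rw [deriv_mul h8.differentiableAt h9.differentiableAt]
    ring

/-! ### facts from complex analysis -/

lemma fn_dd_eq {x : K} {t : ℂ} (h : x ∈ O t) : dd x ∈ O t ∧ fn (dd x) t = deriv (fn x) t :=
  val_of (mem_O'.1 h).deriv (fn_dd x t)

lemma gen (x : K) (_ : x ≠ 0) : {t | x ∉ O t ∨ x⁻¹ ∉ O t}.Countable := by
  refine ((fn_mero x).countable_compl_analyticAt.union
    (fn_mero x⁻¹).countable_compl_analyticAt).mono ?_
  rintro t (h | h)
  · exact Or.inl fun h' => h (mem_O'.2 h')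
  · exact Or.inr fun h' => h (mem_O'.2 h')

lemma liouville (x : K) (C : ℝ) (h : ∀ t, ∃ h : x ∈ O t, ‖ev t ⟨x, h⟩‖ ≤ C) :
    ∃ c, x = algebraMap ℂ K c := by
  have hd : Differentiable ℂ (fn x) := fun t => (mem_O'.1 (h t).1).differentiableAt
  have hb : Bornology.IsBounded (Set.range (fn x)) := by
    rw [isBounded_iff_forall_norm_le]
    refine ⟨C, ?_⟩
    rintro _ ⟨t, rfl⟩
    exact (h t).2
  obtain ⟨c, hc⟩ := hd.exists_const_forall_eq_of_bounded hb
  refine ⟨c, ext_of 0 ?_⟩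
  filter_upwards [fn_alg c 0] with w hw
  rw [hw, hc w]

lemma const (x : K) (hx : D x = 0) : ∃ c, x = algebraMap ℂ K c := by
  have e0 : fn (0 : K) =ᶠ[𝓝[≠] 0] fun _ => 0 := by
    have := fn_alg 0 0
    rwa [map_zero] at this
  have h1 : deriv (fn x) =ᶠ[𝓝[≠] 0] fun _ => 0 := by
    have h2 := fn_dd x 0
    have h3 : dd x = 0 := hx
    rw [h3] at h2
    exact h2.symm.trans e0
  have h2 := ((fn_mero x 0).eventually_analyticAt).and h1
  rw [eventually_nhdsWithin_iff, Metric.eventually_nhds_iff_ball] at h2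
  obtain ⟨ε, hε, h2⟩ := h2
  -- a ball inside the punctured ball
  set a : ℂ := ((ε / 2 : ℝ) : ℂ)
  have ha : ‖a‖ = ε / 2 := by simp [a, abs_of_pos hε]
  have hsub : ∀ w ∈ ball a (ε / 2), w ∈ ball (0 : ℂ) ε ∧ w ≠ 0 := by
    intro w hw
    rw [mem_ball_iff_norm] at hw
    constructor
    · rw [mem_ball_zero_iff]
      calc ‖w‖ = ‖(w - a) + a‖ := by ring_nf
        _ ≤ ‖w - a‖ + ‖a‖ := norm_add_le _ _
        _ < ε := by linarith
    · rintro rfl
      rw [zero_sub, norm_neg, ha] at hw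
      exact lt_irrefl _ hw
  have hd : ∀ w ∈ ball a (ε / 2), AnalyticAt ℂ (fn x) w ∧ deriv (fn x) w = 0 := fun w hw =>
    h2 w (hsub w hw).1 (hsub w hw).2
  have hc : ∀ w ∈ ball a (ε / 2), fn x w = fn x a := by
    intro w hw
    refine (convex_ball a (ε / 2)).is_const_of_fderivWithin_eq_zero (𝕜 := ℂ)
      (fun z hz => (hd z hz).1.differentiableAt.differentiableWithinAt) ?_ hw
      (mem_ball_self (by positivity))
    intro z hz
    rw [fderivWithin_of_isOpen isOpen_ball hz]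
    ext
    simpa using (hd z hz).2
  refine ⟨fn x a, ext_of a ?_⟩
  have h3 : ∀ᶠ w in 𝓝[≠] a, w ∈ ball a (ε / 2) :=
    mem_nhdsWithin_of_mem_nhds (ball_mem_nhds a (by positivity))
  filter_upwards [fn_alg (fn x a) a, h3] with w hw hw3
  rw [hw, hc w hw3]

lemma cauchy (j : ℕ) : ∀ (ρ C : ℝ), 0 < ρ → ∃ C' : ℝ, ∀ (t : ℂ) (x : K),
    (∀ t' ∈ ball t ρ, ∃ h : x ∈ O t', ‖ev t' ⟨x, h⟩‖ ≤ C) →
    ∃ h : D^[j] x ∈ O t, ‖ev t ⟨D^[j] x, h⟩‖ ≤ C' := by
  induction j with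
  | zero =>
    intro ρ C hρ
    exact ⟨C, fun t x hx => hx t (mem_ball_self hρ)⟩
  | succ j ih =>
    intro ρ C hρ
    obtain ⟨C', hC'⟩ := ih (ρ / 2) (C / (ρ / 4)) (by positivity)
    refine ⟨C', fun t x hx => ?_⟩
    have h1 := hC' t (D x) ?_
    · rw [Function.iterate_succ_apply]
      exact h1
    · intro t' ht'
      have hb : ∀ w ∈ closedBall t' (ρ / 4), w ∈ ball t ρ := by
        intro w hw
        rw [mem_closedBall] at hw
        rw [mem_ball] at *
        calc dist w t ≤ dist w t' + dist t' t := dist_triangle _ _ _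
          _ < ρ := by linarith
      have h2 := fn_dd_eq (hx t' (hb t' (mem_closedBall_self (by positivity)))).1
      refine ⟨h2.1, ?_⟩
      change ‖fn (dd x) t'‖ ≤ _
      rw [h2.2]
      refine Complex.norm_deriv_le_of_forall_mem_sphere_norm_le (by positivity) ?_ ?_
      · refine DifferentiableOn.diffContOnCl_ball (U := closedBall t' (ρ / 4)) ?_ le_rfl
        intro w hw
        exact (mem_O'.1 (hx w (hb w hw)).1).differentiableAt.differentiableWithinAt
      · intro w hw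
        exact (hx w (hb w (sphere_subset_closedBall hw))).2

/-- the field of meromorphic functions -/
noncomputable def M : MeroSys K where
  D := D
  O := O
  ev := ev
  alg_mem t c := od_alg t c
  ev_alg t c := (val_of (g := fun _ => c) analyticAt_const (fn_alg c t)).2
  gen := gen
  liouville := liouville
  cauchy ρ C hρ j := cauchy j ρ C hρ
  const := const

/-! ### curves -/

lemma mk_congr {N : ℕ} {v w : Fin N → ℂ} (hv : v ≠ 0) (hw : w ≠ 0) {c : ℂ} (hc : c ≠ 0)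
    (h : v = c • w) : Projectivization.mk ℂ v hv = Projectivization.mk ℂ w hw := by
  rw [Projectivization.mk_eq_mk_iff]
  exact ⟨Units.mk0 c hc, by rw [h]; rfl⟩

lemma quot_loc {N : ℕ} {φ : ℂ → ℙ ℂ (Fin N → ℂ)} {F : ℂ → Fin N → ℂ} {z : ℂ}
    (he : ∀ᶠ w in 𝓝 z, ∃ h : F w ≠ 0, φ w = Projectivization.mk ℂ (F w) h) :
    ∀ᶠ w in 𝓝 z, ∃ a : ℂ, a ≠ 0 ∧ (φ w).rep = a • F w := by
  filter_upwards [he] with w hw
  obtain ⟨h, hw⟩ := hw
  obtain ⟨a, ha⟩ := Projectivization.exists_smul_eq_mk_rep ℂ (F w) h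
  refine ⟨a, a.ne_zero, ?_⟩
  rw [hw, ← ha]
  rfl

lemma curve (N : ℕ) (φ : ℂ → ℙ ℂ (Fin N → ℂ)) (hφ : ∀ z, HolomorphicAt φ z) :
    ∃ f, Rep M f φ := by
  obtain ⟨i₀, hi₀⟩ : ∃ i, (φ 0).rep i ≠ 0 := by
    by_contra h
    push Not at h
    exact (φ 0).rep_nonzero (funext h)
  have hq : ∀ z i j, ∀ F : ℂ → Fin N → ℂ, AnalyticAt ℂ F z →
      (∀ᶠ w in 𝓝 z, ∃ h : F w ≠ 0, φ w = Projectivization.mk ℂ (F w) h) →
      (fun w => F w i / F w j) =ᶠ[𝓝 z] fun w => (φ w).rep i / (φ w).rep j := by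
    intro z i j F _ he
    filter_upwards [quot_loc he] with w hw
    obtain ⟨a, ha, hw⟩ := hw
    rw [hw, Pi.smul_apply, Pi.smul_apply, smul_eq_mul, smul_eq_mul, mul_div_mul_left _ _ ha]
  have hcomp : ∀ (F : ℂ → Fin N → ℂ) (z : ℂ), AnalyticAt ℂ F z → ∀ i,
      AnalyticAt ℂ (fun w => F w i) z := fun F z hF i => (analyticAt_pi_iff.1 hF) i
  have hm : ∀ i j, Meromorphic fun w => (φ w).rep i / (φ w).rep j := by
    intro i j z
    obtain ⟨F, hF, he⟩ := hφ z
    exact (((hcomp F z hF i).meromorphicAt).div (hcomp F z hF j).meromorphicAt).congr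
      ((hq z i j F hF he).filter_mono nhdsWithin_le_nhds)
  have hne : ∀ z, ∀ᶠ w in 𝓝[≠] z, (φ w).rep i₀ ≠ 0 := by
    intro z
    have h1 : (fun w => (φ w).rep i₀ / (φ w).rep i₀) =ᶠ[𝓝[≠] (0 : ℂ)] fun _ => 1 := by
      obtain ⟨F, hF, he⟩ := hφ 0
      have h2 := quot_loc he
      have h3 : F 0 i₀ ≠ 0 := by
        obtain ⟨a, ha, h4⟩ := h2.self_of_nhds
        intro h5
        apply hi₀
        rw [h4, Pi.smul_apply, h5, smul_zero]
      have h4 : ∀ᶠ w in 𝓝 (0 : ℂ), F w i₀ ≠ 0 :=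
        (hcomp F 0 hF i₀).continuousAt.eventually_ne h3
      refine Filter.Eventually.filter_mono nhdsWithin_le_nhds ?_
      filter_upwards [h2, h4] with w hw hw4
      obtain ⟨a, ha, h5⟩ := hw
      rw [h5, Pi.smul_apply, smul_eq_mul]
      exact div_self (mul_ne_zero ha hw4)
    filter_upwards [ident (hm i₀ i₀) (Meromorphic.const 1) 0 h1 z] with w hw h
    rw [h] at hw
    simp at hw
  refine ⟨fun i => mk _ (hm i i₀), fun z => ?_⟩
  obtain ⟨F, hF, he⟩ := hφ z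
  have hn : ¬ ∀ᶠ w in 𝓝 z, F w i₀ = 0 := by
    intro h
    have h1 := (h.filter_mono (nhdsWithin_le_nhds (s := {z}ᶜ))).and
      ((hne z).and ((quot_loc he).filter_mono nhdsWithin_le_nhds))
    obtain ⟨w, h2, h3, a, ha, h4⟩ := h1.exists
    apply h3
    rw [h4, Pi.smul_apply, h2, smul_zero]
  obtain ⟨n, u, hu, hu0, hun⟩ :=
    ((hcomp F z hF i₀).exists_eventuallyEq_pow_smul_nonzero_iff).2 hn
  have hgm : Meromorphic fun w : ℂ => (w - z) ^ n := fun w => by
    have : AnalyticAt ℂ (fun w : ℂ => (w - z) ^ n) w := by fun_prop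
    exact this.meromorphicAt
  have hval : ∀ i, mk _ hgm * mk _ (hm i i₀) ∈ O z ∧
      fn (mk _ hgm * mk _ (hm i i₀)) z = F z i / u z := by
    intro i
    refine val_of (g := fun w => F w i / u w) ((hcomp F z hF i).div hu hu0) ?_
    filter_upwards [fn_mul (mk _ hgm) (mk _ (hm i i₀)) z, fn_mk _ hgm z, fn_mk _ (hm i i₀) z,
      (hq z i i₀ F hF he).filter_mono nhdsWithin_le_nhds,
      hun.filter_mono nhdsWithin_le_nhds, self_mem_nhdsWithin] with w h1 h2 h3 h4 h5 h6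
    have h7 : (w - z) ^ n ≠ 0 := pow_ne_zero _ (sub_ne_zero.2 h6)
    rw [h1, Pi.mul_apply, h2, h3, ← h4, h5, smul_eq_mul]
    rw [mul_div_assoc', mul_div_mul_left _ _ h7]
  have hF0 : F z ≠ 0 := he.self_of_nhds.1
  have hvec : (fun i => M.ev z ⟨mk _ hgm * mk _ (hm i i₀), (hval i).1⟩) = (u z)⁻¹ • F z := by
    funext i
    change fn (mk _ hgm * mk _ (hm i i₀)) z = _
    rw [(hval i).2, Pi.smul_apply, smul_eq_mul, div_eq_inv_mul]
  have h0 : (fun i => M.ev z ⟨mk _ hgm * mk _ (hm i i₀), (hval i).1⟩) ≠ 0 := by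
    rw [hvec]
    exact smul_ne_zero (inv_ne_zero hu0) hF0
  refine ⟨mk _ hgm, fun i => (hval i).1, h0, ?_⟩
  obtain ⟨h, hz⟩ := he.self_of_nhds
  rw [hz]
  exact (mk_congr h0 h (inv_ne_zero hu0) hvec).symm

lemma rep_unique_aux {N : ℕ} {f : Fin N → K} {w : ℂ} {g g' : K}
    (h : ∀ i, g * f i ∈ O w) (hg : g ≠ 0)
    (h0 : (fun i => fn (g * f i) w) ≠ 0) (h0' : (fun i => fn (g' * f i) w) ≠ 0)
    (hr : g' * g⁻¹ ∈ O w) :
    Projectivization.mk ℂ _ h0' = Projectivization.mk ℂ _ h0 := by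
  have e : ∀ i, fn (g' * f i) w = fn (g' * g⁻¹) w * fn (g * f i) w := by
    intro i
    have h1 : g' * f i = (g' * g⁻¹) * (g * f i) := by
      field_simp
    have h2 := (ev w).map_mul ⟨_, hr⟩ ⟨_, h i⟩
    have h3 : fn ((g' * g⁻¹) * (g * f i)) w = fn (g' * g⁻¹) w * fn (g * f i) w := h2
    rw [← h3, ← h1]
  have e' : (fun i => fn (g' * f i) w) = fn (g' * g⁻¹) w • fun i => fn (g * f i) w := funext e
  refine mk_congr h0' h0 ?_ e'
  intro h2
  apply h0'
  rw [e', h2, zero_smul]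

lemma rep_unique {N : ℕ} {f : Fin N → K} {w : ℂ} {g g' : K}
    (h : ∀ i, g * f i ∈ O w) (h' : ∀ i, g' * f i ∈ O w) (hg : g ≠ 0) (hg' : g' ≠ 0)
    (h0 : (fun i => fn (g * f i) w) ≠ 0) (h0' : (fun i => fn (g' * f i) w) ≠ 0) :
    Projectivization.mk ℂ _ h0' = Projectivization.mk ℂ _ h0 := by
  rcases (O w).mem_or_inv_mem (g' * g⁻¹) with hr | hr
  · exact rep_unique_aux h hg h0 h0' hr
  · refine (rep_unique_aux h' hg' h0' h0 ?_).symm
    rwa [mul_inv, inv_inv, mul_comm] at hr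

lemma minim {N : ℕ} (f : Fin N → K) (hf : f ≠ 0) (z : ℂ) :
    ∃ i₁, f i₁ ≠ 0 ∧ ∀ i, (f i₁)⁻¹ * f i ∈ O z := by
  have : Nonempty (Fin N) := by
    by_contra h
    rw [not_nonempty_iff] at h
    exact hf (Subsingleton.elim _ _)
  obtain ⟨i₁, h1⟩ := Finite.exists_min fun i => od z (f i)
  have h2 : f i₁ ≠ 0 := by
    intro h3
    apply hf
    funext i
    have h4 := h1 i
    have h5 : od z (f i₁) = ⊤ := by
      rw [h3, od, meromorphicOrderAt_eq_top_iff]
      have := fn_alg 0 z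
      rwa [map_zero] at this
    rw [h5, top_le_iff] at h4
    exact od_top h4
  refine ⟨i₁, h2, fun i => ?_⟩
  rw [mem_O, od_mul, od_inv]
  have h3 : od z (f i₁) ≠ ⊤ := fun h => h2 (od_top h)
  obtain ⟨n, hn⟩ := WithTop.ne_top_iff_exists.1 h3
  have h4 := h1 i
  rw [← hn] at h4 ⊢
  cases h5 : od z (f i) with
  | top => simp
  | coe k =>
    rw [h5] at h4
    have h6 : n ≤ k := by exact_mod_cast h4
    have h7 : (0 : ℤ) ≤ -n + k := by omega
    exact_mod_cast h7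

lemma curve' (N : ℕ) (f : Fin N → K) (hf : f ≠ 0) :
    ∃ φ : ℂ → ℙ ℂ (Fin N → ℂ), (∀ z, HolomorphicAt φ z) ∧ Rep M f φ := by
  choose i₁ h1 h2 using minim f hf
  have h0 : ∀ z, (fun i => fn ((f (i₁ z))⁻¹ * f i) z) ≠ 0 := by
    intro z h
    have h3 := congrFun h (i₁ z)
    simp only [Pi.zero_apply] at h3
    rw [inv_mul_cancel₀ (h1 z)] at h3
    have h4 : fn (1 : K) z = 1 := (ev z).map_one
    rw [h4] at h3
    exact one_ne_zero h3
  refine ⟨fun z => Projectivization.mk ℂ _ (h0 z), fun z => ?_, fun z => ?_⟩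
  · refine ⟨fun w i => fn ((f (i₁ z))⁻¹ * f i) w, ?_, ?_⟩
    · rw [analyticAt_pi_iff]
      exact fun i => mem_O'.1 (h2 z i)
    · have e1 : ∀ᶠ w in 𝓝 z, ∀ i, AnalyticAt ℂ (fn ((f (i₁ z))⁻¹ * f i)) w :=
        eventually_all.2 fun i => (mem_O'.1 (h2 z i)).eventually_analyticAt
      have e2 : ∀ᶠ w in 𝓝 z, fn ((f (i₁ z))⁻¹ * f (i₁ z)) w ≠ 0 := by
        refine (mem_O'.1 (h2 z (i₁ z))).continuousAt.eventually_ne ?_
        rw [inv_mul_cancel₀ (h1 z)]
        have h4 : fn (1 : K) z = 1 := (ev z).map_one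
        rw [h4]
        exact one_ne_zero
      filter_upwards [e1, e2] with w hw1 hw2
      have h5 : (fun i => fn ((f (i₁ z))⁻¹ * f i) w) ≠ 0 := fun h => hw2 (congrFun h (i₁ z))
      exact ⟨h5, rep_unique (fun i => mem_O'.2 (hw1 i)) (h2 w) (inv_ne_zero (h1 z))
        (inv_ne_zero (h1 w)) h5 (h0 w)⟩
  · exact ⟨(f (i₁ z))⁻¹, h2 z, h0 z, rfl⟩

end MeroC

theorem mero : S_MERO :=
  ⟨MeroC.K, inferInstance, inferInstance, MeroC.M, MeroC.curve, MeroC.curve'⟩

end Pool.Agent.Lib.MP_627a61_nt.Hy
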