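import Pool.Agent.Lib.MP_627a61_nt.Hy.MStm

/-!
# HYP: Liouville's theorem with norms (NL)
-/

set_option autoImplicit false

open scoped Topology
open Filter Metric

namespace Pool.Agent.Lib.MP_627a61_nt.Hy

/-- an element of a field extension of `ℂ` with a power in `ℂ` is in `ℂ` -/
private theorem nl_root {K : Type} [Field K] [Algebra ℂ K] (x : K) (n : ℕ) (hn : 1 ≤ n) (b : ℂ)
    (h : x ^ n = algebraMap ℂ K b) : ∃ a : ℂ, x = algebraMap ℂ K a := by
  have hint : IsIntegral ℂ x := by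
    refine ⟨Polynomial.X ^ n - Polynomial.C b, Polynomial.monic_X_pow_sub_C b (by omega), ?_⟩
    simp [h]
  have hdeg : (minpoly ℂ x).degree = 1 :=
    IsAlgClosed.degree_eq_one_of_irreducible ℂ (minpoly.irreducible hint)
  obtain ⟨a, ha⟩ := minpoly.mem_range_of_degree_eq_one ℂ x hdeg
  exact ⟨a, ha.symm⟩

/-- the elements `T i` are constants -/
private theorem nl_const (h : S_BDD) (K L : Type) [Field K] [Algebra ℂ K] [Field L] [Algebra ℂ L]
    [Algebra K L] [IsScalarTower ℂ K L] [FiniteDimensional K L] [IsGalois K L] (M : MeroSys K)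
    (s : ℕ) (u : Fin s → K) (ρ : ℝ) (S : Fin s → Set ℂ) (E : L) (κ : ℕ) (hC : Charts M u ρ S)
    (hb : ∀ c, u c ≠ 0 → Bd M L (S c) (E * algebraMap K L (u c) ^ κ)) (i : Fin s) :
    ∃ a : ℂ, u i ^ (κ * Module.finrank K L) * Algebra.norm K E = algebraMap ℂ K a := by
  obtain ⟨hρ, hcov, hq⟩ := hC
  have key : ∀ c, ∃ C : ℝ, u c ≠ 0 → ∀ t ∈ S c,
      ∃ hm : u i ^ (κ * Module.finrank K L) * Algebra.norm K E ∈ M.O t,
        ‖M.ev t ⟨u i ^ (κ * Module.finrank K L) * Algebra.norm K E, hm⟩‖ ≤ C := by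
    intro c
    by_cases hc : u c = 0
    · exact ⟨0, fun h' => absurd hc h'⟩
    · obtain ⟨⟨A, hA⟩, -, h3, h4, -⟩ := h K L M (S c)
      have hqc : BdK M (S c) (u i / u c) := by
        obtain ⟨C, hC⟩ := hq c i hc
        exact ⟨C, fun t ht => hC t ⟨t, ht, mem_ball_self hρ⟩⟩
      have hqA : algebraMap K L (u i / u c) ∈ A := (hA _).2 ((h4 _).2 hqc)
      have hnA : algebraMap K L (Algebra.norm K (E * algebraMap K L (u c) ^ κ)) ∈ A := by
        rw [Algebra.norm_eq_prod_automorphisms]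
        exact Subalgebra.prod_mem _ fun τ _ => (hA _).2 (h3 τ _ (hb c hc))
      have hT : u i ^ (κ * Module.finrank K L) * Algebra.norm K E =
          (u i / u c) ^ (κ * Module.finrank K L) *
            Algebra.norm K (E * algebraMap K L (u c) ^ κ) := by
        rw [map_mul, ← map_pow, Algebra.norm_algebraMap, ← pow_mul, div_pow]
        have hne : u c ^ (κ * Module.finrank K L) ≠ 0 := pow_ne_zero _ hc
        field_simp
      have hTA : algebraMap K L (u i ^ (κ * Module.finrank K L) * Algebra.norm K E) ∈ A := by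
        rw [hT, map_mul, map_pow]
        exact mul_mem (pow_mem hqA _) hnA
      obtain ⟨C, hC⟩ := (h4 _).1 ((hA _).1 hTA)
      exact ⟨C, fun _ t ht => hC t ht⟩
  choose C hC using key
  obtain ⟨a, ha⟩ := M.liouville (u i ^ (κ * Module.finrank K L) * Algebra.norm K E)
    (∑ c, |C c|) fun t => by
      obtain ⟨c, hc, ht⟩ := hcov t
      obtain ⟨hm, hle⟩ := hC c hc t ht
      refine ⟨hm, hle.trans ((le_abs_self _).trans ?_)⟩
      exact Finset.single_le_sum (f := fun c => |C c|) (fun c _ => abs_nonneg _)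
        (Finset.mem_univ c)
  exact ⟨a, ha⟩

/-- NL -/
theorem nl (h : S_BDD) : S_NL := by
  intro K L _ _ _ _ _ _ _ _ M s u ρ S E κ hC hE hκ hb i j hi
  by_cases hj : u j = 0
  · exact ⟨0, by rw [hj, map_zero, zero_mul]⟩
  have hN : 0 < Module.finrank K L := Module.finrank_pos
  have hn : 1 ≤ κ * Module.finrank K L := Nat.mul_pos (by omega) hN
  obtain ⟨a, ha⟩ := nl_const h K L M s u ρ S E κ hC hb i
  obtain ⟨b, hb'⟩ := nl_const h K L M s u ρ S E κ hC hb j
  have hnorm : Algebra.norm K E ≠ 0 := Algebra.norm_ne_zero_iff.2 hE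
  have hpow : (u j / u i) ^ (κ * Module.finrank K L) = algebraMap ℂ K (b / a) := by
    rw [map_div₀, ← ha, ← hb', div_pow, mul_div_mul_right _ _ hnorm]
  obtain ⟨c, hc⟩ := nl_root _ _ hn _ hpow
  exact ⟨c, by rw [← hc, div_mul_cancel₀ _ hi]⟩

end Pool.Agent.Lib.MP_627a61_nt.Hy
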