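import Pool.Agent.Lib.MP_627a61_nt.Hy.MStm

/-!
# Project DIM/HYP, version D: REP

Homogeneous equations of a curve and of its coordinate vector over the field of meromorphic
functions.
-/

open scoped LinearAlgebra.Projectivization Topology
open Filter Metric

namespace Pool.Agent.Lib.MP_627a61_nt.Hy.RepP

/-- homogeneous polynomials and scaling -/
theorem eval₂_smul_hom {k R : Type} [Field k] [CommRing R] {N : ℕ} (σ : k →+* R)
    (F : MvPolynomial (Fin N) k) (a : ℕ) (hF : F.IsHomogeneous a) (c : R) (v : Fin N → R) :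
    F.eval₂ σ (fun i => c * v i) = c ^ a * F.eval₂ σ v := by
  rw [MvPolynomial.eval₂_eq', MvPolynomial.eval₂_eq', Finset.mul_sum]
  refine Finset.sum_congr rfl fun d hd => ?_
  have h1 : ∑ i, d i = a := by
    have h2 := hF (MvPolynomial.mem_support_iff.mp hd)
    have h4 : Finsupp.degree d = Finsupp.weight 1 d :=
      DFunLike.congr_fun (Finsupp.degree_eq_weight_one (R := ℕ)) d
    rw [← h2, ← h4, Finsupp.degree_eq_sum]
  have h3 : ∏ i, (c * v i) ^ d i = c ^ a * ∏ i, v i ^ d i := by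
    simp_rw [mul_pow]
    rw [Finset.prod_mul_distrib, Finset.prod_pow_eq_pow_sum, h1]
  rw [h3]
  ring

variable {K : Type} [Field K] [Algebra ℂ K]

/-- the constants as elements of `O t` -/
noncomputable def REPcst (M : MeroSys K) (t : ℂ) : ℂ →+* M.O t :=
  (algebraMap ℂ K).codRestrict (M.O t).toSubring (M.alg_mem t)

theorem ev_cst (M : MeroSys K) (t : ℂ) (c : ℂ) : M.ev t (REPcst M t c) = c := M.ev_alg t c

/-- an element of `O t` with nonzero value is a unit -/
theorem isUnit_of_ev (M : MeroSys K) (t : ℂ) (x : M.O t) (h : M.ev t x ≠ 0) : IsUnit x := by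
  have key := IsLocalRing.isUnit_or_isUnit_one_sub_self (REPcst M t (M.ev t x)⁻¹ * x)
  rcases key with key | key
  · exact isUnit_of_mul_isUnit_right key
  · exfalso
    have h1 := (key.map (M.ev t)).ne_zero
    apply h1
    rw [map_sub, map_mul, ev_cst, map_one, inv_mul_cancel₀ h, sub_self]

theorem inv_mem_of_ev (M : MeroSys K) (t : ℂ) (x : K) (hx : x ∈ M.O t)
    (h : M.ev t ⟨x, hx⟩ ≠ 0) : x⁻¹ ∈ M.O t := by
  obtain ⟨y, hy⟩ := (isUnit_of_ev M t ⟨x, hx⟩ h).exists_right_inv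
  have h1 : x * (y : K) = 1 := congrArg Subtype.val hy
  have h2 : x⁻¹ = (y : K) := by
    have hx0 : x ≠ 0 := by
      rintro rfl
      simp at h1
    field_simp
    exact h1.symm
  rw [h2]
  exact y.2

/-- a unit has nonzero value -/
theorem ev_ne_zero (M : MeroSys K) (t : ℂ) (x : K) (hx : x ∈ M.O t) (hx' : x⁻¹ ∈ M.O t)
    (h0 : x ≠ 0) : M.ev t ⟨x, hx⟩ ≠ 0 := by
  intro h
  have h1 : M.ev t ⟨x, hx⟩ * M.ev t ⟨x⁻¹, hx'⟩ = 1 := by
    rw [← map_mul, ← map_one (M.ev t)]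
    congr 1
    exact Subtype.ext (mul_inv_cancel₀ h0)
  rw [h, zero_mul] at h1
  exact zero_ne_one h1

/-- values of polynomials -/
theorem ev_eval₂ (M : MeroSys K) (t : ℂ) {N : ℕ} (f : Fin N → K) (h : ∀ i, f i ∈ M.O t)
    {k : Type} [Field k] (σ : k →+* ℂ) (F : MvPolynomial (Fin N) k) :
    ∃ hF : F.eval₂ ((algebraMap ℂ K).comp σ) f ∈ M.O t,
      M.ev t ⟨F.eval₂ ((algebraMap ℂ K).comp σ) f, hF⟩ =
        F.eval₂ σ (fun i => M.ev t ⟨f i, h i⟩) := by
  set f' : Fin N → M.O t := fun i => ⟨f i, h i⟩ with hf'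
  have e1 : F.eval₂ ((algebraMap ℂ K).comp σ) f =
      (M.O t).subtype (F.eval₂ ((REPcst M t).comp σ) f') := by
    rw [MvPolynomial.eval₂_comp_left]
    rfl
  have e2 : M.ev t (F.eval₂ ((REPcst M t).comp σ) f') =
      F.eval₂ σ (fun i => M.ev t ⟨f i, h i⟩) := by
    rw [MvPolynomial.eval₂_comp_left]
    congr 1
    ext x
    simp [ev_cst]
  refine ⟨?_, ?_⟩
  · rw [e1]
    exact (F.eval₂ ((REPcst M t).comp σ) f').2
  · rw [← e2]
    congr 1
    exact Subtype.ext e1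

/-- vanishing of homogeneous polynomials at `φ z` in terms of a representing vector -/
theorem eval₂_rep_iff {N : ℕ} {k : Type} [Field k] (σ : k →+* ℂ) (F : MvPolynomial (Fin N) k)
    (a : ℕ) (hF : F.IsHomogeneous a) (v : Fin N → ℂ) (hv : v ≠ 0) :
    F.eval₂ σ (Projectivization.mk ℂ v hv).rep = 0 ↔ F.eval₂ σ v = 0 := by
  obtain ⟨c, hc⟩ := Projectivization.exists_smul_eq_mk_rep ℂ v hv
  rw [← hc]
  have h1 : (c • v : Fin N → ℂ) = fun i => (c : ℂ) * v i := by
    ext i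
    rfl
  rw [h1, eval₂_smul_hom σ F a hF]
  have h2 : (c : ℂ) ^ a ≠ 0 := pow_ne_zero _ c.ne_zero
  constructor
  · intro h
    exact (mul_eq_zero.mp h).resolve_left h2
  · intro h
    rw [h, mul_zero]

/-- one half of the equations -/
theorem eqn_of_zero (M : MeroSys K) {N : ℕ} (f : Fin N → K) (φ : ℂ → ℙ ℂ (Fin N → ℂ))
    (hφ : Rep M f φ) {k : Type} [Field k] (σ : k →+* ℂ) (F : MvPolynomial (Fin N) k) (a : ℕ)
    (hF : F.IsHomogeneous a) (h0 : F.eval₂ ((algebraMap ℂ K).comp σ) f = 0) (z : ℂ) :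
    F.eval₂ σ (φ z).rep = 0 := by
  obtain ⟨g, h, hv, e⟩ := hφ z
  rw [e, eval₂_rep_iff σ F a hF]
  obtain ⟨h1, h2⟩ := ev_eval₂ M z (fun i => g * f i) h σ F
  rw [← h2]
  have h3 : F.eval₂ ((algebraMap ℂ K).comp σ) (fun i => g * f i) = 0 := by
    rw [eval₂_smul_hom _ F a hF, h0, mul_zero]
  have h4 : (⟨F.eval₂ ((algebraMap ℂ K).comp σ) (fun i => g * f i), h1⟩ : M.O z) = 0 :=
    Subtype.ext h3
  rw [h4, map_zero]

/-- the other half -/
theorem zero_of_eqn (M : MeroSys K) {N : ℕ} (f : Fin N → K) (φ : ℂ → ℙ ℂ (Fin N → ℂ))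
    (hφ : Rep M f φ) {k : Type} [Field k] (σ : k →+* ℂ) (F : MvPolynomial (Fin N) k) (a : ℕ)
    (hF : F.IsHomogeneous a) (h0 : ∀ z, F.eval₂ σ (φ z).rep = 0) :
    F.eval₂ ((algebraMap ℂ K).comp σ) f = 0 := by
  by_contra hne
  -- a general point
  have hcount : ({t | F.eval₂ ((algebraMap ℂ K).comp σ) f ∉ M.O t ∨
      (F.eval₂ ((algebraMap ℂ K).comp σ) f)⁻¹ ∉ M.O t} ∪
      ⋃ i : {i : Fin N // f i ≠ 0}, {t | f i ∉ M.O t ∨ (f i)⁻¹ ∉ M.O t}).Countable :=
    (M.gen _ hne).union (Set.countable_iUnion fun i => M.gen _ i.2)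
  obtain ⟨t, ht⟩ : ∃ t : ℂ, t ∉ ({t | F.eval₂ ((algebraMap ℂ K).comp σ) f ∉ M.O t ∨
      (F.eval₂ ((algebraMap ℂ K).comp σ) f)⁻¹ ∉ M.O t} ∪
      ⋃ i : {i : Fin N // f i ≠ 0}, {t | f i ∉ M.O t ∨ (f i)⁻¹ ∉ M.O t}) := by
    by_contra hall
    push Not at hall
    exact not_countable_complex (hcount.mono fun t _ => hall t)
  simp only [Set.mem_union, Set.mem_ofPred_eq, Set.mem_iUnion, not_or, not_not, not_exists] at ht
  obtain ⟨⟨hF1, hF2⟩, hf⟩ := ht
  obtain ⟨g, h, hv, e⟩ := hφ t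
  obtain ⟨i, hi⟩ := Function.ne_iff.mp hv
  change M.ev t ⟨g * f i, h i⟩ ≠ 0 at hi
  have hgf : g * f i ≠ 0 := by
    intro h1
    apply hi
    have h2 : (⟨g * f i, h i⟩ : M.O t) = 0 := Subtype.ext h1
    rw [h2, map_zero]
  have hfi : f i ≠ 0 := right_ne_zero_of_mul hgf
  have hg : g ≠ 0 := left_ne_zero_of_mul hgf
  obtain ⟨hf1, hf2⟩ := hf ⟨i, hfi⟩
  have hg1 : g ∈ M.O t := by
    have h1 := (M.O t).mul_mem _ _ (h i) hf2
    rwa [mul_assoc, mul_inv_cancel₀ hfi, mul_one] at h1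
  have hg2 : g⁻¹ ∈ M.O t := by
    have h1 := (M.O t).mul_mem _ _ (inv_mem_of_ev M t _ (h i) hi) hf1
    rwa [mul_inv, mul_assoc, inv_mul_cancel₀ hfi, mul_one] at h1
  obtain ⟨h1, h2⟩ := ev_eval₂ M t (fun i => g * f i) h σ F
  have h3 := h0 t
  rw [e, eval₂_rep_iff σ F a hF, ← h2] at h3
  have h4 : F.eval₂ ((algebraMap ℂ K).comp σ) (fun i => g * f i) =
      g ^ a * F.eval₂ ((algebraMap ℂ K).comp σ) f := eval₂_smul_hom _ F a hF g f
  have h5 : (F.eval₂ ((algebraMap ℂ K).comp σ) (fun i => g * f i))⁻¹ ∈ M.O t := by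
    rw [h4, mul_inv, ← inv_pow]
    exact (M.O t).mul_mem _ _ (pow_mem hg2 a) hF2
  refine ev_ne_zero M t _ h1 h5 ?_ h3
  rw [h4]
  exact mul_ne_zero (pow_ne_zero _ hg) hne

/-- the linear form `v i * X j - v j * X i` -/
theorem lin_hom {N : ℕ} (v : Fin N → ℂ) (i j : Fin N) :
    (MvPolynomial.C (v i) * MvPolynomial.X j - MvPolynomial.C (v j) * MvPolynomial.X i :
      MvPolynomial (Fin N) ℂ).IsHomogeneous 1 := by
  have h1 : ∀ (c : ℂ) (j : Fin N),
      (MvPolynomial.C c * MvPolynomial.X j : MvPolynomial (Fin N) ℂ).IsHomogeneous 1 := by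
    intro c j
    have := (MvPolynomial.isHomogeneous_C (Fin N) c).mul (MvPolynomial.isHomogeneous_X ℂ j)
    simpa using this
  exact (h1 _ _).sub (h1 _ _)

end Pool.Agent.Lib.MP_627a61_nt.Hy.RepP

namespace Pool.Agent.Lib.MP_627a61_nt.Hy

open RepP

theorem rep : S_REP := by
  intro K _ _ M N f φ hφ
  refine ⟨fun k _ σ F a hF => ⟨fun h => zero_of_eqn M f φ hφ σ F a hF h,
    fun h z => eqn_of_zero M f φ hφ σ F a hF h z⟩, ?_, ?_⟩
  · intro hc
    -- one nonzero coordinate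
    obtain ⟨g, h, hv, e⟩ := hφ 0
    obtain ⟨i, hi⟩ := Function.ne_iff.mp hv
    change M.ev 0 ⟨g * f i, h i⟩ ≠ 0 at hi
    have hfi : f i ≠ 0 := by
      intro h1
      apply hi
      have h2 : (⟨g * f i, h i⟩ : M.O 0) = 0 := Subtype.ext (by simp [h1])
      rw [h2, map_zero]
    choose a ha using fun j => hc i j hfi
    have ha1 : a i = 1 := by
      have h1 := ha i
      have h2 : algebraMap ℂ K (a i) = 1 := by
        field_simp at h1
        exact h1.symm
      exact (algebraMap ℂ K).injective (by rw [h2, map_one])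
    have hane : a ≠ 0 := by
      intro h1
      rw [h1] at ha1
      simp at ha1
    have key : ∀ z, φ z = Projectivization.mk ℂ a hane := by
      intro z
      obtain ⟨g', h', hv', e'⟩ := hφ z
      rw [e', Projectivization.mk_eq_mk_iff']
      refine ⟨M.ev z ⟨g' * f i, h' i⟩, ?_⟩
      ext j
      have h1 : (⟨g' * f j, h' j⟩ : M.O z) = ⟨g' * f i, h' i⟩ * REPcst M z (a j) := by
        apply Subtype.ext
        change g' * f j = (g' * f i) * algebraMap ℂ K (a j)
        rw [ha j]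
        ring
      rw [h1, map_mul, ev_cst]
      rfl
    intro z w
    rw [key z, key w]
  · intro hc i j hfi
    set v := (φ 0).rep with hv
    have hv0 : v ≠ 0 := (φ 0).rep_nonzero
    have key : ∀ i j, algebraMap ℂ K (v i) * f j = algebraMap ℂ K (v j) * f i := by
      intro i j
      have h1 := zero_of_eqn M f φ hφ (RingHom.id ℂ)
        (MvPolynomial.C (v i) * MvPolynomial.X j - MvPolynomial.C (v j) * MvPolynomial.X i) 1
        (lin_hom v i j) (by
          intro z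
          rw [hc z 0, ← hv]
          simp only [MvPolynomial.eval₂_sub, MvPolynomial.eval₂_mul, MvPolynomial.eval₂_C,
            MvPolynomial.eval₂_X, RingHom.id_apply]
          ring)
      simp only [MvPolynomial.eval₂_sub, MvPolynomial.eval₂_mul, MvPolynomial.eval₂_C,
        MvPolynomial.eval₂_X, RingHom.comp_apply, RingHom.id_apply] at h1
      exact sub_eq_zero.mp h1
    obtain ⟨j0, hj0⟩ := Function.ne_iff.mp hv0
    have hinj := (algebraMap ℂ K).injective
    have hj0' : algebraMap ℂ K (v j0) ≠ 0 := by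
      intro h1
      exact hj0 (hinj (by rw [h1]; simp))
    have hvi : algebraMap ℂ K (v i) ≠ 0 := by
      intro h1
      have h2 := key i j0
      rw [h1, zero_mul] at h2
      exact mul_ne_zero hj0' hfi h2.symm
    refine ⟨v j / v i, ?_⟩
    have h3 := key i j
    rw [map_div₀]
    field_simp
    rw [mul_comm (f j)]
    exact h3

end Pool.Agent.Lib.MP_627a61_nt.Hy
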