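import Pool.Agent.Lib.MP_627a61_nt.Hy.MStm

/-!
# HYP, piece STAB: a stable bounded algebra in every chart
-/

open scoped Topology
open Filter Metric Polynomial

namespace Pool.Agent.Lib.MP_627a61_nt.Hy

section alg

variable {K L : Type} [Field K] [Field L] [Algebra K L]

/-- minimal polynomial of a scalar multiple -/
private lemma stab_minpoly {x : L} (hx : IsIntegral K x) {v : K} (hv : v ≠ 0) :
    minpoly K (algebraMap K L v * x) =
      C (v ^ (minpoly K x).natDegree) * (minpoly K x).comp (C v⁻¹ * X) := by
  set p := minpoly K x with hp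
  have hlin : (C v⁻¹ * X : K[X]).natDegree = 1 := by
    rw [natDegree_C_mul (inv_ne_zero hv), natDegree_X]
  have hmon : p.Monic := minpoly.monic hx
  have hdeg : (C (v ^ p.natDegree) * p.comp (C v⁻¹ * X)).natDegree = p.natDegree := by
    rw [natDegree_C_mul (pow_ne_zero _ hv), natDegree_comp, hlin, mul_one]
  have hlead : (C (v ^ p.natDegree) * p.comp (C v⁻¹ * X)).Monic := by
    unfold Monic
    rw [leadingCoeff_mul, leadingCoeff_C, leadingCoeff_comp (by rw [hlin]; norm_num),
      hmon.leadingCoeff, one_mul, leadingCoeff_mul, leadingCoeff_C, leadingCoeff_X, mul_one,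
      ← mul_pow, mul_inv_cancel₀ hv, one_pow]
  symm
  refine minpoly.unique K _ hlead ?_ fun q hq hq0 => ?_
  · rw [map_mul, aeval_comp, map_mul, aeval_C, aeval_X, aeval_C, map_inv₀, ← mul_assoc,
      inv_mul_cancel₀ (by rwa [ne_eq, map_eq_zero]), one_mul, hp, minpoly.aeval, mul_zero]
  · rw [degree_eq_natDegree hlead.ne_zero, hdeg, degree_eq_natDegree hq.ne_zero]
    have h1 : aeval x (q.comp (C v * X)) = 0 := by
      rw [aeval_comp, map_mul, aeval_C, aeval_X, hq0]
    have h2 : q.comp (C v * X) ≠ 0 := by
      intro h0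
      have h3 : (q.comp (C v * X)).natDegree = q.natDegree := by
        rw [natDegree_comp, natDegree_C_mul hv, natDegree_X, mul_one]
      have h4 : (q.comp (C v * X)).leadingCoeff ≠ 0 := by
        rw [leadingCoeff_comp (by rw [natDegree_C_mul hv, natDegree_X]; norm_num),
          hq.leadingCoeff, leadingCoeff_mul, leadingCoeff_C, leadingCoeff_X, mul_one, one_mul]
        exact pow_ne_zero _ hv
      exact h4 (by rw [h0, leadingCoeff_zero])
    have h3 : (q.comp (C v * X)).natDegree = q.natDegree := by
      rw [natDegree_comp, natDegree_C_mul hv, natDegree_X, mul_one]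
    have h5 := minpoly.degree_le_of_ne_zero K x h2 h1
    rw [degree_eq_natDegree hmon.ne_zero, degree_eq_natDegree h2, h3] at h5
    exact h5

private lemma stab_natDegree {x : L} (hx : IsIntegral K x) {v : K} (hv : v ≠ 0) :
    (minpoly K (algebraMap K L v * x)).natDegree = (minpoly K x).natDegree := by
  rw [stab_minpoly hx hv, natDegree_C_mul (pow_ne_zero _ hv), natDegree_comp,
    natDegree_C_mul (inv_ne_zero hv), natDegree_X, mul_one]

/-- the value of the derivative of the minimal polynomial at a scalar multiple -/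
private lemma stab_deriv {x : L} (hx : IsIntegral K x) {v : K} (hv : v ≠ 0) :
    aeval (algebraMap K L v * x) (derivative (minpoly K (algebraMap K L v * x))) =
      algebraMap K L v ^ ((minpoly K x).natDegree - 1) * aeval x (derivative (minpoly K x)) := by
  have h1 : 1 ≤ (minpoly K x).natDegree := minpoly.natDegree_pos hx
  obtain ⟨n, hn⟩ := Nat.exists_eq_add_of_le h1
  have hv' : algebraMap K L v ≠ 0 := by rwa [ne_eq, map_eq_zero]
  rw [stab_minpoly hx hv, derivative_C_mul, derivative_comp, derivative_C_mul, derivative_X,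
    mul_one, map_mul, map_mul, aeval_C, aeval_C, aeval_comp, map_mul, aeval_C, aeval_X, map_inv₀,
    ← mul_assoc (algebraMap K L v)⁻¹ (algebraMap K L v) x, inv_mul_cancel₀ hv', one_mul, hn,
    map_pow, ← mul_assoc]
  congr 1
  rw [show 1 + n - 1 = n by omega, pow_add, pow_one]
  field_simp

/-- differentiation of a polynomial value -/
private lemma stab_der [Algebra ℂ K] [Algebra ℂ L] (D : Derivation ℂ K K) (DL : Derivation ℂ L L)
    (h : ∀ x : K, DL (algebraMap K L x) = algebraMap K L (D x)) (p : K[X]) (z : L) :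
    DL (aeval z p) = (∑ i ∈ Finset.range (p.natDegree + 1), algebraMap K L (D (p.coeff i)) * z ^ i) +
      aeval z (derivative p) * DL z := by
  have h1 : aeval z (derivative p) =
      ∑ i ∈ Finset.range (p.natDegree + 1), algebraMap K L (p.coeff i) * (i * z ^ (i - 1)) := by
    conv_lhs => rw [p.as_sum_range_C_mul_X_pow]
    rw [derivative_sum, map_sum]
    refine Finset.sum_congr rfl fun i _ => ?_
    rw [derivative_C_mul, derivative_X_pow, map_mul, aeval_C, map_mul, map_pow, aeval_X]
    simp
  rw [h1, aeval_eq_sum_range, map_sum, Finset.sum_mul, ← Finset.sum_add_distrib]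
  refine Finset.sum_congr rfl fun i _ => ?_
  rw [Algebra.smul_def, Derivation.leibniz, Derivation.leibniz_pow, h, smul_eq_mul, smul_eq_mul,
    smul_eq_mul, nsmul_eq_mul]
  ring

/-- values of polynomials with coefficients in a subalgebra -/
private lemma stab_mem [Algebra ℂ L] (A : Subalgebra ℂ L) (p : K[X]) (z : L)
    (hp : ∀ i, algebraMap K L (p.coeff i) ∈ A) (hz : z ∈ A) : aeval z p ∈ A := by
  rw [aeval_eq_sum_range]
  refine Subalgebra.sum_mem _ fun i _ => ?_
  rw [Algebra.smul_def]
  exact A.mul_mem (hp i) (A.pow_mem hz i)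

/-- coefficients of a product of linear factors -/
private lemma stab_coeff [Algebra ℂ L] (A : Subalgebra ℂ L) (s : Multiset L)
    (hs : ∀ r ∈ s, r ∈ A) (i : ℕ) : (s.map fun r => X - C r).prod.coeff i ∈ A := by
  induction s using Multiset.induction_on generalizing i with
  | empty =>
    rw [Multiset.map_zero, Multiset.prod_zero, coeff_one]
    split_ifs
    · exact A.one_mem
    · exact A.zero_mem
  | cons a s ih =>
    rw [Multiset.map_cons, Multiset.prod_cons, sub_mul, coeff_sub, coeff_C_mul]
    have h1 := ih (fun r hr => hs r (Multiset.mem_cons_of_mem hr))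
    refine A.sub_mem ?_ (A.mul_mem (hs a (Multiset.mem_cons_self a s)) (h1 i))
    cases i with
    | zero => rw [coeff_X_mul_zero]; exact A.zero_mem
    | succ j => rw [coeff_X_mul]; exact h1 j

end alg

private lemma Bd.mono {K L : Type} [Field K] [Algebra ℂ K] [Field L] [Algebra K L] {M : MeroSys K}
    {S S' : Set ℂ} (h : S ⊆ S') {x : L} (hx : Bd M L S' x) : Bd M L S x := by
  obtain ⟨C, hC⟩ := hx
  exact ⟨C, fun t ht => hC t (h ht)⟩

theorem stab (hBDD : S_BDD) : S_STAB := by
  intro K L _ _ _ _ _ _ _ _ M DL hDL s u ρ S hch ι _ d y hy τ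
  classical
  have hint : ∀ x : L, IsIntegral K x := fun x => Algebra.IsIntegral.isIntegral x
  set n : ι → ℕ := fun α => (minpoly K (y α)).natDegree with hn
  have hn1 : ∀ α, 1 ≤ n α := fun α => minpoly.natDegree_pos (hint _)
  set q : ι → L := fun α => aeval (y α) (derivative (minpoly K (y α))) with hq
  have hq0 : ∀ α, q α ≠ 0 := fun α =>
    (Algebra.IsSeparable.isSeparable K (y α)).aeval_derivative_ne_zero (minpoly.aeval _ _)
  -- the scaled elements
  have hyv : ∀ c, u c ≠ 0 → ∀ α,
      y α = algebraMap K L (u c) * (y α / algebraMap K L (u c)) := by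
    intro c hc α
    have : algebraMap K L (u c) ≠ 0 := by rwa [ne_eq, map_eq_zero]
    field_simp
  have hnv : ∀ c, u c ≠ 0 → ∀ α,
      (minpoly K (y α / algebraMap K L (u c))).natDegree = n α := by
    intro c hc α
    have h := stab_natDegree (hint (y α / algebraMap K L (u c))) hc
    rw [← hyv c hc α] at h
    exact h.symm
  have hqv : ∀ c, u c ≠ 0 → ∀ α, q α = algebraMap K L (u c) ^ (n α - 1) *
      aeval (y α / algebraMap K L (u c))
        (derivative (minpoly K (y α / algebraMap K L (u c)))) := by
    intro c hc α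
    have h := stab_deriv (hint (y α / algebraMap K L (u c))) hc
    rw [← hyv c hc α, hnv c hc α] at h
    exact h
  refine ⟨∏ α, q α * τ (q α), ∑ α, 2 * (n α - 1), ?_, ?_, ?_⟩
  · refine Finset.prod_ne_zero_iff.2 fun α _ => mul_ne_zero (hq0 α) ?_
    rw [ne_eq, map_eq_zero_iff τ τ.injective]
    exact hq0 α
  · rw [Finset.mul_sum]
    obtain ⟨-, hex, -⟩ := hch
    obtain ⟨c, hc, -⟩ := hex 0
    refine Finset.sum_le_sum fun α _ => ?_
    obtain ⟨p, hp, hpd, -, hp0⟩ := hy c hc α
    have h1 := minpoly.degree_le_of_ne_zero K _ hp.ne_zero hp0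
    have h2 := natDegree_le_natDegree h1
    rw [hnv c hc α, hpd] at h2
    omega
  · intro c hc
    have hv0 : algebraMap K L (u c) ≠ 0 := by rwa [ne_eq, map_eq_zero]
    set v := algebraMap K L (u c) with hv
    set z : ι → L := fun α => y α / v with hz
    set μ : ι → K[X] := fun α => minpoly K (z α) with hμ
    have hρ : 0 < ρ := hch.1
    have hsub : S c ⊆ nb ρ (S c) := fun t ht => ⟨t, ht, mem_ball_self hρ⟩
    obtain ⟨⟨B, hB⟩, -, -, h4, h5⟩ := hBDD K L M (S c)
    obtain ⟨⟨B', hB'⟩, h2', h3', h4', -⟩ := hBDD K L M (nb ρ (S c))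
    -- roots of the equations are bounded
    have hroot : ∀ α (r : L), aeval r (μ α) = 0 → Bd M L (nb ρ (S c)) r := by
      intro α r hr
      obtain ⟨p, hp, hpd, hpb, hp0⟩ := hy c hc α
      refine h2' (p.map (algebraMap K L)) r (hp.map _) (fun j => ?_) ?_
      · rw [coeff_map]
        exact (h4' _).2 (hpb j)
      · rw [eval_map_algebraMap]
        obtain ⟨g, hg⟩ := minpoly.dvd K (z α) hp0
        rw [hg, map_mul]
        have : aeval r (minpoly K (z α)) = 0 := hr
        rw [this, zero_mul]
    have hcoef : ∀ α i, BdK M (nb ρ (S c)) ((μ α).coeff i) := by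
      intro α i
      rw [← h4', ← coeff_map, ← hB']
      have hspl : ((μ α).map (algebraMap K L)).Splits := IsGalois.splits K (z α)
      have hmon : ((μ α).map (algebraMap K L)).Monic := (minpoly.monic (hint _)).map _
      have heq := hspl.eq_prod_roots_of_monic hmon
      rw [heq]
      refine stab_coeff B' _ (fun r hr => ?_) i
      rw [hB']
      refine hroot α r ?_
      have := (mem_roots (hmon.ne_zero)).1 hr
      rwa [IsRoot, eval_map_algebraMap] at this
    -- the algebra
    set G : Set L := {x | (∃ α, x = z α ∨ x = τ (z α)) ∨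
      ∃ α i j, x = algebraMap K L (M.D^[j] ((μ α).coeff i))} with hG
    set A : Subalgebra ℂ L := Algebra.adjoin ℂ G with hA
    have hzA : ∀ α, z α ∈ A := fun α => Algebra.subset_adjoin (Or.inl ⟨α, Or.inl rfl⟩)
    have hτA : ∀ α, τ (z α) ∈ A := fun α => Algebra.subset_adjoin (Or.inl ⟨α, Or.inr rfl⟩)
    have hcA : ∀ α i j, algebraMap K L (M.D^[j] ((μ α).coeff i)) ∈ A := fun α i j =>
      Algebra.subset_adjoin (Or.inr ⟨α, i, j, rfl⟩)
    have hcA0 : ∀ α i, algebraMap K L ((μ α).coeff i) ∈ A := fun α i => hcA α i 0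
    have hcA' : ∀ α i, algebraMap K L ((derivative (μ α)).coeff i) ∈ A := by
      intro α i
      rw [coeff_derivative, map_mul, map_add, map_natCast, map_one]
      refine A.mul_mem (hcA0 α _) (A.add_mem ?_ A.one_mem)
      exact natCast_mem A i
    set qz : ι → L := fun α => aeval (z α) (derivative (μ α)) with hqz
    have hqA : ∀ α, qz α ∈ A := fun α => stab_mem A _ _ (hcA' α) (hzA α)
    have hτq : ∀ α, τ (qz α) = aeval (τ (z α)) (derivative (μ α)) := by
      intro α
      rw [hqz]
      exact (Polynomial.aeval_algHom_apply (τ : L →ₐ[K] L) (z α) (derivative (μ α))).symm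
    have hτqA : ∀ α, τ (qz α) ∈ A := fun α => by
      rw [hτq]; exact stab_mem A _ _ (hcA' α) (hτA α)
    have hδ : (∏ α, q α * τ (q α)) / v ^ (∑ α, 2 * (n α - 1)) = ∏ α, qz α * τ (qz α) := by
      rw [div_eq_iff (pow_ne_zero _ hv0), ← Finset.prod_pow_eq_pow_sum, ← Finset.prod_mul_distrib]
      refine Finset.prod_congr rfl fun α _ => ?_
      have h1 : q α = v ^ (n α - 1) * qz α := hqv c hc α
      have h2 : τ (q α) = v ^ (n α - 1) * τ (qz α) := by
        rw [h1, map_mul, map_pow]
        congr 2
        rw [hv, AlgEquiv.commutes]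
      rw [h2, h1, two_mul, pow_add]
      ring
    rw [hδ]
    have hDmem : ∀ (w : L) α, aeval w (μ α) = 0 → w ∈ A →
        aeval w (derivative (μ α)) * DL w ∈ A := by
      intro w α hw hwA
      have h1 := stab_der M.D DL hDL (μ α) w
      rw [hw, map_zero] at h1
      have h2 : aeval w (derivative (μ α)) * DL w = - ∑ i ∈ Finset.range ((μ α).natDegree + 1),
          algebraMap K L (M.D ((μ α).coeff i)) * w ^ i := by
        linear_combination -h1
      rw [h2]
      refine A.neg_mem (Subalgebra.sum_mem _ fun i _ => ?_)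
      exact A.mul_mem (hcA α i 1) (A.pow_mem hwA i)
    have hprod : ∀ s : Finset ι, ∏ α ∈ s, qz α * τ (qz α) ∈ A := fun s =>
      Subalgebra.prod_mem _ fun α _ => A.mul_mem (hqA α) (hτqA α)
    refine ⟨A, fun x hx => ?_, fun α => ⟨hzA α, ?_⟩, fun x hx => ?_⟩
    · rw [← hB]
      have hle : A ≤ B := by
        refine Algebra.adjoin_le fun g hg => ?_
        rcases hg with ⟨α, rfl | rfl⟩ | ⟨α, i, j, rfl⟩
        · exact (hB _).2 ((hroot α _ (minpoly.aeval _ _)).mono hsub)
        · refine (hB _).2 ((h3' τ _ (hroot α _ (minpoly.aeval _ _))).mono hsub)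
        · exact (hB _).2 ((h4 _).2 (h5 ρ _ j hρ (hcoef α i)))
      exact hle hx
    · have : τ (y α) / v = τ (z α) := by
        rw [hz]
        simp only [map_div₀]
        rw [hv, AlgEquiv.commutes]
      rw [this]
      exact hτA α
    · induction hx using Algebra.adjoin_induction with
      | mem g hg =>
        rcases hg with ⟨α, rfl | rfl⟩ | ⟨α, i, j, rfl⟩
        · rw [← Finset.mul_prod_erase Finset.univ _ (Finset.mem_univ α)]
          have h1 := hDmem (z α) α (minpoly.aeval _ _) (hzA α)
          have h2 : qz α * τ (qz α) * (∏ x ∈ Finset.univ.erase α, qz x * τ (qz x)) * DL (z α) =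
              (aeval (z α) (derivative (μ α)) * DL (z α)) * τ (qz α) *
                (∏ x ∈ Finset.univ.erase α, qz x * τ (qz x)) := by
            rw [hqz]; ring
          rw [h2]
          exact A.mul_mem (A.mul_mem h1 (hτqA α)) (hprod _)
        · rw [← Finset.mul_prod_erase Finset.univ _ (Finset.mem_univ α)]
          have h0 : aeval (τ (z α)) (μ α) = 0 := by
            have := Polynomial.aeval_algHom_apply (τ : L →ₐ[K] L) (z α) (μ α)
            have h3 : aeval (z α) (μ α) = 0 := minpoly.aeval _ _
            rw [h3, map_zero] at this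
            exact this
          have h1 := hDmem (τ (z α)) α h0 (hτA α)
          rw [← hτq] at h1
          have h2 : qz α * τ (qz α) * (∏ x ∈ Finset.univ.erase α, qz x * τ (qz x)) *
              DL (τ (z α)) = (τ (qz α) * DL (τ (z α))) * qz α *
                (∏ x ∈ Finset.univ.erase α, qz x * τ (qz x)) := by
            ring
          rw [h2]
          exact A.mul_mem (A.mul_mem h1 (hqA α)) (hprod _)
        · rw [hDL]
          refine A.mul_mem (hprod _) ?_
          have := hcA α i (j + 1)
          rwa [Function.iterate_succ_apply'] at this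
      | algebraMap r =>
        rw [Derivation.map_algebraMap, mul_zero]
        exact A.zero_mem
      | add a b ha hb iha ihb =>
        rw [map_add, mul_add]
        exact A.add_mem iha ihb
      | mul a b ha hb iha ihb =>
        rw [Derivation.leibniz, smul_eq_mul, smul_eq_mul, mul_add]
        refine A.add_mem ?_ ?_
        · have : (∏ α, qz α * τ (qz α)) * (a * DL b) = a * ((∏ α, qz α * τ (qz α)) * DL b) := by
            ring
          rw [this]
          exact A.mul_mem ha ihb
        · have : (∏ α, qz α * τ (qz α)) * (b * DL a) = b * ((∏ α, qz α * τ (qz α)) * DL a) := by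
            ring
          rw [this]
          exact A.mul_mem hb iha

end Pool.Agent.Lib.MP_627a61_nt.Hy
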