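import Pool.Agent.Lib.MP_627a61_nt.Hy.M_CORE
import Pool.Agent.Lib.MP_627a61_nt.Hy.M_MERO
import Pool.Agent.Lib.MP_627a61_nt.Hy.M_CHART
import Pool.Agent.Lib.MP_627a61_nt.Hy.M_REP
import Pool.Agent.Lib.MP_627a61_nt.Hy.M_EVAL
import Pool.Agent.Lib.MP_627a61_nt.Hy.M_BDD
import Pool.Agent.Lib.MP_627a61_nt.Hy.M_DER
import Pool.Agent.Lib.MP_627a61_nt.Hy.M_NL
import Pool.Agent.Lib.MP_627a61_nt.Hy.M_STAB
import Pool.Agent.Lib.MP_627a61_nt.Hy.M_LARGE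
import Pool.Agent.Lib.MP_627a61_nt.Hy.M_MAXI
import Pool.Agent.Lib.MP_627a61_nt.Hy.M_HYPK
import Pool.Agent.Lib.MP_627a61_nt.Hy.M_KD1
import Pool.Agent.Lib.MP_627a61_nt.Hy.M_KD2
import Pool.Agent.Lib.MP_627a61_nt.Hy.M_GEO
import Pool.Agent.Lib.MP_627a61_nt.Hy.GoodMain
import Pool.Agent.Lib.MP_627a61_nt.Hy.P.fin
import Pool.Agent.Lib.MP_627a61_nt.Hy.P.img
import Pool.Agent.Lib.MP_627a61_nt.Hy.P.int
import Pool.Agent.Lib.MP_627a61_nt.Hy.P.pow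
import Pool.Agent.Lib.MP_627a61_nt.Hy.P.prop
import Pool.Agent.Lib.MP_627a61_nt.Hy.D_CASE2
import Pool.Agent.Lib.MP_627a61_nt.Hy.D_CHAIN
import Pool.Agent.Lib.MP_627a61_nt.Hy.D_COMP
import Pool.Agent.Lib.MP_627a61_nt.Hy.D_DICH
import Pool.Agent.Lib.MP_627a61_nt.Hy.D_VMEM
import Pool.Agent.Lib.MP_627a61_nt.Hy.D_WEX
import Pool.Agent.Lib.MP_627a61_nt.Hy.D_WNZ
import Pool.Agent.Lib.MP_627a61_nt.Hy.D_WSC
import Pool.Agent.Lib.MP_627a61_nt.Hy.D_WPfb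
import Pool.Agent.Lib.MP_627a61_nt.Hy.M_KUM

/-!
# Project DIM/HYP: the theorem
-/

namespace Pool.Agent.Lib.MP_627a61_nt.Hy

theorem top_core : S_CORE :=
  core mero chart (bdd eval_pl) kum rep maxi
    (pair (bdd eval_pl) der (stab (bdd eval_pl)) large (nl (bdd eval_pl))
      (wpnz_fb piece_WNZ piece_WEX) (wpsc_fb (piece_VSC piece_WSC piece_WHOM))
      (piece_CHAIN piece_WEX piece_VMEM) piece_EXPD (piece_DICH piece_COMP piece_CASE2))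
    (p_INT p_RAD p_FIN) (p_IMG p_RAD p_FIN) (p_GOOD p_POW (p_INT p_RAD p_FIN))

theorem top_geo : S_GEO :=
  geo top_core hypk kd1 (p_PROP (p_INT p_RAD p_FIN))

theorem top_q1 : S_Q1 := q1 top_geo kd2

end Pool.Agent.Lib.MP_627a61_nt.Hy
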