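import Pool.Agent.Lib.MP_627a61_nt.Hy.BStm

set_option autoImplicit false

/-!
# Project DIM/HYP, birational version: BDEG (helper36)
-/

open MvPolynomial

namespace Pool.Agent.Lib.MP_627a61_nt.Hy

section
variable {k Ω : Type} [Field k] [Field Ω] [Algebra k Ω]

private theorem bdeg_mono {E F : IntermediateField k Ω} (h : E ≤ F) {z : Ω}
    (hz : IsAlgebraic E z) : IsAlgebraic F z := by
  letI : Algebra E F := (IntermediateField.inclusion h).toRingHom.toAlgebra
  haveI : IsScalarTower E F Ω := IsScalarTower.of_algebraMap_eq' rfl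
  exact hz.tower_top F

private theorem bdeg_trans {E F : IntermediateField k Ω} (h : E ≤ F)
    (hF : ∀ y ∈ F, IsAlgebraic E y) {z : Ω} (hz : IsAlgebraic F z) : IsAlgebraic E z := by
  letI : Algebra E F := (IntermediateField.inclusion h).toRingHom.toAlgebra
  haveI : IsScalarTower E F Ω := IsScalarTower.of_algebraMap_eq' rfl
  haveI : Algebra.IsAlgebraic E F := by
    refine ⟨fun y => ?_⟩
    have h1 := hF y y.2
    exact (isAlgebraic_algebraMap_iff (R := E) (S := F) (A := Ω) (algebraMap F Ω).injective).1 h1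
  exact hz.restrictScalars E

private theorem bdeg_adj {E : IntermediateField k Ω} {s : Set Ω} (hs : ∀ y ∈ s, IsAlgebraic E y) :
    ∀ z ∈ IntermediateField.adjoin k s, IsAlgebraic E z := by
  have h1 : IntermediateField.adjoin k s ≤ (algebraicClosure E Ω).restrictScalars k := by
    rw [IntermediateField.adjoin_le_iff]
    intro y hy
    exact mem_algebraicClosure_iff.2 (hs y hy)
  intro z hz
  exact mem_algebraicClosure_iff.1 (h1 hz)

open scoped IntermediateField.algebraAdjoinAdjoin in
private theorem bdeg_sub (s : Set Ω)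
    (h : ∀ z : Ω, IsAlgebraic (IntermediateField.adjoin k s) z) :
    Algebra.IsAlgebraic (Algebra.adjoin k s) Ω := by
  haveI : Algebra.IsAlgebraic (IntermediateField.adjoin k s) Ω := ⟨h⟩
  exact Algebra.IsAlgebraic.trans (Algebra.adjoin k s) (IntermediateField.adjoin k s) Ω

private theorem bdeg_indep {m e : ℕ} {T : Fin (m + 1) → Ω} (hT : AlgebraicIndependent k T)
    (hA : ∀ z : Ω, IsAlgebraic (IntermediateField.adjoin k (Set.range fun i => T i ^ e)) z)
    (w : Fin (m + 1) → Ω) (hw : ∀ i, T i ^ e ∈ IntermediateField.adjoin k (Set.range w)) :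
    AlgebraicIndependent k w := by
  have h1 : IntermediateField.adjoin k (Set.range fun i => T i ^ e) ≤
      IntermediateField.adjoin k (Set.range w) := by
    rw [IntermediateField.adjoin_le_iff]
    rintro y ⟨i, rfl⟩
    exact hw i
  haveI := bdeg_sub (Set.range w) (fun z => bdeg_mono h1 (hA z))
  exact (Algebra.IsAlgebraic.isTranscendenceBasis_of_lift_le_trdeg_of_finite k w
    (by simpa using hT.lift_cardinalMk_le_trdeg)).1

private theorem bdeg_aut [IsAlgClosed Ω] {m e : ℕ} {T : Fin (m + 1) → Ω}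
    (hT : AlgebraicIndependent k T)
    (hA : ∀ z : Ω, IsAlgebraic (IntermediateField.adjoin k (Set.range fun i => T i ^ e)) z)
    (w : Fin (m + 1) → Ω) (hw : ∀ i, w i ^ e = T i ^ e) :
    ∃ σ : Ω ≃ₐ[k] Ω, ∀ i, σ (T i) = w i := by
  have hwi : AlgebraicIndependent k w := bdeg_indep hT hA w (fun i => by
    rw [← hw i]
    exact pow_mem (IntermediateField.subset_adjoin k _ (Set.mem_range_self i)) e)
  have hTalg : Algebra.IsAlgebraic (IntermediateField.adjoin k (Set.range T)) Ω := by
    refine ⟨fun z => bdeg_mono ?_ (hA z)⟩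
    rw [IntermediateField.adjoin_le_iff]
    rintro y ⟨i, rfl⟩
    exact pow_mem (IntermediateField.subset_adjoin k _ (Set.mem_range_self i)) e
  let f0 : IntermediateField.adjoin k (Set.range T) →ₐ[k] Ω :=
    (IntermediateField.val _).comp
      ((hwi.aevalEquivField.toAlgHom).comp (hT.aevalEquivField.symm.toAlgHom))
  have hf0 : ∀ i, f0 ⟨T i, IntermediateField.subset_adjoin k _ ⟨i, rfl⟩⟩ = w i := by
    intro i
    have h1 : hT.aevalEquivField (algebraMap (MvPolynomial (Fin (m + 1)) k)
        (FractionRing (MvPolynomial (Fin (m + 1)) k)) (X i)) =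
        (⟨T i, IntermediateField.subset_adjoin k _ ⟨i, rfl⟩⟩ :
          IntermediateField.adjoin k (Set.range T)) := by
      apply Subtype.ext
      rw [hT.aevalEquivField_algebraMap_apply_coe, aeval_X]
    have h2 : hT.aevalEquivField.symm
        (⟨T i, IntermediateField.subset_adjoin k _ ⟨i, rfl⟩⟩ :
          IntermediateField.adjoin k (Set.range T)) =
        algebraMap (MvPolynomial (Fin (m + 1)) k)
          (FractionRing (MvPolynomial (Fin (m + 1)) k)) (X i) := by
      rw [← h1, AlgEquiv.symm_apply_apply]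
    show ((hwi.aevalEquivField (hT.aevalEquivField.symm _) :
      IntermediateField.adjoin k (Set.range w)) : Ω) = w i
    rw [h2, hwi.aevalEquivField_algebraMap_apply_coe, aeval_X]
  obtain ⟨σ, hσ⟩ := IsAlgClosed.surjective_domRestrict_of_isAlgebraic (K := k)
    (L := IntermediateField.adjoin k (Set.range T)) (M := Ω) (E := Ω) f0
  have hσT : ∀ i, σ (T i) = w i := by
    intro i
    rw [← hf0 i, ← hσ]
    rfl
  -- `σ` is the identity on `k(T ^ e)`
  have hfix : ∀ z ∈ IntermediateField.adjoin k (Set.range fun i => T i ^ e), σ z = z := by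
    intro z hz
    induction hz using IntermediateField.adjoin_induction with
    | mem y hy =>
      obtain ⟨i, rfl⟩ := hy
      rw [map_pow, hσT i, hw i]
    | algebraMap y => exact σ.commutes y
    | add y z _ _ h1 h2 => rw [map_add, h1, h2]
    | inv y _ h1 => rw [map_inv₀, h1]
    | mul y z _ _ h1 h2 => rw [map_mul, h1, h2]
  let σ' : Ω →ₐ[IntermediateField.adjoin k (Set.range fun i => T i ^ e)] Ω :=
    { σ.toRingHom with commutes' := fun z => hfix z z.2 }
  haveI : Algebra.IsAlgebraic (IntermediateField.adjoin k (Set.range fun i => T i ^ e)) Ω := ⟨hA⟩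
  have hbij : Function.Bijective σ := Algebra.IsAlgebraic.algHom_bijective σ'
  exact ⟨AlgEquiv.ofBijective σ hbij, hσT⟩

private theorem bdeg_poly {m d : ℕ} {t : Fin (m + 1) → Ω} (ht : AlgebraicIndependent k t)
    {G : MvPolynomial (Fin (m + 2)) k} (hG : G ≠ 0) (hd : G.totalDegree ≤ d) :
    ∃ g : Polynomial Ω, g ≠ 0 ∧ g.natDegree ≤ d ∧
      ∀ y : Ω, g.eval y = aeval (Fin.snoc (α := fun _ => Ω) t y) G := by
  let φ : MvPolynomial (Fin (m + 1)) k →+* Ω := (aeval t : MvPolynomial (Fin (m + 1)) k →ₐ[k] Ω)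
  have hφ : Function.Injective φ := ht
  refine ⟨(optionEquivLeft k (Fin (m + 1)) (rename (finSuccEquivLast) G)).map φ, ?_, ?_, ?_⟩
  · intro h0
    apply hG
    have h1 := (Polynomial.map_injective φ hφ) (h0.trans (Polynomial.map_zero φ).symm)
    rw [EmbeddingLike.map_eq_zero_iff] at h1
    exact (rename_injective _ finSuccEquivLast.injective) (h1.trans (map_zero _).symm)
  · refine Polynomial.natDegree_map_le.trans ?_
    rw [natDegree_optionEquivLeft]
    exact (degreeOf_le_totalDegree _ _).trans ((totalDegree_rename_le _ _).trans hd)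
  · intro y
    clear hG hd
    induction G using MvPolynomial.induction_on with
    | C a =>
      rw [rename_C, optionEquivLeft_C, Polynomial.map_C, Polynomial.eval_C, aeval_C]
      show aeval t (C a) = _
      rw [aeval_C]
    | add p q hp hq =>
      rw [map_add, map_add, Polynomial.map_add, Polynomial.eval_add, hp, hq, map_add]
    | mul_X p i hp =>
      rw [map_mul, map_mul, Polynomial.map_mul, Polynomial.eval_mul, hp, map_mul, rename_X, aeval_X]
      congr 1
      refine Fin.lastCases ?_ (fun j => ?_) i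
      · rw [finSuccEquivLast_last, optionEquivLeft_X_none, Polynomial.map_X, Polynomial.eval_X,
          Fin.snoc_last]
      · rw [finSuccEquivLast_castSucc, optionEquivLeft_X_some, Polynomial.map_C, Polynomial.eval_C,
          Fin.snoc_castSucc]
        show aeval t (X j) = _
        rw [aeval_X]

end

section
variable {ι k Ω : Type} [Fintype ι] [Field k] [Field Ω] [Algebra k Ω]

private theorem bdeg_dot (σ : Ω ≃ₐ[k] Ω) (a : ι → k) (x : ι → Ω) :
    dot (algebraMap k Ω ∘ a) (fun i => σ (x i)) = σ (dot (algebraMap k Ω ∘ a) x) := by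
  unfold dot
  rw [map_sum]
  refine Finset.sum_congr rfl fun i _ => ?_
  rw [map_mul, Function.comp_apply, σ.commutes]

private theorem bdeg_tt {M : ℕ} (σ : Ω ≃ₐ[k] Ω) (lam : Fin M → ι → k) (b : Fin M → k) (e : ℕ)
    (x : ι → Ω) :
    tt (fun j => algebraMap k Ω ∘ lam j) (algebraMap k Ω ∘ b) e (fun i => σ (x i)) =
      σ (tt (fun j => algebraMap k Ω ∘ lam j) (algebraMap k Ω ∘ b) e x) := by
  unfold tt
  rw [map_sum]
  refine Finset.sum_congr rfl fun j _ => ?_
  rw [map_mul, map_pow, ← bdeg_dot, Function.comp_apply, σ.commutes]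

private theorem bdeg_cone (S : Set (MvPolynomial ι k)) (σ : Ω ≃ₐ[k] Ω) {x : ι → Ω}
    (hx : InCone (algebraMap k Ω) S x) : InCone (algebraMap k Ω) S (fun i => σ (x i)) := by
  intro P hP
  have h1 : aeval (fun i => σ (x i)) P = σ (aeval x P) := by
    have := MvPolynomial.comp_aeval_apply (φ := (σ : Ω →ₐ[k] Ω)) (f := x) P
    exact this.symm
  have h2 : aeval x P = 0 := hx P hP
  show aeval (fun i => σ (x i)) P = 0
  rw [h1, h2, map_zero]

/-- `Ω` is algebraic over `k(T ^ e)`. -/
private theorem bdeg_alg (hINT : S_INT.{0, 0}) {m e : ℕ} (S : Set (MvPolynomial ι k))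
    (hS : ∀ P ∈ S, ∃ n, P.IsHomogeneous n) (l : Fin (m + 1) → ι → k) (hl : NoZero S l)
    (he : 1 ≤ e) (x : ι → Ω) (hx : GenPt S x) (hc : InCone (algebraMap k Ω) S x) (z : Ω) :
    IsAlgebraic (IntermediateField.adjoin k (Set.range fun i => TT l x i ^ e)) z := by
  obtain ⟨d, P, hP⟩ := hINT S hS l hl
  -- `k(T ^ e) ≤ k(T)`
  have h01 : IntermediateField.adjoin k (Set.range fun i => TT l x i ^ e) ≤
      IntermediateField.adjoin k (Set.range (TT l x)) := by
    rw [IntermediateField.adjoin_le_iff]
    rintro y ⟨i, rfl⟩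
    exact pow_mem (IntermediateField.subset_adjoin k _ (Set.mem_range_self i)) e
  have h01a : ∀ y ∈ IntermediateField.adjoin k (Set.range (TT l x)),
      IsAlgebraic (IntermediateField.adjoin k (Set.range fun i => TT l x i ^ e)) y := by
    apply bdeg_adj
    rintro y ⟨i, rfl⟩
    refine IsAlgebraic.of_pow (n := e) he ?_
    have hmem : TT l x i ^ e ∈ IntermediateField.adjoin k (Set.range fun i => TT l x i ^ e) :=
      IntermediateField.subset_adjoin k _ ⟨i, rfl⟩
    exact isAlgebraic_algebraMap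
      (⟨_, hmem⟩ : IntermediateField.adjoin k (Set.range fun i => TT l x i ^ e))
  -- `k(T) ≤ k(x)`
  have h12 : IntermediateField.adjoin k (Set.range (TT l x)) ≤
      IntermediateField.adjoin k (Set.range x) := by
    rw [IntermediateField.adjoin_le_iff]
    rintro y ⟨i, rfl⟩
    show dot (algebraMap k Ω ∘ l i) x ∈ IntermediateField.adjoin k (Set.range x)
    unfold dot
    refine sum_mem fun α _ => mul_mem ?_ (IntermediateField.subset_adjoin k _ ⟨α, rfl⟩)
    exact IntermediateField.algebraMap_mem _ _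
  have h12a : ∀ y ∈ IntermediateField.adjoin k (Set.range x),
      IsAlgebraic (IntermediateField.adjoin k (Set.range (TT l x))) y := by
    apply bdeg_adj
    rintro y ⟨α, rfl⟩
    obtain ⟨⟨hmon, -, -, -⟩, hval⟩ := hP α
    have h1 := hval Ω (algebraMap k Ω) x hc
    set E := IntermediateField.adjoin k (Set.range (TT l x)) with hE
    let f : MvPolynomial (Fin (m + 1)) k →+* E :=
      eval₂Hom (algebraMap k E) (fun i => ⟨TT l x i, IntermediateField.subset_adjoin k _ ⟨i, rfl⟩⟩)
    have hf : (algebraMap E Ω).comp f =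
        eval₂Hom (algebraMap k Ω) (fun i => dot (algebraMap k Ω ∘ l i) x) := by
      apply MvPolynomial.ringHom_ext
      · intro a
        simp only [f, RingHom.comp_apply, eval₂Hom_C]
        rfl
      · intro i
        simp only [f, RingHom.comp_apply, eval₂Hom_X']
        rfl
    refine ⟨(P α).map f, (hmon.map f).ne_zero, ?_⟩
    rw [Polynomial.aeval_def, Polynomial.eval₂_map, hf]
    exact h1
  exact bdeg_trans h01 h01a (bdeg_trans h12 h12a (hx.alg z))

end

theorem b_deg (h_int : S_INT.{0, 0}) : S_BDEG := by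
  intro ι k Ω _ _ _ _ _ _ m M e S hS l hl lam b he x hx hT hC8 d G hG hGd hGI
  classical
  have hc : InCone (algebraMap k Ω) S x := by
    intro P hP
    exact (hx.gen P).2 (Ideal.le_radical (Ideal.subset_span hP))
  have hA := bdeg_alg h_int S hS l hl he x hx hc
  set T := TT l x with hTdef
  haveI : CharZero Ω := charZero_of_injective_algebraMap (algebraMap k Ω).injective
  haveI : NeZero e := ⟨by omega⟩
  haveI : NeZero (e : Ω) := ⟨by exact_mod_cast (by omega : e ≠ 0)⟩
  obtain ⟨ω, hω⟩ := HasEnoughRootsOfUnity.exists_primitiveRoot Ω e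
  let w : (Fin m → Fin e) → Fin (m + 1) → Ω := fun c =>
    Fin.cons (α := fun _ => Ω) (T 0) (fun i => ω ^ (c i : ℕ) * T i.succ)
  have hw0 : ∀ c, w c 0 = T 0 := fun c => Fin.cons_zero _ _
  have hws : ∀ c i, w c i.succ = ω ^ (c i : ℕ) * T i.succ := fun c i => Fin.cons_succ _ _ _
  have hwe : ∀ c i, w c i ^ e = T i ^ e := by
    intro c i
    refine Fin.cases ?_ (fun j => ?_) i
    · rw [hw0]
    · rw [hws, mul_pow, ← pow_mul, mul_comm (c j : ℕ) e, pow_mul, hω.pow_eq_one, one_pow, one_mul]
  choose σ hσ using fun c => bdeg_aut hT hA (w c) (hwe c)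
  set τ0 := tt (fun j => algebraMap k Ω ∘ lam j) (algebraMap k Ω ∘ b) e x with hτ0
  have hfix : ∀ c i, σ c (T i ^ e) = T i ^ e := by
    intro c i
    rw [map_pow, hσ, hwe]
  have hT0 : T 0 ≠ 0 := hT.ne_zero 0
  have hinj : Function.Injective (fun c => σ c τ0) := by
    intro c c' hcc
    have hcc : σ c τ0 = σ c' τ0 := hcc
    let ρ : Ω ≃ₐ[k] Ω := (σ c').trans (σ c).symm
    have hρ : ∀ z, ρ z = (σ c).symm (σ c' z) := fun z => rfl
    have hdot : ∀ i, dot (algebraMap k Ω ∘ l i) (fun α => ρ (x α)) = (σ c).symm (w c' i) := by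
      intro i
      rw [bdeg_dot, hρ]
      show (σ c).symm (σ c' (T i)) = _
      rw [hσ]
    have h1 : Prp (fun α => ρ (x α)) x := by
      apply hC8 _ (bdeg_cone S ρ hc)
      · intro i
        show T i ^ e = dot (algebraMap k Ω ∘ l i) (fun α => ρ (x α)) ^ e
        rw [hdot, ← map_pow, hwe, AlgEquiv.eq_symm_apply, hfix]
      · rw [bdeg_tt, hρ, ← hτ0, ← hcc, AlgEquiv.symm_apply_apply]
    obtain ⟨a, ha⟩ := h1
    have h2 : ∀ i, (σ c).symm (w c' i) = a * T i := by
      intro i
      rw [← hdot i, ha]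
      show dot (algebraMap k Ω ∘ l i) (a • x) = a * dot (algebraMap k Ω ∘ l i) x
      unfold dot
      rw [Finset.mul_sum]
      refine Finset.sum_congr rfl fun α _ => ?_
      rw [Pi.smul_apply, smul_eq_mul]
      ring
    have h3 : a = 1 := by
      have h4 := h2 0
      have h4' : (σ c).symm (T 0) = T 0 := by rw [AlgEquiv.symm_apply_eq, hσ, hw0]
      rw [hw0, h4'] at h4
      have h5 : (a - 1) * T 0 = 0 := by rw [sub_mul, ← h4, one_mul, sub_self]
      rcases mul_eq_zero.1 h5 with h | h
      · exact sub_eq_zero.1 h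
      · exact absurd h hT0
    funext j
    have h4 := h2 j.succ
    rw [h3, one_mul] at h4
    have h5 : w c' j.succ = w c j.succ := by
      rw [← hσ c j.succ, ← h4, AlgEquiv.apply_symm_apply]
    rw [hws, hws] at h5
    have h6 : ω ^ (c' j : ℕ) = ω ^ (c j : ℕ) := mul_right_cancel₀ (hT.ne_zero j.succ) h5
    have h7 := hω.pow_inj (c' j).2 (c j).2 h6
    exact Fin.ext h7.symm
  -- the polynomial
  have hTe : AlgebraicIndependent k (fun i => T i ^ e) :=
    bdeg_indep hT hA _ (fun i => IntermediateField.subset_adjoin k _ ⟨i, rfl⟩)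
  obtain ⟨g, hg0, hgd, hgev⟩ := bdeg_poly hTe hG hGd.totalDegree_le
  have hzero : aeval (Fin.snoc (α := fun _ => Ω) (fun i => T i ^ e) τ0) G = 0 := by
    have h1 : aeval x (aeval (Fm l lam b e) G) = 0 := (hx.gen _).2 hGI
    have h2 : aeval x (aeval (Fm l lam b e) G) =
        aeval (Fin.snoc (α := fun _ => Ω) (fun i => T i ^ e) τ0) G := by
      rw [MvPolynomial.comp_aeval_apply]
      congr 2
      funext j
      refine Fin.lastCases ?_ (fun i => ?_) j
      · rw [Fin.snoc_last]
        exact eval₂_Fm_last l lam b e (algebraMap k Ω) x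
      · rw [Fin.snoc_castSucc]
        exact eval₂_Fm_castSucc l lam b e (algebraMap k Ω) x i
    rw [← h2, h1]
  have hroot : ∀ c, g.eval (σ c τ0) = 0 := by
    intro c
    rw [hgev]
    have h1 : aeval (Fin.snoc (α := fun _ => Ω) (fun i => T i ^ e) (σ c τ0)) G =
        σ c (aeval (Fin.snoc (α := fun _ => Ω) (fun i => T i ^ e) τ0) G) := by
      have h2 := MvPolynomial.comp_aeval_apply (φ := ((σ c : Ω ≃ₐ[k] Ω) : Ω →ₐ[k] Ω))
        (f := Fin.snoc (α := fun _ => Ω) (fun i => T i ^ e) τ0) G
      refine Eq.trans ?_ h2.symm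
      congr 2
      funext j
      refine Fin.lastCases ?_ (fun i => ?_) j
      · rw [Fin.snoc_last, Fin.snoc_last]
        rfl
      · rw [Fin.snoc_castSucc, Fin.snoc_castSucc]
        exact (hfix c i).symm
    rw [h1, hzero, map_zero]
  have hcard : (Finset.univ.image (fun c => σ c τ0)).card = e ^ m := by
    rw [Finset.card_image_of_injective _ hinj, Finset.card_univ, Fintype.card_fun, Fintype.card_fin,
      Fintype.card_fin]
  rw [← hcard]
  refine le_trans (Polynomial.card_le_degree_of_subset_roots (p := g) ?_) hgd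
  intro y hy
  obtain ⟨c, -, rfl⟩ := Finset.mem_image.1 (Finset.mem_def.2 hy)
  exact (Polynomial.mem_roots hg0).2 (hroot c)

end Pool.Agent.Lib.MP_627a61_nt.Hy
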