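import Pool.Agent.Lib.MP_627a61_nt.Hy.BStm

/-!
# Project DIM/HYP, birational version: piece DESC
-/

set_option autoImplicit false

open MvPolynomial Filter

namespace Pool.Agent.Lib.MP_627a61_nt.Hy

/-- two points which are not proportional are separated by a linear form vanishing at the first -/
private lemma bdesc_sep {ι Ω : Type} [Fintype ι] [Field Ω] {x y : ι → Ω} (hx : x ≠ 0)
    (hy : ¬ Prp y x) : ∃ a : ι → Ω, dot a x = 0 ∧ dot a y ≠ 0 := by
  classical
  obtain ⟨i, hi⟩ := Function.ne_iff.1 hx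
  rw [Pi.zero_apply] at hi
  have h1 : y ≠ (y i / x i) • x := fun h => hy ⟨_, h⟩
  obtain ⟨j, hj⟩ := Function.ne_iff.1 h1
  rw [Pi.smul_apply, smul_eq_mul] at hj
  have key : ∀ z : ι → Ω, dot (fun α => (if α = i then x j else 0) - (if α = j then x i else 0)) z
      = x j * z i - x i * z j := by
    intro z
    unfold dot
    simp only [sub_mul, ite_mul, zero_mul, Finset.sum_sub_distrib, Finset.sum_ite_eq',
      Finset.sum_ite_eq, Finset.mem_univ, if_true]
  refine ⟨_, (key x).trans (by ring), ?_⟩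
  rw [key y]
  intro h
  apply hj
  field_simp
  linear_combination -h

/-- the separating polynomial -/
private noncomputable def bdesc_g {ι Ω : Type} [Fintype ι] [Field Ω] (M e : ℕ) (x y : ι → Ω) :
    MvPolynomial ((Fin M × ι) ⊕ Fin M) Ω :=
  ∑ j, X (Sum.inr j) * ((∑ α, C (x α) * X (Sum.inl (j, α))) ^ e -
    (∑ α, C (y α) * X (Sum.inl (j, α))) ^ e)

private lemma bdesc_eval {ι Ω : Type} [Fintype ι] [Field Ω] (M e : ℕ) (x y : ι → Ω)
    (lam : Fin M → ι → Ω) (b : Fin M → Ω) :
    eval (Sum.elim (fun p : Fin M × ι => lam p.1 p.2) b) (bdesc_g M e x y) =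
      tt lam b e x - tt lam b e y := by
  unfold bdesc_g tt dot
  simp only [map_sum, map_mul, map_sub, map_pow, eval_X, eval_C, Sum.elim_inr, Sum.elim_inl]
  rw [← Finset.sum_sub_distrib]
  refine Finset.sum_congr rfl fun j _ => ?_
  rw [mul_sub]
  simp only [mul_comm]

private lemma bdesc_ne {ι Ω : Type} [Fintype ι] [Field Ω] {M e : ℕ} (hM : 1 ≤ M) (he : 1 ≤ e)
    {x y : ι → Ω} (hx : x ≠ 0) (hy : ¬ Prp y x) : bdesc_g M e x y ≠ 0 := by
  classical
  obtain ⟨a, h1, h2⟩ := bdesc_sep hx hy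
  intro h0
  have h3 := bdesc_eval M e x y (fun _ => a) (Pi.single (⟨0, hM⟩ : Fin M) 1)
  rw [h0, map_zero] at h3
  have h4 : ∀ z : ι → Ω, tt (fun _ : Fin M => a) (Pi.single (⟨0, hM⟩ : Fin M) 1) e z =
      dot a z ^ e := by
    intro z
    unfold tt
    rw [Finset.sum_eq_single (⟨0, hM⟩ : Fin M)]
    · rw [Pi.single_eq_same, one_mul]
    · intro j _ hj
      rw [Pi.single_eq_of_ne hj, zero_mul]
    · intro h
      exact absurd (Finset.mem_univ _) h
  rw [h4, h4, h1, zero_pow (by omega), zero_sub] at h3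
  exact h2 (pow_eq_zero_iff (by omega) |>.1 (neg_eq_zero.1 h3.symm))

/-- descent of the nonvanishing of a polynomial to the base field -/
private lemma bdesc_down {σ k Ω : Type} [Field k] [Field Ω] [Algebra k Ω]
    {g' : MvPolynomial σ Ω} (hg : g' ≠ 0) :
    ∃ g : MvPolynomial σ k, g ≠ 0 ∧ ∀ t : σ → k, eval t g ≠ 0 →
      eval (fun i => algebraMap k Ω (t i)) g' ≠ 0 := by
  classical
  obtain ⟨s, hs⟩ := MvPolynomial.ne_zero_iff.1 hg
  obtain ⟨f, hf⟩ : ∃ f : Module.Dual k Ω, f (coeff s g') ≠ 0 := by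
    by_contra hcon
    push Not at hcon
    exact hs ((Module.forall_dual_apply_eq_zero_iff k _).1 hcon)
  refine ⟨∑ d ∈ g'.support, monomial d (f (coeff d g')), ?_, ?_⟩
  · rw [MvPolynomial.ne_zero_iff]
    refine ⟨s, ?_⟩
    rw [coeff_sum, Finset.sum_eq_single s]
    · rw [coeff_monomial, if_pos rfl]; exact hf
    · intro d _ hd
      rw [coeff_monomial, if_neg hd]
    · intro h
      exact absurd (MvPolynomial.mem_support_iff.2 hs) h
  · intro t ht h0
    apply ht
    have h1 : eval t (∑ d ∈ g'.support, monomial d (f (coeff d g'))) =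
        f (eval (fun i => algebraMap k Ω (t i)) g') := by
      rw [MvPolynomial.eval_eq (fun i => algebraMap k Ω (t i)) g', map_sum, map_sum]
      refine Finset.sum_congr rfl fun d _ => ?_
      rw [eval_monomial]
      have h2 : ∏ i ∈ d.support, algebraMap k Ω (t i) ^ d i =
          algebraMap k Ω (d.prod fun i n => t i ^ n) := by
        rw [Finsupp.prod, map_prod]
        exact Finset.prod_congr rfl fun i _ => (map_pow _ _ _).symm
      rw [h2, mul_comm (coeff d g'), ← Algebra.smul_def, map_smul, smul_eq_mul, mul_comm]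
    rw [h1, h0, map_zero]

theorem b_desc : S_BDESC := by
  intro ι k Ω _ _ _ _ M e hM he x hx Y hY hYx
  classical
  have hne : (∏ y ∈ hY.toFinset, bdesc_g M e x y) ≠ 0 := by
    rw [Finset.prod_ne_zero_iff]
    intro y hy
    exact bdesc_ne hM he hx (hYx y (hY.mem_toFinset.1 hy))
  obtain ⟨g, hg, h⟩ := bdesc_down (k := k) hne
  refine ⟨g, hg, fun lam b hlb y hy heq => ?_⟩
  refine h _ hlb ?_
  rw [map_prod, Finset.prod_eq_zero (hY.mem_toFinset.2 hy)]
  have h1 : (fun i => algebraMap k Ω (Sum.elim (fun p : Fin M × ι => lam p.1 p.2) b i)) =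
      Sum.elim (fun p : Fin M × ι => (fun j => algebraMap k Ω ∘ lam j) p.1 p.2)
        (algebraMap k Ω ∘ b) := by
    funext i
    cases i <;> rfl
  have h2 := bdesc_eval M e x y (fun j => algebraMap k Ω ∘ lam j) (algebraMap k Ω ∘ b)
  rw [h1]
  exact h2.trans (by rw [heq, sub_self])

end Pool.Agent.Lib.MP_627a61_nt.Hy
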