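import Pool.Agent.Lib.MP_627a61_nt.Hy.BStm

set_option autoImplicit false

open MvPolynomial Filter

namespace Pool.Agent.Lib.MP_627a61_nt.Hy

private theorem bfin_pow {Ω : Type} [Field Ω] (e : ℕ) (he : 1 ≤ e) (a : Ω) :
    {z : Ω | a = z ^ e}.Finite := by
  classical
  have h0 : (Polynomial.X ^ e - Polynomial.C a : Polynomial Ω) ≠ 0 :=
    Polynomial.X_pow_sub_C_ne_zero (by omega) a
  refine ((Polynomial.X ^ e - Polynomial.C a : Polynomial Ω).roots.toFinset.finite_toSet).subset ?_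
  intro z hz
  simp only [Set.mem_ofPred_eq] at hz
  simp only [Finset.mem_coe, Multiset.mem_toFinset, Polynomial.mem_roots h0, Polynomial.IsRoot.def,
    Polynomial.eval_sub, Polynomial.eval_pow, Polynomial.eval_X, Polynomial.eval_C]
  rw [hz, sub_self]

private theorem bfin_mon {k Ω : Type} [Field k] [Field Ω] (τ : k →+* Ω) {m : ℕ}
    (Q : Polynomial (MvPolynomial (Fin (m + 1)) k)) (hQ : Q.Monic) (U : Fin (m + 1) → Ω) :
    {z : Ω | pval τ Q U z = 0}.Finite := by
  classical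
  have h0 : Q.map (eval₂Hom τ U) ≠ 0 := (hQ.map _).ne_zero
  refine ((Q.map (eval₂Hom τ U)).roots.toFinset.finite_toSet).subset ?_
  intro z hz
  simp only [Set.mem_ofPred_eq, pval] at hz
  simp only [Finset.mem_coe, Multiset.mem_toFinset, Polynomial.mem_roots h0, Polynomial.IsRoot.def,
    Polynomial.eval_map]
  exact hz

theorem b_fin (h_int : S_INT.{0, 0}) : S_BFIN := by
  intro ι k Ω _ _ _ _ m e S hS l hl he x
  obtain ⟨d, P, hP⟩ := h_int S hS l hl
  have hA : (Set.pi Set.univ (fun i : Fin (m + 1) =>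
      {z : Ω | dot (algebraMap k Ω ∘ l i) x ^ e = z ^ e})).Finite :=
    Set.Finite.pi (fun i => bfin_pow e he _)
  have hB : ∀ α : ι, (⋃ U ∈ (Set.pi Set.univ (fun i : Fin (m + 1) =>
      {z : Ω | dot (algebraMap k Ω ∘ l i) x ^ e = z ^ e})),
      {z : Ω | pval (algebraMap k Ω) (P α) U z = 0}).Finite := fun α =>
    hA.biUnion (fun U _ => bfin_mon (algebraMap k Ω) (P α) (hP α).1.1 U)
  refine (Set.Finite.pi (fun α => hB α)).subset ?_
  rintro y ⟨hy, hb⟩
  intro α _
  refine Set.mem_biUnion (x := fun i => dot (algebraMap k Ω ∘ l i) y) ?_ ?_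
  · intro i _
    exact hb i
  · exact (hP α).2 Ω (algebraMap k Ω) y hy

end Pool.Agent.Lib.MP_627a61_nt.Hy
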