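import Pool.Agent.Lib.MP_627a61_nt.Hy.BStm

/-!
# HYP, birational version: BIND, the linear forms are algebraically independent

If `g ≠ 0` and `g(l_0, ..., l_m)` vanishes on the variety then `A = k[X] / I` is integral over
`k[y] / (g)` and so its Krull dimension is at most `m`.
-/

set_option autoImplicit false

open MvPolynomial

namespace Pool.Agent.Lib.MP_627a61_nt.Hy

/-- The Krull dimension does not increase in integral extensions. -/
theorem bind_dim {R A : Type} [CommRing R] [CommRing A] (f : R →+* A)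
    (hf : f.IsIntegral) : ringKrullDim A ≤ ringKrullDim R := by
  let _ : Algebra R A := f.toAlgebra
  have : Algebra.IsIntegral R A := ⟨hf⟩
  refine Order.krullDim_le_of_strictMono (PrimeSpectrum.comap f) ?_
  intro p q hpq
  exact Ideal.IsIntegral.comap_lt_comap (R := R) (A := A) hpq

/-- The Krull dimension is not changed by the radical. -/
theorem bind_radical {R : Type} [CommRing R] (I : Ideal R) :
    ringKrullDim (R ⧸ I.radical) = ringKrullDim (R ⧸ I) := by
  rw [ringKrullDim_quotient, ringKrullDim_quotient, PrimeSpectrum.zeroLocus_radical]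

/-- A quotient of the polynomial ring modulo a nonzero element. -/
theorem bind_drop {k : Type} [Field k] (m : ℕ) (g : MvPolynomial (Fin (m + 1)) k) (hg : g ≠ 0) :
    ringKrullDim (MvPolynomial (Fin (m + 1)) k ⧸ Ideal.span {g}) + 1 ≤
      ((m + 1 : ℕ) : WithBot ℕ∞) := by
  have h := ringKrullDim_quotient_succ_le_of_nonZeroDivisor
    (mem_nonZeroDivisors_of_ne_zero hg)
  rwa [MvPolynomial.ringKrullDim_of_isNoetherianRing, ringKrullDim_eq_zero_of_field,
    Nat.card_eq_fintype_card, Fintype.card_fin, zero_add] at h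

theorem b_ind (h_int : S_INT.{0, 0}) : S_BIND := by
  intro ι k Ω _ _ _ _ m S hS hprime hdim l hl x hx
  have hcone : InCone (algebraMap k Ω) S x := fun P hP => by
    have h1 := (hx.gen P).2 (Ideal.le_radical (Ideal.subset_span hP))
    rwa [aeval_def] at h1
  obtain ⟨d, P, hP⟩ := h_int S hS l hl
  let φ : MvPolynomial (Fin (m + 1)) k →ₐ[k] MvPolynomial ι k := aeval (fun i => lin (l i))
  have hlin : ∀ i, aeval x (lin (l i)) = TT l x i := by
    intro i
    rw [aeval_def, eval₂_lin]
    rfl
  have hφx : ∀ Q, aeval x (φ Q) = aeval (TT l x) Q := by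
    intro Q
    have h1 : (aeval x : MvPolynomial ι k →ₐ[k] Ω).comp φ = aeval (TT l x) := by
      apply MvPolynomial.algHom_ext
      intro i
      have h2 : φ (X i) = lin (l i) := aeval_X _ i
      rw [AlgHom.comp_apply, h2, hlin, aeval_X]
    rw [← h1]
    rfl
  let q : MvPolynomial ι k →+* MvPolynomial ι k ⧸ (Ideal.span S).radical :=
    Ideal.Quotient.mk (Ideal.span S).radical
  let f : MvPolynomial (Fin (m + 1)) k →+* MvPolynomial ι k ⧸ (Ideal.span S).radical :=
    q.comp φ.toRingHom
  have hfX : ∀ α, f.IsIntegralElem (q (X α)) := by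
    intro α
    obtain ⟨⟨hmon, -, -, -⟩, hval⟩ := hP α
    refine ⟨P α, hmon, ?_⟩
    have h1 : (P α).eval₂ f (q (X α)) = q ((P α).eval₂ φ.toRingHom (X α)) :=
      (Polynomial.hom_eval₂ (P α) φ.toRingHom q (X α)).symm
    rw [h1]
    show Ideal.Quotient.mk (Ideal.span S).radical _ = 0
    rw [Ideal.Quotient.eq_zero_iff_mem, ← hx.gen]
    have h2 : aeval x ((P α).eval₂ φ.toRingHom (X α)) =
        (P α).eval₂ ((aeval x : MvPolynomial ι k →ₐ[k] Ω).toRingHom.comp φ.toRingHom)
          (aeval x (X α)) :=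
      Polynomial.hom_eval₂ (P α) φ.toRingHom (aeval x : MvPolynomial ι k →ₐ[k] Ω).toRingHom (X α)
    rw [h2, aeval_X]
    have h3 : (aeval x : MvPolynomial ι k →ₐ[k] Ω).toRingHom.comp φ.toRingHom =
        eval₂Hom (algebraMap k Ω) (TT l x) := by
      apply RingHom.ext
      intro Q
      show aeval x (φ Q) = eval₂ (algebraMap k Ω) (TT l x) Q
      rw [hφx, aeval_def]
    rw [h3]
    exact hval Ω (algebraMap k Ω) x hcone
  have hf : f.IsIntegral := by
    intro a
    obtain ⟨Q, rfl⟩ := Ideal.Quotient.mk_surjective a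
    show f.IsIntegralElem (q Q)
    induction Q using MvPolynomial.induction_on with
    | C a =>
      have h1 : q (C a) = f (C a) := by
        show q (C a) = q (φ (C a))
        rw [show φ (C a) = C a from MvPolynomial.aeval_C _ a]
      rw [h1]
      exact f.isIntegralElem_map
    | add p r hp hr =>
      rw [map_add]
      exact RingHom.IsIntegralElem.add f hp hr
    | mul_X p α hp =>
      rw [map_mul]
      exact RingHom.IsIntegralElem.mul f hp (hfX α)
  rw [algebraicIndependent_iff]
  intro g hg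
  by_contra hg0
  have hfg : f g = 0 := by
    show q (φ g) = 0
    show Ideal.Quotient.mk (Ideal.span S).radical _ = 0
    rw [Ideal.Quotient.eq_zero_iff_mem, ← hx.gen, hφx, hg]
  have hker : ∀ a ∈ Ideal.span {g}, f a = 0 := by
    intro a ha
    obtain ⟨c, rfl⟩ := Ideal.mem_span_singleton'.1 ha
    rw [map_mul, hfg, mul_zero]
  let f' : MvPolynomial (Fin (m + 1)) k ⧸ Ideal.span {g} →+*
      MvPolynomial ι k ⧸ (Ideal.span S).radical :=
    Ideal.Quotient.lift (Ideal.span {g}) f hker
  have hf' : f'.IsIntegral := by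
    refine RingHom.IsIntegral.tower_top (Ideal.Quotient.mk (Ideal.span {g})) f' ?_
    have h1 : f'.comp (Ideal.Quotient.mk (Ideal.span {g})) = f := by
      apply RingHom.ext
      intro Q
      exact Ideal.Quotient.lift_mk (Ideal.span {g}) f hker
    rw [h1]
    exact hf
  have h1 := bind_dim f' hf'
  rw [bind_radical, hdim] at h1
  have h2 := bind_drop m g hg0
  have h3 : ((m + 1 : ℕ) : WithBot ℕ∞) + 1 ≤ ((m + 1 : ℕ) : WithBot ℕ∞) := by
    refine le_trans ?_ h2
    gcongr
  have h4 : ((m + 1 + 1 : ℕ) : WithBot ℕ∞) ≤ ((m + 1 : ℕ) : WithBot ℕ∞) := by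
    rw [Nat.cast_add (m + 1) 1, Nat.cast_one]
    exact h3
  have h5 : m + 1 + 1 ≤ m + 1 := by exact_mod_cast h4
  omega

end Pool.Agent.Lib.MP_627a61_nt.Hy
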