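import Pool.Agent.Lib.MP_627a61_nt.Hy.Rows
import Pool.Agent.Lib.MP_627a61_nt.Points

/-!
# HYP: points of the cone over a field with generic parameters
-/

set_option autoImplicit false

open MvPolynomial Filter

namespace Pool.Agent.Lib.MP_627a61_nt.Hy

universe u v w

section
variable {k : Type u} {Ω : Type v} [Field k] [Field Ω]
variable {ι : Type} [Fintype ι]

lemma dot_smul (a x : ι → Ω) (c : Ω) : dot a (c • x) = c * dot a x := by
  unfold dot
  rw [Finset.mul_sum]
  refine Finset.sum_congr rfl fun i _ => ?_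
  rw [Pi.smul_apply, smul_eq_mul]
  ring

lemma dot_sub (a x y : ι → Ω) : dot a (x - y) = dot a x - dot a y := by
  unfold dot
  rw [← Finset.sum_sub_distrib]
  refine Finset.sum_congr rfl fun i _ => ?_
  rw [Pi.sub_apply]
  ring

lemma inCone_smul {τ : k →+* Ω} {S : Set (MvPolynomial ι k)} (hS : ∀ P ∈ S, ∃ n, P.IsHomogeneous n)
    {x : ι → Ω} (hx : InCone τ S x) (c : Ω) : InCone τ S (c • x) := by
  intro P hP
  obtain ⟨n, hn⟩ := hS P hP
  rw [eval₂_smul_homog hn, hx P hP, mul_zero]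

/-- the value of a homogeneous polynomial at zero -/
lemma eval₂_zero_of_homog {κ : Type*} {τ : k →+* Ω} {P : MvPolynomial κ k} {n : ℕ}
    (hP : P.IsHomogeneous n) (hn : n ≠ 0) {x : κ → Ω} (hx : ∀ i, x i = 0) :
    P.eval₂ τ x = 0 := by
  have h0 : x = (0 : Ω) • x := by
    funext i
    rw [hx i, Pi.smul_apply, smul_eq_mul, zero_mul]
  rw [h0, eval₂_smul_homog hP, zero_pow hn, zero_mul]

/-- the integral equations give: no common zero over any field -/
lemma eq_zero_of_int {τ : k →+* Ω} {m : ℕ} {l : Fin (m + 1) → ι → k} {d : ι → ℕ}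
    {P : ι → Polynomial (MvPolynomial (Fin (m + 1)) k)} (hP : ∀ α, PShape (P α) (d α))
    {x : ι → Ω} (hv : ∀ α, pval τ (P α) (fun i => dot (τ ∘ l i) x) (x α) = 0)
    (hx : ∀ i, dot (τ ∘ l i) x = 0) : x = 0 := by
  funext α
  obtain ⟨h1, h2, h3, h4⟩ := hP α
  have h5 := hv α
  unfold pval at h5
  rw [Polynomial.eval₂_eq_sum_range, h2, Finset.sum_range_succ, Finset.sum_eq_zero, zero_add] at h5
  · have h6 : (P α).coeff (d α) = 1 := by
      rw [← h2]
      exact h1
    rw [h6, map_one, one_mul] at h5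
    exact pow_eq_zero_iff (by omega) |>.1 h5
  · intro j hj
    rw [Finset.mem_range] at hj
    rw [coe_eval₂Hom, eval₂_zero_of_homog (h4 j hj.le) (by omega) hx, zero_mul]

variable [Algebra k Ω]

lemma eval₂_mem_cl {κ : Type*} {V : Set Ω} (Q : MvPolynomial κ k) {x : κ → Ω}
    (hx : ∀ i, x i ∈ cl k V) : Q.eval₂ (algebraMap k Ω) x ∈ cl k V := by
  induction Q using MvPolynomial.induction_on with
  | C a =>
    rw [eval₂_C]
    exact algebraMap_mem _ a
  | add p q hp hq =>
    rw [eval₂_add]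
    exact add_mem hp hq
  | mul_X p i hp =>
    rw [eval₂_mul, eval₂_X]
    exact mul_mem hp (hx i)

/-- coordinates are algebraic over the values of the linear forms -/
lemma coord_mem_cl {m : ℕ} {l : Fin (m + 1) → ι → k} {d : ι → ℕ}
    {P : ι → Polynomial (MvPolynomial (Fin (m + 1)) k)} (hP : ∀ α, PShape (P α) (d α))
    {x : ι → Ω}
    (hv : ∀ α, pval (algebraMap k Ω) (P α) (fun i => dot (algebraMap k Ω ∘ l i) x) (x α) = 0)
    {V : Set Ω} (hx : ∀ i, dot (algebraMap k Ω ∘ l i) x ∈ cl k V) (α : ι) : x α ∈ cl k V := by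
  obtain ⟨h1, h2, h3, h4⟩ := hP α
  have h5 := hv α
  unfold pval at h5
  refine mem_cl_of_root ((P α).map (eval₂Hom (algebraMap k Ω)
    (fun i => dot (algebraMap k Ω ∘ l i) x))) (h1.map _).ne_zero ?_ ?_
  · intro n
    rw [Polynomial.coeff_map, coe_eval₂Hom]
    exact eval₂_mem_cl _ hx
  · rw [Polynomial.eval_map]
    exact h5

/-- roots -/
lemma mem_cl_of_pow {V : Set Ω} {a : Ω} {e : ℕ} (he : 1 ≤ e) (h : a ^ e ∈ cl k V) :
    a ∈ cl k V := by
  refine mem_cl_of_root (Polynomial.X ^ e - Polynomial.C (a ^ e))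
    (Polynomial.X_pow_sub_C_ne_zero (by omega) _) ?_ ?_
  · intro n
    rw [Polynomial.coeff_sub, Polynomial.coeff_X_pow, Polynomial.coeff_C]
    refine sub_mem ?_ ?_
    · split_ifs
      · exact one_mem _
      · exact zero_mem _
    · split_ifs
      · exact h
      · exact zero_mem _
  · rw [Polynomial.eval_sub, Polynomial.eval_pow, Polynomial.eval_X, Polynomial.eval_C, sub_self]

/-- after scaling all points over the base of `x` are algebraic over `m` elements -/
lemma exists_scale {S : Set (MvPolynomial ι k)} (hS : ∀ P ∈ S, ∃ n, P.IsHomogeneous n)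
    {m : ℕ} {l : Fin (m + 1) → ι → k} {d : ι → ℕ}
    {P : ι → Polynomial (MvPolynomial (Fin (m + 1)) k)} (hP : ∀ α, PShape (P α) (d α))
    (hv : ∀ x : ι → Ω, InCone (algebraMap k Ω) S x → ∀ α,
      pval (algebraMap k Ω) (P α) (fun i => dot (algebraMap k Ω ∘ l i) x) (x α) = 0)
    {e : ℕ} (he : 1 ≤ e) {x : ι → Ω} (hx : InCone (algebraMap k Ω) S x) (hx0 : x ≠ 0) :
    ∃ s : Ω, s ≠ 0 ∧ ∃ U : Set Ω, U.Finite ∧ U.ncard ≤ m ∧ ∀ y : ι → Ω,
      InCone (algebraMap k Ω) S y → SameBase (fun i => algebraMap k Ω ∘ l i) e x y →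
      ∀ α, (s • y) α ∈ cl k U := by
  classical
  obtain ⟨c, hc⟩ : ∃ c, dot (algebraMap k Ω ∘ l c) x ≠ 0 := by
    by_contra hn
    push Not at hn
    exact hx0 (eq_zero_of_int hP (hv x hx) hn)
  set s : Ω := (dot (algebraMap k Ω ∘ l c) x)⁻¹ with hs
  have hs0 : s ≠ 0 := inv_ne_zero hc
  let U : Set Ω := (fun i => s * dot (algebraMap k Ω ∘ l i) x) '' {i | i ≠ c}
  refine ⟨s, hs0, U, (Set.toFinite _).image _, ?_, ?_⟩
  · refine (Set.ncard_image_le).trans ?_
    have : ({i | i ≠ c} : Set (Fin (m + 1))) = ((Finset.univ.erase c : Finset (Fin (m + 1))) :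
        Set (Fin (m + 1))) := by
      ext i
      simp
    rw [this, Set.ncard_coe_finset, Finset.card_erase_of_mem (Finset.mem_univ c),
      Finset.card_univ, Fintype.card_fin]
    omega
  · intro y hy hxy α
    refine coord_mem_cl hP (hv (s • y) (inCone_smul hS hy s)) ?_ α
    intro i
    rw [dot_smul]
    refine mem_cl_of_pow he ?_
    rw [mul_pow, ← hxy i, ← mul_pow]
    refine pow_mem ?_ e
    by_cases hi : i = c
    · subst hi
      have : s * dot (algebraMap k Ω ∘ l i) x = 1 := inv_mul_cancel₀ hc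
      rw [this]
      exact one_mem _
    · exact subset_cl _ ⟨i, hi, rfl⟩

end

end Pool.Agent.Lib.MP_627a61_nt.Hy
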