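import Pool.Agent.Lib.MP_627a61_nt.Hy.BStm
import Pool.Agent.Lib.MP_627a61_nt.Hy.Pt

/-!
# Project DIM/HYP, piece BINV: the rational inverse
-/

set_option autoImplicit false

open MvPolynomial Filter

namespace Pool.Agent.Lib.MP_627a61_nt.Hy

section
variable {ι κ : Type} {k : Type} [Field k]

private theorem binv_comp_mul {a : ℕ} {A : MvPolynomial ι k} (hA : A.IsHomogeneous a)
    (B : MvPolynomial ι k) (n : ℕ) :
    homogeneousComponent (a + n) (A * B) = A * homogeneousComponent n B := by
  have key : ∀ i, homogeneousComponent (a + n) (A * homogeneousComponent i B) =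
      if i = n then A * homogeneousComponent n B else 0 := by
    intro i
    have h := hA.mul (homogeneousComponent_isHomogeneous i B)
    rw [homogeneousComponent_of_mem h]
    by_cases hi : i = n
    · subst hi
      simp
    · rw [if_neg hi, if_neg]
      omega
  conv_lhs => rw [← sum_homogeneousComponent B]
  rw [Finset.mul_sum, map_sum, Finset.sum_congr rfl fun i _ => key i, Finset.sum_ite_eq']
  split_ifs with hn
  · rfl
  · rw [homogeneousComponent_eq_zero n B (by simpa using hn), mul_zero]

private theorem binv_comp_aeval {e : ℕ} (he : 1 ≤ e) (F : κ → MvPolynomial ι k)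
    (hF : ∀ j, (F j).IsHomogeneous e) (Q : MvPolynomial κ k) (n : ℕ) :
    homogeneousComponent (e * n) (aeval F Q) = aeval F (homogeneousComponent n Q) := by
  have key : ∀ i, homogeneousComponent (e * n) (aeval F (homogeneousComponent i Q)) =
      if i = n then aeval F (homogeneousComponent n Q) else 0 := by
    intro i
    have h := (homogeneousComponent_isHomogeneous i Q).aeval F hF
    rw [homogeneousComponent_of_mem h]
    by_cases hi : i = n
    · subst hi
      simp
    · rw [if_neg hi, if_neg]
      intro h'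
      exact hi (Nat.eq_of_mul_eq_mul_left (by omega) h').symm
  conv_lhs => rw [← sum_homogeneousComponent Q]
  rw [map_sum, map_sum, Finset.sum_congr rfl fun i _ => key i, Finset.sum_ite_eq']
  split_ifs with hn
  · rfl
  · rw [homogeneousComponent_eq_zero n Q (by simpa using hn), map_zero]

attribute [local instance] MvPolynomial.gradedAlgebra

private theorem binv_comp_mem (S : Set (MvPolynomial ι k)) (hS : ∀ P ∈ S, ∃ n, P.IsHomogeneous n)
    {p : MvPolynomial ι k} (hp : p ∈ (Ideal.span S).radical) (n : ℕ) :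
    homogeneousComponent n p ∈ (Ideal.span S).radical := by
  refine homogeneousComponent_mem_of_mem ?_ hp n
  refine Ideal.IsHomogeneous.radical ?_
  refine Ideal.homogeneous_span _ _ fun x hx => ?_
  obtain ⟨n, hn⟩ := hS x hx
  exact ⟨n, hn⟩

end

/-- homogeneous fractions: the step from a relation to a homogeneous relation -/
private theorem binv_homog {ι κ k : Type} [Field k] {e : ℕ} (he : 1 ≤ e)
    (S : Set (MvPolynomial ι k)) (hS : ∀ P ∈ S, ∃ n, P.IsHomogeneous n)
    (F : κ → MvPolynomial ι k) (hF : ∀ j, (F j).IsHomogeneous e)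
    {A : MvPolynomial ι k} (hA : A.IsHomogeneous e) {r s : MvPolynomial κ k}
    (h : A * aeval F s - aeval F r ∈ (Ideal.span S).radical)
    (hs : aeval F s ∉ (Ideal.span S).radical) :
    ∃ (ρ : ℕ) (V W : MvPolynomial κ k), V.IsHomogeneous ρ ∧ W.IsHomogeneous (ρ + 1) ∧
      aeval F V ∉ (Ideal.span S).radical ∧
      A * aeval F V - aeval F W ∈ (Ideal.span S).radical := by
  obtain ⟨ρ, hρ⟩ : ∃ ρ, aeval F (homogeneousComponent ρ s) ∉ (Ideal.span S).radical := by
    by_contra hcon
    push Not at hcon
    apply hs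
    rw [← sum_homogeneousComponent s, map_sum]
    exact Ideal.sum_mem _ fun i _ => hcon i
  refine ⟨ρ, homogeneousComponent ρ s, homogeneousComponent (ρ + 1) r,
    homogeneousComponent_isHomogeneous _ _, homogeneousComponent_isHomogeneous _ _, hρ, ?_⟩
  have h1 := binv_comp_mem S hS h (e + e * ρ)
  rw [map_sub, binv_comp_mul hA, binv_comp_aeval he F hF] at h1
  have h2 : e + e * ρ = e * (ρ + 1) := by ring
  rw [h2, binv_comp_aeval he F hF] at h1
  exact h1

theorem b_inv (h_int : S_INT.{0, 0}) : S_BINV := by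
  classical
  intro ι k Ω _ _ _ _ _ _ m M e S hS hprime l hl lam b he x hx hind hC8
  set F := Fm l lam b e with hFdef
  set I := (Ideal.span S).radical with hI
  have hFh : ∀ j, (F j).IsHomogeneous e := Fm_homog l lam b e
  -- the point of the cone
  have hcone : InCone (algebraMap k Ω) S x := by
    intro P hP
    have h1 : P ∈ I := Ideal.le_radical (Ideal.subset_span hP)
    have h2 := (hx.gen P).2 h1
    rwa [aeval_def] at h2
  obtain ⟨d, P, hP⟩ := h_int S hS l hl
  have hPs : ∀ α, PShape (P α) (d α) := fun α => (hP α).1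
  have hPv : ∀ α, pval (algebraMap k Ω) (P α) (fun i => dot (algebraMap k Ω ∘ l i) x) (x α) = 0 :=
    fun α => (hP α).2 Ω (algebraMap k Ω) x hcone
  -- the values
  set v : Fin (m + 2) → Ω := fun j => aeval x (F j) with hv
  have hvc : ∀ i : Fin (m + 1), v i.castSucc = dot (algebraMap k Ω ∘ l i) x ^ e := by
    intro i
    simp only [hv, hFdef]
    rw [aeval_def, eval₂_Fm_castSucc]
  have hvl : v (Fin.last (m + 1)) =
      tt (fun j => algebraMap k Ω ∘ lam j) (algebraMap k Ω ∘ b) e x := by
    simp only [hv, hFdef]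
    rw [aeval_def, eval₂_Fm_last]
  have hvF : ∀ Q : MvPolynomial (Fin (m + 2)) k, aeval x (aeval F Q) = aeval v Q := by
    intro Q
    rw [← MvPolynomial.comp_aeval_apply]
  -- algebraic over `k(v)`
  set E := IntermediateField.adjoin k (Set.range v) with hE
  have hvE : ∀ j, v j ∈ E := fun j => IntermediateField.subset_adjoin k _ ⟨j, rfl⟩
  have hT : ∀ i, dot (algebraMap k Ω ∘ l i) x ∈ cl k (Set.range v) := by
    intro i
    refine mem_cl_of_pow he ?_
    rw [← hvc]
    exact subset_cl _ ⟨_, rfl⟩
  have hxc : Set.range x ⊆ cl k (Set.range v) := by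
    rintro _ ⟨α, rfl⟩
    exact coord_mem_cl hPs hPv hT α
  have halg : ∀ z : Ω, IsAlgebraic E z := by
    intro z
    have h1 : z ∈ cl k (Set.range x) := mem_cl.2 (hx.alg z)
    exact mem_cl.1 (cl_le hxc h1)
  have hEalg : Algebra.IsAlgebraic E Ω := ⟨halg⟩
  have hcl : IsAlgClosure E Ω := ⟨inferInstance, inferInstance⟩
  have hnorm : Normal E Ω := IsAlgClosure.normal E Ω
  have hgal : IsGalois E Ω := {}
  -- `T_0`
  have hT0 : dot (algebraMap k Ω ∘ l 0) x ≠ 0 := hind.ne_zero 0
  set T0 := dot (algebraMap k Ω ∘ l 0) x with hT0def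
  -- fixed elements
  have hfix : ∀ α, x α * T0 ^ (e - 1) ∈ E := by
    intro α
    have hbot : x α * T0 ^ (e - 1) ∈ (⊥ : IntermediateField E Ω) := by
      rw [InfiniteGalois.mem_bot_iff_fixed]
      intro s
      set sk : Ω →ₐ[k] Ω := (s : Ω →ₐ[E] Ω).restrictScalars k with hsk
      have hsE : ∀ z ∈ E, sk z = z := fun z hz => s.commutes ⟨z, hz⟩
      have hdot : ∀ a : ι → k, dot (algebraMap k Ω ∘ a) (fun i => sk (x i)) =
          sk (dot (algebraMap k Ω ∘ a) x) := by
        intro a
        unfold dot
        rw [map_sum]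
        refine Finset.sum_congr rfl fun i _ => ?_
        rw [map_mul, Function.comp_apply, AlgHom.commutes]
      have hyc : InCone (algebraMap k Ω) S (fun i => sk (x i)) := by
        intro Q hQ
        have h1 : aeval (fun i => sk (x i)) Q = sk (aeval x Q) := by
          rw [MvPolynomial.comp_aeval_apply]
        rw [aeval_def, aeval_def, hcone Q hQ, map_zero] at h1
        exact h1
      have hsb : SameBase (fun i => algebraMap k Ω ∘ l i) e x (fun i => sk (x i)) := by
        intro i
        simp only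
        rw [hdot, ← map_pow, ← hvc, hsE _ (hvE _)]
      have htt : tt (fun j => algebraMap k Ω ∘ lam j) (algebraMap k Ω ∘ b) e x =
          tt (fun j => algebraMap k Ω ∘ lam j) (algebraMap k Ω ∘ b) e (fun i => sk (x i)) := by
        have h1 : tt (fun j => algebraMap k Ω ∘ lam j) (algebraMap k Ω ∘ b) e
            (fun i => sk (x i)) = sk (tt (fun j => algebraMap k Ω ∘ lam j)
              (algebraMap k Ω ∘ b) e x) := by
          unfold tt
          rw [map_sum]
          refine Finset.sum_congr rfl fun j _ => ?_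
          rw [map_mul, map_pow, ← hdot, Function.comp_apply, AlgHom.commutes]
        rw [h1, ← hvl, hsE _ (hvE _)]
      obtain ⟨c, hc⟩ := hC8 _ hyc hsb htt
      have hcx : ∀ i, sk (x i) = c * x i := fun i => congrFun hc i
      have hcT : sk T0 = c * T0 := by
        rw [hT0def, ← hdot]
        have : (fun i => sk (x i)) = c • x := hc
        rw [this, dot_smul]
      have hce : c ^ e = 1 := by
        have h1 : sk (T0 ^ e) = T0 ^ e := by
          rw [hT0def, ← hvc, hsE _ (hvE _)]
        rw [map_pow, hcT, mul_pow] at h1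
        have h2 : T0 ^ e ≠ 0 := pow_ne_zero _ hT0
        exact mul_right_cancel₀ h2 (by rw [h1, one_mul])
      have h3 : sk (x α * T0 ^ (e - 1)) = x α * T0 ^ (e - 1) := by
        rw [map_mul, map_pow, hcx, hcT, mul_pow]
        have h4 : c * c ^ (e - 1) = 1 := by
          rw [← pow_succ', Nat.sub_add_cancel he, hce]
        calc c * x α * (c ^ (e - 1) * T0 ^ (e - 1)) = (c * c ^ (e - 1)) * (x α * T0 ^ (e - 1)) := by
              ring
          _ = _ := by rw [h4, one_mul]
      exact h3
    rw [IntermediateField.mem_bot] at hbot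
    obtain ⟨z, hz⟩ := hbot
    rw [← hz]
    exact z.2
  -- the linear form
  have hL0 : aeval x (lin (l 0)) = T0 := by
    rw [aeval_def, eval₂_lin]
  have hA : ∀ α, (X α * lin (l 0) ^ (e - 1) : MvPolynomial ι k).IsHomogeneous e := by
    intro α
    have h1 := (isHomogeneous_X k α).mul ((lin_homog (l 0)).pow (e - 1))
    have h2 : 1 + 1 * (e - 1) = e := by omega
    rwa [h2] at h1
  have hrel : ∀ α, ∃ (ρ : ℕ) (V W : MvPolynomial (Fin (m + 2)) k), V.IsHomogeneous ρ ∧
      W.IsHomogeneous (ρ + 1) ∧ aeval F V ∉ I ∧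
      (X α * lin (l 0) ^ (e - 1)) * aeval F V - aeval F W ∈ I := by
    intro α
    obtain ⟨r, s, hrs, hs⟩ : ∃ r s : MvPolynomial (Fin (m + 2)) k,
        x α * T0 ^ (e - 1) * aeval v s = aeval v r ∧ aeval v s ≠ 0 := by
      have h1 := hfix α
      rw [hE, IntermediateField.mem_adjoin_range_iff] at h1
      obtain ⟨r, s, hrs⟩ := h1
      by_cases hs : aeval v s = 0
      · refine ⟨0, 1, ?_, ?_⟩
        · rw [hrs, hs, div_zero, zero_mul, map_zero]
        · rw [map_one]
          exact one_ne_zero
      · refine ⟨r, s, ?_, hs⟩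
        rw [hrs, div_mul_cancel₀ _ hs]
    refine binv_homog he S hS F hFh (hA α) (r := r) (s := s) ?_ ?_
    · rw [← hx.gen, map_sub, map_mul, map_mul, map_pow, aeval_X, hL0, hvF, hvF, hrs, sub_self]
    · rw [← hx.gen, hvF]
      exact hs
  choose ρ V W hV hW hVI hVW using hrel
  refine ⟨1 + ∑ α, ρ α, fun α => W α * ∏ β ∈ Finset.univ.erase α, V β,
    lin (l 0) ^ (e - 1) * aeval F (∏ β, V β), ?_, ?_, ?_⟩
  · intro α
    have h1 := (hW α).mul (IsHomogeneous.prod (Finset.univ.erase α) V ρ fun β _ => hV β)
    have h2 : ρ α + 1 + ∑ β ∈ Finset.univ.erase α, ρ β = 1 + ∑ β, ρ β := by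
      rw [← Finset.add_sum_erase Finset.univ ρ (Finset.mem_univ α)]
      ring
    rwa [h2] at h1
  · intro hmem
    rcases hprime.mem_or_mem hmem with h | h
    · have h1 := hprime.mem_of_pow_mem _ h
      have h2 := (hx.gen _).2 h1
      rw [hL0] at h2
      exact hT0 h2
    · rw [map_prod] at h
      obtain ⟨β, -, hβ⟩ := (hprime.prod_mem_iff).1 h
      exact hVI β hβ
  · intro α
    have h1 : (∏ β, V β) = V α * ∏ β ∈ Finset.univ.erase α, V β :=
      (Finset.mul_prod_erase Finset.univ V (Finset.mem_univ α)).symm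
    have h2 : aeval F (W α * ∏ β ∈ Finset.univ.erase α, V β) -
        lin (l 0) ^ (e - 1) * aeval F (∏ β, V β) * X α =
        -(aeval F (∏ β ∈ Finset.univ.erase α, V β)) *
          ((X α * lin (l 0) ^ (e - 1)) * aeval F (V α) - aeval F (W α)) := by
      rw [h1, map_mul, map_mul]
      ring
    rw [h2]
    exact Ideal.mul_mem_left _ _ (hVW α)

end Pool.Agent.Lib.MP_627a61_nt.Hy
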