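import Pool.Agent.Lib.MP_627a61_nt.Hy.BStm

/-!
# HYP, birational version: BPRIN, the ideal of the image is principal
-/

set_option autoImplicit false

open MvPolynomial Filter

namespace Pool.Agent.Lib.MP_627a61_nt.Hy

section
variable {ι κ : Type} {k : Type} [Field k]

attribute [local instance] MvPolynomial.gradedAlgebra

private theorem bprin_comp_mem (S : Set (MvPolynomial ι k)) (hS : ∀ P ∈ S, ∃ n, P.IsHomogeneous n)
    {p : MvPolynomial ι k} (hp : p ∈ (Ideal.span S).radical) (n : ℕ) :
    homogeneousComponent n p ∈ (Ideal.span S).radical := by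
  refine homogeneousComponent_mem_of_mem ?_ hp n
  apply Ideal.IsHomogeneous.radical
  refine Ideal.homogeneous_span _ _ fun x hx => ?_
  obtain ⟨n, hn⟩ := hS x hx
  exact ⟨n, hn⟩

private theorem bprin_comp_aeval {e : ℕ} (he : 1 ≤ e) (F : κ → MvPolynomial ι k)
    (hF : ∀ j, (F j).IsHomogeneous e) (Q : MvPolynomial κ k) (n : ℕ) :
    homogeneousComponent (e * n) (aeval F Q) = aeval F (homogeneousComponent n Q) := by
  have key : ∀ i, homogeneousComponent (e * n) (aeval F (homogeneousComponent i Q)) =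
      if i = n then aeval F (homogeneousComponent n Q) else 0 := by
    intro i
    have h := (homogeneousComponent_isHomogeneous i Q).aeval F hF
    rw [homogeneousComponent_of_mem h]
    by_cases hi : i = n
    · subst hi
      simp
    · rw [if_neg hi, if_neg]
      intro h'
      exact hi (Nat.eq_of_mul_eq_mul_left (by omega) h').symm
  conv_lhs => rw [← sum_homogeneousComponent Q]
  rw [map_sum, map_sum, Finset.sum_congr rfl fun i _ => key i, Finset.sum_ite_eq']
  split_ifs with hn
  · rfl
  · rw [homogeneousComponent_eq_zero n Q (by simpa using hn), map_zero]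

private theorem bprin_top {p : MvPolynomial κ k} (hp : p ≠ 0) :
    homogeneousComponent p.totalDegree p ≠ 0 := by
  intro h0
  obtain ⟨d, hd, hdeg⟩ : ∃ d ∈ p.support, d.degree = p.totalDegree := by
    have hne : p.support.Nonempty := by
      rwa [Finset.nonempty_iff_ne_empty, Ne, MvPolynomial.support_eq_empty]
    obtain ⟨d, hd, hs⟩ := Finset.exists_mem_eq_sup p.support hne (fun s => s.sum fun _ e => e)
    exact ⟨d, hd, hs.symm⟩
  have h1 := congrArg (MvPolynomial.coeff d) h0
  rw [coeff_homogeneousComponent, if_pos hdeg, coeff_zero] at h1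
  exact (mem_support_iff.1 hd) h1

/-- the dimension does not grow along an integral homomorphism -/
private theorem bprin_dim {R A : Type*} [CommRing R] [CommRing A] (f : R →+* A)
    (hf : f.IsIntegral) : ringKrullDim A ≤ ringKrullDim (R ⧸ RingHom.ker f) := by
  let : Algebra R A := f.toAlgebra
  have : Algebra.IsIntegral R A := ⟨hf⟩
  rw [ringKrullDim_quotient]
  let g : PrimeSpectrum A → PrimeSpectrum.zeroLocus (R := R) (RingHom.ker f : Set R) :=
    fun P => ⟨PrimeSpectrum.comap f P, by
      rw [PrimeSpectrum.mem_zeroLocus]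
      intro r hr
      have hr' : f r = 0 := hr
      change f r ∈ P.asIdeal
      rw [hr']
      exact zero_mem _⟩
  refine Order.krullDim_le_of_strictMono g ?_
  intro P P' h
  have h1 : P.asIdeal < P'.asIdeal := h
  have h2 := Ideal.IsIntegral.comap_lt_comap (R := R) h1
  exact h2

end

theorem b_prin (h_fin : S_FIN.{0}) : S_BPRIN := by
  intro ι k _ _ m e S hS hI hdim he F hF hcone hne
  classical
  set I : Ideal (MvPolynomial ι k) := (Ideal.span S).radical with hIdef
  have hIP : I.IsPrime := hI
  have hdom : IsDomain (MvPolynomial ι k ⧸ I) := Ideal.Quotient.isDomain _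
  let f : MvPolynomial (Fin (m + 2)) k →+* MvPolynomial ι k ⧸ I :=
    (Ideal.Quotient.mk I).comp (aeval (R := k) F).toRingHom
  have hfQ : ∀ Q, f Q = Ideal.Quotient.mk I (aeval F Q) := fun Q => rfl
  have hfX : ∀ α, f.IsIntegralElem (Ideal.Quotient.mk I (X α)) := by
    intro α
    obtain ⟨p, hp, -, h0⟩ := h_fin S hS e he F hF hcone α
    refine ⟨p, hp, ?_⟩
    have h1 := Polynomial.hom_eval₂ p (aeval (R := k) F).toRingHom
      (Ideal.Quotient.mk I) (X α)
    rw [← h1]
    exact Ideal.Quotient.eq_zero_iff_mem.2 (Ideal.le_radical h0)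
  have hf : f.IsIntegral := by
    intro a
    obtain ⟨q, rfl⟩ := Ideal.Quotient.mk_surjective a
    induction q using MvPolynomial.induction_on with
    | C c =>
      have h1 : Ideal.Quotient.mk I (C c) = f (C c) := by
        simp [f, MvPolynomial.algebraMap_eq]
      rw [h1]
      exact f.isIntegralElem_map
    | add p q hp hq =>
      rw [map_add]
      exact hp.add f hq
    | mul_X p α hp =>
      rw [map_mul]
      exact hp.mul f (hfX α)
  set J : Ideal (MvPolynomial (Fin (m + 2)) k) := RingHom.ker f with hJ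
  have hJmem : ∀ Q, Q ∈ J ↔ aeval F Q ∈ I := by
    intro Q
    rw [hJ, RingHom.mem_ker, hfQ, Ideal.Quotient.eq_zero_iff_mem]
  have hJP : J.IsPrime := RingHom.ker_isPrime f
  have hJne : J ≠ ⊥ := by
    obtain ⟨Q, hQ, hQI⟩ := hne
    intro h
    have : Q ∈ J := (hJmem Q).2 hQI
    rw [h, Ideal.mem_bot] at this
    exact hQ this
  have hdimA : ringKrullDim (MvPolynomial ι k ⧸ I) = ((m + 1 : ℕ) : WithBot ℕ∞) := by
    rw [← hdim, ringKrullDim_quotient, ringKrullDim_quotient, hIdef, PrimeSpectrum.zeroLocus_radical]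
  have hdimJ : ((m + 1 : ℕ) : WithBot ℕ∞) ≤
      ringKrullDim (MvPolynomial (Fin (m + 2)) k ⧸ J) := by
    rw [← hdimA]
    exact bprin_dim f hf
  obtain ⟨π, hπJ, hπ⟩ := hJP.exists_mem_prime_of_ne_bot hJne
  have hπ0 : π ≠ 0 := hπ.ne_zero
  have hdimR : ringKrullDim (MvPolynomial (Fin (m + 2)) k) = ((m + 2 : ℕ) : WithBot ℕ∞) := by
    rw [MvPolynomial.ringKrullDim_of_isNoetherianRing, ringKrullDim_eq_zero_of_field,
      Nat.card_eq_fintype_card, Fintype.card_fin, zero_add]
  have hdvd : ∀ Q ∈ J, π ∣ Q := by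
    intro Q hQ
    by_contra hnd
    have hspan : (Ideal.span {π} : Ideal (MvPolynomial (Fin (m + 2)) k)).IsPrime :=
      (Ideal.span_singleton_prime hπ0).2 hπ
    have hdomπ : IsDomain (MvPolynomial (Fin (m + 2)) k ⧸ Ideal.span {π}) :=
      Ideal.Quotient.isDomain _
    have hle : (Ideal.span {π} : Ideal (MvPolynomial (Fin (m + 2)) k)) ≤ J := by
      rw [Ideal.span_singleton_le_iff_mem]
      exact hπJ
    have h1 := ringKrullDim_quotient_succ_le_of_nonZeroDivisor
      (mem_nonZeroDivisors_of_ne_zero hπ0)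
    have hQ0 : (Ideal.Quotient.mk (Ideal.span {π})) Q ≠ 0 := by
      rw [Ne, Ideal.Quotient.eq_zero_iff_mem, Ideal.mem_span_singleton]
      exact hnd
    have h2 := ringKrullDim_succ_le_of_surjective (Ideal.Quotient.factor hle)
      (Ideal.Quotient.factor_surjective hle) (mem_nonZeroDivisors_of_ne_zero hQ0) (by
        rw [Ideal.Quotient.factor_mk]
        exact Ideal.Quotient.eq_zero_iff_mem.2 hQ)
    rw [hdimR] at h1
    have h3 : ((m + 1 : ℕ) : WithBot ℕ∞) + 1 + 1 ≤ ((m + 2 : ℕ) : WithBot ℕ∞) :=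
      (add_le_add_left ((add_le_add_left hdimJ 1).trans h2) 1).trans h1
    have h4 : ((m + 3 : ℕ) : WithBot ℕ∞) ≤ ((m + 2 : ℕ) : WithBot ℕ∞) := by
      have h5 : ((m + 3 : ℕ) : WithBot ℕ∞) = ((m + 1 : ℕ) : WithBot ℕ∞) + 1 + 1 := by
        push_cast; ring
      rw [h5]; exact h3
    have h6 : m + 3 ≤ m + 2 := by exact_mod_cast h4
    omega
  refine ⟨π.totalDegree, π, hπ.irreducible, ?_, ?_⟩
  · -- the top component
    have htop : homogeneousComponent π.totalDegree π ∈ J := by
      rw [hJmem, ← bprin_comp_aeval he F hF]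
      exact bprin_comp_mem S hS ((hJmem π).1 hπJ) _
    obtain ⟨c, hc⟩ := hdvd _ htop
    have htop0 := bprin_top hπ0
    have hc0 : c ≠ 0 := by
      rintro rfl
      rw [mul_zero] at hc
      exact htop0 hc
    have hdeg : (homogeneousComponent π.totalDegree π).totalDegree ≤ π.totalDegree :=
      (homogeneousComponent_isHomogeneous _ _).totalDegree_le
    rw [hc, totalDegree_mul_of_isDomain hπ0 hc0] at hdeg
    have hcd : c.totalDegree = 0 := by omega
    rw [totalDegree_eq_zero_iff_eq_C] at hcd
    set a := coeff 0 c with ha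
    have ha0 : a ≠ 0 := by
      intro h
      rw [h, C_0] at hcd
      exact hc0 hcd
    have hπe : π = C a⁻¹ * homogeneousComponent π.totalDegree π := by
      rw [hc, hcd, mul_comm π, ← mul_assoc, ← C_mul, inv_mul_cancel₀ ha0, C_1, one_mul]
    have hh := (homogeneousComponent_isHomogeneous π.totalDegree π).C_mul a⁻¹
    rw [← hπe] at hh
    exact hh
  · intro Q
    rw [← hJmem]
    constructor
    · exact hdvd Q
    · rintro ⟨c, rfl⟩
      exact J.mul_mem_right c hπJ

end Pool.Agent.Lib.MP_627a61_nt.Hy
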