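import Pool.Agent.Lib.MP_627a61_nt.Hy.B_geo
import Pool.Agent.Lib.MP_627a61_nt.Hy.B_fin
import Pool.Agent.Lib.MP_627a61_nt.Hy.B_desc
import Pool.Agent.Lib.MP_627a61_nt.Hy.B_ind
import Pool.Agent.Lib.MP_627a61_nt.Hy.B_prin
import Pool.Agent.Lib.MP_627a61_nt.Hy.B_inv
import Pool.Agent.Lib.MP_627a61_nt.Hy.B_deg
import Pool.Agent.Lib.MP_627a61_nt.Hy.Top

/-!
# Project DIM/HYP, birational version: the theorem
-/

set_option autoImplicit false

namespace Pool.Agent.Lib.MP_627a61_nt.Hy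

theorem top_geob : S_GEOB :=
  b_geo mero chart (bdd eval_pl) kum rep maxi
    (pair (bdd eval_pl) der (stab (bdd eval_pl)) large (nl (bdd eval_pl))
      (wpnz_fb piece_WNZ piece_WEX) (wpsc_fb (piece_VSC piece_WSC piece_WHOM))
      (piece_CHAIN piece_WEX piece_VMEM) piece_EXPD (piece_DICH piece_COMP piece_CASE2))
    p_RAD (p_INT p_RAD p_FIN) (p_IMG p_RAD p_FIN) p_POW hypk kd1
    (p_PROP (p_INT p_RAD p_FIN)) (b_fin (p_INT p_RAD p_FIN)) b_desc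
    (b_ind (p_INT p_RAD p_FIN)) (b_prin p_FIN) (b_inv (p_INT p_RAD p_FIN))
    (b_deg (p_INT p_RAD p_FIN))

end Pool.Agent.Lib.MP_627a61_nt.Hy
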