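import Pool.Agent.Lib.MP_627a61_nt.Hy.FmBasic
import Pool.Agent.Lib.MP_627a61_nt.Hy.TStm

/-!
# Project DIM/HYP, birational version: statements of the pieces

`Z` is an irreducible variety of dimension exactly `m` over `k`: `I = √(S)` is a prime ideal and
`k[X] / (S)` has Krull dimension `m + 1`. A generic point of the cone is a point `x` over a field
`Ω` at which exactly the polynomials of `I` vanish. Notation: `T i = l_i(x)`, `F = Fm l lam b e`.

Piece `S_Bxx` is proved in `Hy/B_xx.lean` as `theorem b_xx : S_Bxx` (hypotheses as written after the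
word Uses). Auxiliary lemmas get the prefix `bxx_`.
-/

open MvPolynomial Filter

namespace Pool.Agent.Lib.MP_627a61_nt.Hy

/-- `x` is a generic point of the cone, and `Ω` is algebraic over `k(x)` -/
structure GenPt {ι k Ω : Type} [Field k] [Field Ω] [Algebra k Ω] (S : Set (MvPolynomial ι k))
    (x : ι → Ω) : Prop where
  gen : ∀ P : MvPolynomial ι k, aeval x P = 0 ↔ P ∈ (Ideal.span S).radical
  alg : ∀ z : Ω, IsAlgebraic (IntermediateField.adjoin k (Set.range x)) z

/-- the linear forms `l_i` at the point `x` -/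
def TT {ι k Ω : Type} [Fintype ι] [Field k] [Field Ω] [Algebra k Ω] {m : ℕ}
    (l : Fin (m + 1) → ι → k) (x : ι → Ω) (i : Fin (m + 1)) : Ω := dot (algebraMap k Ω ∘ l i) x

/-- no other point of the cone has the same image as `x`, up to proportionality -/
def C8 {ι k Ω : Type} [Fintype ι] [Field k] [Field Ω] [Algebra k Ω] {m M : ℕ}
    (S : Set (MvPolynomial ι k)) (l : Fin (m + 1) → ι → k) (lam : Fin M → ι → k) (b : Fin M → k)
    (e : ℕ) (x : ι → Ω) : Prop :=
  ∀ y : ι → Ω, InCone (algebraMap k Ω) S y → SameBase (fun i => algebraMap k Ω ∘ l i) e x y →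
    tt (fun j => algebraMap k Ω ∘ lam j) (algebraMap k Ω ∘ b) e x =
      tt (fun j => algebraMap k Ω ∘ lam j) (algebraMap k Ω ∘ b) e y → Prp y x

/-- **BGEN.** Generic points exist: `Ω` = algebraic closure of the fraction field of `k[X] / I`. -/
def S_BGEN : Prop := ∀ (ι k : Type) [Fintype ι] [Field k] (S : Set (MvPolynomial ι k)),
  (Ideal.span S).radical.IsPrime →
  ∃ (Ω : Type) (_ : Field Ω) (_ : Algebra k Ω) (_ : IsAlgClosed Ω) (x : ι → Ω), GenPt S x

/-- **BFIN.** Only finitely many points of the cone lie over the same base point. Uses: `S_INT`.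
Proof. With `P`, `d` from `S_INT`: for `y` in this set `dot (l_i) y` is one of the finitely many roots
of `Z^e - (T i)^e` (`e ≥ 1`), and `y α` is a root of the monic (nonzero) polynomial `P α` with
coefficients evaluated at `(dot (l_i) y)_i`, which is one of finitely many polynomials. So all
coordinates `y α` lie in a finite set. -/
def S_BFIN : Prop := ∀ (ι k Ω : Type) [Fintype ι] [Field k] [Field Ω] [Algebra k Ω] (m e : ℕ)
  (S : Set (MvPolynomial ι k)), (∀ P ∈ S, ∃ n, P.IsHomogeneous n) →
  ∀ l : Fin (m + 1) → ι → k, NoZero S l → 1 ≤ e → ∀ x : ι → Ω,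
  {y : ι → Ω | InCone (algebraMap k Ω) S y ∧
    SameBase (fun i => algebraMap k Ω ∘ l i) e x y}.Finite

/-- **BDESC.** Finitely many points which are not proportional to `x` are separated from `x` by `tt`
for generic parameters over `k`. Uses: nothing.
Proof. (1) Let `y` be not proportional to `x` (`x` not to `y` and conversely; here: `¬ Prp y x` and
`x ≠ 0`, so neither is a multiple of the other or `y = 0`; if `y = 0` then `Prp y x` with `c = 0`).
So there is `a : ι → Ω` with `dot a x = 0`, `dot a y = 1` (otherwise the functional `dot · y` vanishes on the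
kernel of `dot · x`, so it is a multiple of it). The polynomial
`g_y = ∑ j, X (inr j) * ((∑ α, C (x α) X (inl (j, α)))^e - (∑ α, C (y α) X (inl (j, α)))^e)` over `Ω`
is not zero: its value for `lam j = a`, `b = (1, 0, ..., 0)` is `0 - 1` (`e ≥ 1`, `M ≥ 1`). Let `g' ≠ 0` be the
product of the `g_y`, `y ∈ Y`; its value at `lam, b` is `∏ (tt x - tt y)`. (2) Descent to `k`: let `s` be a
monomial with `coeff s g' ≠ 0` and `f : Ω → k` a `k`-linear map with `f (coeff s g') ≠ 0`
(`Module.exists_dual_forall_apply_ne_zero...` or a basis of `Ω` over `k`); let `g` have the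
coefficients `f (coeff · g')`. For `t` over `k`: `eval t g = f (eval t g')`, so `eval t g ≠ 0` implies
`eval t g' ≠ 0`. -/
def S_BDESC : Prop := ∀ (ι k Ω : Type) [Fintype ι] [Field k] [Field Ω] [Algebra k Ω] (M e : ℕ),
  1 ≤ M → 1 ≤ e → ∀ x : ι → Ω, x ≠ 0 → ∀ Y : Set (ι → Ω), Y.Finite → (∀ y ∈ Y, ¬ Prp y x) →
  ∃ g : MvPolynomial ((Fin M × ι) ⊕ Fin M) k, g ≠ 0 ∧ ∀ (lam : Fin M → ι → k) (b : Fin M → k),
    eval (Sum.elim (fun p => lam p.1 p.2) b) g ≠ 0 → ∀ y ∈ Y,
      tt (fun j => algebraMap k Ω ∘ lam j) (algebraMap k Ω ∘ b) e x ≠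
        tt (fun j => algebraMap k Ω ∘ lam j) (algebraMap k Ω ∘ b) e y

/-- **BIND.** The `m + 1` linear forms are algebraically independent on an irreducible variety of
dimension `m`. Uses: `S_INT`.
Proof. Let `A = k[X] / I`, `J₀` = kernel of `k[y_0..y_m] → A`, `y_i ↦ l_i`. By `S_INT` (applied to the
field of fractions of `A` and the point given by the classes of the `X α`; then `p(X α) = 0` in `A`)
`A` is integral over the image of `k[y]`, i.e. `k[y] / J₀ → A` is integral. So primes of `A` contract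
strictly monotonically (`Ideal.IsIntegral.comap_lt_comap`) and
`m + 1 = dim k[X]/(S) = dim A ≤ dim (k[y] / J₀)` (`Order.krullDim_le_of_strictMono`; the Krull
dimension is not changed by the radical, e.g. `ringKrullDim_quotient` and
`PrimeSpectrum.zeroLocus_radical`). If `J₀` contains `g ≠ 0` then
`dim (k[y] / J₀) ≤ dim (k[y] / (g)) ≤ m` (as in `kd2`, file M_KD2.lean). Contradiction. So `J₀ = 0`,
and `aeval (TT l x) Q = 0` implies `Q(l_0, ..., l_m) ∈ I` (`GenPt.gen`), i.e. `Q ∈ J₀`. -/
def S_BIND : Prop := ∀ (ι k Ω : Type) [Fintype ι] [Field k] [Field Ω] [Algebra k Ω] (m : ℕ)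
  (S : Set (MvPolynomial ι k)), (∀ P ∈ S, ∃ n, P.IsHomogeneous n) →
  (Ideal.span S).radical.IsPrime →
  ringKrullDim (MvPolynomial ι k ⧸ Ideal.span S) = ((m + 1 : ℕ) : WithBot ℕ∞) →
  ∀ l : Fin (m + 1) → ι → k, NoZero S l → ∀ x : ι → Ω, GenPt S x →
  AlgebraicIndependent k (TT l x)

/-- **BPRIN.** The ideal of the image is principal. Uses: `S_FIN`, `S_PROP`-like hypothesis `hne`.
Proof. `J = {Q | Q(F) ∈ I}` is a prime ideal (`Ideal.comap`) of `R = k[y_0..y_(m+1)]`, not zero by the
hypothesis `hne`. `A = k[X] / I` is integral over `R / J` by `S_FIN`, so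
`m + 1 = dim k[X]/(S) = dim A ≤ dim (R / J)` (as in BIND). Let `π ∈ J` be a prime element
(`Ideal.IsPrime.exists_mem_prime_of_ne_bot`). If some `Q ∈ J` is not divisible by `π` then, by
`ringKrullDim_quotient_succ_le_of_nonZeroDivisor` twice (in `R` and in the domain `R / (π)` for the
class of `Q`), `dim (R / J) ≤ dim ((R / (π)) / (Q)) ≤ dim R - 2 = m`, a contradiction. So `J = (π)`.
`π` is homogeneous: `J` is homogeneous (`homogeneousComponent (e * n) (aeval F Q) = aeval F
(homogeneousComponent n Q)`, private lemma `img_comp_aeval` in `Hy/P/img.lean`, and `I` is homogeneous),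
so the component `π_n`, `n = totalDegree π`, is in `J`, not zero, and divisible by `π`; comparing total
degrees (`totalDegree_mul_of_isDomain`) `π_n = c π` with a nonzero constant `c`. -/
def S_BPRIN : Prop := ∀ (ι k : Type) [Fintype ι] [Field k] (m e : ℕ)
  (S : Set (MvPolynomial ι k)), (∀ P ∈ S, ∃ n, P.IsHomogeneous n) →
  (Ideal.span S).radical.IsPrime →
  ringKrullDim (MvPolynomial ι k ⧸ Ideal.span S) = ((m + 1 : ℕ) : WithBot ℕ∞) →
  1 ≤ e → ∀ F : Fin (m + 2) → MvPolynomial ι k, (∀ j, (F j).IsHomogeneous e) →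
  (∀ (Ω : Type) [Field Ω] (τ : k →+* Ω) (x : ι → Ω), InCone τ S x →
    (∀ j, (F j).eval₂ τ x = 0) → x = 0) →
  (∃ Q : MvPolynomial (Fin (m + 2)) k, Q ≠ 0 ∧ aeval F Q ∈ (Ideal.span S).radical) →
  ∃ (d : ℕ) (G : MvPolynomial (Fin (m + 2)) k), Irreducible G ∧ G.IsHomogeneous d ∧
    ∀ Q : MvPolynomial (Fin (m + 2)) k, aeval F Q ∈ (Ideal.span S).radical ↔ G ∣ Q

/-- **BINV.** The rational inverse. Uses: `S_INT`.
Proof. Let `E' = IntermediateField.adjoin k (Set.range v) ⊆ Ω`, `v j = (F j)(x)`, i.e.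
`v = (T_0^e, ..., T_m^e, t)` with `t = tt(x)`. (1) `Ω` is algebraic over `E'`: the algebraic closure of `E'` in
`Ω` contains `T_i` (as `e ≥ 1`), hence the `x α` (roots of the monic polynomials `P α` of `S_INT`), hence
`k(x)` and everything algebraic over it (`GenPt.alg`). So `Ω / E'` is Galois (characteristic zero, `Ω`
algebraically closed). (2) Let `s` be an automorphism of `Ω` over `E'` and `y = s ∘ x`. `y` is in the cone
(the equations have coefficients in `k`), `dot (l_i) y = s (T_i)`, so `SameBase x y`, and `tt y = s (tt x) = tt x`.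
By `C8` `y = c • x`; then `s (T_0) = c T_0`, `T_0 ≠ 0` (algebraic independence), and `T_0^e` is fixed, so
`c^e = 1` and `s (x α * T_0^(e-1)) = c^e * x α * T_0^(e-1)`. So `x α * T_0^(e-1)` is fixed by all
automorphisms and lies in `E'` (`InfiniteGalois.mem_bot_iff_fixed`). (3) So
(`IntermediateField.mem_adjoin_range_iff`) there are `r, s : MvPolynomial (Fin (m+2)) k` with
`aeval v s ≠ 0` and `x α * T_0^(e-1) * aeval v s = aeval v r`; i.e.
`X α * (lin (l 0))^(e-1) * aeval F s - aeval F r ∈ I` and `aeval F s ∉ I` (`GenPt.gen`,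
`aeval x (aeval F Q) = aeval v Q`). `I` is a homogeneous ideal (radical of a homogeneous ideal). Some
homogeneous component `s_ρ` of `s` has `aeval F s_ρ ∉ I`; the component of degree `e (ρ + 1)` of the
relation is `X α * (lin (l 0))^(e-1) * aeval F s_ρ - aeval F r_(ρ+1) ∈ I` (`homogeneousComponent
(e * n) (aeval F Q) = aeval F (homogeneousComponent n Q)`, `img_comp_aeval` in `Hy/P/img.lean`). So we
have `V α` homogeneous of degree `ρ α`, `aeval F (V α) ∉ I`, `W α` homogeneous of degree `ρ α + 1`, with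
`X α * (lin (l 0))^(e-1) * aeval F (V α) - aeval F (W α) ∈ I`. (4) `V = ∏ V α`, `R α = W α * ∏_{β ≠ α} V β`,
homogeneous of degree `r = 1 + ∑ ρ`, `A = (lin (l 0))^(e-1) * aeval F V`. `A ∉ I` as `I` is prime and
`lin (l 0) ∉ I` (its value at `x` is `T_0 ≠ 0`). -/
def S_BINV : Prop := ∀ (ι k Ω : Type) [Fintype ι] [Field k] [CharZero k] [Field Ω] [Algebra k Ω]
  [IsAlgClosed Ω] (m M e : ℕ) (S : Set (MvPolynomial ι k)), (∀ P ∈ S, ∃ n, P.IsHomogeneous n) →
  (Ideal.span S).radical.IsPrime → ∀ l : Fin (m + 1) → ι → k, NoZero S l →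
  ∀ (lam : Fin M → ι → k) (b : Fin M → k), 1 ≤ e → ∀ x : ι → Ω, GenPt S x →
  AlgebraicIndependent k (TT l x) → C8 S l lam b e x →
  ∃ (r : ℕ) (R : ι → MvPolynomial (Fin (m + 2)) k) (A : MvPolynomial ι k),
    (∀ i, (R i).IsHomogeneous r) ∧ A ∉ (Ideal.span S).radical ∧
    ∀ i, aeval (Fm l lam b e) (R i) - A * X i ∈ (Ideal.span S).radical

/-- **BDEG.** The degree of the hypersurface is large. Uses: `S_INT`.
Proof. `Ω` is algebraic over `E₀ = k(T_0^e, ..., T_m^e)` (as in BINV (1)). For `ζ : Fin (m+1) → Ω` with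
`(ζ i)^e = 1` there is an automorphism `s` of `Ω` over `k` with `s (T_i) = ζ i * T_i` for all `i`: the family
`ζ i * T_i` is algebraically independent (`T_i` is algebraic over `k` of it), so there is a `k`-embedding of
`k(T)` in `Ω` with `T_i ↦ ζ i * T_i`; it extends to `Ω → Ω`
(`IsAlgClosed.surjective_restrictDomain_of_isAlgebraic`), and this is bijective, as it is an
embedding over `E₀` of an algebraic extension (`Algebra.IsAlgebraic.bijective_of_isAlgebraic..`).
Let `ζ, ζ'` be two such families with `ζ 0 = ζ' 0 = 1`, `s, s'` the automorphisms; suppose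
`s (tt x) = s' (tt x)`. Then `y = s⁻¹ (s' x)` is in the cone, over the same base as `x`, `tt y = tt x`, so by `C8`
`y = c • x`, so `s' x = s(c) • s x`; `s'(T_0) = T_0 = s(T_0)` gives `s(c) = 1`, so `ζ = ζ'`. There are `e^m` such
families `ζ` (`Ω` contains `e` roots of unity of order dividing `e`: `X^e - 1` is separable and splits), so
there are `e^m` different elements `s (tt x)`. All of them are roots of the polynomial
`G(T_0^e, ..., T_m^e, Y)` over `Ω`, which is not zero (`G ≠ 0`, the `T_i^e` are algebraically independent) and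
of degree at most `d` (`G` is homogeneous of degree `d`), because `aeval x (aeval F G) = 0`. So
`e^m ≤ d`. (For `m = 0` the claim is `1 ≤ d`: `G` is not a constant; the general argument also works.) -/
def S_BDEG : Prop := ∀ (ι k Ω : Type) [Fintype ι] [Field k] [CharZero k] [Field Ω] [Algebra k Ω]
  [IsAlgClosed Ω] (m M e : ℕ) (S : Set (MvPolynomial ι k)), (∀ P ∈ S, ∃ n, P.IsHomogeneous n) →
  ∀ l : Fin (m + 1) → ι → k, NoZero S l →
  ∀ (lam : Fin M → ι → k) (b : Fin M → k), 1 ≤ e → ∀ x : ι → Ω, GenPt S x →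
  AlgebraicIndependent k (TT l x) → C8 S l lam b e x →
  ∀ (d : ℕ) (G : MvPolynomial (Fin (m + 2)) k), G ≠ 0 → G.IsHomogeneous d →
    aeval (Fm l lam b e) G ∈ (Ideal.span S).radical → e ^ m ≤ d

end Pool.Agent.Lib.MP_627a61_nt.Hy
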