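import Pool.Agent.Lib.MP_627a61_nt.Hy.M_CORE
import Pool.Agent.Lib.MP_627a61_nt.Hy.BStm

/-!
# Project DIM/HYP: the core for given parameters
-/

set_option autoImplicit false

open scoped LinearAlgebra.Projectivization Topology
open Filter Metric

namespace Pool.Agent.Lib.MP_627a61_nt.Hy

/-- If `Z_σ` contains no entire curve then its image does not contain one either, for given good
parameters with a large prime exponent. -/
theorem b_core (hmero : S_MERO) (hchart : S_CHART) (hbdd : S_BDD) (hkum : S_KUM) (hrep : S_REP)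
    (hmaxi : S_MAXI) (himg : S_IMG.{0, 0}) {E₀ : ℕ → ℕ → ℕ} (hpair : S_PAIR E₀)
    {k : Type} [Field k] [CharZero k] {n m : ℕ} (S : Set (MvPolynomial (Fin (n + 1)) k))
    (hS : ∀ P ∈ S, ∃ a, P.IsHomogeneous a) (l : Fin (m + 1) → Fin (n + 1) → k) (hl : NoZero S l)
    (d : Fin (n + 1) → ℕ) (P : Fin (n + 1) → Polynomial (MvPolynomial (Fin (m + 1)) k))
    (hP : ∀ α, PShape (P α) (d α) ∧ ∀ (L : Type) [Field L] (τ : k →+* L) (x : Fin (n + 1) → L),
      InCone τ S x → pval τ (P α) (fun i => dot (τ ∘ l i) x) (x α) = 0)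
    {M e : ℕ} (hM : 2 * m ^ 2 + m < M) (he : E₀ M (2 * ∑ α, (d α - 1)) ≤ e) (hme : m + 1 < e)
    (hep : e.Prime) (lam : Fin M → Fin (n + 1) → k) (b : Fin M → k)
    (hg : ∀ (F : Type) [Field F] (τ : k →+* F),
        Good e (InCone τ S) (fun i => τ ∘ l i) (fun j => τ ∘ lam j) (τ ∘ b)) :
    ∀ σ : k →+* ℂ, BrodyHyperbolic (points σ S) →
        BrodyHyperbolic (points σ (ImgEqs S (Fm l lam b e))) := by
  classical
  have he1 : 1 ≤ e := hep.one_lt.le
  intro σ hZ
  by_contra hY
  have hYh : Homog (ImgEqs S (Fm l lam b e)) := fun Q hQ => hQ.1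
  have hcl := pclosed_points hYh σ
  obtain ⟨φ, hφ1, hφ2, hφ3, hφ4⟩ := exists_bounded_speed_curve hcl hY
  have hnz : ∀ (Ω : Type) [Field Ω] (τ : k →+* Ω) (x : Fin (n + 1) → Ω), InCone τ S x →
      (∀ j, (Fm l lam b e j).eval₂ τ x = 0) → x = 0 := fun Ω _ τ x hx h0 =>
    Fm_nozero l lam b e hl he1 τ x hx fun i => h0 _
  have hFmh := Fm_homog l lam b e
  -- the first coordinates
  have hY1 : ∀ p ∈ points σ (ImgEqs S (Fm l lam b e)), ∃ i : Fin (m + 1),
      p.rep i.castSucc ≠ 0 := by
    intro p hp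
    by_contra hcon
    push Not at hcon
    obtain ⟨x, hx, hpx⟩ := himg S hS e he1 (Fm l lam b e) hFmh hnz ℂ σ p.rep hp
    have hx0 : x = 0 := Fm_nozero l lam b e hl he1 σ x hx fun i => by
      rw [← hpx, hcon]
    apply p.rep_nonzero
    funext j
    rw [hpx j, hx0]
    have h1 := eval₂_smul_homog (hFmh j) σ (0 : ℂ) (0 : Fin (n + 1) → ℂ)
    rw [smul_zero, zero_pow (by omega), zero_mul] at h1
    exact h1
  obtain ⟨c0, hc0, hmax⟩ := hmaxi m _ hcl hY1
  obtain ⟨K, _, _, MK, hm1, hm2⟩ := hmero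
  obtain ⟨f, hf⟩ := hm1 (m + 2) φ hφ1
  obtain ⟨hr1, hr2⟩ := hrep K MK (m + 2) f φ hf
  have hfeq : InCone ((algebraMap ℂ K).comp σ) (ImgEqs S (Fm l lam b e)) f := by
    intro Q hQ
    obtain ⟨a, ha⟩ := hQ.1
    exact (hr1 k σ Q a ha).1 fun z => hφ2 z Q hQ
  obtain ⟨ρ, hρ, C, hC⟩ := hchart K MK (m + 2) φ f hφ1 hf hφ3 c0 hc0
  have hK0 : CharZero K := charZero_of_injective_algebraMap (algebraMap ℂ K).injective
  -- the lift
  set Ω := AlgebraicClosure K with hΩ
  obtain ⟨x₀, hx₀, hfx₀⟩ := himg S hS e he1 (Fm l lam b e) hFmh hnz Ω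
    ((algebraMap K Ω).comp ((algebraMap ℂ K).comp σ)) (fun j => algebraMap K Ω (f j))
    (hfeq.map (algebraMap K Ω) rfl)
  obtain ⟨L, _, _, _, _, j, x, hjx⟩ := exists_galois K Ω (Fin (n + 1)) x₀
  letI : Algebra ℂ L := ((algebraMap K L).comp (algebraMap ℂ K)).toAlgebra
  haveI : IsScalarTower ℂ K L := IsScalarTower.of_algebraMap_eq' rfl
  set τL : k →+* L := (algebraMap ℂ L).comp σ with hτL
  have hjτ : (j : L →+* Ω).comp τL = (algebraMap K Ω).comp ((algebraMap ℂ K).comp σ) := by
    ext a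
    change j (algebraMap K L (algebraMap ℂ K (σ a))) = _
    rw [j.commutes]
    rfl
  have hjev : ∀ Q : MvPolynomial (Fin (n + 1)) k, j (Q.eval₂ τL x) =
      Q.eval₂ ((algebraMap K Ω).comp ((algebraMap ℂ K).comp σ)) x₀ := by
    intro Q
    have h1 := MvPolynomial.eval₂_comp_left (j : L →+* Ω) τL x Q
    rw [hjτ] at h1
    refine Eq.trans h1 ?_
    congr 1
    funext α
    exact hjx α
  have hjinj : Function.Injective j := j.toRingHom.injective
  have hx : InCone τL S x := by
    intro Q hQ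
    apply hjinj
    rw [hjev, map_zero]
    exact hx₀ Q hQ
  have hfx : ∀ i, (Fm l lam b e i).eval₂ τL x = algebraMap K L (f i) := by
    intro i
    apply hjinj
    rw [hjev, j.commutes]
    exact (hfx₀ i).symm
  -- a nonzero coordinate
  obtain ⟨c, hc⟩ := hmax (φ 0) (hφ2 0)
  have hfc : f c.castSucc ≠ 0 := (hC 0 c.castSucc hc).1
  have hku := hkum K L (Fin (n + 1)) k σ S e m M l lam b hep (by omega) (hg L τL) x
    (fun i => f i.castSucc) (f (Fin.last (m + 1))) hx
    (fun i => by rw [← hfx i.castSucc, eval₂_Fm_castSucc])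
    (by rw [← hfx (Fin.last (m + 1)), eval₂_Fm_last]) c hfc
  choose u hu using hku
  set q : L := dot (τL ∘ l c) x with hq
  have hqe : q ^ e = algebraMap K L (f c.castSucc) := by
    rw [← hfx c.castSucc, eval₂_Fm_castSucc]
  have hq0 : q ≠ 0 := by
    intro h0
    rw [h0, zero_pow (by omega)] at hqe
    exact hfc ((map_eq_zero _).1 hqe.symm)
  set y : Fin (n + 1) → L := fun α => x α / q with hy
  have hyc : InCone τL S y := hx.div hS q
  have hyl : ∀ i, dot (τL ∘ l i) y = algebraMap K L (u i) := by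
    intro i
    rw [hy, dot_div, hu i, mul_div_assoc, div_self hq0, mul_one]
  have huc : u c = 1 := by
    apply (algebraMap K L).injective
    rw [← hyl c, hy, dot_div, ← hq, div_self hq0, map_one]
  have hyf : ∀ i, (Fm l lam b e i).eval₂ τL y = algebraMap K L (f i / f c.castSucc) := by
    intro i
    have h1 : y = q⁻¹ • x := by
      funext α
      simp [hy, div_eq_inv_mul]
    rw [h1, eval₂_smul_homog (hFmh i), hfx, map_div₀, ← hqe, inv_pow, div_eq_inv_mul]
  have hue : ∀ i, u i ^ e = f i.castSucc / f c.castSucc := by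
    intro i
    apply (algebraMap K L).injective
    rw [← hyf, eval₂_Fm_castSucc, hyl, map_pow]
  -- charts
  set Sc : Fin (m + 1) → Set ℂ := fun i => {t | c0 ≤ ‖pm (φ t) i.castSucc i.castSucc‖} with hSc
  have hch : Charts MK u ρ Sc := by
    refine ⟨hρ, fun t => ?_, fun i i' hi => ?_⟩
    · obtain ⟨i, hi⟩ := hmax (φ t) (hφ2 t)
      refine ⟨i, ?_, hi⟩
      intro h0
      have h1 := hue i
      rw [h0, zero_pow (by omega), eq_comm, div_eq_zero_iff] at h1
      rcases h1 with h1 | h1
      · exact (hC t i.castSucc hi).1 h1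
      · exact hfc h1
    · obtain ⟨⟨A0, hA0⟩, hroot, -, hdown, -⟩ := hbdd K L MK (nb ρ (Sc i))
      rw [← hdown]
      have hfi : f i.castSucc ≠ 0 := by
        intro h0
        have h1 := hue i
        rw [h0, zero_div] at h1
        exact hi (pow_eq_zero_iff (by omega) |>.1 h1)
      have hbf : Bd MK L (nb ρ (Sc i)) (algebraMap K L (f i'.castSucc / f i.castSucc)) := by
        rw [hdown]
        refine ⟨C, ?_⟩
        rintro t' ⟨t, ht, htt'⟩
        exact (hC t i.castSucc ht).2 i'.castSucc t' htt'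
      refine hroot (Polynomial.X ^ e - Polynomial.C (algebraMap K L (f i'.castSucc /
        f i.castSucc))) _ (Polynomial.monic_X_pow_sub_C _ (by omega)) (fun jj => ?_) ?_
      · rw [← hA0, Polynomial.coeff_sub, Polynomial.coeff_X_pow, Polynomial.coeff_C]
        refine A0.sub_mem ?_ ?_
        · split_ifs
          · exact A0.one_mem
          · exact A0.zero_mem
        · split_ifs
          · exact (hA0 _).2 hbf
          · exact A0.zero_mem
      · rw [Polynomial.eval_sub, Polynomial.eval_pow, Polynomial.eval_X, Polynomial.eval_C,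
          ← map_pow, div_pow, hue, hue, div_div_div_cancel_right₀ hfc, sub_self]
  have hfin := core_final (MK := MK) (e := e) σ l lam b hrep φ f hf c hfc y hyf
  rcases hpair K L (Fin (n + 1)) MK k σ S e m M l lam b d P (fun F _ τ => hg F τ) hS
    (fun α => ⟨(hP α).1, fun F _ τ x hx => (hP α).2 F τ x hx⟩) hM he
    u ρ Sc hch y hyc hyl ⟨f (Fin.last (m + 1)) / f c.castSucc, by
      rw [← hyf, eval₂_Fm_last]⟩ with hrat | hcon
  · -- the lift is rational
    choose a ha using hrat
    have ha0 : a ≠ 0 := by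
      intro h0
      have h1 := hyl c
      have h2 : y = 0 := by
        funext α
        rw [ha, h0]
        simp
      rw [h2, huc, map_one] at h1
      simp [dot] at h1
    obtain ⟨ψ, hψ1, hψ2⟩ := hm2 (n + 1) a ha0
    obtain ⟨hs1, hs2⟩ := hrep K MK (n + 1) a ψ hψ2
    have haS : InCone ((algebraMap ℂ K).comp σ) S a := by
      intro Q hQ
      apply (algebraMap K L).injective
      have h1 := hyc Q hQ
      rw [map_zero, ← h1, MvPolynomial.eval₂_comp_left]
      congr 1
      funext α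
      exact (ha α).symm
    have hψS : ∀ z, ψ z ∈ points σ S := by
      intro z Q hQ
      obtain ⟨g, hg'⟩ := hS Q hQ
      exact (hs1 k σ Q g hg').2 (haS Q hQ) z
    have hψc := hs2.2 (hZ ψ hψ1 hψS)
    obtain ⟨α₁, hα₁⟩ : ∃ α, a α ≠ 0 := by
      by_contra h0
      push Not at h0
      exact ha0 (funext h0)
    have h1 : ∀ α, ∃ g : ℂ, a α = algebraMap ℂ K g * a α₁ := fun α => hψc α₁ α hα₁
    choose g hg' using h1
    have h2 : algebraMap ℂ K (dot (σ ∘ l c) g) * a α₁ = 1 := by
      apply (algebraMap K L).injective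
      rw [map_mul, map_one, ← IsScalarTower.algebraMap_apply ℂ K L, map_dot,
        ← map_one (algebraMap K L), ← huc, ← hyl c, mul_comm, ← dot_smul_r]
      congr 1
      funext α
      rw [ha α, hg' α, map_mul, ← IsScalarTower.algebraMap_apply ℂ K L]
      simp [mul_comm]
    have h3 : a α₁ = algebraMap ℂ K (dot (σ ∘ l c) g)⁻¹ := by
      rw [map_inv₀]
      exact eq_inv_of_mul_eq_one_right h2
    refine hφ4 (hfin fun α => ⟨g α * (dot (σ ∘ l c) g)⁻¹, ?_⟩)
    rw [ha α, hg' α, h3, ← map_mul, ← IsScalarTower.algebraMap_apply ℂ K L]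
  · -- the base curve is constant
    have h1 : ∀ i, ∃ g : ℂ, u i = algebraMap ℂ K g := by
      intro i
      obtain ⟨g, hg'⟩ := hcon c i (by rw [huc]; exact one_ne_zero)
      exact ⟨g, by rw [hg', huc, mul_one]⟩
    choose g hg' using h1
    refine hφ4 (hfin fun α => ?_)
    have h2 := (hP α).2 L τL y hyc
    have h3 : (fun i => dot (τL ∘ l i) y) = fun i => algebraMap ℂ L (g i) := by
      funext i
      rw [hyl, hg', ← IsScalarTower.algebraMap_apply ℂ K L]
    rw [h3] at h2
    refine root_mem ((P α).map (MvPolynomial.eval₂Hom σ g)) ((hP α).1.1.map _) (y α) ?_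
    rw [Polynomial.eval₂_map]
    have h4 : (algebraMap ℂ L).comp (MvPolynomial.eval₂Hom σ g) =
        MvPolynomial.eval₂Hom τL (fun i => algebraMap ℂ L (g i)) := by
      apply MvPolynomial.ringHom_ext
      · intro a
        simp only [RingHom.comp_apply, MvPolynomial.eval₂Hom_C]
        rfl
      · intro i
        simp only [RingHom.comp_apply, MvPolynomial.eval₂Hom_X']
    rw [h4]
    exact h2

end Pool.Agent.Lib.MP_627a61_nt.Hy
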