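import Pool.Agent.Lib.MP_627a61_nt.Hy.BStm

/-!
# Project DIM/HYP, birational version: generic points
-/

set_option autoImplicit false

open MvPolynomial

namespace Pool.Agent.Lib.MP_627a61_nt.Hy

theorem b_gen : S_BGEN := by
  intro ι k _ _ S hp
  let A := MvPolynomial ι k ⧸ (Ideal.span S).radical
  let Kf := FractionRing A
  let Ω := AlgebraicClosure Kf
  let x : ι → Ω := fun α => algebraMap A Ω (Ideal.Quotient.mk _ (X α))
  have hx : ∀ P : MvPolynomial ι k, aeval x P = algebraMap A Ω (Ideal.Quotient.mk _ P) := by
    intro P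
    have h1 : (aeval x : MvPolynomial ι k →ₐ[k] Ω) =
        (IsScalarTower.toAlgHom k A Ω).comp (Ideal.Quotient.mkₐ k _) := by
      apply MvPolynomial.algHom_ext
      intro α
      simp only [aeval_X]
      rfl
    rw [h1]
    rfl
  refine ⟨Ω, inferInstance, inferInstance, inferInstance, x, ⟨fun P => ?_, fun z => ?_⟩⟩
  · rw [hx, ← Ideal.Quotient.eq_zero_iff_mem]
    constructor
    · intro h
      have h2 : Function.Injective (algebraMap A Ω) := by
        rw [IsScalarTower.algebraMap_eq A Kf Ω]
        exact (algebraMap Kf Ω).injective.comp (IsFractionRing.injective A Kf)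
      exact h2 (by rw [h, map_zero])
    · intro h
      rw [h, map_zero]
  · have hz : IsAlgebraic Kf z := Algebra.IsAlgebraic.isAlgebraic z
    set E := IntermediateField.adjoin k (Set.range x) with hE
    have hA : ∀ a : A, algebraMap A Ω a ∈ E := by
      intro a
      obtain ⟨P, rfl⟩ := Ideal.Quotient.mk_surjective a
      rw [← hx]
      have : aeval x P ∈ Algebra.adjoin k (Set.range x) := by
        rw [Algebra.adjoin_range_eq_range_aeval]
        exact ⟨P, rfl⟩
      exact IntermediateField.algebra_adjoin_le_adjoin k _ this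
    have hK : ∀ a : Kf, algebraMap Kf Ω a ∈ E := by
      intro a
      obtain ⟨p, q, hq, rfl⟩ := IsFractionRing.div_surjective (A := A) a
      rw [map_div₀, ← IsScalarTower.algebraMap_apply, ← IsScalarTower.algebraMap_apply]
      exact div_mem (hA p) (hA q)
    let φ : Kf →+* E := (algebraMap Kf Ω).codRestrict E.toSubfield.toSubring hK
    obtain ⟨p, hp0, hp1⟩ := hz
    refine ⟨p.map φ, ?_, ?_⟩
    · rwa [ne_eq, Polynomial.map_eq_zero]
    · rw [Polynomial.aeval_def, Polynomial.eval₂_map]
      have h1 : (algebraMap E Ω).comp φ = algebraMap Kf Ω := by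
        ext a
        rfl
      rw [h1]
      exact hp1

end Pool.Agent.Lib.MP_627a61_nt.Hy
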