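import Pool.Agent.Lib.MP_627a61_nt.Hy.B_good

/-!
# HYP: multiple loci have the expected dimension, for generic parameters
-/

set_option autoImplicit false

open MvPolynomial Filter

namespace Pool.Agent.Lib.MP_627a61_nt.Hy

universe u v w

section
variable {k : Type u} {Ω : Type v} [Field k] [Field Ω] [Algebra k Ω]
variable {ι : Type} [Fintype ι] {M : ℕ}

/-- vectors over the closure of the base and the rows which are orthogonal to `b` -/
lemma tr1u {lam : Fin M → ι → Ω} {b : Fin M → Ω} {s : ℕ} {u : Fin s → Ω}
    (hpar : AlgebraicIndependent k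
      (Sum.elim (Sum.elim (fun p : Fin M × ι => lam p.1 p.2) b) u))
    {U : Set Ω} (hU : U.Finite) {m : ℕ} (hUm : U.ncard ≤ m) (hu : ∀ i, u i ∈ cl k U) {r : ℕ}
    (v : Fin r → Fin M → Ω)
    (hv : ∀ a j, v a j ∈ cl k (U ∪ Lset lam Finset.univ))
    (hb : ∀ a, ∑ j, b j * v a j = 0) (hli : LinearIndependent Ω v) : r + s ≤ m := by
  classical
  set F : IntermediateField k Ω := cl k (U ∪ Lset lam Finset.univ) with hF
  let v' : Fin r → Fin M → F := fun a j => ⟨v a j, hv a j⟩
  let incl : (Fin M → F) →ₗ[F] (Fin M → Ω) :=
    { toFun := fun w j => (w j : Ω)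
      map_add' := fun _ _ => rfl
      map_smul' := fun _ _ => rfl }
  have hv' : LinearIndependent F v' := by
    have h1 : LinearIndependent F v := hli.restrict_scalars' F
    have h2 : LinearIndependent F (incl ∘ v') := h1
    exact h2.of_comp incl
  let fam : Finset (Fin M) → (Fin r ⊕ Fin M) → Prop := fun _ _ => True
  let ee : Fin M → Fin M → F := fun j => Pi.single j 1
  -- maximal extension by unit vectors
  let Pr : Finset (Fin M) → Prop := fun C =>
    LinearIndependent F (Sum.elim v' (fun j : C => ee j))
  obtain ⟨C, hC, hmax⟩ : ∃ C, Pr C ∧ ∀ C', Pr C' → C ⊆ C' → C' = C := by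
    have h0 : Pr ∅ := by
      have : LinearIndependent F (Sum.elim v' (fun j : (∅ : Finset (Fin M)) => ee j)) := by
        rw [← linearIndependent_equiv (Equiv.sumEmpty (Fin r) (∅ : Finset (Fin M))).symm]
        exact hv'
      exact this
    obtain ⟨C, hC1, hC2⟩ := (Finset.univ.filter Pr).exists_maximal
      ⟨∅, Finset.mem_filter.2 ⟨Finset.mem_univ _, h0⟩⟩
    refine ⟨C, (Finset.mem_filter.1 hC1).2, fun C' hC' hsub => ?_⟩
    exact (Finset.Subset.antisymm hsub
      (hC2 (Finset.mem_filter.2 ⟨Finset.mem_univ _, hC'⟩) hsub)).symm
  have hcard : r + C.card ≤ M := by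
    have := hC.fintype_card_le_finrank
    rw [Fintype.card_sum, Fintype.card_fin, Fintype.card_coe, Module.finrank_fin_fun] at this
    exact this
  -- unit vectors outside `C` are in the span
  have hspan : ∀ p, ee p ∈ Submodule.span F (Set.range (Sum.elim v' (fun j : C => ee j))) := by
    intro p
    by_cases hp : p ∈ C
    · exact Submodule.subset_span ⟨Sum.inr ⟨p, hp⟩, rfl⟩
    · by_contra hns
      have h1 : Pr (insert p C) := by
        have h2 : LinearIndependent F
            (Sum.elim (Sum.elim v' (fun j : C => ee j)) (fun _ : Unit => ee p)) := by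
          refine LinearIndependent.sum_type hC ?_ ?_
          · refine LinearIndependent.of_subsingleton () ?_
            intro h0
            have := congrFun h0 p
            simp only [ee, Pi.single_eq_same, Pi.zero_apply] at this
            exact one_ne_zero this
          · rw [Set.range_const]
            rw [Submodule.disjoint_span_singleton']
            · exact hns
            · intro h0
              have := congrFun h0 p
              simp only [ee, Pi.single_eq_same, Pi.zero_apply] at this
              exact one_ne_zero this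
        let eqv : Fin r ⊕ (insert p C : Finset (Fin M)) → (Fin r ⊕ C) ⊕ Unit := fun q =>
          match q with
          | Sum.inl a => Sum.inl (Sum.inl a)
          | Sum.inr j => if h : (j : Fin M) ∈ C then Sum.inl (Sum.inr ⟨j, h⟩) else Sum.inr ()
        have heq : Function.Injective eqv := by
          rintro (a | ⟨j, hj⟩) (a' | ⟨j', hj'⟩) h
          · have := Sum.inl.inj (Sum.inl.inj h)
            rw [this]
          · simp only [eqv] at h
            split_ifs at h
            exact absurd (Sum.inl.inj h) (by simp)
          · simp only [eqv] at h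
            split_ifs at h
            exact absurd (Sum.inl.inj h) (by simp)
          · simp only [eqv] at h
            split_ifs at h with h1 h2 h2
            · have := congrArg Subtype.val (Sum.inr.inj (Sum.inl.inj h))
              simp only at this
              subst this
              rfl
            · have e1 : j = p := by
                rcases Finset.mem_insert.1 hj with h3 | h3
                · exact h3
                · exact absurd h3 h1
              have e2 : j' = p := by
                rcases Finset.mem_insert.1 hj' with h3 | h3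
                · exact h3
                · exact absurd h3 h2
              subst e1
              subst e2
              rfl
        have h3 := h2.comp eqv heq
        have h4 : (Sum.elim (Sum.elim v' (fun j : C => ee j)) (fun _ : Unit => ee p)) ∘ eqv =
            Sum.elim v' (fun j : (insert p C : Finset (Fin M)) => ee j) := by
          funext q
          rcases q with a | ⟨j, hj⟩
          · rfl
          · simp only [Function.comp_apply, eqv, Sum.elim_inr]
            split_ifs with h5
            · rfl
            · have e1 : j = p := by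
                rcases Finset.mem_insert.1 hj with h3 | h3
                · exact h3
                · exact absurd h3 h5
              subst e1
              rfl
        rw [h4] at h3
        exact h3
      have h5 := hmax _ h1 (Finset.subset_insert p C)
      exact hp (h5 ▸ Finset.mem_insert_self p C)
  -- the functional
  set E : IntermediateField k Ω := cl k ((U ∪ Lset lam Finset.univ) ∪ b '' {j | j ∈ C}) with hE
  have hFE : F ≤ E := cl_mono Set.subset_union_left
  have hfun : ∀ w ∈ Submodule.span F (Set.range (Sum.elim v' (fun j : C => ee j))),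
      ∑ j, b j * (w j : Ω) ∈ E := by
    intro w hw
    induction hw using Submodule.span_induction with
    | mem w hw =>
      obtain ⟨q, rfl⟩ := hw
      rcases q with a | ⟨j, hj⟩
      · have : ∑ j, b j * ((Sum.elim v' (fun j : C => ee j) (Sum.inl a) j : F) : Ω) = 0 := hb a
        rw [this]
        exact zero_mem _
      · have : ∑ i, b i * ((Sum.elim v' (fun j : C => ee j) (Sum.inr ⟨j, hj⟩) i : F) : Ω) =
            b j := by
          rw [Finset.sum_eq_single j]
          · simp [ee]
          · intro i _ hij
            simp [ee, Pi.single_eq_of_ne hij]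
          · intro h
            exact absurd (Finset.mem_univ j) h
        rw [this]
        exact subset_cl _ (Or.inr ⟨j, hj, rfl⟩)
    | zero => simp
    | add w w' _ _ h1 h2 =>
      have : ∑ j, b j * (((w + w') j : F) : Ω) =
          ∑ j, b j * ((w j : F) : Ω) + ∑ j, b j * ((w' j : F) : Ω) := by
        rw [← Finset.sum_add_distrib]
        refine Finset.sum_congr rfl fun j _ => ?_
        rw [Pi.add_apply]
        push_cast
        ring
      rw [this]
      exact add_mem h1 h2
    | smul c w _ h1 =>
      have : ∑ j, b j * (((c • w) j : F) : Ω) = (c : Ω) * ∑ j, b j * ((w j : F) : Ω) := by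
        rw [Finset.mul_sum]
        refine Finset.sum_congr rfl fun j _ => ?_
        rw [Pi.smul_apply, smul_eq_mul]
        push_cast
        ring
      rw [this]
      exact mul_mem (hFE c.2) h1
  -- count
  let g1 : Fin M → ((Fin M × ι) ⊕ Fin M) ⊕ Fin s := fun j => Sum.inl (Sum.inr j)
  have hg1 : Function.Injective g1 := fun i j hij => Sum.inr.inj (Sum.inl.inj hij)
  let K : Finset (((Fin M × ι) ⊕ Fin M) ⊕ Fin s) :=
    ((Finset.univ \ C).image g1) ∪ Finset.univ.image Sum.inr
  have hKcard : K.card = (M - C.card) + s := by
    rw [Finset.card_union_of_disjoint, Finset.card_image_of_injective _ hg1,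
      Finset.card_image_of_injective _
      Sum.inr_injective, Finset.card_sdiff_of_subset (Finset.subset_univ C), Finset.card_univ,
      Finset.card_univ, Fintype.card_fin, Fintype.card_fin]
    rw [Finset.disjoint_left]
    intro p hp hp'
    obtain ⟨j, _, rfl⟩ := Finset.mem_image.1 hp
    obtain ⟨i, _, hi⟩ := Finset.mem_image.1 hp'
    exact absurd hi (by simp)
  have hrows := rows hpar hU hUm K ?_
  · omega
  · intro p hp
    rcases Finset.mem_union.1 hp with hp | hp
    · obtain ⟨j, hj, rfl⟩ := Finset.mem_image.1 hp
      have h1 : Sum.elim (Sum.elim (fun p : Fin M × ι => lam p.1 p.2) b) u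
          (Sum.inl (Sum.inr j)) = b j := rfl
      rw [h1]
      have h2 := hfun _ (hspan j)
      have h3 : ∑ i, b i * ((ee j i : F) : Ω) = b j := by
        rw [Finset.sum_eq_single j]
        · simp [ee]
        · intro i _ hij
          simp [ee, Pi.single_eq_of_ne hij]
        · intro h
          exact absurd (Finset.mem_univ j) h
      rw [h3] at h2
      refine cl_mono ?_ h2
      rintro a ((ha | ⟨i, _, β, rfl⟩) | ⟨i, hi, rfl⟩)
      · exact Or.inl ha
      · refine Or.inr ⟨Sum.inl (Sum.inl (i, β)), ?_, rfl⟩
        intro hmem
        rcases Finset.mem_union.1 hmem with h | h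
        · obtain ⟨i', _, hg'⟩ := Finset.mem_image.1 h
          exact absurd hg' (by simp [g1])
        · obtain ⟨i', _, hg'⟩ := Finset.mem_image.1 h
          exact absurd hg' (by simp)
      · refine Or.inr ⟨Sum.inl (Sum.inr i), ?_, rfl⟩
        intro hmem
        rcases Finset.mem_union.1 hmem with h | h
        · obtain ⟨i', hi', hg'⟩ := Finset.mem_image.1 h
          have : i' = i := Sum.inr.inj (Sum.inl.inj hg')
          subst this
          exact (Finset.mem_sdiff.1 hi').2 hi
        · obtain ⟨i', _, hg'⟩ := Finset.mem_image.1 h
          exact absurd hg' (by simp)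
    · obtain ⟨i, _, rfl⟩ := Finset.mem_image.1 hp
      exact cl_mono Set.subset_union_left (hu i)

/-- power vectors of pairwise non proportional points are independent -/
theorem c6u (hPOW : S_POW.{v}) [CharZero Ω] {lam : Fin M → ι → Ω} {b : Fin M → Ω}
    (hpar : AlgebraicIndependent k (Sum.elim (fun p : Fin M × ι => lam p.1 p.2) b))
    {U : Set Ω} (hU : U.Finite) {m : ℕ} (hUm : U.ncard ≤ m) (hM : 2 * m + 1 < M) {e N : ℕ}
    (hN : N ≤ m + 2) (he : N ≤ e) {z : Fin N → ι → Ω} (hz : ∀ a α, z a α ∈ cl k U)
    (hz0 : ∀ a, z a ≠ 0) (hnp : ∀ a a', a ≠ a' → ¬ Prp (z a) (z a')) :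
    LinearIndependent Ω fun a : Fin N => fun j : Fin M => dot (lam j) (z a) ^ e := by
  classical
  by_contra hdep
  rw [Fintype.not_linearIndependent_iff] at hdep
  obtain ⟨c', hc', a₁, ha₁⟩ := hdep
  let col : Fin M → Fin N → Ω := fun j a => dot (lam j) (z a) ^ e
  have hcol : ∀ j, ∑ a, c' a * col j a = 0 := by
    intro j
    have := congrFun hc' j
    rw [Finset.sum_apply] at this
    exact this
  let Pr : Finset (Fin M) → Prop := fun C => LinearIndependent Ω (fun j : C => col j)
  obtain ⟨C, hC, hmax⟩ : ∃ C, Pr C ∧ ∀ C', Pr C' → C ⊆ C' → C' = C := by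
    have h0 : Pr ∅ := linearIndependent_empty_type
    obtain ⟨C, hC1, hC2⟩ := (Finset.univ.filter Pr).exists_maximal
      ⟨∅, Finset.mem_filter.2 ⟨Finset.mem_univ _, h0⟩⟩
    refine ⟨C, (Finset.mem_filter.1 hC1).2, fun C' hC' hsub => ?_⟩
    exact (Finset.Subset.antisymm hsub
      (hC2 (Finset.mem_filter.2 ⟨Finset.mem_univ _, hC'⟩) hsub)).symm
  -- columns span at most a hyperplane
  have hCcard : C.card < N := by
    by_contra hcon
    have h1 : C.card = N := by
      have := hC.fintype_card_le_finrank
      rw [Fintype.card_coe, Module.finrank_fin_fun] at this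
      omega
    have h2 : Submodule.span Ω (Set.range fun j : C => col j) = ⊤ := by
      apply hC.span_eq_top_of_card_eq_finrank'
      rw [Fintype.card_coe, Module.finrank_fin_fun, h1]
    have h3 : ∀ w : Fin N → Ω, ∑ a, c' a * w a = 0 := by
      intro w
      have hw : w ∈ Submodule.span Ω (Set.range fun j : C => col j) := by
        rw [h2]
        exact Submodule.mem_top
      induction hw using Submodule.span_induction with
      | mem w hw =>
        obtain ⟨j, rfl⟩ := hw
        exact hcol j
      | zero => simp
      | add w w' _ _ h1 h2 =>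
        simp only [Pi.add_apply, mul_add, Finset.sum_add_distrib, h1, h2, add_zero]
      | smul c w _ h1 =>
        have : ∑ a, c' a * (c • w) a = c * ∑ a, c' a * w a := by
          rw [Finset.mul_sum]
          refine Finset.sum_congr rfl fun a _ => ?_
          rw [Pi.smul_apply, smul_eq_mul]
          ring
        rw [this, h1, mul_zero]
    have h4 := h3 (Pi.single a₁ 1)
    rw [Finset.sum_eq_single a₁] at h4
    · rw [Pi.single_eq_same, mul_one] at h4
      exact ha₁ h4
    · intro a _ ha
      rw [Pi.single_eq_of_ne ha, mul_zero]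
    · intro h
      exact absurd (Finset.mem_univ _) h
  -- coefficients over the small field
  set F : IntermediateField k Ω := cl k (U ∪ Lset lam C) with hF
  have hzF : ∀ a α, z a α ∈ F := fun a α => cl_mono (subset_union_Lset U lam C) (hz a α)
  have hcolF : ∀ j ∈ C, ∀ a, col j a ∈ F := fun j hj a =>
    pow_mem (dot_mem_cl (lam_mem lam U hj) (hzF a)) e
  obtain ⟨c, hc, hc0⟩ : ∃ c : Fin N → F, (∀ j ∈ C, ∑ a, (c a : Ω) * col j a = 0) ∧
      c ≠ 0 := by
    let φ : (Fin N → F) →ₗ[F] (C → F) :=
      { toFun := fun c j => ∑ a, c a * ⟨col j a, hcolF j j.2 a⟩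
        map_add' := by
          intro c d
          funext j
          simp only [Pi.add_apply, add_mul, Finset.sum_add_distrib]
        map_smul' := by
          intro r c
          funext j
          simp only [Pi.smul_apply, smul_eq_mul, RingHom.id_apply, Finset.mul_sum, mul_assoc] }
    have hker : LinearMap.ker φ ≠ ⊥ := by
      apply LinearMap.ker_ne_bot_of_finrank_lt
      rw [Module.finrank_fin_fun, Module.finrank_fintype_fun_eq_card, Fintype.card_coe]
      omega
    obtain ⟨c, hc, hc0⟩ := Submodule.exists_mem_ne_zero_of_ne_bot hker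
    refine ⟨c, fun j hj => ?_, hc0⟩
    have h1 := congrFun (LinearMap.mem_ker.1 hc) ⟨j, hj⟩
    have h2 := congrArg (Subtype.val : F → Ω) h1
    simp only [φ, LinearMap.coe_mk, AddHom.coe_mk, Pi.zero_apply] at h2
    rw [ZeroMemClass.coe_zero] at h2
    rw [← h2]
    push_cast
    rfl
  -- the relation holds for all columns
  have hall : ∀ j, ∑ a, (c a : Ω) * col j a = 0 := by
    intro j
    by_cases hj : j ∈ C
    · exact hc j hj
    · have hmem : col j ∈ Submodule.span Ω (Set.range fun j : C => col j) := by
        by_contra hns
        have h1 : Pr (insert j C) := by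
          have h2 : LinearIndepOn Ω col (C : Set (Fin M)) := hC
          have h3 : LinearIndepOn Ω col (insert j (C : Set (Fin M))) := by
            refine (linearIndepOn_insert (by simpa using hj)).2 ⟨h2, ?_⟩
            rwa [Set.image_eq_range]
          have h4 : LinearIndepOn Ω col ((insert j C : Finset (Fin M)) : Set (Fin M)) := by
            rwa [Finset.coe_insert]
          exact h4
        have h5 := hmax _ h1 (Finset.subset_insert j C)
        exact hj (h5 ▸ Finset.mem_insert_self j C)
      have : ∀ w ∈ Submodule.span Ω (Set.range fun j : C => col j),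
          ∑ a, (c a : Ω) * w a = 0 := by
        intro w hw
        induction hw using Submodule.span_induction with
        | mem w hw =>
          obtain ⟨j, rfl⟩ := hw
          exact hc j j.2
        | zero => simp
        | add w w' _ _ h1 h2 =>
          simp only [Pi.add_apply, mul_add, Finset.sum_add_distrib, h1, h2, add_zero]
        | smul r w _ h1 =>
          have : ∑ a, (c a : Ω) * (r • w) a = r * ∑ a, (c a : Ω) * w a := by
            rw [Finset.mul_sum]
            refine Finset.sum_congr rfl fun a _ => ?_
            rw [Pi.smul_apply, smul_eq_mul]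
            ring
          rw [this, h1, mul_zero]
      exact this _ hmem
  obtain ⟨a₂, ha₂⟩ : ∃ a, c a ≠ 0 := by
    by_contra hn
    push Not at hn
    exact hc0 (funext hn)
  have hrow : ∀ j : Fin M, ∃ α, lam j α ∈ cl k ((U ∪ Lset lam C) ∪ lam j '' {β | β ≠ α}) := by
    intro j
    exact rowpow hPOW (lam j) z (fun a => (c a : Ω)) hzF (fun a => (c a).2)
      ⟨a₂, fun h0 => ha₂ (Subtype.ext h0)⟩ hz0 hnp he (hall j)
  choose f hf using hrow
  have hcount := count hpar hU hUm (Finset.univ \ C) C
    (fun i hi => (Finset.mem_sdiff.1 hi).2) f (fun i _ => hf i)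
  rw [Finset.card_sdiff_of_subset (Finset.subset_univ C), Finset.card_univ,
    Fintype.card_fin] at hcount
  omega

/-- `r + 1` different points with the same image have transcendence degree at most `m - r` -/
theorem good_c9 (hPOW : S_POW.{v}) [CharZero Ω] {lam : Fin M → ι → Ω} {b : Fin M → Ω} {s : ℕ}
    {u : Fin s → Ω}
    (hpar : AlgebraicIndependent k
      (Sum.elim (Sum.elim (fun p : Fin M × ι => lam p.1 p.2) b) u))
    {U : Set Ω} (hU : U.Finite) {m : ℕ} (hUm : U.ncard ≤ m) (hu : ∀ i, u i ∈ cl k U)
    (hM : 2 * m + 1 < M) {e r : ℕ} (hr : r ≤ m + 1)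
    (he : m + 2 ≤ e) {z : Fin (r + 1) → ι → Ω} (hz : ∀ a α, z a α ∈ cl k U)
    (hz0 : ∀ a, z a ≠ 0) (ht : ∀ a a', tt lam b e (z a) = tt lam b e (z a'))
    (hnp : ∀ a a', a ≠ a' → ¬ Prp (z a) (z a')) : r + s ≤ m := by
  classical
  have hpar' : AlgebraicIndependent k (Sum.elim (fun p : Fin M × ι => lam p.1 p.2) b) := by
    have := hpar.comp Sum.inl Sum.inl_injective
    exact this
  have hli := c6u hPOW hpar' hU hUm hM (e := e) (N := r + 1) (by omega) (by omega) hz hz0 hnp
  set V : Fin (r + 1) → Fin M → Ω := fun a j => dot (lam j) (z a) ^ e with hV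
  let v : Fin r → Fin M → Ω := fun a => V a.succ - V 0
  have hv : LinearIndependent Ω v := by
    rw [Fintype.linearIndependent_iff] at hli ⊢
    intro g hg a
    have h1 : ∑ i : Fin (r + 1), (Fin.cons (-∑ i, g i) g : Fin (r + 1) → Ω) i • V i = 0 := by
      rw [Fin.sum_univ_succ]
      simp only [Fin.cons_zero, Fin.cons_succ]
      rw [← hg]
      simp only [v, smul_sub, Finset.sum_sub_distrib, ← Finset.sum_smul, neg_smul]
      abel
    have := hli _ h1 a.succ
    rwa [Fin.cons_succ] at this
  have hVm : ∀ a j, V a j ∈ cl k (U ∪ Lset lam Finset.univ) := fun a j =>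
    pow_mem (dot_mem_cl (lam_mem lam U (Finset.mem_univ j))
      (fun β => cl_mono (subset_union_Lset U lam _) (hz a β))) e
  refine tr1u hpar hU hUm hu v (fun a j => sub_mem (hVm _ j) (hVm _ j)) (fun a => ?_) hv
  have h1 : ∑ j, b j * v a j = tt lam b e (z a.succ) - tt lam b e (z 0) := by
    unfold tt
    rw [← Finset.sum_sub_distrib]
    refine Finset.sum_congr rfl fun j _ => ?_
    simp only [v, V, Pi.sub_apply]
    ring
  rw [h1, ht a.succ 0, sub_self]

end

end Pool.Agent.Lib.MP_627a61_nt.Hy
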