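import Pool.Agent.Lib.MP_627a61_nt.Hy.B_good9
import Pool.Agent.Lib.MP_627a61_nt.Hy.B_core
import Pool.Agent.Lib.MP_627a61_nt.Hy.B_gen
import Pool.Agent.Lib.MP_627a61_nt.Hy.M_GEO

/-!
# HYP, birational version: assembly
-/

set_option autoImplicit false

open scoped LinearAlgebra.Projectivization Topology
open Filter Metric MvPolynomial

namespace Pool.Agent.Lib.MP_627a61_nt.Hy

/-- elements of the radical vanish on the cone -/
lemma bgeo_rad {ι k L : Type} [Field k] [Field L] {S : Set (MvPolynomial ι k)} (τ : k →+* L)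
    {x : ι → L} (hx : InCone τ S x) {P : MvPolynomial ι k} (hP : P ∈ (Ideal.span S).radical) :
    P.eval₂ τ x = 0 := by
  obtain ⟨N, hN⟩ := hP
  have h1 : Ideal.span S ≤ RingHom.ker (eval₂Hom τ x) := by
    rw [Ideal.span_le]
    intro Q hQ
    rw [SetLike.mem_coe, RingHom.mem_ker]
    exact hx Q hQ
  have h2 := h1 hN
  rw [RingHom.mem_ker, map_pow] at h2
  exact eq_zero_of_pow_eq_zero h2

lemma bgeo_aeval {ι κ k L : Type} [Field k] [Field L] (τ : k →+* L) (F : κ → MvPolynomial ι k)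
    (Q : MvPolynomial κ k) (x : ι → L) :
    (aeval F Q).eval₂ τ x = Q.eval₂ τ fun j => (F j).eval₂ τ x := by
  have h1 : (eval₂Hom τ x).comp (aeval F).toRingHom = eval₂Hom τ fun j => (F j).eval₂ τ x := by
    apply MvPolynomial.ringHom_ext
    · intro a
      simp
    · intro i
      simp
  have h2 := congrArg (fun f : MvPolynomial κ k →+* L => f Q) h1
  exact h2

/-- points with the same image: expected dimension of the multiple loci -/
lemma bgeo_loc {k : Type} [Field k] {n m M e : ℕ} (he : 1 ≤ e)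
    {S : Set (MvPolynomial (Fin (n + 1)) k)} (hS : ∀ P ∈ S, ∃ a, P.IsHomogeneous a)
    {l : Fin (m + 1) → Fin (n + 1) → k} (hl : NoZero S l) {lam : Fin M → Fin (n + 1) → k}
    {b : Fin M → k}
    (hG : ∀ (F : Type) [Field F] (τ : k →+* F),
        P9 τ S e m (fun i => τ ∘ l i) (fun j => τ ∘ lam j) (τ ∘ b))
    (L : Type) [Field L] (τ : k →+* L) (r s : ℕ) (x : Fin (r + 1) → Fin (n + 1) → L)
    (hx0 : ∀ a, x a ≠ 0) (hx : ∀ a, ∀ P ∈ S, P.eval₂ τ (x a) = 0)
    (hp : ∀ a a', ∃ c : L, ∀ j, (Fm l lam b e j).eval₂ τ (x a) =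
      c * (Fm l lam b e j).eval₂ τ (x a'))
    (hnp : ∀ a a', a ≠ a' → ¬ ∃ c : L, x a = c • x a') (β : Fin (n + 1)) (hβ : x 0 β ≠ 0)
    (α : Fin s → Fin (n + 1)) (hα : ∀ Q : MvPolynomial (Fin s) k,
      Q.eval₂ τ (fun i => x 0 (α i) / x 0 β) = 0 → Q = 0) : r + s ≤ m := by
  set Ω := AlgebraicClosure L with hΩ
  set θ : L →+* Ω := algebraMap L Ω with hθ
  set τ' : k →+* Ω := θ.comp τ with hτ'
  -- the values are not all zero
  have hne : ∀ a, ∃ i : Fin (m + 1), dot (τ ∘ l i) (x a) ≠ 0 := by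
    intro a
    by_contra hcon
    push Not at hcon
    exact hx0 a (hl L τ (x a) (hx a) hcon)
  choose c hc using fun a => hp a 0
  have hc0 : ∀ a, c a ≠ 0 := by
    intro a h0
    obtain ⟨i, hi⟩ := hne a
    have h1 := hc a i.castSucc
    rw [(geo_eval_Fm l lam b e τ (x a)).1 i, h0, zero_mul] at h1
    exact hi (pow_eq_zero_iff (by omega) |>.1 h1)
  have hroot : ∀ a, ∃ r : Ω, r ^ e = (θ (c a))⁻¹ := fun a =>
    IsAlgClosed.exists_pow_nat_eq _ (by omega)
  choose q hq using hroot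
  have hq0 : ∀ a, q a ≠ 0 := by
    intro a h0
    have h1 := hq a
    rw [h0, zero_pow (by omega)] at h1
    have h2 : θ (c a) ≠ 0 := by rw [ne_eq, map_eq_zero]; exact hc0 a
    exact inv_ne_zero h2 h1.symm
  -- values over Ω
  have hev : ∀ a j, (Fm l lam b e j).eval₂ τ' (fun i => θ (x a i)) =
      θ ((Fm l lam b e j).eval₂ τ (x a)) := by
    intro a j
    rw [hτ', ← MvPolynomial.hom_eval₂]
  have hdot : ∀ a i, dot (τ' ∘ l i) (fun i => θ (x a i)) ^ e =
      θ (c a) * dot (τ' ∘ l i) (fun i => θ (x 0 i)) ^ e := by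
    intro a i
    rw [← (geo_eval_Fm l lam b e τ' _).1 i, ← (geo_eval_Fm l lam b e τ' _).1 i, hev, hev,
      hc a, map_mul]
  have htt : ∀ a, tt (fun j => τ' ∘ lam j) (τ' ∘ b) e (fun i => θ (x a i)) =
      θ (c a) * tt (fun j => τ' ∘ lam j) (τ' ∘ b) e (fun i => θ (x 0 i)) := by
    intro a
    rw [← (geo_eval_Fm l lam b e τ' _).2, ← (geo_eval_Fm l lam b e τ' _).2, hev, hev,
      hc a, map_mul]
  have hcθ : ∀ a, θ (c a) ≠ 0 := fun a => by rw [ne_eq, map_eq_zero]; exact hc0 a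
  have hcone : ∀ a, InCone τ' S (q a • fun i => θ (x a i)) := by
    intro a
    refine geo_cone_smul hS τ' (fun P hP => ?_) _
    have h1 := congrArg θ (hx a P hP)
    rw [map_zero, MvPolynomial.hom_eval₂] at h1
    exact h1
  refine hG Ω τ' r s (fun a => q a • fun i => θ (x a i)) hcone
    (fun a h0 => by
      obtain ⟨j, hj⟩ : ∃ j, x a j ≠ 0 := by
        by_contra hcon
        push Not at hcon
        exact hx0 a (funext hcon)
      have h1 := congrFun h0 j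
      simp only [Pi.smul_apply, smul_eq_mul, Pi.zero_apply, mul_eq_zero, map_eq_zero] at h1
      rcases h1 with h1 | h1
      · exact hq0 a h1
      · exact hj h1)
    (fun a a' i => by
      have h : ∀ a, dot (τ' ∘ l i) (q a • fun i => θ (x a i)) ^ e =
          dot (τ' ∘ l i) (fun i => θ (x 0 i)) ^ e := by
        intro a
        rw [geo_dot_smul, mul_pow, hq, hdot, ← mul_assoc, inv_mul_cancel₀ (hcθ a), one_mul]
      exact (h a).trans (h a').symm)
    (fun a a' => by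
      have h : ∀ a, tt (fun j => τ' ∘ lam j) (τ' ∘ b) e (q a • fun i => θ (x a i)) =
          tt (fun j => τ' ∘ lam j) (τ' ∘ b) e (fun i => θ (x 0 i)) := by
        intro a
        rw [geo_tt_smul, hq, htt, ← mul_assoc, inv_mul_cancel₀ (hcθ a), one_mul]
      exact (h a).trans (h a').symm)
    (fun a a' haa hP => by
      obtain ⟨w, hw⟩ := hP
      refine hnp a a' haa (geo_descend θ (hx0 a') (c := (q a)⁻¹ * (w * q a')) ?_)
      have h1 : (q a)⁻¹ • (q a • fun i => θ (x a i)) =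
          (q a)⁻¹ • (w • (q a' • fun i => θ (x a' i))) :=
        congrArg (fun z => (q a)⁻¹ • z) hw
      rw [smul_smul, inv_mul_cancel₀ (hq0 a), one_smul, smul_smul, smul_smul] at h1
      rw [h1, mul_assoc])
    β α ?_ ?_
  · simp only [Pi.smul_apply, smul_eq_mul]
    exact mul_ne_zero (hq0 0) (by rwa [ne_eq, map_eq_zero])
  · intro Q hQ
    apply hα
    apply θ.injective
    rw [map_zero, MvPolynomial.hom_eval₂, ← hQ]
    congr 1
    funext i
    simp only [Pi.smul_apply, smul_eq_mul]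
    rw [mul_div_mul_left _ _ (hq0 0), map_div₀]

/-- the geometric conclusions for a hypersurface containing the image -/
lemma bgeo_common {k : Type} [Field k] [CharZero k] {n m : ℕ}
    {S : Set (MvPolynomial (Fin (n + 1)) k)}
    (hS : ∀ P ∈ S, ∃ a, P.IsHomogeneous a) {l : Fin (m + 1) → Fin (n + 1) → k} (hl : NoZero S l)
    {e M : ℕ} (he : 1 ≤ e) {lam : Fin M → Fin (n + 1) → k} {b : Fin M → k}
    (hG : ∀ (F : Type) [Field F] (τ : k →+* F),
        Good e (InCone τ S) (fun i => τ ∘ l i) (fun j => τ ∘ lam j) (τ ∘ b) ∧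
        P9 τ S e m (fun i => τ ∘ l i) (fun j => τ ∘ lam j) (τ ∘ b))
    {d : ℕ} {G : MvPolynomial (Fin (m + 2)) k} (hGh : G.IsHomogeneous d)
    (hGv : ∀ (L : Type) [Field L] (τ : k →+* L) (x : Fin (n + 1) → L), InCone τ S x →
      G.eval₂ τ (fun j => (Fm l lam b e j).eval₂ τ x) = 0)
    (hGB : ∀ σ : k →+* ℂ, BrodyHyperbolic (points σ S) → BrodyHyperbolic (points σ {G})) :
      (∀ (L : Type) [Field L] (τ : k →+* L) (x : Fin (n + 1) → L), x ≠ 0 →
        (∀ P ∈ S, P.eval₂ τ x = 0) →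
        (∃ j, (Fm l lam b e j).eval₂ τ x ≠ 0) ∧
          G.eval₂ τ (fun j => (Fm l lam b e j).eval₂ τ x) = 0) ∧
      (∀ (L : Type) [Field L] (τ : k →+* L) (r : ℕ) (x : Fin (r + 1) → Fin (n + 1) → L),
        (∀ a, x a ≠ 0) → (∀ a, ∀ P ∈ S, P.eval₂ τ (x a) = 0) →
        (∀ a a', ∃ c : L, ∀ j, (Fm l lam b e j).eval₂ τ (x a) =
          c * (Fm l lam b e j).eval₂ τ (x a')) →
        (∀ a a', a ≠ a' → ¬ ∃ c : L, x a = c • x a') →
        ∀ (β : Fin (n + 1)) (s : ℕ) (α : Fin s → Fin (n + 1)), x 0 β ≠ 0 →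
          (∀ Q : MvPolynomial (Fin s) k,
            Q.eval₂ τ (fun i => x 0 (α i) / x 0 β) = 0 → Q = 0) → r + s ≤ m) ∧
      (∀ (L : Type) [Field L] (τ : k →+* L), (points τ {G}).Finite → (points τ S).Finite) ∧
      ∀ σ : k →+* ℂ, KobayashiHyperbolic (points σ {G}) ↔ KobayashiHyperbolic (points σ S) := by
  set F := Fm l lam b e with hF
  have hFh : ∀ j, (F j).IsHomogeneous e := geo_Fm_homog l lam b e
  have hval : ∀ (L : Type) [Field L] (τ : k →+* L) (x : Fin (n + 1) → L), x ≠ 0 →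
      (∀ P ∈ S, P.eval₂ τ x = 0) →
      (∃ j, (F j).eval₂ τ x ≠ 0) ∧ G.eval₂ τ (fun j => (F j).eval₂ τ x) = 0 := by
    intro L _ τ x hx0 hx
    constructor
    · by_contra hcon
      push Not at hcon
      refine hx0 (hl L τ x hx fun i => ?_)
      have h := hcon i.castSucc
      rw [hF, (geo_eval_Fm l lam b e τ x).1 i] at h
      exact pow_eq_zero_iff (by omega) |>.1 h
    · exact hGv L τ x hx
  have hfib := fun (L : Type) [Field L] (τ : k →+* L) =>
    geo_fibre he hS hl (fun F _ τ => (hG F τ).1) L τ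
  refine ⟨hval, fun L _ τ r x h1 h2 h3 h4 β s α hβ hα =>
    bgeo_loc he hS hl (fun F _ τ => (hG F τ).2) L τ r s x h1 h2 h3 h4 β hβ α hα,
    fun L _ τ => geo_points hGh τ (hval L τ) (hfib L τ), fun σ => ?_⟩
  have hhom : Homog S := hS
  have hhomG : Homog ({G} : Set (MvPolynomial (Fin (m + 2)) k)) := by
    intro P hP
    rw [Set.mem_singleton_iff] at hP
    exact ⟨d, hP ▸ hGh⟩
  rw [kobayashi_iff_brody (pclosed_points hhomG σ), kobayashi_iff_brody (pclosed_points hhom σ)]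
  refine ⟨fun hB φ hφ hφS => ?_, fun hB => hGB σ hB⟩
  -- the composed curve
  set Fc : (Fin (n + 1) → ℂ) → Fin (m + 2) → ℂ := fun x j => (F j).eval₂ σ x with hFc
  have hFan : ∀ x, AnalyticAt ℂ Fc x := by
    intro x
    rw [analyticAt_pi_iff]
    intro j
    exact analyticAt_eval₂ (F j) σ x
  have hFhom : ∀ (t : ℂ) x, Fc (t • x) = t ^ e • Fc x := by
    intro t x
    funext j
    rw [Pi.smul_apply, smul_eq_mul, hFc]
    exact eval₂_smul_homog (hFh j) σ t x
  have hne : ∀ z, Fc (φ z).rep ≠ 0 := by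
    intro z h0
    obtain ⟨j, hj⟩ := (hval ℂ σ (φ z).rep (φ z).rep_nonzero (hφS z)).1
    exact hj (congrFun h0 j)
  obtain ⟨ψ, hψ, hψ1, -⟩ := exists_division hφ Fc hFan e hFhom (hne 0)
  have hψG : ∀ z, ψ z ∈ points σ {G} := by
    intro z
    rw [hψ1 z (hne z), mem_points_mk hhomG]
    intro P hP
    rw [Set.mem_singleton_iff] at hP
    rw [hP]
    exact (hval ℂ σ (φ z).rep (φ z).rep_nonzero (hφS z)).2
  have hψc := hB ψ hψ hψG
  have hfin : (Set.range φ).Finite := by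
    refine geo_finite σ (fun x => hfib ℂ σ x) (A := Set.range φ) ?_ ?_
    · rintro p ⟨z, rfl⟩
      exact hφS z
    · rintro p ⟨z, rfl⟩ p' ⟨w, rfl⟩
      have h := hψc z w
      rw [hψ1 z (hne z), hψ1 w (hne w), Projectivization.mk_eq_mk_iff'] at h
      obtain ⟨c, hc⟩ := h
      exact ⟨c, fun j => (congrFun hc j).symm⟩
  have hex : ∃ p, ∃ᶠ w in 𝓝[≠] (0 : ℂ), φ w = p := by
    by_contra hcon
    push Not at hcon
    have h5 : ∀ᶠ w in 𝓝[≠] (0 : ℂ), ∀ p ∈ Set.range φ, φ w ≠ p := by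
      rw [Filter.eventually_all_finite hfin]
      intro p _
      exact hcon p
    obtain ⟨w, hw⟩ := h5.exists
    exact hw (φ w) ⟨w, rfl⟩ rfl
  obtain ⟨p, hp⟩ := hex
  have := eq_of_eventually_const hφ hp
  intro z w
  rw [this z, this w]

/-- **GEOB.** The geometric theorem with the birational statement for irreducible varieties. -/
def S_GEOB : Prop :=
  ∀ (k : Type) [Field k] [CharZero k] (n m e₀ : ℕ) (S : Set (MvPolynomial (Fin (n + 1)) k)),
    (∀ P ∈ S, ∃ a, P.IsHomogeneous a) → PDimLE S m →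
    ∃ (e : ℕ) (F : Fin (m + 2) → MvPolynomial (Fin (n + 1)) k) (d : ℕ)
      (G : MvPolynomial (Fin (m + 2)) k), e₀ ≤ e ∧ (∀ j, (F j).IsHomogeneous e) ∧ G ≠ 0 ∧
      G.IsHomogeneous d ∧
      (∀ (L : Type) [Field L] (τ : k →+* L) (x : Fin (n + 1) → L), x ≠ 0 →
        (∀ P ∈ S, P.eval₂ τ x = 0) →
        (∃ j, (F j).eval₂ τ x ≠ 0) ∧ G.eval₂ τ (fun j => (F j).eval₂ τ x) = 0) ∧
      (∀ (L : Type) [Field L] (τ : k →+* L) (r : ℕ) (x : Fin (r + 1) → Fin (n + 1) → L),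
        (∀ a, x a ≠ 0) → (∀ a, ∀ P ∈ S, P.eval₂ τ (x a) = 0) →
        (∀ a a', ∃ c : L, ∀ j, (F j).eval₂ τ (x a) = c * (F j).eval₂ τ (x a')) →
        (∀ a a', a ≠ a' → ¬ ∃ c : L, x a = c • x a') →
        ∀ (β : Fin (n + 1)) (s : ℕ) (α : Fin s → Fin (n + 1)), x 0 β ≠ 0 →
          (∀ Q : MvPolynomial (Fin s) k,
            Q.eval₂ τ (fun i => x 0 (α i) / x 0 β) = 0 → Q = 0) → r + s ≤ m) ∧
      (∀ (L : Type) [Field L] (τ : k →+* L), (points τ {G}).Finite → (points τ S).Finite) ∧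
      (∀ σ : k →+* ℂ, KobayashiHyperbolic (points σ {G}) ↔ KobayashiHyperbolic (points σ S)) ∧
      ((Ideal.span S).radical.IsPrime →
        ringKrullDim (MvPolynomial (Fin (n + 1)) k ⧸ Ideal.span S) =
          ((m + 1 : ℕ) : WithBot ℕ∞) →
        Irreducible G ∧ e ^ m ≤ d ∧
        (∀ (L : Type) [Field L] [IsAlgClosed L] (τ : k →+* L) (y : Fin (m + 2) → L),
          G.eval₂ τ y = 0 → ∃ x : Fin (n + 1) → L, (∀ P ∈ S, P.eval₂ τ x = 0) ∧
            ∀ j, y j = (F j).eval₂ τ x) ∧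
        ∃ (r : ℕ) (R : Fin (n + 1) → MvPolynomial (Fin (m + 2)) k)
          (A : MvPolynomial (Fin (n + 1)) k),
          (∀ i, (R i).IsHomogeneous r) ∧ A ∉ (Ideal.span S).radical ∧
          ∀ (L : Type) [Field L] (τ : k →+* L) (x : Fin (n + 1) → L),
            (∀ P ∈ S, P.eval₂ τ x = 0) →
            ∀ i, (R i).eval₂ τ (fun j => (F j).eval₂ τ x) = A.eval₂ τ x * x i)

theorem b_geo (hmero : S_MERO) (hchart : S_CHART) (hbdd : S_BDD) (hkum : S_KUM) (hrep : S_REP)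
    (hmaxi : S_MAXI) (hpair : ∃ E₀, S_PAIR E₀) (hrad : S_RAD.{0}) (hint : S_INT.{0, 0})
    (himg : S_IMG.{0, 0}) (hpow : S_POW.{0}) (hhypk : S_HYPK) (hkd1 : S_KD1)
    (hprop : S_PROP.{0}) (hfin : S_BFIN) (hdesc : S_BDESC) (hind : S_BIND) (hprin : S_BPRIN)
    (hinv : S_BINV) (hdeg : S_BDEG) : S_GEOB := by
  classical
  intro k _ _ n m e₀ S hS hdim
  obtain ⟨l, hl⟩ := hkd1 k n m S hS hdim
  obtain ⟨E₀, hpair⟩ := hpair
  obtain ⟨dd, P, hP⟩ := hint S hS l hl
  set M : ℕ := 2 * m ^ 2 + 2 * m + 2 with hM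
  obtain ⟨e, he, hep⟩ := Nat.exists_infinite_primes
    (E₀ M (2 * ∑ α, (dd α - 1)) + m + 2 + e₀)
  have he1 : 1 ≤ e := hep.one_lt.le
  have hM1 : 2 * m + 1 < M := by rw [hM]; nlinarith [Nat.zero_le (m ^ 2)]
  by_cases hirr : (Ideal.span S).radical.IsPrime ∧
      ringKrullDim (MvPolynomial (Fin (n + 1)) k ⧸ Ideal.span S) = ((m + 1 : ℕ) : WithBot ℕ∞)
  · obtain ⟨hp, hd⟩ := hirr
    obtain ⟨Ω, _, _, _, x, hx⟩ := b_gen (Fin (n + 1)) k S hp
    have hTT := hind (Fin (n + 1)) k Ω m S hS hp hd l hl x hx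
    have hx0 : x ≠ 0 := by
      intro h0
      apply hTT.ne_zero 0
      unfold TT dot
      rw [h0]
      simp
    have hY := hfin (Fin (n + 1)) k Ω m e S hS l hl he1 x
    obtain ⟨g, hg0, hg⟩ := hdesc (Fin (n + 1)) k Ω M e (by omega) he1 x hx0
      ({y | InCone (algebraMap k Ω) S y ∧ SameBase (fun i => algebraMap k Ω ∘ l i) e x y} ∩
        {y | ¬ Prp y x}) (hY.subset Set.inter_subset_left) (fun y hy => hy.2)
    obtain ⟨lam, b, hgb, hG⟩ := b_good9 hpow hint S hS l hl M e hM1 (by omega) g hg0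
    have hc8 : C8 S l lam b e x := by
      intro y hy hb ht
      by_contra hn
      exact hg lam b hgb y ⟨⟨hy, hb⟩, hn⟩ ht
    have hcore := b_core hmero hchart hbdd hkum hrep hmaxi himg hpair S hS l hl dd P hP
      (M := M) (e := e) (by rw [hM]; omega) (by omega) (by omega) hep lam b
      (fun F _ τ => (hG F τ).1)
    set F := Fm l lam b e with hF
    have hFh : ∀ j, (F j).IsHomogeneous e := geo_Fm_homog l lam b e
    have hnz : ∀ (Ω : Type) [Field Ω] (τ : k →+* Ω) (x : Fin (n + 1) → Ω), InCone τ S x →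
        (∀ j, (F j).eval₂ τ x = 0) → x = 0 := fun Ω _ τ x hx h0 =>
      Fm_nozero l lam b e hl he1 τ x hx fun i => h0 _
    have hIm : ∀ Q ∈ ImgEqs S F, aeval F Q ∈ (Ideal.span S).radical := by
      intro Q hQ
      obtain ⟨N, hN⟩ := hrad S (aeval F Q) (fun Ω _ τ x hx => by
        rw [bgeo_aeval]
        exact hQ.2 Ω τ x hx)
      exact ⟨N, hN⟩
    obtain ⟨Q, hQ, hQ0⟩ := hprop S hS l hl e F hFh (by simp)
    obtain ⟨d, G, hGi, hGh, hGd⟩ := hprin (Fin (n + 1)) k m e S hS hp hd he1 F hFh hnz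
      ⟨Q, hQ0, hIm Q hQ⟩
    have hGr : aeval F G ∈ (Ideal.span S).radical := (hGd G).2 dvd_rfl
    have hGv : ∀ (L : Type) [Field L] (τ : k →+* L) (x : Fin (n + 1) → L), InCone τ S x →
        G.eval₂ τ (fun j => (F j).eval₂ τ x) = 0 := by
      intro L _ τ x hx
      rw [← bgeo_aeval]
      exact bgeo_rad τ hx hGr
    have hIG : ∀ (L : Type) [Field L] (τ : k →+* L) (y : Fin (m + 2) → L), G.eval₂ τ y = 0 →
        InCone τ (ImgEqs S F) y := by
      intro L _ τ y hy Q hQ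
      obtain ⟨Q', hQ'⟩ := (hGd Q).1 (hIm Q hQ)
      rw [hQ', eval₂_mul, hy, zero_mul]
    have hGB : ∀ σ : k →+* ℂ, BrodyHyperbolic (points σ S) →
        BrodyHyperbolic (points σ {G}) := by
      intro σ hB φ hφ hφG
      exact hcore σ hB φ hφ fun z => hIG ℂ σ _ (hφG z G rfl)
    obtain ⟨c1, c2, c3, c4⟩ := bgeo_common hS hl he1 (fun F _ τ => hG F τ) hGh
      (fun L _ τ => hGv L τ) hGB
    obtain ⟨r, R, A, hR, hA, hRA⟩ := hinv (Fin (n + 1)) k Ω m M e S hS hp l hl lam b he1 x hx hTT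
      hc8
    refine ⟨e, F, d, G, by omega, hFh, hGi.ne_zero, hGh, fun L _ τ => c1 L τ,
      fun L _ τ => c2 L τ, fun L _ τ => c3 L τ, c4, fun _ _ => ⟨hGi, ?_, ?_, r, R, A, hR, hA, ?_⟩⟩
    · exact hdeg (Fin (n + 1)) k Ω m M e S hS l hl lam b he1 x hx hTT hc8 d G hGi.ne_zero hGh hGr
    · intro L _ _ τ y hy
      exact himg S hS e he1 F hFh hnz L τ y (hIG L τ y hy)
    · intro L _ τ x hx i
      have h1 := bgeo_rad τ hx (hRA i)
      rw [eval₂_sub, bgeo_aeval, eval₂_mul, eval₂_X, sub_eq_zero] at h1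
      exact h1
  · obtain ⟨lam, b, -, hG⟩ := b_good9 hpow hint S hS l hl M e hM1 (by omega) 1 one_ne_zero
    have hcore := b_core hmero hchart hbdd hkum hrep hmaxi himg hpair S hS l hl dd P hP
      (M := M) (e := e) (by rw [hM]; omega) (by omega) (by omega) hep lam b
      (fun F _ τ => (hG F τ).1)
    set F := Fm l lam b e with hF
    have hFh : ∀ j, (F j).IsHomogeneous e := geo_Fm_homog l lam b e
    obtain ⟨Q, hQ, hQ0⟩ := hprop S hS l hl e F hFh (by simp)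
    obtain ⟨d, G, hG0, hGh, hGB, hGv⟩ := hhypk k (m + 1) (ImgEqs S F) (fun P hP => hP.1)
      ⟨Q, hQ, hQ0⟩
    obtain ⟨c1, c2, c3, c4⟩ := bgeo_common hS hl he1 (fun F _ τ => hG F τ) hGh
      (fun L _ τ x hx => hGv L τ _ fun P hP => hP.2 L τ x hx)
      (fun σ hB => hGB σ (hcore σ hB))
    exact ⟨e, F, d, G, by omega, hFh, hG0, hGh, fun L _ τ => c1 L τ,
      fun L _ τ => c2 L τ, fun L _ τ => c3 L τ, c4, fun h1 h2 => absurd ⟨h1, h2⟩ hirr⟩

end Pool.Agent.Lib.MP_627a61_nt.Hy
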