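import Pool.Agent.Lib.MP_627a61_nt.Hy.GoodMain
import Pool.Agent.Lib.MP_627a61_nt.Hy.BStm

/-!
# HYP: existence of good parameters over `k` avoiding a given hypersurface of parameters
-/

set_option autoImplicit false

open MvPolynomial Filter

namespace Pool.Agent.Lib.MP_627a61_nt.Hy

/-- GOOD parameters at which a given nonzero polynomial does not vanish -/
theorem b_good (hPOW : S_POW.{0}) (hINT : S_INT.{0, 0}) {ι : Type} [Fintype ι] {k : Type}
    [Field k] [CharZero k] {m : ℕ}
    (S : Set (MvPolynomial ι k)) (hS : ∀ P ∈ S, ∃ n, P.IsHomogeneous n)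
    (l : Fin (m + 1) → ι → k) (hl : NoZero S l) (M e : ℕ) (hM : 2 * m + 1 < M) (he : m + 2 ≤ e)
    (g : MvPolynomial ((Fin M × ι) ⊕ Fin M) k) (hg : g ≠ 0) :
    ∃ (lam : Fin M → ι → k) (b : Fin M → k),
      eval (Sum.elim (fun p => lam p.1 p.2) b) g ≠ 0 ∧ ∀ (L : Type) [Field L] (τ : k →+* L),
        Good e (InCone τ S) (fun i => τ ∘ l i) (fun j => τ ∘ lam j) (τ ∘ b) := by
  classical
  by_contra hcon
  push Not at hcon
  let T : Type := (Fin M × ι) ⊕ Fin M
  let lamOf : (T → k) → Fin M → ι → k := fun t j α => t (Sum.inl (j, α))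
  let bOf : (T → k) → Fin M → k := fun t j => t (Sum.inr j)
  have hcon' : ∀ t : T → k, ∃ (L : Type) (_ : Field L) (τ : k →+* L), eval t g ≠ 0 →
      ¬ Good e (InCone τ S) (fun i => τ ∘ l i) (fun j => τ ∘ lamOf t j) (τ ∘ bOf t) := by
    intro t
    by_cases ht : eval t g = 0
    · exact ⟨k, inferInstance, RingHom.id k, fun h => absurd ht h⟩
    · have h1 : Sum.elim (fun p : Fin M × ι => lamOf t p.1 p.2) (bOf t) = t := by
        funext q
        rcases q with ⟨j, α⟩ | j
        · rfl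
        · rfl
      obtain ⟨L, iL, τ, h2⟩ := hcon (lamOf t) (bOf t) (by rw [h1]; exact ht)
      exact ⟨L, iL, τ, fun _ => h2⟩
  choose L instL τ hbad using hcon'
  have hne : (genFilter k T).NeBot := genFilter_neBot
  let U : Ultrafilter (T → k) := Ultrafilter.of (genFilter k T)
  have hU : (U : Filter (T → k)) ≤ genFilter k T := Ultrafilter.of_le _
  obtain ⟨Ω, instΩ, φ, hs, h0, hind⟩ := ultra U hU L τ
  let _ : Algebra k Ω := (φ.comp (RingHom.pi τ)).toAlgebra
  have hchar : CharZero Ω := charZero_of_injective_algebraMap (algebraMap k Ω).injective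
  have halg : algebraMap k Ω = φ.comp (RingHom.pi τ) := rfl
  obtain ⟨d, P, hP⟩ := hINT S hS l hl
  let lam' : Fin M → ι → Ω := fun j α => φ fun t => (τ t ∘ lamOf t j) α
  let b' : Fin M → Ω := fun j => φ fun t => (τ t ∘ bOf t) j
  have hpar : AlgebraicIndependent k (Sum.elim (fun p : Fin M × ι => lam' p.1 p.2) b') := by
    rw [algebraicIndependent_iff]
    intro p hp
    by_contra hp0
    apply hind p hp0
    rw [← hp, aeval_def, halg]
    congr 1
    funext q
    rcases q with ⟨j, α⟩ | j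
    · rfl
    · rfl
  have hG := goodOm (lam := lam') (b := b') hPOW hS (fun α => (hP α).1)
    (fun x hx α => (hP α).2 Ω (algebraMap k Ω) x hx) hM he hpar
  have hl' : ∀ i, (algebraMap k Ω ∘ l i) = fun α => φ fun t => (τ t ∘ l i) α := by
    intro i
    rfl
  -- transfer of points
  have hcone : ∀ x : ∀ t, ι → L t, (∀ᶠ t in (U : Filter (T → k)), InCone (τ t) S (x t)) →
      InCone (algebraMap k Ω) S fun α => φ fun t => x t α := by
    intro x hx Q hQ
    rw [halg, eval₂_ult, h0]
    filter_upwards [hx] with t ht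
    exact ht Q hQ
  have hpow : ∀ (f g : ∀ t, L t), (∀ᶠ t in (U : Filter (T → k)), f t = g t) → φ f = φ g := by
    intro f g hfg
    rw [← sub_eq_zero, ← map_sub, h0]
    filter_upwards [hfg] with t ht
    rw [Pi.sub_apply, ht, sub_self]
  have hbase : ∀ x y : ∀ t, ι → L t, (∀ᶠ t in (U : Filter (T → k)),
      SameBase (fun i => τ t ∘ l i) e (x t) (y t)) →
      SameBase (fun i => algebraMap k Ω ∘ l i) e (fun α => φ fun t => x t α)
        (fun α => φ fun t => y t α) := by
    intro x y hxy i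
    simp only [hl', dot_ult, ← map_pow]
    apply hpow
    filter_upwards [hxy] with t ht
    exact ht i
  have hdotlam : ∀ j (x : ∀ t, ι → L t), dot (lam' j) (fun α => φ fun t => x t α) =
      φ fun t => dot (τ t ∘ lamOf t j) (x t) := fun j x => dot_ult _ _
  have hvec : ∀ (D : Finset (Fin M)) (x : ∀ t, ι → L t) j,
      vec lam' e D (fun α => φ fun t => x t α) j =
      φ fun t => vec (fun j => τ t ∘ lamOf t j) e D (x t) j := by
    intro D x j
    unfold vec
    by_cases hj : j ∈ D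
    · simp only [if_pos hj, hdotlam, ← map_pow]
      rfl
    · simp only [if_neg hj]
      exact (map_zero φ).symm
  -- four kinds of failure
  let B1 : (T → k) → Prop := fun t => ∃ I : Finset (Fin M), ∃ x : ι → L t, InCone (τ t) S x ∧
    m < I.card ∧ (∀ i ∈ I, dot (τ t ∘ lamOf t i) x = 0) ∧ x ≠ 0
  let B3 : (T → k) → Prop := fun t => ∃ I : Finset (Fin M), ∃ x : (ι → L t) × (ι → L t),
    InCone (τ t) S x.1 ∧ InCone (τ t) S x.2 ∧ x.1 ≠ 0 ∧ x.2 ≠ 0 ∧
    SameBase (fun i => τ t ∘ l i) e x.1 x.2 ∧ ¬ Prp x.1 x.2 ∧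
    (∀ j ∈ I, dot (τ t ∘ lamOf t j) x.1 ^ e = dot (τ t ∘ lamOf t j) x.2 ^ e) ∧ m < I.card
  let B5 : (T → k) → Prop := fun t => ∃ z : Fin (m + 2) → ι → L t,
    (∀ a, InCone (τ t) S (z a)) ∧ (∀ a, z a ≠ 0) ∧
    (∀ a a', SameBase (fun i => τ t ∘ l i) e (z a) (z a')) ∧
    (∀ a a', tt (fun j => τ t ∘ lamOf t j) (τ t ∘ bOf t) e (z a) =
      tt (fun j => τ t ∘ lamOf t j) (τ t ∘ bOf t) e (z a')) ∧
    ∀ a a', a ≠ a' → ¬ Prp (z a) (z a')
  let B7 : (T → k) → Prop := fun t => ∃ D : (Fin (m + 1) → Finset (Fin M)) ×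
    (Fin (m + 1) → Finset (Fin M)), ∃ x : (ι → L t) × (ι → L t),
    InCone (τ t) S x.1 ∧ InCone (τ t) S x.2 ∧ x.1 ≠ 0 ∧ x.2 ≠ 0 ∧
    SameBase (fun i => τ t ∘ l i) e x.1 x.2 ∧
    (∀ a, ∑ j, (τ t ∘ bOf t) j * (vec (fun j => τ t ∘ lamOf t j) e (D.1 a) x.1 j -
      vec (fun j => τ t ∘ lamOf t j) e (D.2 a) x.2 j) = 0) ∧
    LinearIndependent (L t) fun a => fun j => vec (fun j => τ t ∘ lamOf t j) e (D.1 a) x.1 j -
      vec (fun j => τ t ∘ lamOf t j) e (D.2 a) x.2 j
  have hB : ∀ t, eval t g ≠ 0 → B1 t ∨ B3 t ∨ B5 t ∨ B7 t := by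
    intro t htg
    by_contra hn
    push Not at hn
    obtain ⟨n1, n3, n5, n7⟩ := hn
    apply hbad t htg
    constructor
    · intro x hx I hI h
      by_contra hx0
      exact n1 ⟨I, x, hx, hI, h, hx0⟩
    · intro x y hx hy hx0 hy0 hb hnp I h
      by_contra hI
      exact n3 ⟨I, (x, y), hx, hy, hx0, hy0, hb, hnp, h, not_le.1 hI⟩
    · intro z hz hz0 hb ht
      by_contra hn
      push Not at hn
      exact n5 ⟨z, hz, hz0, hb, ht, hn⟩
    · intro x y hx hy hx0 hy0 hb D D' h hli
      exact n7 ⟨(D, D'), (x, y), hx, hy, hx0, hy0, hb, h, hli⟩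
  have hgU : ∀ᶠ t in (U : Filter (T → k)), eval t g ≠ 0 := hU (mem_genFilter hg)
  have hev : ∀ᶠ t in (U : Filter (T → k)), B1 t ∨ B3 t ∨ B5 t ∨ B7 t :=
    hgU.mono hB
  rcases Ultrafilter.eventually_or.1 hev with h1 | hev
  · obtain ⟨I, h2⟩ := ult_pigeon U h1
    obtain ⟨x, h3⟩ := Filter.skolem.1 h2
    obtain ⟨t, ht⟩ := h3.exists
    have hI : m < I.card := ht.2.1
    refine vec_ne_zero_ult h0 (h3.mono fun t ht => ht.2.2.2)
      (hG.c1 _ (hcone x (h3.mono fun t ht => ht.1)) I hI ?_)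
    intro i hi
    rw [hdotlam, h0]
    exact h3.mono fun t ht => ht.2.2.1 i hi
  rcases Ultrafilter.eventually_or.1 hev with h1 | hev
  · obtain ⟨I, h2⟩ := ult_pigeon U h1
    obtain ⟨x, h3⟩ := Filter.skolem.1 h2
    obtain ⟨t, ht⟩ := h3.exists
    have hI : m < I.card := ht.2.2.2.2.2.2.2
    have := hG.c3 (fun α => φ fun t => (x t).1 α) (fun α => φ fun t => (x t).2 α)
      (hcone (fun t => (x t).1) (h3.mono fun t ht => ht.1))
      (hcone (fun t => (x t).2) (h3.mono fun t ht => ht.2.1))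
      (vec_ne_zero_ult (x := fun t => (x t).1) h0 (h3.mono fun t ht => ht.2.2.1))
      (vec_ne_zero_ult (x := fun t => (x t).2) h0 (h3.mono fun t ht => ht.2.2.2.1))
      (hbase (fun t => (x t).1) (fun t => (x t).2) (h3.mono fun t ht => ht.2.2.2.2.1))
      (by
        intro hp
        have h4 := prp_ult (x := fun t => (x t).1) (y := fun t => (x t).2) hs h0 hp
        obtain ⟨t, h5, h6⟩ := (h4.and h3).exists
        exact h6.2.2.2.2.2.1 h5) I ?_
    · omega
    · intro j hj
      rw [hdotlam j (fun t => (x t).1), hdotlam j (fun t => (x t).2), ← map_pow, ← map_pow]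
      apply hpow
      exact h3.mono fun t ht => ht.2.2.2.2.2.2.1 j hj
  rcases Ultrafilter.eventually_or.1 hev with h1 | h1
  · obtain ⟨z, h3⟩ := Filter.skolem.1 h1
    obtain ⟨a, a', haa, hp⟩ := hG.c5 (fun a => fun α => φ fun t => z t a α)
      (fun a => hcone (fun t => z t a) (h3.mono fun t ht => ht.1 a))
      (fun a => vec_ne_zero_ult (x := fun t => z t a) h0 (h3.mono fun t ht => ht.2.1 a))
      (fun a a' => hbase (fun t => z t a) (fun t => z t a') (h3.mono fun t ht => ht.2.2.1 a a'))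
      (fun a a' => by
        have htt : ∀ x : ∀ t, ι → L t, tt lam' b' e (fun α => φ fun t => x t α) =
            φ fun t => tt (fun j => τ t ∘ lamOf t j) (τ t ∘ bOf t) e (x t) := by
          intro x
          unfold tt
          simp only [hdotlam, b', ← map_pow, ← map_mul, ← map_sum]
          congr 1
          funext t
          rw [Finset.sum_apply]
          rfl
        rw [htt (fun t => z t a), htt (fun t => z t a')]
        apply hpow
        exact h3.mono fun t ht => ht.2.2.2.1 a a')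
    have h4 := prp_ult (x := fun t => z t a) (y := fun t => z t a') hs h0 hp
    obtain ⟨t, h5, h6⟩ := (h4.and h3).exists
    exact h6.2.2.2.2 a a' haa h5
  · obtain ⟨⟨D, D'⟩, h2⟩ := ult_pigeon U h1
    obtain ⟨x, h3⟩ := Filter.skolem.1 h2
    refine hG.c7 (fun α => φ fun t => (x t).1 α) (fun α => φ fun t => (x t).2 α)
      (hcone (fun t => (x t).1) (h3.mono fun t ht => ht.1))
      (hcone (fun t => (x t).2) (h3.mono fun t ht => ht.2.1))
      (vec_ne_zero_ult (x := fun t => (x t).1) h0 (h3.mono fun t ht => ht.2.2.1))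
      (vec_ne_zero_ult (x := fun t => (x t).2) h0 (h3.mono fun t ht => ht.2.2.2.1))
      (hbase (fun t => (x t).1) (fun t => (x t).2) (h3.mono fun t ht => ht.2.2.2.2.1)) D D' ?_ ?_
    · intro a
      have h4 : ∑ j, b' j * (vec lam' e (D a) (fun α => φ fun t => (x t).1 α) j -
          vec lam' e (D' a) (fun α => φ fun t => (x t).2 α) j) =
          φ fun t => ∑ j, (τ t ∘ bOf t) j * (vec (fun j => τ t ∘ lamOf t j) e (D a) (x t).1 j -
            vec (fun j => τ t ∘ lamOf t j) e (D' a) (x t).2 j) := by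
        simp only [hvec (D a) (fun t => (x t).1), hvec (D' a) (fun t => (x t).2), b',
          ← map_sub, ← map_mul, ← map_sum]
        congr 1
        funext t
        rw [Finset.sum_apply]
        rfl
      rw [h4, h0]
      exact h3.mono fun t ht => ht.2.2.2.2.2.1 a
    · have h4 : (fun (a : Fin (m + 1)) => fun (j : Fin M) =>
          vec lam' e (D a) (fun α => φ fun t => (x t).1 α) j -
          vec lam' e (D' a) (fun α => φ fun t => (x t).2 α) j) =
          fun a => fun j => φ fun t =>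
            (vec (fun j => τ t ∘ lamOf t j) e (D a) (x t).1 j -
            vec (fun j => τ t ∘ lamOf t j) e (D' a) (x t).2 j) := by
        funext a j
        rw [hvec (D a) (fun t => (x t).1), hvec (D' a) (fun t => (x t).2), ← map_sub]
        rfl
      rw [h4]
      exact li_ult hs h0 (h3.mono fun t ht => ht.2.2.2.2.2.2)

end Pool.Agent.Lib.MP_627a61_nt.Hy
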