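import Pool.Agent.Lib.MP_627a61_nt.Hy.B_gen9

/-!
# HYP: multiple loci for generic parameters, one field and specialisation
-/

set_option autoImplicit false

open MvPolynomial Filter

namespace Pool.Agent.Lib.MP_627a61_nt.Hy

universe u v w

/-- `r + 1` pairwise non proportional points of the cone with the same image have transcendence
degree at most `m - r` -/
def P9 {ι k L : Type*} [Fintype ι] [Field k] [Field L] (τ : k →+* L) (S : Set (MvPolynomial ι k))
    (e m : ℕ) {M : ℕ} (l : Fin (m + 1) → ι → L) (lam : Fin M → ι → L) (b : Fin M → L) : Prop :=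
  ∀ (r s : ℕ) (z : Fin (r + 1) → ι → L), (∀ a, InCone τ S (z a)) → (∀ a, z a ≠ 0) →
    (∀ a a', SameBase l e (z a) (z a')) → (∀ a a', tt lam b e (z a) = tt lam b e (z a')) →
    (∀ a a', a ≠ a' → ¬ Prp (z a) (z a')) → ∀ (β : ι) (α : Fin s → ι), z 0 β ≠ 0 →
    (∀ Q : MvPolynomial (Fin s) k, Q.eval₂ τ (fun i => z 0 (α i) / z 0 β) = 0 → Q = 0) →
    r + s ≤ m

section
variable {k : Type u} {Ω : Type v} [Field k] [Field Ω] [Algebra k Ω]
variable {ι : Type} [Fintype ι] {M : ℕ}

/-- one field, with independent parameters -/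
theorem good9Om (hPOW : S_POW.{v}) [CharZero Ω] {S : Set (MvPolynomial ι k)}
    (hS : ∀ P ∈ S, ∃ n, P.IsHomogeneous n)
    {m : ℕ} {l : Fin (m + 1) → ι → k} {d : ι → ℕ}
    {P : ι → Polynomial (MvPolynomial (Fin (m + 1)) k)} (hP : ∀ α, PShape (P α) (d α))
    (hv : ∀ x : ι → Ω, InCone (algebraMap k Ω) S x → ∀ α,
      pval (algebraMap k Ω) (P α) (fun i => dot (algebraMap k Ω ∘ l i) x) (x α) = 0)
    (hM : 2 * m + 1 < M) {e : ℕ} (he : m + 2 ≤ e)
    {lam : Fin M → ι → Ω} {b : Fin M → Ω} {r s : ℕ} (hr : r ≤ m + 1) (z : Fin (r + 1) → ι → Ω)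
    (β : ι) (α : Fin s → ι)
    (hpar : AlgebraicIndependent k (Sum.elim (Sum.elim (fun p : Fin M × ι => lam p.1 p.2) b)
      (fun i => z 0 (α i) / z 0 β)))
    (hz : ∀ a, InCone (algebraMap k Ω) S (z a)) (hz0 : ∀ a, z a ≠ 0)
    (hb : ∀ a a', SameBase (fun i => algebraMap k Ω ∘ l i) e (z a) (z a'))
    (ht : ∀ a a', tt lam b e (z a) = tt lam b e (z a'))
    (hnp : ∀ a a', a ≠ a' → ¬ Prp (z a) (z a')) : r + s ≤ m := by
  obtain ⟨c, hc, U, hU, hUm, hall⟩ := exists_scale hS hP hv (e := e) (by omega) (hz 0) (hz0 0)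
  refine good_c9 hPOW hpar hU hUm ?_ hM hr he (z := fun a => c • z a)
    (fun a => hall (z a) (hz a) (hb 0 a)) (fun a => smul_ne_zero hc (hz0 a)) (fun a a' => ?_)
    (fun a a' haa h => hnp a a' haa (prp_of_smul hc h))
  · intro i
    have h1 : z 0 (α i) / z 0 β = (c • z 0) (α i) / (c • z 0) β := by
      rw [Pi.smul_apply, Pi.smul_apply, smul_eq_mul, smul_eq_mul, mul_div_mul_left _ _ hc]
    rw [h1]
    exact div_mem (hall (z 0) (hz 0) (hb 0 0) _) (hall (z 0) (hz 0) (hb 0 0) _)
  · have hts : ∀ a, tt lam b e (c • z a) = c ^ e * tt lam b e (z a) := by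
      intro a
      unfold tt
      rw [Finset.mul_sum]
      refine Finset.sum_congr rfl fun j _ => ?_
      rw [dot_smul, mul_pow]
      ring
    rw [hts, hts, ht a a']

end

/-- specialisation: a nonzero polynomial in the parameters and an independent family stays nonzero
outside a hypersurface of parameters -/
lemma spec_ne {k : Type u} [Field k] {T : Type} {s : ℕ} (p : MvPolynomial (T ⊕ Fin s) k)
    (hp : p ≠ 0) : ∃ g : MvPolynomial T k, g ≠ 0 ∧ ∀ t : T → k, eval t g ≠ 0 →
      ∀ (L : Type v) [Field L] (τ : k →+* L) (w : Fin s → L),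
        (∀ Q : MvPolynomial (Fin s) k, Q.eval₂ τ w = 0 → Q = 0) →
        p.eval₂ τ (Sum.elim (fun i => τ (t i)) w) ≠ 0 := by
  classical
  set q : MvPolynomial (Fin s) (MvPolynomial T k) :=
    sumAlgEquiv k (Fin s) T (rename Sum.swap p) with hq
  have hq0 : q ≠ 0 := by
    intro h
    have h1 : rename (Sum.swap : T ⊕ Fin s → Fin s ⊕ T) p = 0 :=
      (sumAlgEquiv k (Fin s) T).injective (by rw [map_zero]; exact h)
    exact hp (rename_injective _ Sum.swap_leftInverse.injective (by rw [h1, map_zero]))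
  obtain ⟨μ, hμ⟩ : ∃ μ, coeff μ q ≠ 0 := by
    by_contra hn
    push Not at hn
    exact hq0 (MvPolynomial.ext _ _ fun μ => by rw [hn μ, coeff_zero])
  refine ⟨coeff μ q, hμ, fun t ht L _ τ w hw h0 => ?_⟩
  have key : ∀ p : MvPolynomial (T ⊕ Fin s) k, p.eval₂ τ (Sum.elim (fun i => τ (t i)) w) =
      (map (eval t) (sumAlgEquiv k (Fin s) T (rename Sum.swap p))).eval₂ τ w := by
    intro p
    induction p using MvPolynomial.induction_on with
    | C a =>
      rw [eval₂_C, rename_C, sumAlgEquiv_C_inl]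
      simp
    | add p q hp hq => rw [eval₂_add, hp, hq, map_add, map_add, map_add, eval₂_add]
    | mul_X p i hp =>
      rw [eval₂_mul, hp, map_mul, map_mul, map_mul, eval₂_mul, eval₂_X, rename_X]
      congr 1
      rcases i with i | i
      · simp
      · simp
  have h1 := hw _ ((key p).symm.trans h0)
  apply ht
  have h2 := congrArg (coeff μ) h1
  rw [coeff_map, coeff_zero] at h2
  exact h2

end Pool.Agent.Lib.MP_627a61_nt.Hy
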