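import Pool.Agent.Lib.MP_627a61_nt.Hy.GStm

/-!
# HYP: algebraic closure operator and the exchange lemma
-/

set_option autoImplicit false

open MvPolynomial Filter

namespace Pool.Agent.Lib.MP_627a61_nt.Hy

universe u v w

section
variable {k : Type u} {Ω : Type v} [Field k] [Field Ω] [Algebra k Ω]

/-- elements algebraic over `k(s)` -/
noncomputable def cl (k : Type u) {Ω : Type v} [Field k] [Field Ω] [Algebra k Ω] (s : Set Ω) :
    IntermediateField k Ω :=
  (algebraicClosure (IntermediateField.adjoin k s) Ω).restrictScalars k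

lemma mem_cl {s : Set Ω} {a : Ω} :
    a ∈ cl k s ↔ IsAlgebraic (IntermediateField.adjoin k s) a := by
  rw [cl, IntermediateField.mem_restrictScalars, mem_algebraicClosure_iff]

lemma subset_cl (s : Set Ω) : s ⊆ cl k s := by
  intro a ha
  have : a ∈ cl k s := by
    rw [mem_cl]
    exact isAlgebraic_algebraMap (⟨a, IntermediateField.subset_adjoin k s ha⟩ :
      IntermediateField.adjoin k s)
  exact this

lemma isAlgebraic_of_cl {s : Set Ω} {a : Ω} (h : IsAlgebraic (cl k s) a) : a ∈ cl k s := by
  have h1 : IsAlgebraic (algebraicClosure (IntermediateField.adjoin k s) Ω) a := h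
  have h2 : IsAlgebraic (IntermediateField.adjoin k s) a := by
    have : Algebra.IsAlgebraic (IntermediateField.adjoin k s)
      (algebraicClosure (IntermediateField.adjoin k s) Ω) := inferInstance
    exact h1.restrictScalars (IntermediateField.adjoin k s)
  rwa [← mem_cl] at h2

lemma cl_le {s t : Set Ω} (h : s ⊆ cl k t) : cl k s ≤ cl k t := by
  intro a ha
  rw [mem_cl] at ha
  have h1 : IntermediateField.adjoin k s ≤ cl k t := IntermediateField.adjoin_le_iff.2 h
  apply isAlgebraic_of_cl
  let _ : Algebra (IntermediateField.adjoin k s) (cl k t) :=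
    (IntermediateField.inclusion h1).toAlgebra
  have _ : IsScalarTower (IntermediateField.adjoin k s) (cl k t) Ω :=
    IsScalarTower.of_algebraMap_eq fun x => rfl
  exact ha.tower_top (cl k t)

lemma cl_mono {s t : Set Ω} (h : s ⊆ t) : cl k s ≤ cl k t :=
  cl_le (h.trans (subset_cl t))

/-- a root of a nonzero polynomial with coefficients in `cl s` is in `cl s` -/
lemma mem_cl_of_root {s : Set Ω} {a : Ω} (p : Polynomial Ω) (hp : p ≠ 0)
    (hc : ∀ n, p.coeff n ∈ cl k s) (h : p.eval a = 0) : a ∈ cl k s := by
  apply isAlgebraic_of_cl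
  have hl : p ∈ Polynomial.lifts (algebraMap (cl k s) Ω) := by
    rw [Polynomial.lifts_iff_coeff_lifts]
    intro n
    exact ⟨⟨p.coeff n, hc n⟩, rfl⟩
  rw [Polynomial.mem_lifts] at hl
  obtain ⟨q, hq⟩ := hl
  refine ⟨q, ?_, ?_⟩
  · rintro rfl
    rw [Polynomial.map_zero] at hq
    exact hp hq.symm
  · rw [Polynomial.aeval_def, ← Polynomial.eval_map, hq, h]

/-- the exchange lemma -/
lemma card_le_of_subset_cl {T : Type} [Fintype T] {t : T → Ω} (ht : AlgebraicIndependent k t)
    {G : Set Ω} (hG : G.Finite) (h : Set.range t ⊆ cl k G) : Fintype.card T ≤ G.ncard := by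
  classical
  have hinj : Function.Injective t := ht.injective
  have hI : (AlgebraicIndependent.matroid k Ω).Indep (Set.range t) := by
    rw [AlgebraicIndependent.matroid_indep_iff]
    exact ht.coe_range
  have hcl : Set.range t ⊆ (AlgebraicIndependent.matroid k Ω).closure G := by
    rw [AlgebraicIndependent.matroid_closure_eq]
    intro a ha
    have h1 := h ha
    have h2 : a ∈ cl k G := h1
    rw [mem_cl] at h2
    have h3 : IsAlgebraic (Algebra.adjoin k G) a := by
      exact IntermediateField.isAlgebraic_adjoin_iff.1 h2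
    exact h3
  have h1 : (Set.range t).encard ≤ (AlgebraicIndependent.matroid k Ω).eRk G := by
    have := hI.encard_le_eRk_of_subset hcl
    rwa [Matroid.eRk_closure_eq] at this
  have h2 : (Set.range t).encard ≤ G.encard := h1.trans (Matroid.eRk_le_encard _ _)
  rw [← hG.cast_ncard_eq, ← Set.image_univ, hinj.encard_image, Set.encard_univ,
    ENat.card_eq_coe_fintype_card] at h2
  exact_mod_cast h2

end

end Pool.Agent.Lib.MP_627a61_nt.Hy
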