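import Pool.Agent.Lib.MP_627a61_nt.Hy.Defs

/-!
# HYP, Wronskians in a differential field: definitions

`L` is a field with a derivation `δ : Derivation ℂ L L`; `h i`, `i : P`, are nonzero elements of
`L` (the values of the linear forms), the relations are those between the powers `h i ^ e`.
-/

namespace Pool.Agent.Lib.MP_627a61_nt.Hy

variable {L : Type} [Field L] [Algebra ℂ L]

/-- Wronskian of `f 0, ..., f (N-1)` -/
noncomputable def wrD (δ : Derivation ℂ L L) {N : ℕ} (f : Fin N → L) : L :=
  Matrix.det (Matrix.of fun i j : Fin N => δ^[(j : ℕ)] (f i))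

/-- the Wronskian of the `e`-th powers of `h 0, ..., h N`, divided by `∏ h k ^ (e - N)` -/
noncomputable def VD (δ : Derivation ℂ L L) (e : ℕ) {N : ℕ} (h : Fin (N + 1) → L) : L :=
  wrD δ (fun k => h k ^ e) / ∏ k, h k ^ (e - N)

/-- combinatorial data of a component of the relation graph of vectors `X i, i : P`: the
component `D`, a basis `X (bs k)` of the span of `X i, i ∈ D`, and the coefficients of `X i` in
this basis. -/
structure CompData (P : Type) where
  D : Finset P
  N : ℕ
  bs : Fin (N + 1) → P
  c : P → Fin (N + 1) → ℂ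

section
variable {P : Type}

/-- the edges `(i, k)`: `i ∈ D` is not in the basis, `X (bs k)` occurs in `X i` -/
noncomputable def CompData.edges (τ : CompData P) : Finset (P × Fin (τ.N + 1)) := by
  classical
  exact (τ.D ×ˢ Finset.univ).filter fun p => (∀ k, τ.bs k ≠ p.1) ∧ τ.c p.1 p.2 ≠ 0

/-- adjacency in the bipartite graph -/
def CompData.Adj (τ : CompData P) (i j : P) : Prop :=
  ∃ p ∈ τ.edges, (i = p.1 ∧ j = τ.bs p.2) ∨ (i = τ.bs p.2 ∧ j = p.1)

/-- the data describe a connected component with at least two elements -/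
structure CompData.Valid (τ : CompData P) : Prop where
  inj : Function.Injective τ.bs
  mem : ∀ k, τ.bs k ∈ τ.D
  card : 2 ≤ τ.D.card
  conn : ∀ i ∈ τ.D, ∀ j ∈ τ.D, Relation.ReflTransGen τ.Adj i j

/-- number of Wronskians used -/
noncomputable def CompData.nV (τ : CompData P) : ℕ := 1 + τ.edges.card

/-- product of all divided Wronskians: the basis, and the basis with one exchange for every
edge -/
noncomputable def WpD (δ : Derivation ℂ L L) (e : ℕ) (τ : CompData P) (h : P → L) : L :=
  VD δ e (fun k => h (τ.bs k)) *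
    ∏ p ∈ τ.edges, VD δ e (Function.update (fun k => h (τ.bs k)) p.2 (h p.1))

/-- the relations described by `τ` hold for the `e`-th powers of the `h i` -/
structure RelD (e : ℕ) (τ : CompData P) (h : P → L) : Prop where
  rel : ∀ i ∈ τ.D, h i ^ e = ∑ k, algebraMap ℂ L (τ.c i k) * h (τ.bs k) ^ e
  ind : LinearIndependent ℂ fun k => h (τ.bs k) ^ e
  ne : ∀ i ∈ τ.D, h i ≠ 0

end

/-- the `2 M` values of the forms `lam` at two points -/
def hD {ι : Type} [Fintype ι] {M : ℕ} (lam : Fin M → ι → L) (y w : ι → L) : Fin M ⊕ Fin M → L :=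
  Sum.elim (fun j => dot (lam j) y) (fun j => dot (lam j) w)

end Pool.Agent.Lib.MP_627a61_nt.Hy
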