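import Pool.Agent.Lib.MP_627a61_nt.Hy.DDefs

/-!
# HYP, Wronskians in a differential field: statements

`theorem piece_X (pieces used) : S_X`.
-/

namespace Pool.Agent.Lib.MP_627a61_nt.Hy

/-- WNZ. Nonvanishing of the Wronskian. Proof. Induction on `N` for all families. If `wrD δ f = 0`
(`N + 1` functions) there is a nonzero `a : Fin (N + 1) → L` with `∑ a i δ^j (f i) = 0` for all
`j ≤ N` (rows dependent; `Matrix.exists_vecMul_eq_zero_iff`). Take `a` with minimal support (or: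
the subfamily without one index `i₀` with `a i₀ ≠ 0`), normalise `a i₀ = 1`. Apply `δ` to the
relations for `j < N` and subtract the relation for `j + 1`: `∑_{i ≠ i₀} δ(a i) δ^j (f i) = 0`
for `j < N`, so by the induction hypothesis (`wrD` of the `N` functions `f i, i ≠ i₀` is not 0,
as they are independent) `δ (a i) = 0` for all `i`, so `a i ∈ ℂ`: a linear relation between the
`f i`. -/
def S_WNZ : Prop := ∀ (L : Type) [Field L] [Algebra ℂ L] (δ : Derivation ℂ L L),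
  (∀ x, δ x = 0 → x ∈ Set.range (algebraMap ℂ L)) → ∀ (N : ℕ) (f : Fin N → L),
  LinearIndependent ℂ f → wrD δ f ≠ 0

/-- WEX. Replacing `f k` by a linear combination with constant coefficients (`δ^j` is
`ℂ`-linear; the determinant is linear in row `k` and vanishes if two rows agree). -/
def S_WEX : Prop := ∀ (L : Type) [Field L] [Algebra ℂ L] (δ : Derivation ℂ L L) (N : ℕ)
  (f : Fin N → L) (g : L) (c : Fin N → ℂ) (k : Fin N), g = ∑ i, algebraMap ℂ L (c i) * f i →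
  wrD δ (Function.update f k g) = algebraMap ℂ L (c k) * wrD δ f

/-- WHOM. `W(g f_0, ..., g f_(N-1)) = g ^ N W(f)`. Leibniz: the matrix of `g f` is the matrix of
`f` times a triangular matrix with diagonal `g` (`(δ^j (g f)) = ∑ choose(j, i) δ^(j-i) g δ^i f`,
`Derivation.leibniz` iterated; or induction). -/
def S_WHOM : Prop := ∀ (L : Type) [Field L] [Algebra ℂ L] (δ : Derivation ℂ L L) (N : ℕ)
  (f : Fin N → L) (g : L), wrD δ (fun k => g * f k) = g ^ N * wrD δ f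

/-- WSC. `W_{g δ}(f) = g ^ (N (N-1) / 2) W_δ(f)`, stated for `N + 1` functions. Here `g • δ` is
the derivation `x ↦ g δ x`; `(g δ)^j = g^j δ^j +` a combination of `δ^i`, `i < j`, with
coefficients in `L` independent of the function: triangular matrix with diagonal `g ^ j`. -/
def S_WSC : Prop := ∀ (L : Type) [Field L] [Algebra ℂ L] (δ : Derivation ℂ L L) (N : ℕ)
  (f : Fin (N + 1) → L) (g : L),
  wrD (g • δ) f = g ^ (N * (N + 1) / 2) * wrD δ f

/-- VMEM. Divided Wronskians are in a `δ`-stable algebra: for `h ∈ A` and `j ≤ e` one has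
`δ^j (h ^ e) = h ^ (e - j) p_j` with `p_j ∈ A` (`p_0 = 1`, `p_(j+1) = (e - j) δ(h) p_j +
h δ(p_j)`); so for `j ≤ N ≤ e` the entry divided by `h ^ (e - N)` is `h ^ (N - j) p_j ∈ A`;
divide row `k` by `h k ^ (e - N)` (`Matrix.det_mul_row` or similar). -/
def S_VMEM : Prop := ∀ (L : Type) [Field L] [Algebra ℂ L] (δ : Derivation ℂ L L)
  (A : Subalgebra ℂ L), (∀ a ∈ A, δ a ∈ A) → ∀ (e N : ℕ), N ≤ e → ∀ h : Fin (N + 1) → L,
  (∀ k, h k ∈ A) → (∀ k, h k ≠ 0) → VD δ e h ∈ A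

/-- VSC. Scaling of the divided Wronskian: `VD (g δ) e (a h) = g ^ (N (N+1)/2) a ^ (N (N+1))
VD δ e h` (WSC; WHOM with `a ^ e`; `e (N+1) - (e-N) (N+1) = N (N+1)`). -/
def S_VSC : Prop := ∀ (L : Type) [Field L] [Algebra ℂ L] (δ : Derivation ℂ L L) (e N : ℕ),
  N ≤ e → ∀ (h : Fin (N + 1) → L) (g a : L), a ≠ 0 →
  VD (g • δ) e (fun k => a * h k) = g ^ (N * (N + 1) / 2) * a ^ (N * (N + 1)) * VD δ e h

/-- WPNZ. `WpD ≠ 0` (WNZ for the basis; WEX and `c_ik ≠ 0` for the exchanged ones). -/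
def S_WPNZ : Prop := ∀ (L : Type) [Field L] [Algebra ℂ L] (δ : Derivation ℂ L L),
  (∀ x, δ x = 0 → x ∈ Set.range (algebraMap ℂ L)) → ∀ (P : Type) (e : ℕ) (τ : CompData P)
  (h : P → L), τ.Valid → RelD e τ h → WpD δ e τ h ≠ 0

/-- WPSC. Scaling of `WpD` (VSC for every factor, `nV` factors). -/
def S_WPSC : Prop := ∀ (L : Type) [Field L] [Algebra ℂ L] (δ : Derivation ℂ L L)
  (P : Type) (e : ℕ) (τ : CompData P), τ.N ≤ e → ∀ (h : P → L) (g a : L), a ≠ 0 →
  WpD (g • δ) e τ (fun i => a * h i) =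
    (g ^ (τ.N * (τ.N + 1) / 2) * a ^ (τ.N * (τ.N + 1))) ^ τ.nV * WpD δ e τ h

/-- WPMEM (VMEM for every factor). -/
def S_WPMEM : Prop := ∀ (L : Type) [Field L] [Algebra ℂ L] (δ : Derivation ℂ L L)
  (A : Subalgebra ℂ L), (∀ a ∈ A, δ a ∈ A) → ∀ (P : Type) (e : ℕ) (τ : CompData P)
  (h : P → L), τ.N ≤ e → τ.Valid → (∀ i ∈ τ.D, h i ∈ A) → (∀ i ∈ τ.D, h i ≠ 0) →
  WpD δ e τ h ∈ A

/-- CHAIN. Let `V₀ = VD (h ∘ bs)` and `V_p`, `p = (i, k) ∈ edges`, the one with `bs k` replaced by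
`i`. By WEX and the relation for `i`: `V_p h_i^(e-N) = c_ik V₀ h_(bs k)^(e-N)`. Hence for
adjacent `j, j'` there is `z ∈ A` with `WpD * h_(j')^(e-N) = z * h_j^(e-N)` (`z` = constant times
a product of `V`'s, all in `A` by VMEM; `c_ik⁻¹` is a constant). Along a path of length
`n ≤ |D| - 1` from `j` to `i₀` (all vertices of a path are in `D`): `WpD^n * h_(i₀)^(e-N) =
z * h_j^(e-N)` with `z ∈ A`; multiply by `WpD^(|D| - n) ∈ A`. -/
def S_CHAIN : Prop := ∀ (L : Type) [Field L] [Algebra ℂ L] (δ : Derivation ℂ L L)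
  (A : Subalgebra ℂ L), (∀ a ∈ A, δ a ∈ A) → ∀ (P : Type) (e : ℕ) (τ : CompData P)
  (h : P → L), τ.N ≤ e → τ.Valid → RelD e τ h → (∀ i ∈ τ.D, h i ∈ A) →
  ∀ i₀ ∈ τ.D, ∀ j ∈ τ.D, ∃ z ∈ A,
    WpD δ e τ h ^ τ.D.card * h i₀ ^ (e - τ.N) = z * h j ^ (e - τ.N)

/-- EXPD. The exponent is positive for large `e` (`N + 1 ≤ |D| ≤ 2 M`, `nV ≤ 1 + |D| (N + 1)`). -/
def S_EXPD : Prop := ∀ M Δ : ℕ, ∃ e₀ : ℕ, ∀ e ≥ e₀, ∀ τ : CompData (Fin M ⊕ Fin M), τ.Valid →
  τ.N ≤ e ∧ τ.D.card * (τ.nV * (τ.N * (τ.N + 1) * (1 + Δ))) + 1 ≤ e - τ.N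

/-- COMP. Take a maximal linearly independent subfamily `X_b, b ∈ B`, expand
`X_i = ∑ c_ib X_b`, join `i ∉ B` to `b` if `c_ib ≠ 0`. For a connected component `D` the span of
`X_i, i ∈ D` is the span of `X_b, b ∈ B ∩ D`, and these spans are independent, so every relation
splits. If a component has more than `k ≥ 1` elements take it (it has an edge, all its `X_i` are
nonzero); otherwise let `cl p` be a representative of the component of `p`. -/
def S_COMP : Prop := ∀ (P : Type) [Fintype P] [DecidableEq P] (V : Type) [AddCommGroup V]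
  [Module ℂ V] (X : P → V) (k : ℕ), 1 ≤ k →
  (∃ τ : CompData P, τ.Valid ∧ k < τ.D.card ∧ (∀ i ∈ τ.D, X i = ∑ j, τ.c i j • X (τ.bs j)) ∧
    LinearIndependent ℂ (fun j => X (τ.bs j)) ∧ ∀ i ∈ τ.D, X i ≠ 0) ∨
  (∃ cl : P → P, (∀ p, (Finset.univ.filter fun i => cl i = p).card ≤ k) ∧
    ∀ r : P → ℂ, ∑ i, r i • X i = 0 →
      ∀ p, ∑ i ∈ Finset.univ.filter (fun i => cl i = p), r i • X i = 0)

/-- CASE2. For a class `p` let `u_p = X|D_p - X'|D'_p` with `D_p = {j | cl (inl j) = p}`,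
`D'_p = {j | cl (inr j) = p}`: all `u_p` are orthogonal to `b`, so any `m + 1` of them are
dependent and `m` of them, `p ∈ Q`, span all; `X - X' = ∑ u_p` has its support in the union of
the supports of the `u_p`, `p ∈ Q`: at most `2 m ^ 2` indices; so `X j = X' j` for at least
`M - 2 m ^ 2 > m` indices. -/
def S_CASE2 : Prop := ∀ (K : Type) [Field K] (m M : ℕ) (b X X' : Fin M → K)
  (cl : Fin M ⊕ Fin M → Fin M ⊕ Fin M), 2 * m ^ 2 + m < M →
  (∀ p, (Finset.univ.filter fun i => cl i = p).card ≤ 2 * m) →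
  (∀ p, ∑ j ∈ Finset.univ.filter (fun j => cl (Sum.inl j) = p), b j * X j -
    ∑ j ∈ Finset.univ.filter (fun j => cl (Sum.inr j) = p), b j * X' j = 0) →
  (∀ D D' : Fin (m + 1) → Finset (Fin M),
    (∀ a, ∑ j, b j * ((if j ∈ D a then X j else 0) - (if j ∈ D' a then X' j else 0)) = 0) →
    ¬ LinearIndependent K (fun (a : Fin (m + 1)) (j : Fin M) =>
      (if j ∈ D a then X j else 0) - (if j ∈ D' a then X' j else 0))) →
  (∀ I : Finset (Fin M), (∀ j ∈ I, X j = X' j) → I.card ≤ m) → False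

/-- DICH. For two non proportional points `y, w` over the same base with the same `t`: COMP for
the `2 M` vectors `h i ^ e` in the `ℂ`-vector space `L`, `k = 2 m`; the second alternative is
impossible by CASE2 (`b` has constant coefficients, `(b, -b)` is a relation), (C3), (C7). -/
def S_DICH : Prop := ∀ (L : Type) [Field L] [Algebra ℂ L] (ι : Type) [Fintype ι] (e m M : ℕ)
  (Z : (ι → L) → Prop) (l : Fin (m + 1) → ι → L) (lam : Fin M → ι → L) (b : Fin M → ℂ),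
  1 ≤ m → 1 ≤ e → 2 * m ^ 2 + m < M → Good e Z l lam (fun j => algebraMap ℂ L (b j)) →
  ∀ y w : ι → L, Z y → Z w → y ≠ 0 → w ≠ 0 → SameBase l e y w → ¬ Prp y w →
  tt lam (fun j => algebraMap ℂ L (b j)) e y = tt lam (fun j => algebraMap ℂ L (b j)) e w →
  ∃ τ : CompData (Fin M ⊕ Fin M), τ.Valid ∧ 2 * m < τ.D.card ∧ RelD e τ (hD lam y w)

end Pool.Agent.Lib.MP_627a61_nt.Hy
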