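import Pool.Agent.Lib.MP_627a61_nt.Hy.DStm

/-!
# HYP: products of all divided Wronskians (pieces WPNZ, WPSC, WPMEM)
-/

namespace Pool.Agent.Lib.MP_627a61_nt.Hy

theorem wp_edge {P : Type} {τ : CompData P} {p : P × Fin (τ.N + 1)} (hp : p ∈ τ.edges) :
    p.1 ∈ τ.D ∧ τ.c p.1 p.2 ≠ 0 := by
  classical
  unfold CompData.edges at hp
  rw [Finset.mem_filter] at hp
  refine ⟨(Finset.mem_product.1 hp.1).1, hp.2.2⟩

theorem wp_upd_ne {P L : Type} [Field L] {τ : CompData P} (hτ : τ.Valid) {h : P → L}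
    (hne : ∀ i ∈ τ.D, h i ≠ 0) {p : P × Fin (τ.N + 1)} (hp : p ∈ τ.edges) (k : Fin (τ.N + 1)) :
    Function.update (fun k => h (τ.bs k)) p.2 (h p.1) k ≠ 0 := by
  by_cases hk : k = p.2
  · subst hk
    rw [Function.update_self]
    exact hne _ (wp_edge hp).1
  · rw [Function.update_of_ne hk]
    exact hne _ (hτ.mem k)

theorem piece_WPNZ (h1 : S_WNZ) (h2 : S_WEX) : S_WPNZ := by
  intro L _ _ δ hδ P e τ h hτ hR
  have hb : wrD δ (fun k => h (τ.bs k) ^ e) ≠ 0 := h1 L δ hδ _ _ hR.ind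
  unfold WpD
  refine mul_ne_zero ?_ (Finset.prod_ne_zero_iff.2 fun p hp => ?_)
  · unfold VD
    refine div_ne_zero hb (Finset.prod_ne_zero_iff.2 fun k _ => pow_ne_zero _ ?_)
    exact hR.ne _ (hτ.mem k)
  · unfold VD
    refine div_ne_zero ?_ (Finset.prod_ne_zero_iff.2 fun k _ => pow_ne_zero _ ?_)
    · have e1 : (fun k => Function.update (fun k => h (τ.bs k)) p.2 (h p.1) k ^ e) =
          Function.update (fun k => h (τ.bs k) ^ e) p.2 (h p.1 ^ e) := by
        funext k
        by_cases hk : k = p.2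
        · subst hk
          rw [Function.update_self, Function.update_self]
        · rw [Function.update_of_ne hk, Function.update_of_ne hk]
      rw [e1, h2 L δ (τ.N + 1) (fun k => h (τ.bs k) ^ e) (h p.1 ^ e) (τ.c p.1) p.2
        (hR.rel p.1 (wp_edge hp).1)]
      refine mul_ne_zero ?_ hb
      rw [map_ne_zero_iff _ (algebraMap ℂ L).injective]
      exact (wp_edge hp).2
    · exact wp_upd_ne hτ hR.ne hp k

theorem piece_WPSC (h : S_VSC) : S_WPSC := by
  intro L _ _ δ P e τ hN f g a ha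
  unfold WpD
  have e0 := h L δ e τ.N hN (fun k => f (τ.bs k)) g a ha
  have e1 : ∀ p ∈ τ.edges, VD (g • δ) e (Function.update (fun k => a * f (τ.bs k)) p.2 (a * f p.1)) =
      g ^ (τ.N * (τ.N + 1) / 2) * a ^ (τ.N * (τ.N + 1)) *
        VD δ e (Function.update (fun k => f (τ.bs k)) p.2 (f p.1)) := by
    intro p _
    rw [← h L δ e τ.N hN (Function.update (fun k => f (τ.bs k)) p.2 (f p.1)) g a ha]
    congr 1
    funext k
    by_cases hk : k = p.2
    · subst hk
      rw [Function.update_self, Function.update_self]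
    · rw [Function.update_of_ne hk, Function.update_of_ne hk]
  rw [Finset.prod_congr rfl e1, Finset.prod_mul_distrib, Finset.prod_const]
  have e2 : VD (g • δ) e (fun k => a * f (τ.bs k)) =
      g ^ (τ.N * (τ.N + 1) / 2) * a ^ (τ.N * (τ.N + 1)) * VD δ e (fun k => f (τ.bs k)) := e0
  rw [e2]
  unfold CompData.nV
  rw [pow_add, pow_one]
  ring

theorem piece_WPMEM (h : S_VMEM) : S_WPMEM := by
  intro L _ _ δ A hA P e τ f hN hτ hf hne
  unfold WpD
  refine A.mul_mem ?_ (A.prod_mem fun p hp => ?_)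
  · exact h L δ A hA e τ.N hN _ (fun k => hf _ (hτ.mem k)) (fun k => hne _ (hτ.mem k))
  · refine h L δ A hA e τ.N hN _ (fun k => ?_) (fun k => wp_upd_ne hτ hne hp k)
    by_cases hk : k = p.2
    · subst hk
      rw [Function.update_self]
      exact hf _ (wp_edge hp).1
    · rw [Function.update_of_ne hk]
      exact hf _ (hτ.mem k)

end Pool.Agent.Lib.MP_627a61_nt.Hy
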