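import Pool.Agent.Lib.MP_627a61_nt.Hy.DStm

namespace Pool.Agent.Lib.MP_627a61_nt.Hy

private lemma wp_comp_update {P L : Type} {N : ℕ} (h : P → L) (g : Fin N → P) (k : Fin N)
    (i : P) : Function.update (fun k => h (g k)) k (h i) =
      fun k' => h (Function.update g k i k') := by
  funext k'
  by_cases hk : k' = k
  · subst hk
    simp
  · simp [Function.update_of_ne hk]

theorem wpnz_fb (h1 : S_WNZ) (h2 : S_WEX) : S_WPNZ := by
  intro L _ _ δ hδ P e τ h hv hr
  have hprod : ∀ g : Fin (τ.N + 1) → P, (∀ k, g k ∈ τ.D) → ∏ k, h (g k) ^ (e - τ.N) ≠ 0 := by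
    intro g hg
    exact Finset.prod_ne_zero_iff.2 fun k _ => pow_ne_zero _ (hr.ne _ (hg k))
  have h0 : wrD δ (fun k => h (τ.bs k) ^ e) ≠ 0 := h1 L δ hδ _ _ hr.ind
  unfold WpD
  refine mul_ne_zero (div_ne_zero h0 (hprod τ.bs hv.mem)) ?_
  refine Finset.prod_ne_zero_iff.2 fun p hp => ?_
  classical
  unfold CompData.edges at hp
  rw [Finset.mem_filter, Finset.mem_product] at hp
  obtain ⟨⟨hpD, -⟩, -, hpc⟩ := hp
  rw [wp_comp_update]
  refine div_ne_zero ?_ (hprod _ fun k => ?_)
  · have h3 := h2 L δ (τ.N + 1) (fun k => h (τ.bs k) ^ e) (h p.1 ^ e) (τ.c p.1) p.2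
      (hr.rel p.1 hpD)
    have h4 : (fun k => h (Function.update τ.bs p.2 p.1 k) ^ e) =
        Function.update (fun k => h (τ.bs k) ^ e) p.2 (h p.1 ^ e) := by
      funext k'
      by_cases hk : k' = p.2
      · subst hk
        simp
      · simp [Function.update_of_ne hk]
    rw [h4, h3]
    exact mul_ne_zero (by rwa [ne_eq, map_eq_zero]) h0
  · by_cases hk : k = p.2
    · subst hk
      simpa using hpD
    · rw [Function.update_of_ne hk]
      exact hv.mem k

theorem wpsc_fb (h1 : S_VSC) : S_WPSC := by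
  intro L _ _ δ P e τ hN h g a ha
  unfold WpD CompData.nV
  have h2 : ∀ p : P × Fin (τ.N + 1), Function.update (fun k => a * h (τ.bs k)) p.2 (a * h p.1) =
      fun k => a * Function.update (fun k => h (τ.bs k)) p.2 (h p.1) k := by
    intro p
    funext k'
    by_cases hk : k' = p.2
    · subst hk
      simp
    · simp [Function.update_of_ne hk]
  rw [h1 L δ e τ.N hN _ g a ha]
  have h3 : ∏ p ∈ τ.edges, VD (g • δ) e (Function.update (fun k => a * h (τ.bs k)) p.2
      (a * h p.1)) = ∏ p ∈ τ.edges, ((g ^ (τ.N * (τ.N + 1) / 2) * a ^ (τ.N * (τ.N + 1))) *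
        VD δ e (Function.update (fun k => h (τ.bs k)) p.2 (h p.1))) := by
    refine Finset.prod_congr rfl fun p _ => ?_
    rw [h2 p, h1 L δ e τ.N hN _ g a ha]
  rw [h3, Finset.prod_mul_distrib, Finset.prod_const]
  ring

end Pool.Agent.Lib.MP_627a61_nt.Hy
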