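import Pool.Agent.Lib.MP_627a61_nt.Hy.TStm

/-!
# Project DIM/HYP: elementary facts on the map `Fm`
-/

open scoped LinearAlgebra.Projectivization Topology

namespace Pool.Agent.Lib.MP_627a61_nt.Hy

section
variable {ι k L : Type} [Fintype ι] [Field k] [Field L]

lemma eval₂_lin (τ : k →+* L) (a : ι → k) (x : ι → L) : (lin a).eval₂ τ x = dot (τ ∘ a) x := by
  unfold lin dot
  rw [MvPolynomial.eval₂_sum]
  exact Finset.sum_congr rfl fun i _ => by
    rw [MvPolynomial.eval₂_mul, MvPolynomial.eval₂_C, MvPolynomial.eval₂_X]; rfl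

lemma lin_homog (a : ι → k) : (lin a).IsHomogeneous 1 := by
  unfold lin
  refine MvPolynomial.IsHomogeneous.sum _ _ _ fun i _ => ?_
  have h1 := (MvPolynomial.isHomogeneous_C ι (a i)).mul (MvPolynomial.isHomogeneous_X k i)
  rwa [zero_add] at h1

variable {m M : ℕ} (l : Fin (m + 1) → ι → k) (lam : Fin M → ι → k) (b : Fin M → k) (e : ℕ)

lemma Fm_castSucc (i : Fin (m + 1)) : Fm l lam b e i.castSucc = lin (l i) ^ e := by
  unfold Fm
  rw [Fin.snoc_castSucc]

lemma Fm_last : Fm l lam b e (Fin.last (m + 1)) =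
    ∑ j, MvPolynomial.C (b j) * lin (lam j) ^ e := by
  unfold Fm
  rw [Fin.snoc_last]

lemma eval₂_Fm_castSucc (τ : k →+* L) (x : ι → L) (i : Fin (m + 1)) :
    (Fm l lam b e i.castSucc).eval₂ τ x = dot (τ ∘ l i) x ^ e := by
  rw [Fm_castSucc, MvPolynomial.eval₂_pow, eval₂_lin]

lemma eval₂_Fm_last (τ : k →+* L) (x : ι → L) :
    (Fm l lam b e (Fin.last (m + 1))).eval₂ τ x =
      tt (fun j => τ ∘ lam j) (τ ∘ b) e x := by
  rw [Fm_last, MvPolynomial.eval₂_sum]
  unfold tt
  exact Finset.sum_congr rfl fun j _ => by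
    rw [MvPolynomial.eval₂_mul, MvPolynomial.eval₂_C, MvPolynomial.eval₂_pow, eval₂_lin]; rfl

lemma Fm_homog (j : Fin (m + 2)) : (Fm l lam b e j).IsHomogeneous e := by
  have h1 : ∀ a : ι → k, (lin a ^ e).IsHomogeneous e := by
    intro a
    have := (lin_homog a).pow e
    rwa [one_mul] at this
  refine Fin.lastCases ?_ (fun i => ?_) j
  · rw [Fm_last]
    refine MvPolynomial.IsHomogeneous.sum _ _ _ fun i _ => ?_
    have h2 := (MvPolynomial.isHomogeneous_C ι (b i)).mul (h1 (lam i))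
    rwa [zero_add] at h2
  · rw [Fm_castSucc]
    exact h1 _

lemma Fm_nozero {S : Set (MvPolynomial ι k)} (hl : NoZero S l) (he : 1 ≤ e) (τ : k →+* L)
    (x : ι → L) (hx : InCone τ S x)
    (h0 : ∀ i : Fin (m + 1), (Fm l lam b e i.castSucc).eval₂ τ x = 0) : x = 0 := by
  refine hl L τ x hx fun i => ?_
  have h1 := h0 i
  rw [eval₂_Fm_castSucc] at h1
  exact pow_eq_zero_iff (by omega) |>.1 h1

end

/-- finitely many algebraic elements lie in a finite Galois extension -/
lemma exists_galois (K Ω ι : Type) [Field K] [CharZero K] [Field Ω] [Algebra K Ω]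
    [IsAlgClosure K Ω] [Finite ι] (x : ι → Ω) :
    ∃ (L : Type) (_ : Field L) (_ : Algebra K L) (_ : FiniteDimensional K L) (_ : IsGalois K L)
      (j : L →ₐ[K] Ω) (x' : ι → L), ∀ α, j (x' α) = x α := by
  have hint : ∀ z : Ω, IsIntegral K z := fun z =>
    ((IsAlgClosure.isAlgebraic (R := K) (K := Ω)).isAlgebraic z).isIntegral
  have : Fact (IsAlgClosed Ω) := ⟨IsAlgClosure.isAlgClosed K⟩
  have : IsAlgClosed Ω := IsAlgClosure.isAlgClosed K
  have : Algebra.IsAlgebraic K Ω := IsAlgClosure.isAlgebraic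
  have : Normal K Ω := IsAlgClosure.normal K Ω
  let L' := IntermediateField.adjoin K (Set.range x)
  have : FiniteDimensional K L' :=
    IntermediateField.finiteDimensional_adjoin fun z _ => hint z
  let N := IntermediateField.normalClosure K L' Ω
  have hle : L' ≤ N := IntermediateField.le_normalClosure L'
  refine ⟨N, inferInstance, inferInstance, inferInstance, ?_, N.val,
    fun α => ⟨x α, hle (IntermediateField.subset_adjoin K _ ⟨α, rfl⟩)⟩, fun α => rfl⟩
  exact {}

end Pool.Agent.Lib.MP_627a61_nt.Hy
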