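import Pool.Agent.Lib.MP_627a61_nt.Hy.Pt

/-!
# HYP: the conditions hold for generic parameters
-/

set_option autoImplicit false

open MvPolynomial Filter

namespace Pool.Agent.Lib.MP_627a61_nt.Hy

universe u v w

section
variable {k : Type u} {Ω : Type v} [Field k] [Field Ω] [Algebra k Ω]
variable {ι : Type} [Fintype ι] {M : ℕ}

/-- the parameters of the rows in `C` -/
def Lset (lam : Fin M → ι → Ω) (C : Finset (Fin M)) : Set Ω := {a | ∃ j ∈ C, ∃ β, lam j β = a}

lemma count {lam : Fin M → ι → Ω} {b : Fin M → Ω}
    (hpar : AlgebraicIndependent k (Sum.elim (fun p : Fin M × ι => lam p.1 p.2) b))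
    {U : Set Ω} (hU : U.Finite) {m : ℕ} (hUm : U.ncard ≤ m) (I C : Finset (Fin M))
    (hIC : ∀ i ∈ I, i ∉ C) (f : Fin M → ι)
    (h : ∀ i ∈ I, lam i (f i) ∈ cl k ((U ∪ Lset lam C) ∪ lam i '' {β | β ≠ f i})) :
    I.card ≤ m := by
  classical
  let g : Fin M → (Fin M × ι) ⊕ Fin M := fun i => Sum.inl (i, f i)
  have hg : Function.Injective g := by
    intro i j hij
    have := Sum.inl.inj hij
    exact congrArg Prod.fst this
  rw [← Finset.card_image_of_injective I hg]
  refine rows hpar hU hUm (I.image g) ?_
  intro p hp
  obtain ⟨i, hi, rfl⟩ := Finset.mem_image.1 hp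
  have h1 : Sum.elim (fun p : Fin M × ι => lam p.1 p.2) b (g i) = lam i (f i) := rfl
  rw [h1]
  refine cl_mono ?_ (h i hi)
  have hpmem : ∀ j β, (j ∉ I ∨ β ≠ f j) → lam j β ∈
      Sum.elim (fun p : Fin M × ι => lam p.1 p.2) b '' {q | q ∉ I.image g} := by
    intro j β hj
    refine ⟨Sum.inl (j, β), ?_, rfl⟩
    intro hmem
    obtain ⟨i', hi', hg'⟩ := Finset.mem_image.1 hmem
    have h2 : ((i', f i') : Fin M × ι) = (j, β) := Sum.inl.inj hg'
    have h3 : i' = j := congrArg Prod.fst h2
    have h4 : f i' = β := congrArg Prod.snd h2
    subst h3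
    rcases hj with hj | hj
    · exact hj hi'
    · exact hj h4.symm
  rintro a ((ha | ⟨j, hj, β, rfl⟩) | ⟨β, hβ, rfl⟩)
  · exact Or.inl ha
  · exact Or.inr (hpmem j β (Or.inl fun hjI => hIC j hjI hj))
  · exact Or.inr (hpmem i β (Or.inr hβ))

/-- vectors over the closure of the base and the rows which are orthogonal to `b` -/
lemma tr1 {lam : Fin M → ι → Ω} {b : Fin M → Ω}
    (hpar : AlgebraicIndependent k (Sum.elim (fun p : Fin M × ι => lam p.1 p.2) b))
    {U : Set Ω} (hU : U.Finite) {m : ℕ} (hUm : U.ncard ≤ m) {r : ℕ} (v : Fin r → Fin M → Ω)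
    (hv : ∀ a j, v a j ∈ cl k (U ∪ Lset lam Finset.univ))
    (hb : ∀ a, ∑ j, b j * v a j = 0) (hli : LinearIndependent Ω v) : r ≤ m := by
  classical
  set F : IntermediateField k Ω := cl k (U ∪ Lset lam Finset.univ) with hF
  let v' : Fin r → Fin M → F := fun a j => ⟨v a j, hv a j⟩
  let incl : (Fin M → F) →ₗ[F] (Fin M → Ω) :=
    { toFun := fun w j => (w j : Ω)
      map_add' := fun _ _ => rfl
      map_smul' := fun _ _ => rfl }
  have hv' : LinearIndependent F v' := by
    have h1 : LinearIndependent F v := hli.restrict_scalars' F
    have h2 : LinearIndependent F (incl ∘ v') := h1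
    exact h2.of_comp incl
  let fam : Finset (Fin M) → (Fin r ⊕ Fin M) → Prop := fun _ _ => True
  let ee : Fin M → Fin M → F := fun j => Pi.single j 1
  -- maximal extension by unit vectors
  let Pr : Finset (Fin M) → Prop := fun C =>
    LinearIndependent F (Sum.elim v' (fun j : C => ee j))
  obtain ⟨C, hC, hmax⟩ : ∃ C, Pr C ∧ ∀ C', Pr C' → C ⊆ C' → C' = C := by
    have h0 : Pr ∅ := by
      have : LinearIndependent F (Sum.elim v' (fun j : (∅ : Finset (Fin M)) => ee j)) := by
        rw [← linearIndependent_equiv (Equiv.sumEmpty (Fin r) (∅ : Finset (Fin M))).symm]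
        exact hv'
      exact this
    obtain ⟨C, hC1, hC2⟩ := (Finset.univ.filter Pr).exists_maximal
      ⟨∅, Finset.mem_filter.2 ⟨Finset.mem_univ _, h0⟩⟩
    refine ⟨C, (Finset.mem_filter.1 hC1).2, fun C' hC' hsub => ?_⟩
    exact (Finset.Subset.antisymm hsub
      (hC2 (Finset.mem_filter.2 ⟨Finset.mem_univ _, hC'⟩) hsub)).symm
  have hcard : r + C.card ≤ M := by
    have := hC.fintype_card_le_finrank
    rw [Fintype.card_sum, Fintype.card_fin, Fintype.card_coe, Module.finrank_fin_fun] at this
    exact this
  -- unit vectors outside `C` are in the span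
  have hspan : ∀ p, ee p ∈ Submodule.span F (Set.range (Sum.elim v' (fun j : C => ee j))) := by
    intro p
    by_cases hp : p ∈ C
    · exact Submodule.subset_span ⟨Sum.inr ⟨p, hp⟩, rfl⟩
    · by_contra hns
      have h1 : Pr (insert p C) := by
        have h2 : LinearIndependent F
            (Sum.elim (Sum.elim v' (fun j : C => ee j)) (fun _ : Unit => ee p)) := by
          refine LinearIndependent.sum_type hC ?_ ?_
          · refine LinearIndependent.of_subsingleton () ?_
            intro h0
            have := congrFun h0 p
            simp only [ee, Pi.single_eq_same, Pi.zero_apply] at this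
            exact one_ne_zero this
          · rw [Set.range_const]
            rw [Submodule.disjoint_span_singleton']
            · exact hns
            · intro h0
              have := congrFun h0 p
              simp only [ee, Pi.single_eq_same, Pi.zero_apply] at this
              exact one_ne_zero this
        let eqv : Fin r ⊕ (insert p C : Finset (Fin M)) → (Fin r ⊕ C) ⊕ Unit := fun q =>
          match q with
          | Sum.inl a => Sum.inl (Sum.inl a)
          | Sum.inr j => if h : (j : Fin M) ∈ C then Sum.inl (Sum.inr ⟨j, h⟩) else Sum.inr ()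
        have heq : Function.Injective eqv := by
          rintro (a | ⟨j, hj⟩) (a' | ⟨j', hj'⟩) h
          · have := Sum.inl.inj (Sum.inl.inj h)
            rw [this]
          · simp only [eqv] at h
            split_ifs at h
            exact absurd (Sum.inl.inj h) (by simp)
          · simp only [eqv] at h
            split_ifs at h
            exact absurd (Sum.inl.inj h) (by simp)
          · simp only [eqv] at h
            split_ifs at h with h1 h2 h2
            · have := congrArg Subtype.val (Sum.inr.inj (Sum.inl.inj h))
              simp only at this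
              subst this
              rfl
            · have e1 : j = p := by
                rcases Finset.mem_insert.1 hj with h3 | h3
                · exact h3
                · exact absurd h3 h1
              have e2 : j' = p := by
                rcases Finset.mem_insert.1 hj' with h3 | h3
                · exact h3
                · exact absurd h3 h2
              subst e1
              subst e2
              rfl
        have h3 := h2.comp eqv heq
        have h4 : (Sum.elim (Sum.elim v' (fun j : C => ee j)) (fun _ : Unit => ee p)) ∘ eqv =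
            Sum.elim v' (fun j : (insert p C : Finset (Fin M)) => ee j) := by
          funext q
          rcases q with a | ⟨j, hj⟩
          · rfl
          · simp only [Function.comp_apply, eqv, Sum.elim_inr]
            split_ifs with h5
            · rfl
            · have e1 : j = p := by
                rcases Finset.mem_insert.1 hj with h3 | h3
                · exact h3
                · exact absurd h3 h5
              subst e1
              rfl
        rw [h4] at h3
        exact h3
      have h5 := hmax _ h1 (Finset.subset_insert p C)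
      exact hp (h5 ▸ Finset.mem_insert_self p C)
  -- the functional
  set E : IntermediateField k Ω := cl k ((U ∪ Lset lam Finset.univ) ∪ b '' {j | j ∈ C}) with hE
  have hFE : F ≤ E := cl_mono Set.subset_union_left
  have hfun : ∀ w ∈ Submodule.span F (Set.range (Sum.elim v' (fun j : C => ee j))),
      ∑ j, b j * (w j : Ω) ∈ E := by
    intro w hw
    induction hw using Submodule.span_induction with
    | mem w hw =>
      obtain ⟨q, rfl⟩ := hw
      rcases q with a | ⟨j, hj⟩
      · have : ∑ j, b j * ((Sum.elim v' (fun j : C => ee j) (Sum.inl a) j : F) : Ω) = 0 := hb a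
        rw [this]
        exact zero_mem _
      · have : ∑ i, b i * ((Sum.elim v' (fun j : C => ee j) (Sum.inr ⟨j, hj⟩) i : F) : Ω) =
            b j := by
          rw [Finset.sum_eq_single j]
          · simp [ee]
          · intro i _ hij
            simp [ee, Pi.single_eq_of_ne hij]
          · intro h
            exact absurd (Finset.mem_univ j) h
        rw [this]
        exact subset_cl _ (Or.inr ⟨j, hj, rfl⟩)
    | zero => simp
    | add w w' _ _ h1 h2 =>
      have : ∑ j, b j * (((w + w') j : F) : Ω) =
          ∑ j, b j * ((w j : F) : Ω) + ∑ j, b j * ((w' j : F) : Ω) := by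
        rw [← Finset.sum_add_distrib]
        refine Finset.sum_congr rfl fun j _ => ?_
        rw [Pi.add_apply]
        push_cast
        ring
      rw [this]
      exact add_mem h1 h2
    | smul c w _ h1 =>
      have : ∑ j, b j * (((c • w) j : F) : Ω) = (c : Ω) * ∑ j, b j * ((w j : F) : Ω) := by
        rw [Finset.mul_sum]
        refine Finset.sum_congr rfl fun j _ => ?_
        rw [Pi.smul_apply, smul_eq_mul]
        push_cast
        ring
      rw [this]
      exact mul_mem (hFE c.2) h1
  -- count
  let g : Fin M → (Fin M × ι) ⊕ Fin M := Sum.inr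
  have hg : Function.Injective g := Sum.inr_injective
  have hrows := rows hpar hU hUm ((Finset.univ \ C).image g) ?_
  · rw [Finset.card_image_of_injective _ hg, Finset.card_sdiff_of_subset (Finset.subset_univ C),
      Finset.card_univ, Fintype.card_fin] at hrows
    omega
  · intro p hp
    obtain ⟨j, hj, rfl⟩ := Finset.mem_image.1 hp
    have h1 : Sum.elim (fun p : Fin M × ι => lam p.1 p.2) b (g j) = b j := rfl
    rw [h1]
    have h2 := hfun _ (hspan j)
    have h3 : ∑ i, b i * ((ee j i : F) : Ω) = b j := by
      rw [Finset.sum_eq_single j]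
      · simp [ee]
      · intro i _ hij
        simp [ee, Pi.single_eq_of_ne hij]
      · intro h
        exact absurd (Finset.mem_univ j) h
    rw [h3] at h2
    refine cl_mono ?_ h2
    rintro a ((ha | ⟨i, _, β, rfl⟩) | ⟨i, hi, rfl⟩)
    · exact Or.inl ha
    · refine Or.inr ⟨Sum.inl (i, β), ?_, rfl⟩
      intro hmem
      obtain ⟨i', _, hg'⟩ := Finset.mem_image.1 hmem
      exact absurd hg' (by simp [g])
    · refine Or.inr ⟨Sum.inr i, ?_, rfl⟩
      intro hmem
      obtain ⟨i', hi', hg'⟩ := Finset.mem_image.1 hmem
      have : i' = i := Sum.inr.inj hg'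
      subst this
      exact (Finset.mem_sdiff.1 hi').2 hi

end

end Pool.Agent.Lib.MP_627a61_nt.Hy
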