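import Pool.Agent.Lib.MP_627a61_nt.Hy.Gen

/-!
# HYP: the conditions (C1), (C3), (C5), (C7) for generic parameters
-/

set_option autoImplicit false

open MvPolynomial Filter

namespace Pool.Agent.Lib.MP_627a61_nt.Hy

universe u v w

section
variable {k : Type u} {Ω : Type v} [Field k] [Field Ω] [Algebra k Ω]
variable {ι : Type} [Fintype ι] {M : ℕ}

lemma exists_ne_of_ne_zero {x : ι → Ω} (hx : x ≠ 0) : ∃ α, x α ≠ 0 := by
  by_contra hn
  push Not at hn
  exact hx (funext hn)

lemma subset_union_Lset (U : Set Ω) (lam : Fin M → ι → Ω) (C : Finset (Fin M)) :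
    U ⊆ U ∪ Lset lam C := Set.subset_union_left

theorem good_c1 {lam : Fin M → ι → Ω} {b : Fin M → Ω}
    (hpar : AlgebraicIndependent k (Sum.elim (fun p : Fin M × ι => lam p.1 p.2) b))
    {U : Set Ω} (hU : U.Finite) {m : ℕ} (hUm : U.ncard ≤ m) {x : ι → Ω} (hx0 : x ≠ 0)
    (hx : ∀ α, x α ∈ cl k U) (I : Finset (Fin M)) (h : ∀ i ∈ I, dot (lam i) x = 0) :
    I.card ≤ m := by
  obtain ⟨α, hα⟩ := exists_ne_of_ne_zero hx0
  refine count hpar hU hUm I ∅ (fun i _ => Finset.notMem_empty i) (fun _ => α) ?_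
  intro i hi
  exact lin_cl (lam i) x (fun β => cl_mono (subset_union_Lset U lam ∅) (hx β)) hα (h i hi)

theorem good_c3 {lam : Fin M → ι → Ω} {b : Fin M → Ω}
    (hpar : AlgebraicIndependent k (Sum.elim (fun p : Fin M × ι => lam p.1 p.2) b))
    {U : Set Ω} (hU : U.Finite) {m : ℕ} (hUm : U.ncard ≤ m) {e : ℕ} (he : 1 ≤ e)
    {x y : ι → Ω}
    (hx : ∀ α, x α ∈ cl k U) (hy : ∀ α, y α ∈ cl k U) (hxy : ¬ Prp x y) (I : Finset (Fin M))
    (h : ∀ i ∈ I, dot (lam i) x ^ e = dot (lam i) y ^ e) :
    I.card ≤ m := by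
  classical
  have h1 : ∀ i : Fin M, i ∈ I → ∃ ζ : Ω, ζ ∈ cl k U ∧ dot (lam i) x = ζ * dot (lam i) y := by
    intro i hi
    by_cases h0 : dot (lam i) y = 0
    · refine ⟨1, one_mem _, ?_⟩
      have h2 := h i hi
      rw [h0, zero_pow (by omega)] at h2
      rw [h0, mul_zero]
      exact pow_eq_zero_iff (by omega) |>.1 h2
    · refine ⟨dot (lam i) x / dot (lam i) y, ?_, by rw [div_mul_cancel₀ _ h0]⟩
      refine mem_cl_of_pow he ?_
      rw [div_pow, h i hi, div_self (pow_ne_zero e h0)]
      exact one_mem _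
  choose! ζ hζ hζ' using h1
  have h2 : ∀ i : Fin M, ∃ α, (x - ζ i • y) α ≠ 0 := by
    intro i
    apply exists_ne_of_ne_zero
    intro h0
    exact hxy ⟨ζ i, sub_eq_zero.1 h0⟩
  choose f hf using h2
  refine count hpar hU hUm I ∅ (fun i _ => Finset.notMem_empty i) f ?_
  intro i hi
  refine lin_cl (lam i) (x - ζ i • y) (fun β => cl_mono (subset_union_Lset U lam ∅) ?_)
    (hf i) ?_
  · rw [Pi.sub_apply, Pi.smul_apply, smul_eq_mul]
    exact sub_mem (hx β) (mul_mem (hζ i hi) (hy β))
  · rw [dot_sub, dot_smul, hζ' i hi, sub_self]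

lemma dot_mem_cl {V : Set Ω} {a x : ι → Ω} (ha : ∀ β, a β ∈ cl k V) (hx : ∀ β, x β ∈ cl k V) :
    dot a x ∈ cl k V := sum_mem fun β _ => mul_mem (ha β) (hx β)

lemma lam_mem (lam : Fin M → ι → Ω) (U : Set Ω) {C : Finset (Fin M)} {j : Fin M} (hj : j ∈ C)
    (β : ι) : lam j β ∈ cl k (U ∪ Lset lam C) :=
  subset_cl _ (Or.inr ⟨j, hj, β, rfl⟩)

theorem good_c7 {lam : Fin M → ι → Ω} {b : Fin M → Ω}
    (hpar : AlgebraicIndependent k (Sum.elim (fun p : Fin M × ι => lam p.1 p.2) b))
    {U : Set Ω} (hU : U.Finite) {m : ℕ} (hUm : U.ncard ≤ m) {e : ℕ}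
    {x y : ι → Ω}
    (hx : ∀ α, x α ∈ cl k U) (hy : ∀ α, y α ∈ cl k U)
    (D D' : Fin (m + 1) → Finset (Fin M))
    (h : ∀ a, ∑ j, b j * (vec lam e (D a) x j - vec lam e (D' a) y j) = 0) :
    ¬ LinearIndependent Ω fun a => fun j => vec lam e (D a) x j - vec lam e (D' a) y j := by
  intro hli
  have hvec : ∀ (D : Finset (Fin M)) (x : ι → Ω), (∀ α, x α ∈ cl k U) → ∀ j,
      vec lam e D x j ∈ cl k (U ∪ Lset lam Finset.univ) := by
    intro D x hx j
    unfold vec
    split_ifs
    · exact pow_mem (dot_mem_cl (lam_mem lam U (Finset.mem_univ j))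
        (fun β => cl_mono (subset_union_Lset U lam _) (hx β))) e
    · exact zero_mem _
  have := tr1 hpar hU hUm (fun a => fun j => vec lam e (D a) x j - vec lam e (D' a) y j)
    (fun a j => sub_mem (hvec _ x hx j) (hvec _ y hy j)) h hli
  omega

/-- power vectors of pairwise non proportional points are independent -/
theorem c6 (hPOW : S_POW.{v}) [CharZero Ω] {lam : Fin M → ι → Ω} {b : Fin M → Ω}
    (hpar : AlgebraicIndependent k (Sum.elim (fun p : Fin M × ι => lam p.1 p.2) b))
    {U : Set Ω} (hU : U.Finite) {m : ℕ} (hUm : U.ncard ≤ m) (hM : 2 * m + 1 < M) {e : ℕ}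
    (he : m + 2 ≤ e) {z : Fin (m + 2) → ι → Ω} (hz : ∀ a α, z a α ∈ cl k U)
    (hz0 : ∀ a, z a ≠ 0) (hnp : ∀ a a', a ≠ a' → ¬ Prp (z a) (z a')) :
    LinearIndependent Ω fun a : Fin (m + 2) => fun j : Fin M => dot (lam j) (z a) ^ e := by
  classical
  by_contra hdep
  rw [Fintype.not_linearIndependent_iff] at hdep
  obtain ⟨c', hc', a₁, ha₁⟩ := hdep
  let col : Fin M → Fin (m + 2) → Ω := fun j a => dot (lam j) (z a) ^ e
  have hcol : ∀ j, ∑ a, c' a * col j a = 0 := by
    intro j
    have := congrFun hc' j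
    rw [Finset.sum_apply] at this
    exact this
  let Pr : Finset (Fin M) → Prop := fun C => LinearIndependent Ω (fun j : C => col j)
  obtain ⟨C, hC, hmax⟩ : ∃ C, Pr C ∧ ∀ C', Pr C' → C ⊆ C' → C' = C := by
    have h0 : Pr ∅ := linearIndependent_empty_type
    obtain ⟨C, hC1, hC2⟩ := (Finset.univ.filter Pr).exists_maximal
      ⟨∅, Finset.mem_filter.2 ⟨Finset.mem_univ _, h0⟩⟩
    refine ⟨C, (Finset.mem_filter.1 hC1).2, fun C' hC' hsub => ?_⟩
    exact (Finset.Subset.antisymm hsub
      (hC2 (Finset.mem_filter.2 ⟨Finset.mem_univ _, hC'⟩) hsub)).symm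
  -- columns span at most a hyperplane
  have hCcard : C.card ≤ m + 1 := by
    by_contra hcon
    have h1 : C.card = m + 2 := by
      have := hC.fintype_card_le_finrank
      rw [Fintype.card_coe, Module.finrank_fin_fun] at this
      omega
    have h2 : Submodule.span Ω (Set.range fun j : C => col j) = ⊤ := by
      apply hC.span_eq_top_of_card_eq_finrank'
      rw [Fintype.card_coe, Module.finrank_fin_fun, h1]
    have h3 : ∀ w : Fin (m + 2) → Ω, ∑ a, c' a * w a = 0 := by
      intro w
      have hw : w ∈ Submodule.span Ω (Set.range fun j : C => col j) := by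
        rw [h2]
        exact Submodule.mem_top
      induction hw using Submodule.span_induction with
      | mem w hw =>
        obtain ⟨j, rfl⟩ := hw
        exact hcol j
      | zero => simp
      | add w w' _ _ h1 h2 =>
        simp only [Pi.add_apply, mul_add, Finset.sum_add_distrib, h1, h2, add_zero]
      | smul c w _ h1 =>
        have : ∑ a, c' a * (c • w) a = c * ∑ a, c' a * w a := by
          rw [Finset.mul_sum]
          refine Finset.sum_congr rfl fun a _ => ?_
          rw [Pi.smul_apply, smul_eq_mul]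
          ring
        rw [this, h1, mul_zero]
    have h4 := h3 (Pi.single a₁ 1)
    rw [Finset.sum_eq_single a₁] at h4
    · rw [Pi.single_eq_same, mul_one] at h4
      exact ha₁ h4
    · intro a _ ha
      rw [Pi.single_eq_of_ne ha, mul_zero]
    · intro h
      exact absurd (Finset.mem_univ _) h
  -- coefficients over the small field
  set F : IntermediateField k Ω := cl k (U ∪ Lset lam C) with hF
  have hzF : ∀ a α, z a α ∈ F := fun a α => cl_mono (subset_union_Lset U lam C) (hz a α)
  have hcolF : ∀ j ∈ C, ∀ a, col j a ∈ F := fun j hj a =>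
    pow_mem (dot_mem_cl (lam_mem lam U hj) (hzF a)) e
  obtain ⟨c, hc, hc0⟩ : ∃ c : Fin (m + 2) → F, (∀ j ∈ C, ∑ a, (c a : Ω) * col j a = 0) ∧
      c ≠ 0 := by
    let φ : (Fin (m + 2) → F) →ₗ[F] (C → F) :=
      { toFun := fun c j => ∑ a, c a * ⟨col j a, hcolF j j.2 a⟩
        map_add' := by
          intro c d
          funext j
          simp only [Pi.add_apply, add_mul, Finset.sum_add_distrib]
        map_smul' := by
          intro r c
          funext j
          simp only [Pi.smul_apply, smul_eq_mul, RingHom.id_apply, Finset.mul_sum, mul_assoc] }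
    have hker : LinearMap.ker φ ≠ ⊥ := by
      apply LinearMap.ker_ne_bot_of_finrank_lt
      rw [Module.finrank_fin_fun, Module.finrank_fintype_fun_eq_card, Fintype.card_coe]
      omega
    obtain ⟨c, hc, hc0⟩ := Submodule.exists_mem_ne_zero_of_ne_bot hker
    refine ⟨c, fun j hj => ?_, hc0⟩
    have h1 := congrFun (LinearMap.mem_ker.1 hc) ⟨j, hj⟩
    have h2 := congrArg (Subtype.val : F → Ω) h1
    simp only [φ, LinearMap.coe_mk, AddHom.coe_mk, Pi.zero_apply] at h2
    rw [ZeroMemClass.coe_zero] at h2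
    rw [← h2]
    push_cast
    rfl
  -- the relation holds for all columns
  have hall : ∀ j, ∑ a, (c a : Ω) * col j a = 0 := by
    intro j
    by_cases hj : j ∈ C
    · exact hc j hj
    · have hmem : col j ∈ Submodule.span Ω (Set.range fun j : C => col j) := by
        by_contra hns
        have h1 : Pr (insert j C) := by
          have h2 : LinearIndepOn Ω col (C : Set (Fin M)) := hC
          have h3 : LinearIndepOn Ω col (insert j (C : Set (Fin M))) := by
            refine (linearIndepOn_insert (by simpa using hj)).2 ⟨h2, ?_⟩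
            rwa [Set.image_eq_range]
          have h4 : LinearIndepOn Ω col ((insert j C : Finset (Fin M)) : Set (Fin M)) := by
            rwa [Finset.coe_insert]
          exact h4
        have h5 := hmax _ h1 (Finset.subset_insert j C)
        exact hj (h5 ▸ Finset.mem_insert_self j C)
      have : ∀ w ∈ Submodule.span Ω (Set.range fun j : C => col j),
          ∑ a, (c a : Ω) * w a = 0 := by
        intro w hw
        induction hw using Submodule.span_induction with
        | mem w hw =>
          obtain ⟨j, rfl⟩ := hw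
          exact hc j j.2
        | zero => simp
        | add w w' _ _ h1 h2 =>
          simp only [Pi.add_apply, mul_add, Finset.sum_add_distrib, h1, h2, add_zero]
        | smul r w _ h1 =>
          have : ∑ a, (c a : Ω) * (r • w) a = r * ∑ a, (c a : Ω) * w a := by
            rw [Finset.mul_sum]
            refine Finset.sum_congr rfl fun a _ => ?_
            rw [Pi.smul_apply, smul_eq_mul]
            ring
          rw [this, h1, mul_zero]
      exact this _ hmem
  obtain ⟨a₂, ha₂⟩ : ∃ a, c a ≠ 0 := by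
    by_contra hn
    push Not at hn
    exact hc0 (funext hn)
  have hrow : ∀ j : Fin M, ∃ α, lam j α ∈ cl k ((U ∪ Lset lam C) ∪ lam j '' {β | β ≠ α}) := by
    intro j
    exact rowpow hPOW (lam j) z (fun a => (c a : Ω)) hzF (fun a => (c a).2)
      ⟨a₂, fun h0 => ha₂ (Subtype.ext h0)⟩ hz0 hnp he (hall j)
  choose f hf using hrow
  have hcount := count hpar hU hUm (Finset.univ \ C) C
    (fun i hi => (Finset.mem_sdiff.1 hi).2) f (fun i _ => hf i)
  rw [Finset.card_sdiff_of_subset (Finset.subset_univ C), Finset.card_univ,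
    Fintype.card_fin] at hcount
  omega

theorem good_c5 (hPOW : S_POW.{v}) [CharZero Ω] {lam : Fin M → ι → Ω} {b : Fin M → Ω}
    (hpar : AlgebraicIndependent k (Sum.elim (fun p : Fin M × ι => lam p.1 p.2) b))
    {U : Set Ω} (hU : U.Finite) {m : ℕ} (hUm : U.ncard ≤ m) (hM : 2 * m + 1 < M) {e : ℕ}
    (he : m + 2 ≤ e) {z : Fin (m + 2) → ι → Ω} (hz : ∀ a α, z a α ∈ cl k U)
    (hz0 : ∀ a, z a ≠ 0) (ht : ∀ a a', tt lam b e (z a) = tt lam b e (z a')) :
    ∃ a a', a ≠ a' ∧ Prp (z a) (z a') := by
  classical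
  by_contra hcon
  push Not at hcon
  have hli := c6 hPOW hpar hU hUm hM he hz hz0 hcon
  set V : Fin (m + 2) → Fin M → Ω := fun a j => dot (lam j) (z a) ^ e with hV
  let v : Fin (m + 1) → Fin M → Ω := fun a => V a.succ - V 0
  have hv : LinearIndependent Ω v := by
    rw [Fintype.linearIndependent_iff] at hli ⊢
    intro g hg a
    have h1 : ∑ i : Fin (m + 2), (Fin.cons (-∑ i, g i) g : Fin (m + 2) → Ω) i • V i = 0 := by
      rw [Fin.sum_univ_succ]
      simp only [Fin.cons_zero, Fin.cons_succ]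
      rw [← hg]
      simp only [v, smul_sub, Finset.sum_sub_distrib, ← Finset.sum_smul, neg_smul]
      abel
    have := hli _ h1 a.succ
    rwa [Fin.cons_succ] at this
  have hVm : ∀ a j, V a j ∈ cl k (U ∪ Lset lam Finset.univ) := fun a j =>
    pow_mem (dot_mem_cl (lam_mem lam U (Finset.mem_univ j))
      (fun β => cl_mono (subset_union_Lset U lam _) (hz a β))) e
  have := tr1 hpar hU hUm v (fun a j => sub_mem (hVm _ j) (hVm _ j)) (fun a => ?_) hv
  · omega
  · have h1 : ∑ j, b j * v a j = tt lam b e (z a.succ) - tt lam b e (z 0) := by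
      unfold tt
      rw [← Finset.sum_sub_distrib]
      refine Finset.sum_congr rfl fun j _ => ?_
      simp only [v, V, Pi.sub_apply]
      ring
    rw [h1, ht a.succ 0, sub_self]

end

end Pool.Agent.Lib.MP_627a61_nt.Hy
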