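import Pool.Agent.Lib.MP_627a61_nt.Hy.GoodGen

/-!
# HYP: `Good` for generic parameters in one field
-/

set_option autoImplicit false

open MvPolynomial Filter

namespace Pool.Agent.Lib.MP_627a61_nt.Hy

universe u v w

section
variable {k : Type u} {Ω : Type v} [Field k] [Field Ω] [Algebra k Ω]
variable {ι : Type} [Fintype ι] {M : ℕ}

lemma prp_of_smul {x y : ι → Ω} {s : Ω} (hs : s ≠ 0) (h : Prp (s • x) (s • y)) : Prp x y := by
  obtain ⟨c, hc⟩ := h
  refine ⟨c, ?_⟩
  have : s • x = s • (c • y) := by rw [hc, smul_comm]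
  exact smul_right_injective _ hs this

lemma vec_smul (lam : Fin M → ι → Ω) (e : ℕ) (D : Finset (Fin M)) (x : ι → Ω) (s : Ω)
    (j : Fin M) : vec lam e D (s • x) j = s ^ e * vec lam e D x j := by
  unfold vec
  split_ifs
  · rw [dot_smul, mul_pow]
  · rw [mul_zero]

theorem goodOm (hPOW : S_POW.{v}) [CharZero Ω] {S : Set (MvPolynomial ι k)}
    (hS : ∀ P ∈ S, ∃ n, P.IsHomogeneous n)
    {m : ℕ} {l : Fin (m + 1) → ι → k} {d : ι → ℕ}
    {P : ι → Polynomial (MvPolynomial (Fin (m + 1)) k)} (hP : ∀ α, PShape (P α) (d α))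
    (hv : ∀ x : ι → Ω, InCone (algebraMap k Ω) S x → ∀ α,
      pval (algebraMap k Ω) (P α) (fun i => dot (algebraMap k Ω ∘ l i) x) (x α) = 0)
    (hM : 2 * m + 1 < M) {e : ℕ} (he : m + 2 ≤ e)
    {lam : Fin M → ι → Ω} {b : Fin M → Ω}
    (hpar : AlgebraicIndependent k (Sum.elim (fun p : Fin M × ι => lam p.1 p.2) b)) :
    Good e (InCone (algebraMap k Ω) S) (fun i => algebraMap k Ω ∘ l i) lam b where
  c1 := by
    intro x hx I hI h
    by_contra hx0
    obtain ⟨s, hs, U, hU, hUm, hall⟩ := exists_scale hS hP hv (e := e) (by omega) hx hx0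
    have h1 := good_c1 hpar hU hUm (x := s • x) (smul_ne_zero hs hx0)
      (hall x hx fun _ => rfl) I fun i hi => by rw [dot_smul, h i hi, mul_zero]
    omega
  c3 := by
    intro x y hx hy hx0 hy0 hb hnp I h
    obtain ⟨s, hs, U, hU, hUm, hall⟩ := exists_scale hS hP hv (e := e) (by omega) hx hx0
    exact good_c3 hpar hU hUm (e := e) (by omega) (hall x hx fun _ => rfl) (hall y hy hb)
      (fun h => hnp (prp_of_smul hs h)) I
      fun i hi => by rw [dot_smul, dot_smul, mul_pow, mul_pow, h i hi]
  c5 := by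
    intro z hz hz0 hb ht
    obtain ⟨s, hs, U, hU, hUm, hall⟩ := exists_scale hS hP hv (e := e) (by omega) (hz 0) (hz0 0)
    obtain ⟨a, a', haa, h⟩ := good_c5 hPOW hpar hU hUm hM he (z := fun a => s • z a)
      (fun a => hall (z a) (hz a) (hb 0 a)) (fun a => smul_ne_zero hs (hz0 a)) (fun a a' => by
        have hts : ∀ a, tt lam b e (s • z a) = s ^ e * tt lam b e (z a) := by
          intro a
          unfold tt
          rw [Finset.mul_sum]
          refine Finset.sum_congr rfl fun j _ => ?_
          rw [dot_smul, mul_pow]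
          ring
        rw [hts, hts, ht a a'])
    exact ⟨a, a', haa, prp_of_smul hs h⟩
  c7 := by
    intro x y hx hy hx0 hy0 hb D D' h hli
    obtain ⟨s, hs, U, hU, hUm, hall⟩ := exists_scale hS hP hv (e := e) (by omega) hx hx0
    refine good_c7 hpar hU hUm (e := e) (hall x hx fun _ => rfl) (hall y hy hb) D D' ?_ ?_
    · intro a
      have := h a
      simp only [vec_smul]
      rw [← mul_zero (s ^ e), ← this, Finset.mul_sum]
      refine Finset.sum_congr rfl fun j _ => ?_
      ring
    · simp only [vec_smul]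
      have hse : s ^ e ≠ 0 := pow_ne_zero e hs
      have h2 := hli.units_smul (fun _ => Units.mk0 (s ^ e) hse)
      have h3 : (fun (a : Fin (m + 1)) => fun (j : Fin M) =>
          s ^ e * vec lam e (D a) x j - s ^ e * vec lam e (D' a) y j) =
          (fun _ : Fin (m + 1) => Units.mk0 (s ^ e) hse) • fun a => fun j =>
          vec lam e (D a) x j - vec lam e (D' a) y j := by
        funext a j
        simp only [Pi.smul_apply', Pi.smul_apply, Units.smul_mk0, smul_eq_mul]
        ring
      rw [h3]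
      exact h2

end

end Pool.Agent.Lib.MP_627a61_nt.Hy
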