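import Pool.Agent.Lib.MP_627a61_nt.Hy.Mero

/-!
# Project DIM/HYP: elementary facts on places
-/

open scoped LinearAlgebra.Projectivization Topology
open Filter Metric

namespace Pool.Agent.Lib.MP_627a61_nt.Hy

variable {K L : Type} [Field K] [Algebra ℂ K] [Field L] [Algebra ℂ L] [Algebra K L]
  [IsScalarTower ℂ K L] {M : MeroSys K} {t : ℂ}

lemma Pl.alg_mem (P : Pl M L t) (c : ℂ) : algebraMap ℂ L c ∈ P.V := by
  rw [IsScalarTower.algebraMap_apply ℂ K L]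
  exact P.le _ (M.alg_mem t c)

lemma Pl.ψ_alg (P : Pl M L t) (c : ℂ) : P.ψ ⟨algebraMap ℂ L c, P.alg_mem c⟩ = c := by
  have h1 : (⟨algebraMap ℂ L c, P.alg_mem c⟩ : P.V) =
      ⟨algebraMap K L (algebraMap ℂ K c), P.le _ (M.alg_mem t c)⟩ := by
    apply Subtype.ext
    exact IsScalarTower.algebraMap_apply ℂ K L c
  rw [h1, P.ext _ (M.alg_mem t c), M.ev_alg]

/-- the inclusion of the complex numbers in the valuation ring -/
noncomputable def Pl.cst (P : Pl M L t) : ℂ →+* P.V :=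
  (algebraMap ℂ L).codRestrict P.V.toSubring fun c => P.alg_mem c

lemma Pl.cst_coe (P : Pl M L t) (c : ℂ) : ((P.cst c : P.V) : L) = algebraMap ℂ L c := rfl

lemma Pl.ψ_cst (P : Pl M L t) (c : ℂ) : P.ψ (P.cst c) = c := P.ψ_alg c

lemma Pl.inv_mem (P : Pl M L t) {x : L} (hx : x ∈ P.V) (h0 : P.ψ ⟨x, hx⟩ ≠ 0) : x⁻¹ ∈ P.V := by
  by_contra hcon
  set a : ℂ := P.ψ ⟨x, hx⟩ with ha
  have h1 : (⟨x, hx⟩ : P.V) ∈ nonunits P.V := by
    intro hu
    obtain ⟨y, hy⟩ := hu.exists_right_inv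
    apply hcon
    have h2 : x * (y : L) = 1 := by
      have := congrArg (fun z : P.V => (z : L)) hy
      simpa using this
    have h3 : (y : L) = x⁻¹ := eq_inv_of_mul_eq_one_right h2
    rw [← h3]
    exact y.2
  have h2 : (P.cst a - ⟨x, hx⟩ : P.V) ∈ nonunits P.V := by
    intro hu
    have h3 := hu.map P.ψ
    rw [map_sub, P.ψ_cst, ← ha, sub_self] at h3
    exact not_isUnit_zero h3
  have h3 := IsLocalRing.nonunits_add h1 h2
  rw [add_sub_cancel] at h3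
  apply h3
  exact (isUnit_iff_ne_zero.2 h0).map P.cst

lemma Pl.ψ_inv (P : Pl M L t) {x : L} (hx : x ∈ P.V) (h0 : P.ψ ⟨x, hx⟩ ≠ 0) :
    P.ψ ⟨x⁻¹, P.inv_mem hx h0⟩ = (P.ψ ⟨x, hx⟩)⁻¹ := by
  have hx0 : x ≠ 0 := by
    rintro rfl
    apply h0
    have : (⟨0, hx⟩ : P.V) = 0 := rfl
    rw [this, map_zero]
  apply eq_inv_of_mul_eq_one_right
  rw [← map_mul]
  have : (⟨x, hx⟩ * ⟨x⁻¹, P.inv_mem hx h0⟩ : P.V) = 1 := by
    apply Subtype.ext
    exact mul_inv_cancel₀ hx0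
  rw [this, map_one]

end Pool.Agent.Lib.MP_627a61_nt.Hy
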