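import Pool.Agent.Lib.MP_627a61_nt.Hy.TStm
import Pool.Agent.Lib.MP_627a61_nt.Hy.DStm
import Pool.Agent.Lib.MP_627a61_nt.Hy.PlBasic

/-!
# Project DIM/HYP: the main step (assembly)
-/

open scoped LinearAlgebra.Projectivization Topology
open Filter Metric

namespace Pool.Agent.Lib.MP_627a61_nt.Hy

section dotlemmas
variable {ι L L' : Type} [Fintype ι] [Field L] [Field L']

lemma dot_smul_r (a x : ι → L) (c : L) : dot a (c • x) = c * dot a x := by
  unfold dot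
  rw [Finset.mul_sum]
  exact Finset.sum_congr rfl fun i _ => by simp [mul_left_comm]

lemma dot_div (a x : ι → L) (c : L) : dot a (fun i => x i / c) = dot a x / c := by
  unfold dot
  rw [Finset.sum_div]
  exact Finset.sum_congr rfl fun i _ => by rw [mul_div_assoc]

lemma map_dot (f : L →+* L') (a x : ι → L) : f (dot a x) = dot (f ∘ a) (f ∘ x) := by
  unfold dot
  rw [map_sum]
  exact Finset.sum_congr rfl fun i _ => by simp

lemma InCone.div {k : Type} [Field k] {τ : k →+* L} {S : Set (MvPolynomial ι k)}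
    (hS : ∀ P ∈ S, ∃ n, P.IsHomogeneous n) {x : ι → L} (hx : InCone τ S x) (c : L) :
    InCone τ S (fun i => x i / c) := by
  intro P hP
  obtain ⟨n, hn⟩ := hS P hP
  have h1 : (fun i => x i / c) = c⁻¹ • x := by
    funext i
    simp [div_eq_inv_mul]
  rw [h1, eval₂_smul_homog hn, hx P hP, mul_zero]

lemma InCone.map {k : Type} [Field k] {τ : k →+* L} {S : Set (MvPolynomial ι k)} (f : L →+* L')
    {τ' : k →+* L'} (hf : f.comp τ = τ') {x : ι → L} (hx : InCone τ S x) :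
    InCone τ' S (fun i => f (x i)) := by
  intro P hP
  have h1 := congrArg f (hx P hP)
  rw [map_zero, MvPolynomial.eval₂_comp_left, hf] at h1
  exact h1

end dotlemmas

section
variable {K L ι : Type} [Field K] [Algebra ℂ K] [Field L] [Algebra ℂ L] [Algebra K L]
  [IsScalarTower ℂ K L] [Fintype ι] {MK : MeroSys K}

/-- the value at a place of a point whose coordinates are finite -/
noncomputable def Pl.val {t : ℂ} (P : Pl MK L t) (x : ι → L) (h : ∀ α, x α ∈ P.V) : ι → ℂ :=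
  fun α => P.ψ ⟨x α, h α⟩

lemma Pl.inCone_val {k : Type} [Field k] {σ : k →+* ℂ} {S : Set (MvPolynomial ι k)} {t : ℂ}
    (P : Pl MK L t) (x : ι → L) (h : ∀ α, x α ∈ P.V)
    (hx : InCone ((algebraMap ℂ L).comp σ) S x) : InCone σ S (P.val x h) := by
  intro Q hQ
  have h1 : (Q.eval₂ (P.cst.comp σ) fun α => (⟨x α, h α⟩ : P.V)) = 0 := by
    apply Subtype.ext
    have h2 := MvPolynomial.eval₂_comp_left (P.V.subtype) (P.cst.comp σ)
      (fun α => (⟨x α, h α⟩ : P.V)) Q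
    have h3 : P.V.subtype.comp (P.cst.comp σ) = (algebraMap ℂ L).comp σ := by
      ext c
      rfl
    rw [h3] at h2
    exact h2.trans (hx Q hQ)
  have h2 := congrArg P.ψ h1
  rw [map_zero, MvPolynomial.eval₂_comp_left] at h2
  have h3 : P.ψ.comp (P.cst.comp σ) = σ := by
    ext c
    exact P.ψ_cst (σ c)
  rw [h3] at h2
  exact h2

lemma Pl.dot_val {k : Type} [Field k] {σ : k →+* ℂ} {t : ℂ} (P : Pl MK L t) (a : ι → k)
    (x : ι → L) (h : ∀ α, x α ∈ P.V) :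
    ∃ h' : dot (((algebraMap ℂ L).comp σ) ∘ a) x ∈ P.V,
      P.ψ ⟨dot (((algebraMap ℂ L).comp σ) ∘ a) x, h'⟩ = dot (σ ∘ a) (P.val x h) := by
  have h1 : dot (((algebraMap ℂ L).comp σ) ∘ a) x =
      ((∑ α, P.cst (σ (a α)) * ⟨x α, h α⟩ : P.V) : L) := by
    unfold dot
    have h2 := map_sum (P.V.subtype) (fun α => P.cst (σ (a α)) * (⟨x α, h α⟩ : P.V)) Finset.univ
    refine Eq.trans ?_ h2.symm
    exact Finset.sum_congr rfl fun α _ => rfl
  refine ⟨h1 ▸ (∑ α, P.cst (σ (a α)) * ⟨x α, h α⟩ : P.V).2, ?_⟩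
  have h2 : (⟨dot (((algebraMap ℂ L).comp σ) ∘ a) x,
      h1 ▸ (∑ α, P.cst (σ (a α)) * ⟨x α, h α⟩ : P.V).2⟩ : P.V) =
      ∑ α, P.cst (σ (a α)) * ⟨x α, h α⟩ := Subtype.ext h1
  rw [h2, map_sum]
  unfold dot
  refine Finset.sum_congr rfl fun α _ => ?_
  rw [map_mul, P.ψ_cst]
  rfl

end

section
variable {K L ι : Type} [Field K] [Algebra ℂ K] [Field L] [Algebra ℂ L] [Algebra K L]
  [IsScalarTower ℂ K L] [Fintype ι]

/-- the integral equations of the normalised coordinates -/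
lemma pair_root [FiniteDimensional K L] (hbdd : S_BDD) (MK : MeroSys K) {k : Type} [Field k]
    (σ : k →+* ℂ) (S : Set (MvPolynomial ι k)) {m : ℕ} (l : Fin (m + 1) → ι → k) (d : ι → ℕ)
    (P : ι → Polynomial (MvPolynomial (Fin (m + 1)) k)) (hS : ∀ P ∈ S, ∃ n, P.IsHomogeneous n)
    (hP : ∀ α, PShape (P α) (d α) ∧ ∀ (F : Type) [Field F] (τ : k →+* F) (x : ι → F),
      InCone τ S x → pval τ (P α) (fun i => dot (τ ∘ l i) x) (x α) = 0)
    (u : Fin (m + 1) → K) (ρ : ℝ) (Sc : Fin (m + 1) → Set ℂ) (hch : Charts MK u ρ Sc)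
    (y : ι → L) (hy : InCone ((algebraMap ℂ L).comp σ) S y)
    (hyl : ∀ i, dot (((algebraMap ℂ L).comp σ) ∘ l i) y = algebraMap K L (u i)) (c : Fin (m + 1))
    (hc : u c ≠ 0) (α : ι) :
    ∃ p : Polynomial K, p.Monic ∧ p.natDegree = d α ∧
      (∀ j, BdK MK (nb ρ (Sc c)) (p.coeff j)) ∧
      Polynomial.aeval (y α / algebraMap K L (u c)) p = 0 := by
  obtain ⟨⟨A0, hA0⟩, -, -, hdown, -⟩ := hbdd K L MK (nb ρ (Sc c))
  set f : MvPolynomial (Fin (m + 1)) k →+* K :=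
    MvPolynomial.eval₂Hom ((algebraMap ℂ K).comp σ) (fun i => u i / u c) with hf
  have hcomp : (algebraMap K L).comp f =
      MvPolynomial.eval₂Hom ((algebraMap ℂ L).comp σ) (fun i => algebraMap K L (u i / u c)) := by
    apply MvPolynomial.ringHom_ext
    · intro a
      simp only [hf, RingHom.comp_apply, MvPolynomial.eval₂Hom_C]
      exact (IsScalarTower.algebraMap_apply ℂ K L (σ a)).symm
    · intro i
      simp only [hf, RingHom.comp_apply, MvPolynomial.eval₂Hom_X']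
  refine ⟨(P α).map f, (hP α).1.1.map f, ?_, ?_, ?_⟩
  · rw [(hP α).1.1.natDegree_map f, (hP α).1.2.1]
  · intro j
    rw [Polynomial.coeff_map, ← hdown, ← hA0]
    have h1 : algebraMap K L (f ((P α).coeff j)) =
        MvPolynomial.eval₂ ((algebraMap ℂ L).comp σ) (fun i => algebraMap K L (u i / u c))
          ((P α).coeff j) := congrArg (fun g => g ((P α).coeff j)) hcomp
    rw [h1]
    refine MvPolynomial.eval₂_mem (fun i _ => ?_) fun i => ?_
    · exact A0.algebraMap_mem _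
    · rw [hA0, hdown]
      exact hch.2.2 c i hc
  · have h1 := (hP α).2 L ((algebraMap ℂ L).comp σ) _ (hy.div hS (algebraMap K L (u c)))
    rw [Polynomial.aeval_def, Polynomial.eval₂_map, hcomp]
    have h2 : (fun i => dot (((algebraMap ℂ L).comp σ) ∘ l i)
        fun j => y j / algebraMap K L (u c)) = fun i => algebraMap K L (u i / u c) := by
      funext i
      rw [dot_div, hyl, map_div₀]
    rw [h2] at h1
    exact h1

/-- scaling of the relations -/
lemma RelD.scale {P : Type} {e : ℕ} {τ : CompData P} {h : P → L} (hr : RelD e τ h) {a : L}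
    (ha : a ≠ 0) : RelD e τ (fun i => a * h i) := by
  refine ⟨fun i hi => ?_, ?_, fun i hi => mul_ne_zero ha (hr.ne i hi)⟩
  · rw [mul_pow, hr.rel i hi, Finset.mul_sum]
    exact Finset.sum_congr rfl fun k _ => by rw [mul_pow]; ring
  · rw [Fintype.linearIndependent_iff]
    intro g hg
    apply Fintype.linearIndependent_iff.1 hr.ind g
    have h1 : a ^ e * ∑ i, g i • h (τ.bs i) ^ e = 0 := by
      rw [← hg, Finset.mul_sum]
      exact Finset.sum_congr rfl fun i _ => by rw [mul_pow, mul_smul_comm]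
    exact (mul_eq_zero.1 h1).resolve_left (pow_ne_zero _ ha)

end

theorem pair (hbdd : S_BDD) (hder : S_DER) (hstab : S_STAB) (hlarge : S_LARGE) (hnl : S_NL)
    (h1 : S_WPNZ) (h2 : S_WPSC) (h3 : S_CHAIN) (h4 : S_EXPD) (h5 : S_DICH) :
    ∃ E₀, S_PAIR E₀ := by
  classical
  choose E₀ hE using h4
  refine ⟨E₀, ?_⟩
  intro K L ι _ _ _ _ _ _ _ _ _ MK k _ σ S e m M l lam b d P hgood hS hP hM he u ρ Sc hch y hy
    hyl hyt
  by_cases hfix : ∀ τ : L ≃ₐ[K] L, ∀ α, τ (y α) = y α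
  · left
    intro α
    obtain ⟨a, ha⟩ := (IsGalois.mem_range_algebraMap_iff_fixed (F := K) (y α)).2
      fun τ => hfix τ α
    exact ⟨a, ha.symm⟩
  right
  -- dimension zero
  rcases Nat.eq_zero_or_pos m with hm0 | hm
  · subst hm0
    intro i j _
    refine ⟨1, ?_⟩
    have hij : j = i := Fin.ext (by omega)
    rw [hij, map_one, one_mul]
  push Not at hfix
  obtain ⟨τ, α₀, hτ⟩ := hfix
  set τL : k →+* L := (algebraMap ℂ L).comp σ with hτL
  have hroot := pair_root hbdd MK σ S l d P hS hP u ρ Sc hch y hy hyl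
  obtain ⟨DL, hDL, hconst⟩ := hder K L MK
  obtain ⟨δ, Δ, hδ, hΔ, hA⟩ := hstab K L MK DL hDL (m + 1) u ρ Sc hch ι d y hroot τ
  set w : ι → L := fun α => τ (y α) with hw
  have hττ : (τ : L →+* L).comp τL = τL := by
    ext a
    simp only [hτL, RingHom.comp_apply]
    rw [IsScalarTower.algebraMap_apply ℂ K L]
    exact τ.commutes _
  have hwc : InCone τL S w := hy.map (τ : L →+* L) hττ
  have hττ' : ∀ a : ι → k, (τ : L →+* L) ∘ (τL ∘ a) = τL ∘ a := by
    intro a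
    funext i
    exact congrArg (fun g => g (a i)) hττ
  have hwl : ∀ i, dot (τL ∘ l i) w = algebraMap K L (u i) := by
    intro i
    have h6 := congrArg (τ : L →+* L) (hyl i)
    rw [map_dot, hττ'] at h6
    exact h6.trans (τ.commutes _)
  obtain ⟨c₀, hc₀, -⟩ := hch.2.1 0
  have hv₀ : algebraMap K L (u c₀) ≠ 0 := by rwa [ne_eq, map_eq_zero]
  have hdot0 : ∀ a : ι → L, dot a (0 : ι → L) = 0 := by
    intro a
    simp [dot]
  have hy0 : y ≠ 0 := by
    rintro rfl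
    apply hv₀
    rw [← hyl c₀, hdot0]
  have hw0 : w ≠ 0 := by
    intro hw0
    apply hv₀
    rw [← hwl c₀, hw0, hdot0]
  have hsame : SameBase (fun i => τL ∘ l i) e y w := by
    intro i
    rw [hyl, hwl]
  have hnp : ¬ Prp y w := by
    rintro ⟨a, ha⟩
    have h6 := hyl c₀
    rw [ha, dot_smul_r, hwl] at h6
    have h7 : a = 1 := by
      have : (a - 1) * algebraMap K L (u c₀) = 0 := by rw [sub_mul, h6]; ring
      exact sub_eq_zero.1 ((mul_eq_zero.1 this).resolve_right hv₀)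
    apply hτ
    rw [h7, one_smul] at ha
    exact (congrFun ha α₀).symm
  have htt : tt (fun i => τL ∘ lam i) (fun j => algebraMap ℂ L (σ (b j))) e y =
      tt (fun i => τL ∘ lam i) (fun j => algebraMap ℂ L (σ (b j))) e w := by
    obtain ⟨t, ht⟩ := hyt
    have h6 := congrArg (τ : L →+* L) ht
    have h7 : (τ : L →+* L) (algebraMap K L t) = algebraMap K L t := τ.commutes _
    rw [h7] at h6
    change tt (fun i => τL ∘ lam i) (τL ∘ b) e y = tt (fun i => τL ∘ lam i) (τL ∘ b) e w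
    rw [ht, ← h6]
    unfold tt
    rw [map_sum]
    refine Finset.sum_congr rfl fun j _ => ?_
    rw [map_mul, map_pow, map_dot, hττ']
    congr 1
    exact congrFun (hττ' fun _ => b j) α₀
  -- components
  have he1 : 1 ≤ e := by
    by_contra h0
    have he0 : e = 0 := by omega
    have h6 := (hgood L τL).c3 y w hy hwc hy0 hw0 hsame hnp Finset.univ (by
      intro j _
      rw [he0, pow_zero, pow_zero])
    rw [Finset.card_univ, Fintype.card_fin] at h6
    nlinarith [sq_nonneg (m : ℤ), hM, h6, Nat.zero_le (m ^ 2)]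
  obtain ⟨cd, hval, hcard, hrel⟩ := h5 L ι e m M (InCone τL S) (fun i => τL ∘ l i)
    (fun j => τL ∘ lam j) (fun j => σ (b j)) hm he1 hM (hgood L τL) y w hy hwc hy0 hw0 hsame hnp
    htt
  set h : Fin M ⊕ Fin M → L := hD (fun j => τL ∘ lam j) y w with hh
  obtain ⟨hNe, hexp⟩ := hE M (2 * ∑ α, (d α - 1)) e he cd hval
  set j₀ := cd.bs 0 with hj₀
  have hj₀D : j₀ ∈ cd.D := hval.mem 0
  set δD : Derivation ℂ L L := δ • DL with hδD
  have hδconst : ∀ x : L, δD x = 0 → x ∈ Set.range (algebraMap ℂ L) := by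
    intro x hx
    have h6 : δ * DL x = 0 := hx
    obtain ⟨a, ha⟩ := hconst x ((mul_eq_zero.1 h6).resolve_left hδ)
    exact ⟨a, ha.symm⟩
  set Wp : L := WpD δD e cd h with hWp
  have hWp0 : Wp ≠ 0 := h1 L δD hδconst _ e cd h hval hrel
  set wt : ℕ := (Δ * (cd.N * (cd.N + 1) / 2) + cd.N * (cd.N + 1)) * cd.nV with hwt
  set κ : ℕ := (e - cd.N) - wt * cd.D.card with hκ
  have hwtle : wt * cd.D.card + 1 ≤ e - cd.N := by
    refine le_trans ?_ hexp
    have h6 : Δ * (cd.N * (cd.N + 1) / 2) ≤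
        (2 * ∑ α, (d α - 1)) * (cd.N * (cd.N + 1)) :=
      Nat.mul_le_mul hΔ (Nat.div_le_self _ _)
    have h7 : Δ * (cd.N * (cd.N + 1) / 2) + cd.N * (cd.N + 1) ≤
        cd.N * (cd.N + 1) * (1 + 2 * ∑ α, (d α - 1)) := by
      calc _ ≤ (2 * ∑ α, (d α - 1)) * (cd.N * (cd.N + 1)) + cd.N * (cd.N + 1) := by omega
        _ = _ := by ring
    have h8 : wt * cd.D.card ≤
        cd.D.card * (cd.nV * (cd.N * (cd.N + 1) * (1 + 2 * ∑ α, (d α - 1)))) := by
      calc wt * cd.D.card = cd.D.card * (cd.nV *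
            (Δ * (cd.N * (cd.N + 1) / 2) + cd.N * (cd.N + 1))) := by rw [hwt]; ring
        _ ≤ _ := Nat.mul_le_mul_left _ (Nat.mul_le_mul_left _ h7)
    omega
  have hκ1 : 1 ≤ κ := by omega
  set E : L := Wp ^ cd.D.card / h j₀ ^ (e - cd.N) with hEdef
  have hE0 : E ≠ 0 := div_ne_zero (pow_ne_zero _ hWp0) (pow_ne_zero _ (hrel.ne j₀ hj₀D))
  refine hnl K L MK (m + 1) u ρ Sc E κ hch hE0 hκ1 fun c hc => ?_
  set v : L := algebraMap K L (u c) with hv
  have hv0 : v ≠ 0 := by rwa [hv, ne_eq, map_eq_zero]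
  obtain ⟨A, hAB, hAy, hAst⟩ := hA c hc
  set δc : Derivation ℂ L L := (v ^ Δ)⁻¹ • δD with hδc
  have hst : ∀ a ∈ A, δc a ∈ A := by
    intro a ha
    have h6 := hAst a ha
    have h7 : δc a = δ / v ^ Δ * DL a := by
      change (v ^ Δ)⁻¹ * (δ * DL a) = _
      rw [div_eq_mul_inv]
      ring
    rw [h7]
    exact h6
  set hc' : Fin M ⊕ Fin M → L := fun i => v⁻¹ * h i with hhc
  have hmem : ∀ i, hc' i ∈ A := by
    have key : ∀ (a : ι → k) (z : ι → L), (∀ α, z α / v ∈ A) → v⁻¹ * dot (τL ∘ a) z ∈ A := by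
      intro a z hz
      unfold dot
      rw [Finset.mul_sum]
      refine A.sum_mem fun α _ => ?_
      have h6 : v⁻¹ * ((τL ∘ a) α * z α) = algebraMap ℂ L (σ (a α)) * (z α / v) := by
        change v⁻¹ * (algebraMap ℂ L (σ (a α)) * z α) = _
        rw [div_eq_mul_inv]
        ring
      rw [h6]
      exact A.mul_mem (A.algebraMap_mem _) (hz α)
    rintro (i | i)
    · exact key (lam i) y fun α => (hAy α).1
    · exact key (lam i) w fun α => (hAy α).2
  have hrel' : RelD e cd hc' := hrel.scale (inv_ne_zero hv0)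
  -- the scaling
  have hscale : E * v ^ κ = WpD δc e cd hc' ^ cd.D.card / hc' j₀ ^ (e - cd.N) := by
    have h6 : WpD δc e cd hc' = ((v ^ wt)⁻¹) * Wp := by
      have h7 := h2 L δD (Fin M ⊕ Fin M) e cd hNe h (v ^ Δ)⁻¹ v⁻¹ (inv_ne_zero hv0)
      rw [← hδc, ← hWp] at h7
      rw [hhc, h7]
      congr 1
      rw [hwt, inv_pow, inv_pow, ← mul_inv, inv_pow, ← pow_mul, ← pow_add, ← pow_mul]
    rw [h6, hhc, mul_pow, mul_pow, hEdef, hκ]
    have h8 : v ^ (e - cd.N) = v ^ (wt * cd.D.card) * v ^ (e - cd.N - wt * cd.D.card) := by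
      rw [← pow_add]
      congr 1
      omega
    have hj0 : h j₀ ≠ 0 := hrel.ne j₀ hj₀D
    rw [inv_pow, inv_pow, ← pow_mul, h8]
    have h9 : v ^ (wt * cd.D.card) ≠ 0 := pow_ne_zero _ hv0
    have h10 : v ^ (e - cd.N - wt * cd.D.card) ≠ 0 := pow_ne_zero _ hv0
    field_simp
  rw [hscale]
  -- the chain
  have hchain := fun i (hi : i ∈ cd.D) =>
    h3 L δc A hst _ e cd hc' hNe hval hrel' (fun i _ => hmem i) i hi j₀ hj₀D
  choose! z hzA hz using hchain
  -- bounds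
  have hBy : ∀ α, ∃ B : ℝ, ∀ t ∈ Sc c, ∀ Q : Pl MK L t, ∃ h' : y α / v ∈ Q.V,
      ‖Q.ψ ⟨y α / v, h'⟩‖ ≤ B := fun α => hAB _ (hAy α).1
  have hBw : ∀ α, ∃ B : ℝ, ∀ t ∈ Sc c, ∀ Q : Pl MK L t, ∃ h' : w α / v ∈ Q.V,
      ‖Q.ψ ⟨w α / v, h'⟩‖ ≤ B := fun α => hAB _ (hAy α).2
  choose By hBy using hBy
  choose Bw hBw using hBw
  set B : ℝ := ∑ α, (|By α| + |Bw α|) with hB
  have hByB : ∀ α, By α ≤ B := fun α => le_trans (le_abs_self _)
    (le_trans (le_add_of_nonneg_right (abs_nonneg _))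
      (Finset.single_le_sum (f := fun α => |By α| + |Bw α|)
        (fun _ _ => add_nonneg (abs_nonneg _) (abs_nonneg _)) (Finset.mem_univ α)))
  have hBwB : ∀ α, Bw α ≤ B := fun α => le_trans (le_abs_self _)
    (le_trans (le_add_of_nonneg_left (abs_nonneg _))
      (Finset.single_le_sum (f := fun α => |By α| + |Bw α|)
        (fun _ _ => add_nonneg (abs_nonneg _) (abs_nonneg _)) (Finset.mem_univ α)))
  obtain ⟨ε, hε, hlar⟩ := hlarge k ι S σ m M (fun i => σ ∘ l i) (fun j => σ ∘ lam j)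
    (hgood ℂ σ).c1 B
  have hBz : ∀ i ∈ cd.D, ∃ B : ℝ, ∀ t ∈ Sc c, ∀ Q : Pl MK L t, ∃ h' : z i ∈ Q.V,
      ‖Q.ψ ⟨z i, h'⟩‖ ≤ B := fun i hi => hAB _ (hzA i hi)
  choose! Bz hBz using hBz
  refine ⟨(∑ i ∈ cd.D, |Bz i|) / ε ^ (e - cd.N), fun t ht Q => ?_⟩
  -- a large element of the component
  obtain ⟨i, hiD, hiV, hiε⟩ : ∃ i ∈ cd.D, ∃ h' : hc' i ∈ Q.V, ε ≤ ‖Q.ψ ⟨hc' i, h'⟩‖ := by
    have key : ∀ (x : ι → L) (hx : InCone τL S x) (hxl : dot (τL ∘ l c) x = v)
        (hxB : ∀ α, ∃ h' : x α / v ∈ Q.V, ‖Q.ψ ⟨x α / v, h'⟩‖ ≤ B) (I : Finset (Fin M)),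
        m < I.card → ∃ i ∈ I, ∃ h' : v⁻¹ * dot (τL ∘ lam i) x ∈ Q.V,
          ε ≤ ‖Q.ψ ⟨v⁻¹ * dot (τL ∘ lam i) x, h'⟩‖ := by
      intro x hx hxl hxB I hI
      choose hxV hxB using hxB
      have h6 := Q.inCone_val (fun α => x α / v) hxV (hx.div hS v)
      obtain ⟨i, hi, hiε⟩ := hlar (Q.val (fun α => x α / v) hxV) h6 hxB ⟨c, by
        obtain ⟨h7, h8⟩ := Q.dot_val (σ := σ) (l c) (fun α => x α / v) hxV
        rw [← h8]
        have h9 : dot (((algebraMap ℂ L).comp σ) ∘ l c) (fun α => x α / v) = 1 := by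
          rw [dot_div]
          rw [← hτL, hxl, div_self hv0]
        have h10 : (⟨dot (((algebraMap ℂ L).comp σ) ∘ l c) (fun α => x α / v), h7⟩ : Q.V) = 1 :=
          Subtype.ext h9
        rw [h10, map_one]⟩ I hI
      obtain ⟨h7, h8⟩ := Q.dot_val (σ := σ) (lam i) (fun α => x α / v) hxV
      have h9 : dot (((algebraMap ℂ L).comp σ) ∘ lam i) (fun α => x α / v) =
          v⁻¹ * dot (τL ∘ lam i) x := by
        rw [dot_div, div_eq_mul_inv, mul_comm]
      refine ⟨i, hi, h9 ▸ h7, ?_⟩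
      rw [← h8] at hiε
      refine le_trans hiε (le_of_eq ?_)
      congr 2
      exact Subtype.ext h9
    have hcards := Finset.card_toLeft_add_card_toRight (u := cd.D)
    by_cases hl : m < cd.D.toLeft.card
    · obtain ⟨i, hi, hi'⟩ := key y hy (hyl c) (fun α => by
        obtain ⟨h6, h7⟩ := hBy α t ht Q
        exact ⟨h6, h7.trans (hByB α)⟩) _ hl
      exact ⟨Sum.inl i, Finset.mem_toLeft.1 hi, hi'⟩
    · obtain ⟨i, hi, hi'⟩ := key w hwc (hwl c) (fun α => by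
        obtain ⟨h6, h7⟩ := hBw α t ht Q
        exact ⟨h6, h7.trans (hBwB α)⟩) cd.D.toRight (by omega)
      exact ⟨Sum.inr i, Finset.mem_toRight.1 hi, hi'⟩
  have hψ0 : Q.ψ ⟨hc' i, hiV⟩ ≠ 0 := by
    intro h0
    rw [h0, norm_zero] at hiε
    exact absurd hiε (not_le.2 hε)
  have hi0 : hc' i ≠ 0 := hrel'.ne i hiD
  obtain ⟨hzV, hzB⟩ := hBz i hiD t ht Q
  have hinvV := Q.inv_mem hiV hψ0
  have hfin : WpD δc e cd hc' ^ cd.D.card / hc' j₀ ^ (e - cd.N) =
      z i * (hc' i)⁻¹ ^ (e - cd.N) := by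
    have h6 := hz i hiD
    rw [inv_pow, ← div_eq_mul_inv, div_eq_div_iff (pow_ne_zero _ (hrel'.ne j₀ hj₀D))
      (pow_ne_zero _ hi0)]
    exact h6
  rw [hfin]
  have hmem2 : z i * (hc' i)⁻¹ ^ (e - cd.N) ∈ Q.V := Q.V.mul_mem _ _ hzV (Q.V.toSubring.pow_mem hinvV _)
  refine ⟨hmem2, ?_⟩
  have h6 : (⟨z i * (hc' i)⁻¹ ^ (e - cd.N), hmem2⟩ : Q.V) =
      ⟨z i, hzV⟩ * ⟨(hc' i)⁻¹, hinvV⟩ ^ (e - cd.N) := Subtype.ext (by simp)
  rw [h6, map_mul, map_pow, Q.ψ_inv hiV hψ0, norm_mul, norm_pow, norm_inv, inv_pow,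
    ← div_eq_mul_inv]
  gcongr
  refine le_trans hzB (le_trans (le_abs_self _) ?_)
  exact Finset.single_le_sum (f := fun i => |Bz i|) (fun _ _ => abs_nonneg _) hiD

end Pool.Agent.Lib.MP_627a61_nt.Hy
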