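import Pool.Agent.Lib.MP_627a61_nt.Hy.MStm

/-!
# Project DIM/HYP, version D: large values of the linear forms
-/

set_option autoImplicit false

open Filter Metric Topology

namespace Pool.Agent.Lib.MP_627a61_nt.Hy

private theorem cont_dot {ι : Type} [Fintype ι] (a : ι → ℂ) : Continuous fun v : ι → ℂ => dot a v := by
  unfold dot
  fun_prop

private theorem closed_cone {k ι : Type} [Field k] [Fintype ι] (S : Set (MvPolynomial ι k))
    (σ : k →+* ℂ) : IsClosed {v : ι → ℂ | InCone σ S v} := by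
  have : {v : ι → ℂ | InCone σ S v} = ⋂ P ∈ S, {v : ι → ℂ | P.eval₂ σ v = 0} := by
    ext v
    simp [InCone]
  rw [this]
  refine isClosed_biInter fun P _ => isClosed_eq ?_ continuous_const
  have h : (fun v : ι → ℂ => P.eval₂ σ v) = fun v => MvPolynomial.eval v (MvPolynomial.map σ P) := by
    funext v
    rw [MvPolynomial.eval_map]
  rw [h]
  exact MvPolynomial.continuous_eval _

/-- **LARGE** -/
theorem large : S_LARGE := by
  intro k ι _ _ S σ m M l lam hc B
  have key : ∀ I : Finset (Fin M), ∃ ε > (0 : ℝ), m < I.card → ∀ v : ι → ℂ, InCone σ S v →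
      (∀ α, ‖v α‖ ≤ B) → (∃ c, dot (l c) v = 1) → ∃ i ∈ I, ε ≤ ‖dot (lam i) v‖ := by
    intro I
    by_cases hI : m < I.card
    swap
    · exact ⟨1, one_pos, fun h => absurd h hI⟩
    set K : Set (ι → ℂ) := {v | InCone σ S v} ∩ ({v | ∀ α, ‖v α‖ ≤ B} ∩ ⋃ c, {v | dot (l c) v = 1})
      with hK
    have hcl : IsClosed K := by
      refine (closed_cone S σ).inter (IsClosed.inter ?_ ?_)
      · have : {v : ι → ℂ | ∀ α, ‖v α‖ ≤ B} = ⋂ α, {v : ι → ℂ | ‖v α‖ ≤ B} := by
          ext v
          simp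
        rw [this]
        exact isClosed_iInter fun α => isClosed_le (by fun_prop) continuous_const
      · exact isClosed_iUnion_of_finite fun c => isClosed_eq (cont_dot _) continuous_const
    have hbd : Bornology.IsBounded K := by
      refine (isBounded_closedBall (x := (0 : ι → ℂ)) (r := max B 0)).subset ?_
      intro v hv
      rw [mem_closedBall_zero_iff, pi_norm_le_iff_of_nonneg (le_max_right _ _)]
      intro α
      exact le_trans (hv.2.1 α) (le_max_left _ _)
    have hcp : IsCompact K := Metric.isCompact_of_isClosed_isBounded hcl hbd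
    have hcont : Continuous fun v : ι → ℂ => ∑ i ∈ I, ‖dot (lam i) v‖ :=
      continuous_finsetSum _ fun i _ => (cont_dot _).norm
    have hne : ∀ v ∈ K, ∃ i ∈ I, dot (lam i) v ≠ 0 := by
      intro v hv
      by_contra hcon
      push Not at hcon
      have h0 := hc v hv.1 I hI hcon
      obtain ⟨c, hcv⟩ := Set.mem_iUnion.1 hv.2.2
      rw [h0] at hcv
      simp [dot] at hcv
    rcases K.eq_empty_or_nonempty with hKe | hKn
    · refine ⟨1, one_pos, fun _ v h1 h2 h3 => ?_⟩
      exfalso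
      have : v ∈ K := ⟨h1, h2, Set.mem_iUnion.2 h3⟩
      rw [hKe] at this
      exact this
    · obtain ⟨v₀, hv₀, hmin⟩ := hcp.exists_isMinOn hKn hcont.continuousOn
      have hIpos : (0 : ℝ) < I.card := by
        have : 0 < I.card := by omega
        exact_mod_cast this
      have hpos : 0 < ∑ i ∈ I, ‖dot (lam i) v₀‖ := by
        obtain ⟨i, hi, hi0⟩ := hne v₀ hv₀
        exact Finset.sum_pos' (fun _ _ => norm_nonneg _) ⟨i, hi, norm_pos_iff.2 hi0⟩
      refine ⟨(∑ i ∈ I, ‖dot (lam i) v₀‖) / I.card, by positivity, fun _ v h1 h2 h3 => ?_⟩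
      have hvK : v ∈ K := ⟨h1, h2, Set.mem_iUnion.2 h3⟩
      have hle : ∑ i ∈ I, ‖dot (lam i) v₀‖ ≤ ∑ i ∈ I, ‖dot (lam i) v‖ := hmin hvK
      by_contra hcon
      push Not at hcon
      have hInon : I.Nonempty := by
        rw [← Finset.card_pos]
        omega
      have hlt : ∑ i ∈ I, ‖dot (lam i) v‖ <
          ∑ i ∈ I, (∑ i ∈ I, ‖dot (lam i) v₀‖) / I.card :=
        Finset.sum_lt_sum_of_nonempty hInon hcon
      rw [Finset.sum_const, nsmul_eq_mul, mul_div_cancel₀ _ hIpos.ne'] at hlt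
      linarith
  choose ε hε hI using key
  have hne : (Finset.univ : Finset (Finset (Fin M))).Nonempty := ⟨∅, Finset.mem_univ _⟩
  refine ⟨Finset.univ.inf' hne ε, ?_, ?_⟩
  · rw [gt_iff_lt, Finset.lt_inf'_iff]
    exact fun I _ => hε I
  · intro v h1 h2 h3 I hIc
    obtain ⟨i, hi, hle⟩ := hI I hIc v h1 h2 h3
    exact ⟨i, hi, le_trans (Finset.inf'_le _ (Finset.mem_univ I)) hle⟩

end Pool.Agent.Lib.MP_627a61_nt.Hy
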