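import Pool.Agent.Lib.MP_627a61_nt.BrodyCor

/-!
# Project DIM/HYP, version D: the field of meromorphic functions as a differential field with places

`MeroSys K` collects everything that is used about the field `K` of meromorphic functions on `ℂ`:
the derivation `d/dz`, the valuation rings `O t` of the functions that are holomorphic at `t`, the
values `ev t`, and a few facts from complex analysis.
-/

open scoped LinearAlgebra.Projectivization Topology
open Filter Metric

namespace Pool.Agent.Lib.MP_627a61_nt.Hy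

/-- An abstract version of the field of meromorphic functions on `ℂ`. -/
structure MeroSys (K : Type) [Field K] [Algebra ℂ K] where
  /-- `d/dz` -/
  D : Derivation ℂ K K
  /-- the functions which are holomorphic at `t` -/
  O : ℂ → ValuationSubring K
  /-- the value at `t` -/
  ev : (t : ℂ) → O t →+* ℂ
  alg_mem : ∀ t c, algebraMap ℂ K c ∈ O t
  ev_alg : ∀ t c, ev t ⟨algebraMap ℂ K c, alg_mem t c⟩ = c
  /-- a nonzero function is holomorphic and nonzero off a countable set -/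
  gen : ∀ x : K, x ≠ 0 → {t | x ∉ O t ∨ x⁻¹ ∉ O t}.Countable
  /-- Liouville's theorem -/
  liouville : ∀ (x : K) (C : ℝ), (∀ t, ∃ h : x ∈ O t, ‖ev t ⟨x, h⟩‖ ≤ C) →
    ∃ c, x = algebraMap ℂ K c
  /-- Cauchy's estimate -/
  cauchy : ∀ (ρ C : ℝ), 0 < ρ → ∀ j : ℕ, ∃ C' : ℝ, ∀ (t : ℂ) (x : K),
    (∀ t' ∈ ball t ρ, ∃ h : x ∈ O t', ‖ev t' ⟨x, h⟩‖ ≤ C) →
    ∃ h : D^[j] x ∈ O t, ‖ev t ⟨D^[j] x, h⟩‖ ≤ C'
  const : ∀ x, D x = 0 → ∃ c, x = algebraMap ℂ K c

variable {K : Type} [Field K] [Algebra ℂ K]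

/-- The point of projective space over `K` with homogeneous coordinates `f` specialises to `φ z` at
every `z`. -/
def Rep (M : MeroSys K) {N : ℕ} (f : Fin N → K) (φ : ℂ → ℙ ℂ (Fin N → ℂ)) : Prop :=
  ∀ z, ∃ (g : K) (h : ∀ i, g * f i ∈ M.O z) (h0 : (fun i => M.ev z ⟨g * f i, h i⟩) ≠ 0),
    φ z = Projectivization.mk ℂ (fun i => M.ev z ⟨g * f i, h i⟩) h0

/-- `x ∈ K` is holomorphic and uniformly bounded at the points of `S` -/
def BdK (M : MeroSys K) (S : Set ℂ) (x : K) : Prop :=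
  ∃ C : ℝ, ∀ t ∈ S, ∃ h : x ∈ M.O t, ‖M.ev t ⟨x, h⟩‖ ≤ C

/-- A place of `L` with values in `ℂ` over the point `t`: a valuation ring `V` of `L` with a ring
homomorphism to `ℂ` which extends the value at `t`. -/
structure Pl (M : MeroSys K) (L : Type) [Field L] [Algebra K L] (t : ℂ) where
  V : ValuationSubring L
  ψ : V →+* ℂ
  le : ∀ x ∈ M.O t, algebraMap K L x ∈ V
  ext : ∀ (x : K) (h : x ∈ M.O t), ψ ⟨algebraMap K L x, le x h⟩ = M.ev t ⟨x, h⟩

/-- `x ∈ L` is finite and uniformly bounded at all places of `L` over points of `S` -/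
def Bd (M : MeroSys K) (L : Type) [Field L] [Algebra K L] (S : Set ℂ) (x : L) : Prop :=
  ∃ C : ℝ, ∀ t ∈ S, ∀ P : Pl M L t, ∃ h : x ∈ P.V, ‖P.ψ ⟨x, h⟩‖ ≤ C

/-- the `ρ`-neighbourhood of `S` -/
def nb (ρ : ℝ) (S : Set ℂ) : Set ℂ := {t' | ∃ t ∈ S, t' ∈ ball t ρ}

/-- Uniform charts: every point lies in one of the sets `S c` with `u c ≠ 0`, and the quotients
`u j / u c` are bounded on the `ρ`-neighbourhood of `S c`. -/
def Charts (M : MeroSys K) {s : ℕ} (u : Fin s → K) (ρ : ℝ) (S : Fin s → Set ℂ) : Prop :=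
  0 < ρ ∧ (∀ t, ∃ c, u c ≠ 0 ∧ t ∈ S c) ∧ ∀ c j, u c ≠ 0 → BdK M (nb ρ (S c)) (u j / u c)

/-! ### Statements: the analytic input -/

/-- **MERO.** The field of meromorphic functions exists. Realise it as follows. Let `U` be an
ultrafilter on `ℂ` with `U ≤ 𝓝[≠] 0` (`Ultrafilter.of`); `Filter.Germ U ℂ` is a field; `K` is the
subfield of all germs of functions `g : ℂ → ℂ` with `MeromorphicOn g univ`. Two meromorphic
functions with the same germ at `U` agree in a punctured neighbourhood of every point (identity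
theorem: the set of `z` such that `g - h` vanishes eventually in `𝓝[≠] z` is open and closed).
`D` is induced by `deriv`; `O t` consists of the germs of meromorphic `g` with a representative
analytic at `t`, i.e. with `0 ≤ meromorphicOrderAt g t`, and `ev t` is the value at `t` of this
representative (the limit of `g` in `𝓝[≠] t`). `gen`: zeros and poles are isolated. `liouville`,
`cauchy`: the function `z ↦ ev z x` is analytic where `x` is in `O z`, and it represents `x`.
The two further clauses: a holomorphic curve `φ` has the coordinates `f i = (φ z).rep i / (φ z).rep i₀`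
where `(φ z₀).rep i₀ ≠ 0` for some `z₀` (locally `φ z = [F z]`, and this is `F i / F i₀`); a nonzero
vector `f` of meromorphic functions is locally `(w - z)^a • F w` with `F` analytic, `F z ≠ 0`. -/
def S_MERO : Prop :=
  ∃ (K : Type) (_ : Field K) (_ : Algebra ℂ K) (M : MeroSys K),
    (∀ (N : ℕ) (φ : ℂ → ℙ ℂ (Fin N → ℂ)), (∀ z, HolomorphicAt φ z) → ∃ f, Rep M f φ) ∧
    (∀ (N : ℕ) (f : Fin N → K), f ≠ 0 → ∃ φ, (∀ z, HolomorphicAt φ z) ∧ Rep M f φ)

/-- **CHART.** Curves of bounded speed have uniform charts. Proof: by `lipschitz_of_spd` the entries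
of `pm (φ z)` are Lipschitz with constant 2, so `‖pm (φ t') i i‖ ≥ c/2` on `ball t (c/4)`. If `φ t'`
has the coordinates `x` then `‖pm (φ t') i i‖ = |x i|^2 / ∑ |x j|^2`, so `x i ≠ 0` and
`|x j / x i|^2 ≤ 2/c`; and for `g` as in `Rep` the element `g * f i` is a unit of `O t'`
(a valuation ring whose homomorphism to `ℂ` is onto), so `f j / f i` is in `O t'`, with value
`x j / x i`. -/
def S_CHART : Prop :=
  ∀ (K : Type) [Field K] [Algebra ℂ K] (M : MeroSys K) (N : ℕ) (φ : ℂ → ℙ ℂ (Fin N → ℂ))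
    (f : Fin N → K), (∀ z, HolomorphicAt φ z) → Rep M f φ → (∀ z, spd φ z ≤ 2) →
    ∀ c > (0 : ℝ), ∃ ρ > (0 : ℝ), ∃ C : ℝ, ∀ t i, c ≤ ‖pm (φ t) i i‖ → f i ≠ 0 ∧
      ∀ j, ∀ t' ∈ ball t ρ, ∃ h : f j / f i ∈ M.O t', ‖M.ev t' ⟨f j / f i, h⟩‖ ≤ C

end Pool.Agent.Lib.MP_627a61_nt.Hy
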