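import Pool.Agent.Lib.MP_627a61_nt.Hy.Cl

/-!
# HYP: counting parameters
-/

set_option autoImplicit false

open MvPolynomial Filter

namespace Pool.Agent.Lib.MP_627a61_nt.Hy

universe u v w

section
variable {k : Type u} {Ω : Type v} [Field k] [Field Ω] [Algebra k Ω]

lemma rows {P : Type} [Fintype P] [DecidableEq P] {par : P → Ω}
    (hpar : AlgebraicIndependent k par) {U : Set Ω} (hU : U.Finite) {m : ℕ} (hUm : U.ncard ≤ m)
    (K : Finset P) (hK : ∀ p ∈ K, par p ∈ cl k (U ∪ par '' {q | q ∉ K})) : K.card ≤ m := by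
  have hfin : (par '' {q | q ∉ K}).Finite := (Set.toFinite _).image _
  have hG : (U ∪ par '' {q | q ∉ K}).Finite := hU.union hfin
  have hsub : Set.range par ⊆ cl k (U ∪ par '' {q | q ∉ K}) := by
    rintro _ ⟨p, rfl⟩
    by_cases hp : p ∈ K
    · exact hK p hp
    · exact subset_cl _ (Or.inr ⟨p, hp, rfl⟩)
  have h1 := card_le_of_subset_cl hpar hG hsub
  have h2 : (U ∪ par '' {q | q ∉ K}).ncard ≤ U.ncard + (par '' {q | q ∉ K}).ncard :=
    Set.ncard_union_le _ _
  have h3 : (par '' {q | q ∉ K}).ncard ≤ ({q | q ∉ K} : Set P).ncard := Set.ncard_image_le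
  have h4 : ({q | q ∉ K} : Set P).ncard = Fintype.card P - K.card := by
    have : ({q | q ∉ K} : Set P) = ((Kᶜ : Finset P) : Set P) := by
      ext q
      simp
    rw [this, Set.ncard_coe_finset, Finset.card_compl]
  have h5 : K.card ≤ Fintype.card P := Finset.card_le_univ K
  omega

variable {ι : Type} [Fintype ι]

lemma sum_mem_cl {V : Set Ω} {α : Type*} (s : Finset α) (f : α → Ω) (h : ∀ a ∈ s, f a ∈ cl k V) :
    ∑ a ∈ s, f a ∈ cl k V := sum_mem h

lemma lin_cl {V : Set Ω} (ρ w : ι → Ω) (hw : ∀ β, w β ∈ cl k V) {α : ι} (hα : w α ≠ 0)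
    (h : dot ρ w = 0) : ρ α ∈ cl k (V ∪ ρ '' {β | β ≠ α}) := by
  classical
  have h1 : ρ α * w α = - ∑ β ∈ Finset.univ.erase α, ρ β * w β := by
    have := Finset.add_sum_erase Finset.univ (fun β => ρ β * w β) (Finset.mem_univ α)
    unfold dot at h
    rw [h] at this
    exact eq_neg_of_add_eq_zero_left this
  have h2 : ρ α = (- ∑ β ∈ Finset.univ.erase α, ρ β * w β) / w α := by
    rw [← h1, mul_div_cancel_right₀ _ hα]
  rw [h2]
  have hV : ∀ β, w β ∈ cl k (V ∪ ρ '' {β | β ≠ α}) := fun β =>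
    cl_mono Set.subset_union_left (hw β)
  refine div_mem (neg_mem (sum_mem fun β hβ => mul_mem ?_ (hV β))) (hV α)
  exact subset_cl _ (Or.inr ⟨β, Finset.ne_of_mem_erase hβ, rfl⟩)

lemma rowpow (hPOW : S_POW.{v}) [CharZero Ω] {V : Set Ω} (ρ : ι → Ω) {r e : ℕ}
    (z : Fin r → ι → Ω)
    (c : Fin r → Ω) (hz : ∀ a β, z a β ∈ cl k V) (hc : ∀ a, c a ∈ cl k V)
    (hc0 : ∃ a, c a ≠ 0) (hz0 : ∀ a, z a ≠ 0)
    (hnp : ∀ a b, a ≠ b → ¬ Prp (z a) (z b)) (he : r ≤ e)
    (h : ∑ a, c a * dot ρ (z a) ^ e = 0) : ∃ α, ρ α ∈ cl k (V ∪ ρ '' {β | β ≠ α}) := by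
  classical
  by_contra hcon
  push Not at hcon
  obtain ⟨a₀, ha₀⟩ := hc0
  obtain ⟨α, hα⟩ : ∃ α, z a₀ α ≠ 0 := by
    by_contra hn
    push Not at hn
    exact hz0 a₀ (funext hn)
  set V₁ : Set Ω := V ∪ ρ '' {β | β ≠ α} with hV₁
  have hzV : ∀ a β, z a β ∈ cl k V₁ := fun a β => cl_mono Set.subset_union_left (hz a β)
  have hcV : ∀ a, c a ∈ cl k V₁ := fun a => cl_mono Set.subset_union_left (hc a)
  have hρV : ∀ β, β ≠ α → ρ β ∈ cl k V₁ := fun β hβ => subset_cl _ (Or.inr ⟨β, hβ, rfl⟩)
  let w : Fin r → Ω := fun a => ∑ β ∈ Finset.univ.erase α, ρ β * z a β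
  have hw : ∀ a, w a ∈ cl k V₁ := fun a => sum_mem fun β hβ =>
    mul_mem (hρV β (Finset.ne_of_mem_erase hβ)) (hzV a β)
  have hdot : ∀ a, dot ρ (z a) = ρ α * z a α + w a := fun a =>
    (Finset.add_sum_erase Finset.univ (fun β => ρ β * z a β) (Finset.mem_univ α)).symm
  let A : Finset (Fin r) := Finset.univ.filter fun a => z a α ≠ 0
  let rr : Fin r → Ω := fun a => w a / z a α
  -- distinct roots
  have hinj : Set.InjOn rr A := by
    intro a ha b hb hab
    by_contra hne
    have ha' : z a α ≠ 0 := (Finset.mem_filter.1 ha).2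
    have hb' : z b α ≠ 0 := (Finset.mem_filter.1 hb).2
    have h1 : w a * z b α = w b * z a α := by
      have : w a / z a α = w b / z b α := hab
      rwa [div_eq_div_iff ha' hb'] at this
    let g : ι → Ω := fun β => if β = α then 0 else z a β * z b α - z b β * z a α
    have hg : ∀ β, g β ∈ cl k V := by
      intro β
      simp only [g]
      split_ifs
      · exact zero_mem _
      · exact sub_mem (mul_mem (hz _ _) (hz _ _)) (mul_mem (hz _ _) (hz _ _))
    have hgρ : dot ρ g = 0 := by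
      have h2 : dot ρ g = ρ α * g α + ∑ β ∈ Finset.univ.erase α, ρ β * g β :=
        (Finset.add_sum_erase Finset.univ (fun β => ρ β * g β) (Finset.mem_univ α)).symm
      have h3 : ∑ β ∈ Finset.univ.erase α, ρ β * g β =
          w a * z b α - w b * z a α := by
        simp only [w, Finset.sum_mul, ← Finset.sum_sub_distrib]
        refine Finset.sum_congr rfl fun β hβ => ?_
        simp only [g, if_neg (Finset.ne_of_mem_erase hβ)]
        ring
      rw [h2, h3, h1, sub_self, add_zero]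
      simp [g]
    obtain ⟨β, hβ⟩ : ∃ β, g β ≠ 0 := by
      by_contra hn
      push Not at hn
      apply hnp a b hne
      refine ⟨z a α / z b α, funext fun β => ?_⟩
      rw [Pi.smul_apply, smul_eq_mul]
      by_cases hβ : β = α
      · subst hβ
        rw [div_mul_cancel₀ _ hb']
      · have := hn β
        simp only [g, if_neg hβ] at this
        have h4 : z a β * z b α = z b β * z a α := sub_eq_zero.1 this
        field_simp
        linear_combination h4
    exact hcon β (lin_cl ρ g hg hβ hgρ)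
  -- the polynomial
  let p : Polynomial Ω := ∑ a ∈ A, Polynomial.C (c a * z a α ^ e) *
      (Polynomial.X + Polynomial.C (rr a)) ^ e +
      Polynomial.C (∑ a ∈ Finset.univ.filter (fun a => ¬ z a α ≠ 0), c a * w a ^ e)
  have hp : p.eval (ρ α) = 0 := by
    simp only [p, Polynomial.eval_add, Polynomial.eval_finsetSum, Polynomial.eval_mul,
      Polynomial.eval_C, Polynomial.eval_pow, Polynomial.eval_X]
    refine Eq.trans ?_ h
    rw [← Finset.sum_filter_add_sum_filter_not Finset.univ (fun a => z a α ≠ 0)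
      (fun a => c a * dot ρ (z a) ^ e)]
    congr 1
    · refine Finset.sum_congr rfl fun a ha => ?_
      have ha' : z a α ≠ 0 := (Finset.mem_filter.1 ha).2
      rw [hdot, mul_assoc, ← mul_pow]
      congr 2
      simp only [rr]
      field_simp
    · refine Finset.sum_congr rfl fun a ha => ?_
      have ha' : z a α = 0 := not_not.1 (Finset.mem_filter.1 ha).2
      rw [hdot, ha', mul_zero, zero_add]
  have hcoef : ∀ n, p.coeff n ∈ cl k V₁ := by
    intro n
    simp only [p, Polynomial.coeff_add, Polynomial.finsetSum_coeff, Polynomial.coeff_C_mul,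
      Polynomial.coeff_X_add_C_pow, Polynomial.coeff_C]
    refine add_mem (sum_mem fun a _ => mul_mem (mul_mem (hcV a) (pow_mem (hzV a α) _))
      (mul_mem (pow_mem (div_mem (hw a) (hzV a α)) _) (natCast_mem _ _))) ?_
    split_ifs
    · exact sum_mem fun a _ => mul_mem (hcV a) (pow_mem (hw a) _)
    · exact zero_mem _
  have hp0 : p = 0 := by
    by_contra hne
    exact hcon α (mem_cl_of_root p hne hcoef hp)
  have hcard : A.card ≤ e := by
    refine le_trans (Finset.card_le_univ A) ?_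
    rw [Fintype.card_fin]
    exact he
  have := hPOW A e hcard (fun a => c a * z a α ^ e) rr hinj _ hp0 a₀
    (Finset.mem_filter.2 ⟨Finset.mem_univ _, hα⟩)
  exact mul_ne_zero ha₀ (pow_ne_zero _ hα) this

end

end Pool.Agent.Lib.MP_627a61_nt.Hy
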